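import Pool.Agent.Q43.HN.Defs

/-!
# Conditions on the factors and on the relations between the Frobenius eigenvalues
-/

set_option autoImplicit false

namespace Pool.Agent.Q43.HN

open NumberField Pool.Agent.H204R3.CM Pool.Agent.W547.KB Pool.Agent.W547.LD Pool.Agent.W547.HR
  Pool.Agent.W495.TA Pool.Agent.W495.TC Pool.Agent.TH117.PO Pool.Agent.TH117.BL Module
open scoped TensorProduct

variable {p : ℕ} [Fact p.Prime] {ν : PadicAlgCl p ≃+* ℂ}

/-- The group generated by the relations with at most two terms. -/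
def twoGroup (Z : RedAV p ν) : AddSubgroup (Emb Z → ℤ) := AddSubgroup.closure
  {d : Emb Z → ℤ | ∃ n : Emb Z → ℕ, IsRel Z n ∧ ∑ w, n w ≤ 2 ∧ ∀ w, d w = n w}

/-- Any two relations with at most `2 r` terms are dependent modulo the relations with at most two
terms. -/
def IsDependent (Z : RedAV p ν) (r : ℕ) : Prop :=
  ∀ e e' : Emb Z → ℕ, IsRel Z e → IsRel Z e' → ∑ w, e w ≤ 2 * r → ∑ w, e' w ≤ 2 * r →
    ∃ a b : ℤ, (a ≠ 0 ∨ b ≠ 0) ∧ (fun w => a * e w + b * e' w) ∈ twoGroup Z

/-- The powers of the Frobenius endomorphism of the factor `i` generate its CM field: eigenvalues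
belonging to different embeddings do not differ by a root of unity. -/
def IsCommutative (Z : RedAV p ν) (i : Z.X.I) : Prop :=
  ∀ (φ φ' : (Z.X.factor i).E →+* ℂ) (s : ℕ), 0 < s → eig Z ⟨i, φ⟩ ^ s = eig Z ⟨i, φ'⟩ ^ s → φ = φ'

/-- The dimensions `g i` of the factors of `Z` are one or different prime numbers, and the CM field of
the factor of dimension two (if there is one) has no imaginary quadratic subfield. -/
structure PrimeDims (Z : RedAV p ν) (g : Z.X.I → ℕ) : Prop where
  dim : ∀ i, finrank ℚ (Z.X.factor i).E = 2 * g i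
  prime : ∀ i, g i = 1 ∨ (g i).Prime
  dist : ∀ i i', i ≠ i' → g i = g i' → g i = 1
  quartic : ∀ i, g i = 2 → ∀ (t : (Z.X.factor i).E) (d : ℕ), 0 < d →
    t ^ 2 ≠ -(d : (Z.X.factor i).E)

/-- The factor has `p`-rank zero: no eigenvalue of the Frobenius endomorphism is a unit for the
place above `p`. -/
def HasPRankZero (Z : RedAV p ν) (i : Z.X.I) : Prop :=
  ∀ φ : (Z.X.factor i).E →+* ℂ, ‖ν.symm (eig Z ⟨i, φ⟩)‖ ≠ 1

/-- The imaginary quadratic subfields of the two fields are isomorphic (if both fields have such a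
subfield). -/
def SameQuadratic (A B : CMPair) : Prop :=
  ∀ (d d' : ℕ) (t : A.E) (t' : B.E), 0 < d → 0 < d' → t ^ 2 = -(d : A.E) → t' ^ 2 = -(d' : B.E) →
    ∃ t'' : B.E, t'' ^ 2 = -(d : B.E)

/-- The factors of `Z` have dimension one or different prime dimensions. In dimension two the CM field
has no imaginary quadratic subfield. In odd prime dimensions the powers of the Frobenius endomorphism
generate the CM field, or the `p`-rank is zero (each simple abelian variety of odd prime dimension has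
one of these properties). For two factors of odd prime dimensions with sum at most `2 * r` the imaginary
quadratic subfields of the CM fields are isomorphic (if both CM fields have such a subfield). -/
def IsPrimeProduct (Z : RedAV p ν) (r : ℕ) : Prop :=
  ∃ g : Z.X.I → ℕ, PrimeDims Z g ∧
    (∀ i, g i ≠ 1 → g i ≠ 2 → IsCommutative Z i ∨ HasPRankZero Z i) ∧
    ∀ i i', i ≠ i' → g i ≠ 1 → g i' ≠ 1 → g i + g i' ≤ 2 * r →
      SameQuadratic (Z.X.factor i) (Z.X.factor i')

variable {Ω : Type} [Field Ω] [CharZero Ω]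

/-- The classes of cycles have values in the subfield `k₀` (for `ℓ`-adic cohomology, the field of
`ℓ`-adic numbers). -/
def AreRationalOver (k₀ : Subfield Ω)
    (C : (Y : RedAV p ν) → (κ : Type) → ((TM Ω Y) [⋀^κ]→ₗ[Ω] Ω) → Prop) : Prop :=
  ∀ (Y : RedAV p ν) (κ : Type) (z : (TM Ω Y) [⋀^κ]→ₗ[Ω] Ω), C Y κ z → ∀ v, res z v ∈ k₀

/-- No imaginary quadratic subfield of the CM field of a factor of `Z` which is not supersingular
and not of dimension one embeds in `k₀`. -/
def IsNonsplit (k₀ : Subfield Ω) (Z : RedAV p ν) : Prop :=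
  ∀ i : Z.X.I, ¬ IsSupersingular Z i → finrank ℚ (Z.X.factor i).E ≠ 2 →
    ∀ (t : (Z.X.factor i).E) (d : ℕ), 0 < d → t ^ 2 = -((d : ℕ) : (Z.X.factor i).E) →
      ∀ x ∈ k₀, x ^ 2 ≠ -(d : Ω)

end Pool.Agent.Q43.HN
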