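import Pool.Agent.TH117.PO.Final

/-!
# Contraction of lines
-/

set_option autoImplicit false
set_option linter.unusedSectionVars false
set_option linter.unusedVariables false

namespace Pool.Agent.Q43.HN

open NumberField Pool.Agent.H204R3.CM Pool.Agent.W547.KB Pool.Agent.W547.LD Pool.Agent.W547.HR
  Pool.Agent.W495.TA Pool.Agent.TH117.PO Module Pool.Agent.W976.TA
open scoped TensorProduct

noncomputable section

variable {L : Type} [Field L] [NumberField L] [IsCMField L] [IsGalois ℚ L]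
  {p : ℕ} [Fact p.Prime] {ν : PadicAlgCl p ≃+* ℂ} {Ω : Type} [Field Ω] [CharZero Ω]
  {jO : L →+* Ω} {C : (Y : RedAV p ν) → (κ : Type) → ((TM Ω Y) [⋀^κ]→ₗ[Ω] Ω) → Prop}
  {j : L →+* ℂ}

/-- The bijection of the indices. -/
def cEquiv (κ κ' R : Type) : ((κ ⊕ κ') ⊕ κ') ⊕ R ≃ κ ⊕ ((κ' ⊕ κ') ⊕ R) where
  toFun := fun x => match x with
    | Sum.inl (Sum.inl (Sum.inl k)) => Sum.inl k
    | Sum.inl (Sum.inl (Sum.inr k)) => Sum.inr (Sum.inl (Sum.inl k))
    | Sum.inl (Sum.inr k) => Sum.inr (Sum.inl (Sum.inr k))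
    | Sum.inr y => Sum.inr (Sum.inr y)
  invFun := fun x => match x with
    | Sum.inl k => Sum.inl (Sum.inl (Sum.inl k))
    | Sum.inr (Sum.inl (Sum.inl k)) => Sum.inl (Sum.inl (Sum.inr k))
    | Sum.inr (Sum.inl (Sum.inr k)) => Sum.inl (Sum.inr k)
    | Sum.inr (Sum.inr y) => Sum.inr y
  left_inv := by
    rintro (((k | k) | k) | y) <;> rfl
  right_inv := by
    rintro (k | ((k | k) | y)) <;> rfl

theorem inj_two {Y Y' : RedAV p ν} {κ κ' : Type} {A : κ → Wt Y.X L} {B : κ' → Wt Y'.X L}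
    (hA : Function.Injective A) (hB : Function.Injective B) :
    Function.Injective (Sum.elim (fun k => (inlW (A k) : Wt (prodR Y Y').X L))
      fun k => inrW (B k)) := by
  refine Function.Injective.sumElim ?_ ?_ ?_
  · intro k k' hk
    refine hA ?_
    have h5 := Sigma.mk.inj_iff.1 hk
    exact Sigma.ext (Sum.inl.inj h5.1) h5.2
  · intro k k' hk
    refine hB ?_
    have h5 := Sigma.mk.inj_iff.1 hk
    exact Sigma.ext (Sum.inr.inj h5.1) h5.2
  · intro k k' hk
    have h5 := Sigma.mk.inj_iff.1 hk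
    exact Sum.inl_ne_inr h5.1

variable (hC : IsCycleSystem Ω C)
include hC

/-- Contraction of lines. -/
theorem Ln_contract (j : L →+* ℂ) {Y Y' : RedAV p ν} (hY' : Big Y'.X j) {κ κ' : Type}
    [Fintype κ] [DecidableEq κ] [Fintype κ'] [DecidableEq κ'] {A : κ → Wt Y.X L}
    {B : κ' → Wt Y'.X L} (hA : Function.Injective A) (hB : Function.Injective B)
    {a a' b b' : Ω}
    (h1 : Ln jO C (prodR Y Y') (Sum.elim (fun k => inlW (A k)) fun k => inrW (B k)) a a')
    (h2 : Ln jO C Y' (fun k => bar (B k)) b b') :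
    ∃ δ : L, δ ≠ 0 ∧ Ln jO C Y A (a * b * jO δ) (a' * b' * jO (cc L δ)) := by
  classical
  have : Finite (Wt Y'.X L) := Pool.Agent.W67.TA.finite_wt j hY'
  let _ : Fintype (Wt Y'.X L) := Fintype.ofFinite _
  let P := prodR Y (prodR Y' Y')
  let R := {w : Wt Y'.X L // w ∉ Set.range B}
  let K1 : κ ⊕ κ' → Wt P.X L := Sum.elim (fun k => inlW (A k)) fun k => inrW (inlW (B k))
  have e1 : Ln jO C P K1 a a' := by
    refine Ln.types hC j (inj_two hA hB) (fun k => ?_) h1
    rcases k with k | k <;> rfl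
  let K2 : κ' → Wt P.X L := fun k => inrW (inrW (bar (B k)))
  have e2 : Ln jO C P K2 b b' :=
    Ln.types hC j (Y := P) (I := K2) (J := fun k => bar (B k)) (fun k k' hk => hB (bar_injective hk))
      (fun k => rfl) h2
  let K3 : R × Fin 2 → Wt P.X L := fun x => inrW (restK B x)
  have e3 : Ln jO C P K3 1 1 := by
    have h4 := Ln_pairsF (jO := jO) hC K3 (fun _ => 1) (fun _ => 1) fun i =>
      Ln_hodge hC j rfl
    rw [Finset.prod_const_one] at h4
    exact h4
  have e4 := Ln.cup hC (Ln.cup hC e1 e2) e3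
  rw [mul_one, mul_one] at e4
  have e5 : Ln jO C P (Sum.elim (fun k => inlW (A k)) fun x => inrW (fullK B x)) (a * b)
      (a' * b') := by
    refine Ln.reindex hC (cEquiv κ κ' (R × Fin 2)) ?_ e4
    rintro (((k | k) | k) | y) <;> rfl
  exact Ln.push hC j (big_prodR hY' hY') (full_bijective hB) e5

/-- Contraction of positive monomials. -/
theorem IsPos_contract {Y Y' : RedAV p ν} (hY' : Big Y'.X j) {κ κ' : Type}
    [Fintype κ] [DecidableEq κ] [Fintype κ'] [DecidableEq κ'] {A : κ → Wt Y.X L}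
    {B : κ' → Wt Y'.X L} (hA : Function.Injective A) (hB : Function.Injective B)
    (h1 : IsPos jO C j (prodR Y Y') (Sum.elim (fun k => inlW (A k)) fun k => inrW (B k)))
    (h2 : IsPos jO C j Y' (fun k => bar (B k))) : IsPos jO C j Y A := by
  classical
  have : Finite (Wt Y'.X L) := Pool.Agent.W67.TA.finite_wt j hY'
  let _ : Fintype (Wt Y'.X L) := Fintype.ofFinite _
  let P := prodR Y (prodR Y' Y')
  let R := {w : Wt Y'.X L // w ∉ Set.range B}
  let K1 : κ ⊕ κ' → Wt P.X L := Sum.elim (fun k => inlW (A k)) fun k => inrW (inlW (B k))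
  have e1 : IsPos jO C j P K1 := by
    refine IsPos.types hC (inj_two hA hB) (fun k => ?_) h1
    rcases k with k | k <;> rfl
  let K2 : κ' → Wt P.X L := fun k => inrW (inrW (bar (B k)))
  have e2 : IsPos jO C j P K2 :=
    IsPos.types hC (Y := P) (I := K2) (J := fun k => bar (B k)) (fun k k' hk => hB (bar_injective hk))
      (fun k => rfl) h2
  let K3 : R × Fin 2 → Wt P.X L := fun x => inrW (restK B x)
  have e3 : IsPos jO C j P K3 := IsPos.pairs hC K3 fun i => IsPos.hodge hC rfl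
  have e4 := IsPos.cup hC (IsPos.cup hC e1 e2) e3
  have e5 : IsPos jO C j P (Sum.elim (fun k => inlW (A k)) fun x => inrW (fullK B x)) := by
    refine IsPos.reindex hC (cEquiv κ κ' (R × Fin 2)) ?_ e4
    rintro (((k | k) | k) | y) <;> rfl
  exact IsPos.push hC (big_prodR hY' hY') (full_bijective hB) e5

/-- From lines to classes. -/
theorem exists_class (j : L →+* ℂ) {Y : RedAV p ν} (hB : Big Y.X j)
    (e : Basis (Wt Y.X L) Ω (TM Ω Y)) (h1 : ∀ w, co jO w (e w) = 1)
    (h0 : ∀ w w', w ≠ w' → co jO w (e w') = 0) {κ : Type} [Fintype κ] [DecidableEq κ]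
    {I : κ → Wt Y.X L} (hI : Function.Injective I) {c c' : Ω} (h : Ln jO C Y I c c')
    (hc : c ≠ 0) : ∃ y : (TM Ω Y) [⋀^κ]→ₗ[Ω] Ω, C Y κ y ∧ (y fun k => e (I k)) ≠ 0 := by
  classical
  have key : ∀ F : W jO Y κ, F ∈ V C jO Y κ →
      ∃ f ∈ Submodule.span Ω {y | C Y κ y}, ∀ v, res f v = F.fst v := by
    intro F hF
    unfold V at hF
    induction hF using Submodule.span_induction with
    | mem F hF =>
      obtain ⟨z, hz, rfl⟩ := hF
      exact ⟨z, Submodule.subset_span hz, fun v => rfl⟩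
    | zero => exact ⟨0, Submodule.zero_mem _, fun v => rfl⟩
    | add F G _ _ hF hG =>
      obtain ⟨f, hf, hf2⟩ := hF
      obtain ⟨g, hg, hg2⟩ := hG
      refine ⟨f + g, Submodule.add_mem _ hf hg, fun v => ?_⟩
      rw [W.add_fst, Pi.add_apply, ← hf2, ← hg2]
      rfl
    | smul l F _ hF =>
      obtain ⟨f, hf, hf2⟩ := hF
      refine ⟨jO l • f, Submodule.smul_mem _ _ hf, fun v => ?_⟩
      rw [W.smul_fst]
      change jO l * res f v = jO l * F.fst v
      rw [hf2]
  obtain ⟨f, hf, hf2⟩ := key _ h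
  have h4 : f = c • monoO jO I := ext_res fun v => by
    rw [hf2]
    change c * jO (mono I v) = c * monoO jO I (fun k => (1 : Ω) ⊗ₜ[ℚ] v k)
    rw [Pool.Agent.W417.TA.monoO_tmul]
  have h5 : (f fun k => e (I k)) ≠ 0 := by
    rw [h4, AlternatingMap.smul_apply, smul_eq_mul]
    refine mul_ne_zero hc ?_
    rw [monoO_det]
    have h6 : (Matrix.of fun k l => co jO (I l) (e (I k))) = 1 := by
      ext a b
      rw [Matrix.of_apply]
      by_cases hab : a = b
      · subst hab
        rw [h1, Matrix.one_apply_eq]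
      · rw [Matrix.one_apply_ne hab]
        exact h0 _ _ fun h => hab (hI h).symm
    rw [h6, Matrix.det_one]
    exact one_ne_zero
  obtain ⟨y, hy, hy2⟩ := exists_of_span hf h5
  exact ⟨y, hy, hy2⟩

end

end Pool.Agent.Q43.HN
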