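import Pool.Agent.Q43.HN.Norm

/-!
# Abelian varieties with at most one relation between the Frobenius eigenvalues
-/

set_option autoImplicit false
set_option linter.unusedSectionVars false
set_option linter.unusedVariables false

namespace Pool.Agent.Q43.HN

open NumberField Pool.Agent.H204R3.CM Pool.Agent.W547.KB Pool.Agent.W547.LD Pool.Agent.W547.HR
  Pool.Agent.W495.TA Pool.Agent.W495.TB Pool.Agent.W495.TC Pool.Agent.TH117.F5
  Pool.Agent.TH117.PO Pool.Agent.TH117.BL Module Pool.Agent.W976.TA Equiv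
open scoped TensorProduct

noncomputable section

variable {p : ℕ} [Fact p.Prime] {ν : PadicAlgCl p ≃+* ℂ}
  {L : Type} [Field L] [NumberField L] [IsCMField L] [IsGalois ℚ L] {j : L →+* ℂ}
  {Z : RedAV p ν}

theorem DD_smul_const {Λ G : Type} [Fintype Λ] (T : Λ → G → ℤ) (a : ℤ) (x : Λ → ℤ) (f : G → ℤ) :
    DD T (fun l => a * x l) f = a * DD T x f := by
  classical
  rw [DD_eq, DD_eq, Finset.mul_sum]
  exact Finset.sum_congr rfl fun l _ => by ring

/-- The Galois group acts on the relations by signs. -/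
theorem signs_of_dependent (hZ : Big Z.X j) [Fintype (Wt Z.X L)] {r : ℕ} (hdep : IsDependent Z r)
    {e : Emb Z → ℕ} (he : IsRel Z e) (hle : ∑ w, e w ≤ 2 * r) (σ : L ≃ₐ[ℚ] L) :
    (∀ f, DD (tw p ν j Z.X) (fun l => (e (toEmb j Z l) : ℤ)) (Rt σ f) =
      DD (tw p ν j Z.X) (fun l => (e (toEmb j Z l) : ℤ)) f) ∨
    ∀ f, DD (tw p ν j Z.X) (fun l => (e (toEmb j Z l) : ℤ)) (Rt σ f) =
      -DD (tw p ν j Z.X) (fun l => (e (toEmb j Z l) : ℤ)) f := by
  classical
  have hbij := toEmb_bijective (j := j) hZ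
  let E : Wt Z.X L ≃ Emb Z := Equiv.ofBijective _ hbij
  let x : Wt Z.X L → ℤ := fun l => (e (toEmb j Z l) : ℤ)
  set D := DD (tw p ν j Z.X) x with hD
  have hx := (isRel_iff hZ e).1 he
  let e' : Emb Z → ℕ := fun u => e (toEmb j Z (σ • E.symm u))
  have he'1 : ∀ l : Wt Z.X L, e' (toEmb j Z l) = e (toEmb j Z (σ • l)) := by
    intro l
    have h1 : E.symm (toEmb j Z l) = l := E.symm_apply_apply l
    change e (toEmb j Z (σ • E.symm (toEmb j Z l))) = _
    rw [h1]
  have he' : IsRel Z e' := by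
    rw [isRel_iff hZ]
    intro τ
    have h1 := rel_smul hx σ⁻¹ τ
    rw [inv_inv] at h1
    rw [← h1]
    exact Finset.sum_congr rfl fun l _ => by rw [he'1]
  have hD' : ∀ f, DD (tw p ν j Z.X) (fun l => (e' (toEmb j Z l) : ℤ)) f = D (Rt σ f) := by
    intro f
    have h1 := DD_smul (p := p) (ν := ν) (j := j) x σ⁻¹ (Rt σ f)
    rw [Rt_self_inv, inv_inv] at h1
    have h2 : (fun l : Wt Z.X L => ((e' (toEmb j Z l) : ℕ) : ℤ)) = fun l => x (σ • l) :=
      funext fun l => by rw [he'1]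
    rw [h2]
    exact h1
  have hle' : ∑ w, e' w ≤ 2 * r := by
    refine le_trans (le_of_eq ?_) hle
    rw [← Equiv.sum_comp E e', ← Equiv.sum_comp E e,
      ← Equiv.sum_comp (MulAction.toPerm σ : Perm (Wt Z.X L)) fun l => e (E l)]
    exact Finset.sum_congr rfl fun l _ => he'1 l
  obtain ⟨a, b, hab, hmem⟩ := hdep e e' he he' hle hle'
  have hlin : ∀ f, a * D f + b * D (Rt σ f) = 0 := by
    intro f
    have h1 := congrFun (DD_two hZ hmem) f
    have h2 : (fun l : Wt Z.X L => (fun w => a * (e w : ℤ) + b * (e' w : ℤ)) (toEmb j Z l)) =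
        (fun l => a * x l) + fun l => b * (e' (toEmb j Z l) : ℤ) := rfl
    rw [h2, DD_add, Pi.add_apply, DD_smul_const, DD_smul_const, hD'] at h1
    exact h1
  by_cases hD0 : ∀ f, D f = 0
  · exact Or.inl fun f => by rw [hD0, hD0]
  push Not at hD0
  obtain ⟨f₀, hf₀⟩ := hD0
  obtain ⟨l₀, hl₀⟩ := exists_of_DD hf₀
  have : Nonempty (Wt Z.X L) := ⟨l₀⟩
  obtain ⟨l₁, hl₁⟩ := Finite.exists_max fun l : Wt Z.X L => |D (tw p ν j Z.X l)|
  set M := |D (tw p ν j Z.X l₁)| with hM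
  have hle : ∀ f, |D f| ≤ M := by
    intro f
    by_cases hf : D f = 0
    · rw [hf, abs_zero]
      exact abs_nonneg _
    · obtain ⟨l, hl⟩ := exists_of_DD hf
      rw [← hl]
      exact hl₁ l
  have hMpos : 0 < M := lt_of_lt_of_le (abs_pos.2 hf₀) (hle f₀)
  have habs : ∀ f, |a| * |D f| = |b| * |D (Rt σ f)| := by
    intro f
    rw [← abs_mul, ← abs_mul]
    have h1 : a * D f = -(b * D (Rt σ f)) := by linarith [hlin f]
    rw [h1, abs_neg]
  have h1 : |a| ≤ |b| := by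
    have h2 := habs (tw p ν j Z.X l₁)
    have h3 := mul_le_mul_of_nonneg_left (hle (Rt σ (tw p ν j Z.X l₁))) (abs_nonneg b)
    rw [← h2] at h3
    exact le_of_mul_le_mul_right h3 hMpos
  have h2 : |b| ≤ |a| := by
    have h2 := habs (Rt σ⁻¹ (tw p ν j Z.X l₁))
    rw [Rt_inv_self] at h2
    have h3 := mul_le_mul_of_nonneg_left (hle (Rt σ⁻¹ (tw p ν j Z.X l₁))) (abs_nonneg a)
    rw [h2] at h3
    exact le_of_mul_le_mul_right h3 hMpos
  have h3 : |a| = |b| := le_antisymm h1 h2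
  have hb0 : b ≠ 0 := by
    intro hb
    rw [hb, abs_zero, abs_eq_zero] at h3
    rcases hab with h | h
    · exact h h3
    · exact h hb
  rcases abs_eq_abs.1 h3 with h4 | h4
  · right
    intro f
    have h5 := hlin f
    rw [h4, ← mul_add] at h5
    have h6 := (mul_eq_zero.1 h5).resolve_left hb0
    linarith
  · left
    intro f
    have h5 := hlin f
    rw [h4] at h5
    have h6 : b * (D (Rt σ f) - D f) = 0 := by linarith
    have h7 := (mul_eq_zero.1 h6).resolve_left hb0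
    linarith

theorem eig_mul_conj (hZ : Big Z.X j) (l : Wt Z.X L) :
    eig Z (toEmb j Z l) * eig Z (toEmb j Z (cw Z l)) = (p : ℂ) ^ Z.a := by
  have h1 : eig Z (toEmb j Z (cw Z l)) = starRingEnd ℂ (eig Z (toEmb j Z l)) := by
    change j (cc L (l.2 (Z.π l.1))) = starRingEnd ℂ (j (l.2 (Z.π l.1)))
    exact emb_cc j _
  rw [h1, Complex.mul_conj, Complex.normSq_eq_norm_sq]
  have h2 := (Z.frob l.1).weil (j.comp l.2)
  have h3 : ‖eig Z (toEmb j Z l)‖ ^ 2 = (p : ℝ) ^ Z.a := h2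
  rw [h3]
  push_cast
  rfl

/-- Equal functions belong to eigenvalues which differ by a root of unity. -/
theorem pow_eq_of_tw (hZ : Big Z.X j) [Fintype (Wt Z.X L)] {l l' : Wt Z.X L}
    (h : tw p ν j Z.X l = tw p ν j Z.X l') :
    ∃ s, 0 < s ∧ eig Z (toEmb j Z l) ^ s = eig Z (toEmb j Z l') ^ s := by
  classical
  obtain ⟨s, hs, h1⟩ := rel_pair hZ (l := l) (l' := cw Z l') (by rw [tw_cw, h])
  have h2 : ∏ w, eig Z w ^ ((if w = toEmb j Z l then 1 else 0) +
      if w = toEmb j Z (cw Z l') then 1 else 0) =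
      eig Z (toEmb j Z l) * eig Z (toEmb j Z (cw Z l')) := by
    simp only [pow_add, Finset.prod_mul_distrib]
    congr 1
    · rw [Finset.prod_eq_single (toEmb j Z l)]
      · rw [if_pos rfl, pow_one]
      · intro b _ hb
        rw [if_neg hb, pow_zero]
      · intro h
        exact absurd (Finset.mem_univ _) h
    · rw [Finset.prod_eq_single (toEmb j Z (cw Z l'))]
      · rw [if_pos rfl, pow_one]
      · intro b _ hb
        rw [if_neg hb, pow_zero]
      · intro h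
        exact absurd (Finset.mem_univ _) h
  have h3 : ∑ w, ((if w = toEmb j Z l then 1 else 0) +
      if w = toEmb j Z (cw Z l') then 1 else 0) = 2 := by
    rw [Finset.sum_add_distrib, Finset.sum_ite_eq' Finset.univ, Finset.sum_ite_eq' Finset.univ,
      if_pos (Finset.mem_univ _), if_pos (Finset.mem_univ _)]
  have h4 := eig_mul_conj hZ l'
  have hp0 : (p : ℂ) ^ Z.a ≠ 0 := pow_ne_zero _ (Nat.cast_ne_zero.2 (Fact.out : p.Prime).ne_zero)
  have hc0 : eig Z (toEmb j Z (cw Z l')) ≠ 0 := by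
    intro h
    rw [h, mul_zero] at h4
    exact hp0 h4.symm
  refine ⟨2 * s, by omega, ?_⟩
  rw [h2, h3, mul_pow] at h1
  have h5 : (eig Z (toEmb j Z l') * eig Z (toEmb j Z (cw Z l'))) ^ (2 * s) =
      ((p : ℂ) ^ Z.a) ^ (s * 2) := by
    rw [h4, mul_comm 2 s]
  rw [mul_pow] at h5
  exact mul_right_cancel₀ (pow_ne_zero _ hc0) (h1.trans h5.symm)

theorem controlled_of (hZ : Big Z.X j) [Fintype (Wt Z.X L)] {e : Emb Z → ℕ}
    (hQ : ∀ σ, (∀ f, DD (tw p ν j Z.X) (fun l => (e (toEmb j Z l) : ℤ)) (Rt σ f) =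
      DD (tw p ν j Z.X) (fun l => (e (toEmb j Z l) : ℤ)) f) ∨
    ∀ f, DD (tw p ν j Z.X) (fun l => (e (toEmb j Z l) : ℤ)) (Rt σ f) =
      -DD (tw p ν j Z.X) (fun l => (e (toEmb j Z l) : ℤ)) f)
    (hM : ∀ f, DD (tw p ν j Z.X) (fun l => (e (toEmb j Z l) : ℤ)) f ≠ 0 →
      ∃ l : Wt Z.X L, tw p ν j Z.X l = f ∧
      (Nat.card {φ : (Z.X.factor l.1).E →+* L // tw p ν j Z.X ⟨l.1, φ⟩ = f} : ℤ) ∣
        DD (tw p ν j Z.X) (fun l => (e (toEmb j Z l) : ℤ)) f) :
    ∃ n : Emb Z → ℕ, IsNorm Z n ∧ (fun w => (e w : ℤ) - n w) ∈ elemGroup Z := by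
  obtain ⟨n, hn, hDn⟩ := exists_norm hZ (DD_odd _) (fun f => exists_of_DD) hQ hM
  refine ⟨n, hn, twoGroup_le Z (mem_two (j := j) hZ ?_)⟩
  have h2 : (fun l : Wt Z.X L => (fun w => (e w : ℤ) - n w) (toEmb j Z l)) =
      (fun l => (e (toEmb j Z l) : ℤ)) + -fun l => (n (toEmb j Z l) : ℤ) := by
    funext l
    rw [Pi.add_apply, Pi.neg_apply]
    ring
  rw [h2, DD_add, DD_neg, hDn, add_neg_cancel]

/-- At most one relation, commutative endomorphism algebras. -/
theorem controlled_of_dependent (Z : RedAV p ν)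
    (hcom : ∀ i, IsSupersingular Z i ∨ IsCommutative Z i) {r : ℕ} (hdep : IsDependent Z r) :
    IsControlled Z r := by
  classical
  intro e he hle
  right
  have hne : Nonempty (Z.X.prod (single (kp p))).I := ⟨Sum.inr ()⟩
  obtain ⟨L, _, _, _, _, j, hj⟩ := exists_cm (Z.X.prod (single (kp p)))
  have hZj : Big Z.X j := fun i ψ => hj (Sum.inl i) ψ
  have hfin := finite_wt j hZj
  let _ : Fintype (Wt Z.X L) := Fintype.ofFinite _
  refine controlled_of hZj (signs_of_dependent hZj hdep he hle) fun f hf => ?_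
  obtain ⟨l, hl⟩ := exists_of_DD hf
  refine ⟨l, hl, ?_⟩
  have hf0 : f ≠ 0 := by
    intro h
    have h1 := DD_odd (p := p) (ν := ν) (j := j) (fun l : Wt Z.X L => (e (toEmb j Z l) : ℤ)) f
    rw [h, neg_zero, ← h] at h1
    omega
  have h1 : Nat.card {φ : (Z.X.factor l.1).E →+* L // tw p ν j Z.X ⟨l.1, φ⟩ = f} = 1 := by
    rw [Nat.card_eq_one_iff_unique]
    constructor
    · constructor
      rintro ⟨φ, hφ⟩ ⟨φ', hφ'⟩
      rcases hcom l.1 with h2 | h2
      · exfalso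
        apply hf0
        rw [← hφ, ← tf_tw Z ⟨l.1, φ⟩]
        exact tf_zero Pool.Agent.W366.TA.val hZj l.1 h2 φ
      · obtain ⟨s, hs, h3⟩ := pow_eq_of_tw hZj (l := ⟨l.1, φ⟩) (l' := ⟨l.1, φ'⟩)
          (hφ.trans hφ'.symm)
        have h4 := h2 _ _ s hs h3
        have h5 : φ = φ' := by
          ext x
          exact j.injective (RingHom.congr_fun h4 x)
        exact Subtype.ext h5
    · exact ⟨⟨l.2, hl⟩⟩
  rw [h1]
  exact one_dvd _

end

end Pool.Agent.Q43.HN
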