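import Mathlib

/-!
# Elements of odd prime order, and relations between the conjugates of a function
-/

set_option autoImplicit false
set_option linter.unusedSectionVars false
set_option linter.unusedVariables false

namespace Pool.Agent.Q43.HN

open Polynomial

noncomputable section

/-- The map from pairs to points. -/
def cyc {G X : Type} [Group G] [MulAction G X] (c τ : G) (g : ℕ) (x : X) (y : Fin g × Bool) : X :=
  if y.2 then c • τ ^ (y.1 : ℕ) • x else τ ^ (y.1 : ℕ) • x

/-- A cycle of odd prime length. -/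
theorem exists_cycle_pow {G X : Type} [Group G] [Fintype G] [MulAction G X] [Finite X] (c : G)
    (hcomm : ∀ h, c * h = h * c) (hsq : c * c = 1) (hne : ∀ x : X, c • x ≠ x)
    (htrans : ∀ x y : X, ∃ h : G, h • x = y) {g : ℕ} (hg : g.Prime) (hg2 : g ≠ 2)
    (hcard : Nat.card X = 2 * g) :
    ∃ (τ : G) (x : X), (∃ b, orderOf τ = g ^ b) ∧ τ ^ g • x = x ∧
      (∀ m : ℤ, τ ^ m • x = x → (g : ℤ) ∣ m) ∧ Function.Bijective (cyc c τ g x) := by
  classical
  have hfact : Fact g.Prime := ⟨hg⟩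
  obtain ⟨x₀⟩ : Nonempty X := by
    by_contra h
    rw [not_nonempty_iff] at h
    rw [Nat.card_of_isEmpty] at hcard
    have := hg.pos
    omega
  have hgodd : Odd g := hg.odd_of_ne_two hg2
  -- the group of permutations
  let N : Subgroup (Equiv.Perm X) := (MulAction.toPermHom G X).range
  have hN : g ∣ Nat.card N := by
    have h1 : MulAction.orbit N x₀ = Set.univ := by
      refine Set.eq_univ_of_forall fun y => ?_
      obtain ⟨h, hh⟩ := htrans x₀ y
      exact ⟨⟨MulAction.toPermHom G X h, h, rfl⟩, hh⟩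
    have h2 := Nat.card_congr (MulAction.orbitProdStabilizerEquivGroup N x₀)
    rw [Nat.card_prod, h1, Nat.card_univ, hcard] at h2
    rw [← h2]
    exact ⟨2 * Nat.card (MulAction.stabilizer N x₀), by ring⟩
  obtain ⟨n₁, hn⟩ := exists_prime_orderOf_dvd_card' g hN
  obtain ⟨τ₀, hτ₀'⟩ := n₁.2
  obtain ⟨n, hnn⟩ : ∃ n : Equiv.Perm X, n = n₁.1 := ⟨_, rfl⟩
  have hτ₀ : MulAction.toPermHom G X τ₀ = n := hτ₀'.trans hnn.symm
  have hn' : orderOf n = g := by
    rw [← hn, hnn]
    exact Subgroup.orderOf_coe n₁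
  -- odd order
  obtain ⟨b, m, hm, hord⟩ := Nat.exists_eq_pow_mul_and_not_dvd (orderOf_pos τ₀).ne' g hg.ne_one
  have hm0 : m ≠ 0 := by
    rintro rfl
    exact hm (dvd_zero g)
  let τ : G := τ₀ ^ m
  have hτord : orderOf τ = g ^ b := by
    have h2 := orderOf_pow_of_dvd (x := τ₀) (n := m) hm0 ⟨g ^ b, by rw [hord, mul_comm]⟩
    rw [hord, Nat.mul_div_cancel _ (Nat.pos_of_ne_zero hm0)] at h2
    exact h2
  have hperm : ∀ y : X, τ • y = (n ^ m) y := by
    intro y
    have h1 : MulAction.toPermHom G X τ = n ^ m := by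
      rw [map_pow, hτ₀]
    rw [← h1]
    rfl
  have hn2 : orderOf (n ^ m) = g := by
    rw [orderOf_pow, hn', Nat.Coprime.gcd_eq_one, Nat.div_one]
    exact (Nat.Prime.coprime_iff_not_dvd hg).2 hm
  obtain ⟨x, hx⟩ : ∃ x : X, τ • x ≠ x := by
    by_contra hcon
    push Not at hcon
    have h1 : n ^ m = 1 := by
      ext y
      rw [← hperm, hcon]
      rfl
    rw [h1, orderOf_one] at hn2
    exact hg.one_lt.ne hn2
  have hgx : ∀ y : X, τ ^ g • y = y := by
    intro y
    have h1 : MulAction.toPermHom G X (τ ^ g) = 1 := by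
      rw [map_pow]
      have h2 : MulAction.toPermHom G X τ = n ^ m := by
        rw [map_pow, hτ₀]
      rw [h2]
      have h3 := pow_orderOf_eq_one (n ^ m)
      rw [hn2] at h3
      exact h3
    have h2 := congrArg (fun s : Equiv.Perm X => s y) h1
    exact h2
  have hdvd : ∀ m : ℤ, τ ^ m • x = x → (g : ℤ) ∣ m := by
    intro m hm
    by_contra hnd
    apply hx
    have hcop : IsCoprime (g : ℤ) m :=
      (Nat.prime_iff_prime_int.1 hg).coprime_iff_not_dvd.2 hnd
    obtain ⟨u, v, huv⟩ := hcop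
    have h1 : τ ^ (g : ℤ) ∈ MulAction.stabilizer G x := by
      rw [MulAction.mem_stabilizer_iff, zpow_natCast]
      exact hgx x
    have h2 : τ ^ m ∈ MulAction.stabilizer G x := hm
    have h3 : τ = (τ ^ (g : ℤ)) ^ u * (τ ^ m) ^ v := by
      rw [← zpow_mul, ← zpow_mul, ← zpow_add, mul_comm (g : ℤ) u, mul_comm m v, huv, zpow_one]
    have h4 : τ ∈ MulAction.stabilizer G x := by
      rw [h3]
      exact Subgroup.mul_mem _ (Subgroup.zpow_mem _ h1 u) (Subgroup.zpow_mem _ h2 v)
    exact h4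
  have hcc : ∀ y : X, c • c • y = y := by
    intro y
    rw [← mul_smul, hsq, one_smul]
  have hcτ : ∀ (k : ℤ) (y : X), c • τ ^ k • y = τ ^ k • c • y := by
    intro k y
    rw [← mul_smul, ← mul_smul, hcomm]
  have hmix : ∀ k k' : ℤ, c • τ ^ k • x ≠ τ ^ k' • x := by
    intro k k' h
    have h1 : c • x = τ ^ (k' - k) • x := by
      have h2 : τ ^ (-k) • c • τ ^ k • x = τ ^ (-k) • τ ^ k' • x := by rw [h]
      rw [hcτ, ← mul_smul, ← zpow_add, neg_add_cancel, zpow_zero, one_smul, ← mul_smul,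
        ← zpow_add] at h2
      rw [h2]
      congr 2
      ring
    have h2 : τ ^ (2 * (k' - k)) • x = x := by
      have h3 : τ ^ (2 * (k' - k)) • x = τ ^ (k' - k) • τ ^ (k' - k) • x := by
        rw [← mul_smul, ← zpow_add, two_mul]
      rw [h3, ← h1, ← hcτ, ← h1, hcc]
    have h3 := hdvd _ h2
    have h4 : (g : ℤ) ∣ k' - k := by
      have h5 : IsCoprime (g : ℤ) 2 := by
        rw [Int.isCoprime_iff_gcd_eq_one]
        exact (Nat.coprime_two_right.2 hgodd)
      exact h5.dvd_of_dvd_mul_left h3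
    obtain ⟨u, hu⟩ := h4
    apply hne x
    rw [h1, hu, zpow_mul, zpow_natCast]
    have h5 : τ ^ g ∈ MulAction.stabilizer G x := hgx x
    exact Subgroup.zpow_mem _ h5 u
  have hsame : ∀ k k' : Fin g, τ ^ (k : ℕ) • x = τ ^ (k' : ℕ) • x → k = k' := by
    intro k k' h
    have h1 : τ ^ ((k : ℤ) - (k' : ℤ)) • x = x := by
      have h2 : τ ^ (-(k' : ℤ)) • τ ^ (k : ℕ) • x = τ ^ (-(k' : ℤ)) • τ ^ (k' : ℕ) • x := by rw [h]
      rw [← zpow_natCast, ← zpow_natCast, ← mul_smul, ← mul_smul, ← zpow_add, ← zpow_add,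
        neg_add_cancel, zpow_zero, one_smul] at h2
      rw [← h2]
      congr 2
      rw [neg_add_eq_sub]
    have h2 := hdvd _ h1
    have h3 := k.2
    have h4 := k'.2
    have h5 : (k : ℤ) - (k' : ℤ) = 0 := Int.eq_zero_of_abs_lt_dvd h2 (by
      rw [abs_lt]
      constructor <;> omega)
    exact Fin.ext (by omega)
  have hinj : Function.Injective (cyc c τ g x) := by
    rintro ⟨k, b⟩ ⟨k', b'⟩ h
    unfold cyc at h
    rcases b with _ | _ <;> rcases b' with _ | _
    · rw [hsame k k' h]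
    · exfalso
      have h1 := hmix (k' : ℕ) (k : ℕ)
      rw [zpow_natCast, zpow_natCast] at h1
      exact h1 h.symm
    · exfalso
      have h1 := hmix (k : ℕ) (k' : ℕ)
      rw [zpow_natCast, zpow_natCast] at h1
      exact h1 h
    · have h1 : τ ^ (k : ℕ) • x = τ ^ (k' : ℕ) • x := MulAction.injective c h
      rw [hsame k k' h1]
  refine ⟨τ, x, ⟨b, hτord⟩, hgx x, hdvd, hinj.bijective_of_nat_card_le ?_⟩
  rw [hcard, Nat.card_eq_fintype_card, Fintype.card_prod, Fintype.card_fin, Fintype.card_bool]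
  omega

/-- A cycle of odd prime length. -/
theorem exists_cycle {G X : Type} [Group G] [Fintype G] [MulAction G X] [Finite X] (c : G)
    (hcomm : ∀ h, c * h = h * c) (hsq : c * c = 1) (hne : ∀ x : X, c • x ≠ x)
    (htrans : ∀ x y : X, ∃ h : G, h • x = y) {g : ℕ} (hg : g.Prime) (hg2 : g ≠ 2)
    (hcard : Nat.card X = 2 * g) :
    ∃ (τ : G) (x : X), Odd (orderOf τ) ∧ τ ^ g • x = x ∧ (∀ m : ℤ, τ ^ m • x = x → (g : ℤ) ∣ m) ∧
      Function.Bijective (cyc c τ g x) := by
  obtain ⟨τ, x, ⟨b, hb⟩, h1, h2, h3⟩ := exists_cycle_pow c hcomm hsq hne htrans hg hg2 hcard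
  refine ⟨τ, x, ?_, h1, h2, h3⟩
  rw [hb]
  exact (hg.odd_of_ne_two hg2).pow

/-- Elements of prime power order act trivially on small sets. -/
theorem smul_of_pow {G X : Type} [Group G] [Finite G] [MulAction G X] [Finite X] (c : G)
    (hcomm : ∀ h, c * h = h * c) (hsq : c * c = 1) (hne : ∀ x : X, c • x ≠ x) {g b : ℕ}
    (hg : g.Prime) (hg2 : g ≠ 2) {τ : G} (hτ : orderOf τ = g ^ b)
    (hcard : Nat.card X < 2 * g) (x : X) : τ • x = x := by
  classical
  let P := MulAction.orbit (Subgroup.zpowers τ) x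
  have hP : Nat.card P ∣ g ^ b := by
    have h2 := Nat.card_congr (MulAction.orbitProdStabilizerEquivGroup (Subgroup.zpowers τ) x)
    rw [Nat.card_prod, Nat.card_zpowers, hτ] at h2
    exact ⟨_, h2.symm⟩
  have hτodd : Odd (orderOf τ) := by
    rw [hτ]
    exact (hg.odd_of_ne_two hg2).pow
  have hPx : ∀ m : ℤ, τ ^ m • x ∈ P := fun m => ⟨⟨τ ^ m, ⟨m, rfl⟩⟩, rfl⟩
  have hPm : ∀ y ∈ P, ∃ m : ℤ, y = τ ^ m • x := by
    rintro y ⟨⟨h, ⟨m, rfl⟩⟩, rfl⟩
    exact ⟨m, rfl⟩
  have hcτ : ∀ (k : ℤ) (y : X), c • τ ^ k • y = τ ^ k • c • y := by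
    intro k y
    rw [← mul_smul, ← mul_smul, hcomm]
  have hmix : ∀ k k' : ℤ, c • τ ^ k • x ≠ τ ^ k' • x := by
    intro k k' h
    have h1 : c • x = τ ^ (k' - k) • x := by
      have h2 : τ ^ (-k) • c • τ ^ k • x = τ ^ (-k) • τ ^ k' • x := by rw [h]
      rw [hcτ, ← mul_smul, ← zpow_add, neg_add_cancel, zpow_zero, one_smul, ← mul_smul,
        ← zpow_add] at h2
      rw [h2]
      congr 2
      ring
    have h2 : τ ^ (2 * (k' - k)) • x = x := by
      have h3 : τ ^ (2 * (k' - k)) • x = τ ^ (k' - k) • τ ^ (k' - k) • x := by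
        rw [← mul_smul, ← zpow_add, two_mul]
      rw [h3, ← h1, ← hcτ, ← h1, ← mul_smul, hsq, one_smul]
    obtain ⟨q, hq⟩ := hτodd
    apply hne x
    rw [h1]
    have h3 : τ ^ (k' - k) = (τ ^ (2 * (k' - k))) ^ (-(q : ℤ)) := by
      have h4 : τ ^ ((2 * q + 1 : ℕ) : ℤ) = 1 := by
        rw [zpow_natCast, ← hq, pow_orderOf_eq_one]
      have h5 : τ ^ (((2 * q + 1 : ℕ) : ℤ) * (k' - k)) = 1 := by
        rw [zpow_mul, h4, one_zpow]
      have h6 : τ ^ (k' - k) = τ ^ (((2 * q + 1 : ℕ) : ℤ) * (k' - k)) *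
          τ ^ (2 * (k' - k) * (-(q : ℤ))) := by
        rw [← zpow_add]
        congr 1
        push_cast
        ring
      rw [h6, h5, one_mul, zpow_mul]
    rw [h3]
    exact Subgroup.zpow_mem (MulAction.stabilizer G x) h2 _
  obtain ⟨k, -, hk⟩ := (Nat.dvd_prime_pow hg).1 hP
  have hk0 : k = 0 := by
    by_contra hne0
    have h1 : g ≤ Nat.card P := by
      rw [hk]
      exact Nat.le_self_pow hne0 g
    let f : P × Bool → X := fun y => if y.2 then c • (y.1 : X) else y.1
    have hf : Function.Injective f := by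
      rintro ⟨⟨y, hy⟩, b⟩ ⟨⟨y', hy'⟩, b'⟩ h
      obtain ⟨m, rfl⟩ := hPm y hy
      obtain ⟨m', rfl⟩ := hPm y' hy'
      rcases b with _ | _ <;> rcases b' with _ | _
      · have h2 : τ ^ m • x = τ ^ m' • x := h
        exact Prod.ext (Subtype.ext h2) rfl
      · exact absurd (Eq.symm h) (hmix _ _)
      · exact absurd h (hmix _ _)
      · have h2 : c • τ ^ m • x = c • τ ^ m' • x := h
        exact Prod.ext (Subtype.ext (MulAction.injective c h2)) rfl
    have h2 := Nat.card_le_card_of_injective f hf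
    rw [Nat.card_prod, Nat.card_eq_fintype_card (α := Bool), Fintype.card_bool] at h2
    omega
  rw [hk0, pow_zero] at hk
  have h1 : Subsingleton P := (Nat.card_eq_one_iff_unique.1 hk).1
  have h2 : (⟨τ ^ (1 : ℤ) • x, hPx 1⟩ : P) = ⟨τ ^ (0 : ℤ) • x, hPx 0⟩ := Subsingleton.elim _ _
  have h3 := congrArg Subtype.val h2
  simp only [zpow_one, zpow_zero, one_smul] at h3
  exact h3

/-- Relations between the translates of a function. -/
theorem const_or {G : Type} [Group G] (f : G → ℤ) (τ : G) {g : ℕ} (hg : g.Prime)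
    (hf : ∀ h, f (h * τ ^ g) = f h) (a : ℕ → ℤ)
    (hF : ∀ h, ∑ k ∈ Finset.range g, a k * f (h * τ * τ ^ k) =
      ∑ k ∈ Finset.range g, a k * f (h * τ ^ k)) :
    (∀ h, f (h * τ) = f h) ∨ ∀ k < g, a k = a 0 := by
  classical
  have hfact : Fact g.Prime := ⟨hg⟩
  let ρ : Module.End ℚ (G → ℚ) :=
    { toFun := fun v h => v (h * τ)
      map_add' := fun _ _ => rfl
      map_smul' := fun _ _ => rfl }
  have hρ : ∀ (k : ℕ) (v : G → ℚ) (h : G), (ρ ^ k) v h = v (h * τ ^ k) := by
    intro k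
    induction k with
    | zero =>
      intro v h
      rw [pow_zero, pow_zero, mul_one]
      rfl
    | succ k ih =>
      intro v h
      rw [pow_succ', Module.End.mul_apply]
      change (ρ ^ k) v (h * τ) = _
      rw [ih, mul_assoc, ← pow_succ']
  let v : G → ℚ := fun h => (f h : ℚ)
  let A : ℚ[X] := ∑ k ∈ Finset.range g, C (a k : ℚ) * X ^ k
  have hA : ∀ h, (aeval ρ A v) h = ((∑ k ∈ Finset.range g, a k * f (h * τ ^ k) : ℤ) : ℚ) := by
    intro h
    have h1 : aeval ρ A = ∑ k ∈ Finset.range g, (a k : ℚ) • ρ ^ k := by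
      simp only [A, map_sum, map_mul, aeval_C, map_pow, aeval_X]
      refine Finset.sum_congr rfl fun k _ => ?_
      rw [Algebra.smul_def]
    rw [h1, LinearMap.sum_apply, Finset.sum_apply]
    push_cast
    refine Finset.sum_congr rfl fun k _ => ?_
    rw [LinearMap.smul_apply, Pi.smul_apply, hρ, smul_eq_mul]
  have h1 : aeval ρ ((X - 1) * A) v = 0 := by
    rw [map_mul, Module.End.mul_apply, map_sub, aeval_X, map_one]
    funext h
    change (aeval ρ A v) (h * τ) - (aeval ρ A v) h = 0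
    rw [hA, hA, hF, sub_self]
  have h2 : aeval ρ ((X - 1) * cyclotomic g ℚ) v = 0 := by
    rw [mul_comm, cyclotomic_prime_mul_X_sub_one, map_sub, map_pow, aeval_X, map_one]
    funext h
    change (ρ ^ g) v h - v h = 0
    rw [hρ]
    change ((f (h * τ ^ g) : ℤ) : ℚ) - (f h : ℚ) = 0
    rw [hf, sub_self]
  by_cases hdvd : cyclotomic g ℚ ∣ A
  · right
    obtain ⟨B, hB⟩ := hdvd
    have hcoef : ∀ k < g, A.coeff k = a k := by
      intro k hk
      simp only [A, finsetSum_coeff, coeff_C_mul, coeff_X_pow]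
      rw [Finset.sum_eq_single k]
      · rw [if_pos rfl, mul_one]
      · intro b _ hb
        rw [if_neg (Ne.symm hb), mul_zero]
      · intro h
        exact absurd (Finset.mem_range.2 hk) h
    by_cases hB0 : B = 0
    · intro k hk
      have h3 := hcoef k hk
      have h4 := hcoef 0 hg.pos
      rw [hB, hB0, mul_zero, coeff_zero] at h3 h4
      have h5 : (a k : ℚ) = (a 0 : ℚ) := by rw [← h3, ← h4]
      exact_mod_cast h5
    · have hdeg : A.natDegree ≤ g - 1 := by
        refine natDegree_sum_le_of_forall_le _ _ fun k hk => ?_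
        refine (natDegree_C_mul_X_pow_le _ _).trans ?_
        have := Finset.mem_range.1 hk
        omega
      have hdeg2 : A.natDegree = (g - 1) + B.natDegree := by
        rw [hB, natDegree_mul (cyclotomic_ne_zero g ℚ) hB0, natDegree_cyclotomic,
          Nat.totient_prime hg]
      have hB1 : B.natDegree = 0 := by omega
      obtain ⟨b, rfl⟩ := natDegree_eq_zero.1 hB1
      intro k hk
      have h3 := hcoef k hk
      have h4 := hcoef 0 hg.pos
      have h5 : ∀ k < g, (cyclotomic g ℚ * C b).coeff k = b := by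
        intro k hk
        rw [coeff_mul_C, cyclotomic_prime, finsetSum_coeff]
        simp only [coeff_X_pow]
        rw [Finset.sum_eq_single k]
        · rw [if_pos rfl, one_mul]
        · intro b _ hb
          rw [if_neg (Ne.symm hb)]
        · intro h
          exact absurd (Finset.mem_range.2 hk) h
      rw [hB, h5 k hk] at h3
      rw [hB, h5 0 hg.pos] at h4
      have h6 : (a k : ℚ) = (a 0 : ℚ) := by rw [← h3, ← h4]
      exact_mod_cast h6
  · left
    have hirr : Irreducible (cyclotomic g ℚ) := cyclotomic.irreducible_rat hg.pos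
    have hcop : IsCoprime (cyclotomic g ℚ) A := (hirr.coprime_iff_not_dvd).2 hdvd
    obtain ⟨u, w, huw⟩ := hcop
    have h3 : (X - 1 : ℚ[X]) = u * ((X - 1) * cyclotomic g ℚ) + w * ((X - 1) * A) := by
      linear_combination (-(X - 1 : ℚ[X])) * huw
    have h4 : aeval ρ (X - 1 : ℚ[X]) v = 0 := by
      rw [h3, map_add, LinearMap.add_apply, map_mul (aeval ρ) u, map_mul (aeval ρ) w,
        Module.End.mul_apply, Module.End.mul_apply, h1, h2, map_zero, map_zero, add_zero]
    intro h
    rw [map_sub, aeval_X, map_one] at h4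
    have h5 := congrFun h4 h
    change v (h * τ) - v h = 0 at h5
    have h6 : ((f (h * τ) : ℤ) : ℚ) = (f h : ℚ) := by
      linarith [h5, show v (h * τ) = (f (h * τ) : ℚ) from rfl, show v h = (f h : ℚ) from rfl]
    exact_mod_cast h6

end

end Pool.Agent.Q43.HN
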