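import Pool.Agent.TH117.PO.Defs
import Pool.Agent.TH117.BL.Defs

/-!
# Rank two motives of Weil type and norm relations: definitions
-/

set_option autoImplicit false

namespace Pool.Agent.Q43.HN

open NumberField Pool.Agent.H204R3.CM Pool.Agent.W547.KB Pool.Agent.W547.LD Pool.Agent.W547.HR
  Pool.Agent.W495.TA Pool.Agent.TH117.PO Pool.Agent.TH117.BL Module
open scoped TensorProduct

variable {p : ℕ} [Fact p.Prime] {ν : PadicAlgCl p ≃+* ℂ}

/-- The theorem of Ancona on the standard conjecture of Hodge type for motives of rank two, for the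
motives of the Weil classes of imaginary quadratic fields. Let `h = √-d` be an endomorphism of the
lifting of `Y`, compatible with the polarization given by `α`, and let `Y` have dimension `2 r`. The
classes of degree `2 r` in which `h` may be moved from each variable to each other variable form the
realization of a motive of rank two. If such a class `z` belongs to the space `C Y` of the classes of
algebraic cycles, and if `z` is not numerically equivalent to zero, then `(-1)^r z ∪ z` is
positive. -/
def IsWeilPositive (Ω : Type) [Field Ω] [CharZero Ω]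
    (C : (Y : RedAV p ν) → (κ : Type) → ((TM Ω Y) [⋀^κ]→ₗ[Ω] Ω) → Prop) : Prop :=
  ∀ {Y : RedAV p ν} (r : ℕ), finrank ℚ Y.X.H1 = 4 * r → ∀ (α : Y.X.H1), IsPolar Y.X α →
    ∀ (d : ℕ) (h : Y.X.H1 →ₗ[ℚ] Y.X.H1), 0 < d → IsHom Y.X Y.X h →
      (∀ w, h (h w) = -((d : ℚ) • w)) →
      (∀ v w, riemannForm Y.X α (h v) w = -riemannForm Y.X α v (h w)) →
      ∀ z : (TM Ω Y) [⋀^Fin r × Fin 2]→ₗ[Ω] Ω, C Y (Fin r × Fin 2) z → ¬ IsNumTrivial Ω C z →
        (∀ (v : Fin r × Fin 2 → Y.X.H1) (k l : Fin r × Fin 2),
          res z (Function.update v k (h (v k))) = res z (Function.update v l (h (v l)))) →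
        IsPosClass α 0 z

/-- The exponents `n` belong to a product of powers of norms to an imaginary quadratic field: there
are `θ i` in the CM fields of the factors with `θ i ^ 2 = - d` (at least if `m i ≠ 0`), and the
exponent of an embedding of the CM field of the factor `i` is `m i` if the imaginary part of the
image of `θ i` is positive, and otherwise it is zero. -/
def IsNorm (Z : RedAV p ν) (n : Emb Z → ℕ) : Prop :=
  ∃ (d : ℕ) (m : Z.X.I → ℕ) (θ : Z.X.H1), 0 < d ∧
    (∀ i, m i ≠ 0 → θ i ^ 2 = -((d : ℕ) : (Z.X.factor i).E)) ∧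
    ∀ w : Emb Z, (0 < (w.2 (θ w.1)).im → n w = m w.1) ∧ (¬ 0 < (w.2 (θ w.1)).im → n w = 0)

/-- The multiplicative relations with at most `2 r` terms between the Frobenius eigenvalues are
products of elementary relations, of inverses of such relations and of a relation between norms to
one imaginary quadratic field (which may depend on the relation). -/
def IsControlled (Z : RedAV p ν) (r : ℕ) : Prop :=
  ∀ e : Emb Z → ℕ, IsRel Z e → ∑ w, e w ≤ 2 * r →
    ((fun w => (e w : ℤ)) ∈ AddSubgroup.closure
      {d : Emb Z → ℤ | ∃ n : Emb Z → ℕ, IsRel Z n ∧ IsElementary Z n ∧ ∀ w, d w = n w}) ∨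
    ∃ n : Emb Z → ℕ, IsNorm Z n ∧ (fun w => (e w : ℤ) - n w) ∈ AddSubgroup.closure
      {d : Emb Z → ℤ | ∃ n : Emb Z → ℕ, IsRel Z n ∧ IsElementary Z n ∧ ∀ w, d w = n w}

end Pool.Agent.Q43.HN
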