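import Pool.Agent.Q43.HN.Corank

/-!
# Factors on whose functions the Galois group acts by signs
-/

set_option autoImplicit false
set_option linter.unusedSectionVars false
set_option linter.unusedVariables false

namespace Pool.Agent.Q43.HN

open NumberField Pool.Agent.H204R3.CM Pool.Agent.W547.KB Pool.Agent.W547.LD Pool.Agent.W547.HR
  Pool.Agent.W495.TA Pool.Agent.W495.TB Pool.Agent.W495.TC Pool.Agent.TH117.F5
  Pool.Agent.TH117.PO Pool.Agent.TH117.BL Module Pool.Agent.W976.TA Equiv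
open scoped TensorProduct

noncomputable section

section

variable {L : Type} [Field L] [NumberField L] [IsCMField L] [IsGalois ℚ L]

/-- The Galois group acts on `f` by signs. -/
def IsEig (f : (L ≃ₐ[ℚ] L) → ℤ) : Prop := ∀ σ, Rt σ f = f ∨ Rt σ f = -f

/-- The same signs. -/
def Par (f f' : (L ≃ₐ[ℚ] L) → ℤ) : Prop :=
  ∀ σ, (Rt σ f = f ∧ Rt σ f' = f') ∨ (Rt σ f = -f ∧ Rt σ f' = -f')

theorem apply_of_eq {f : (L ≃ₐ[ℚ] L) → ℤ} {σ : L ≃ₐ[ℚ] L} (h : Rt σ f = f) : f σ = f 1 := by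
  have h1 := congrFun h 1
  unfold Rt at h1
  rw [one_mul] at h1
  exact h1

theorem apply_of_neg {f : (L ≃ₐ[ℚ] L) → ℤ} {σ : L ≃ₐ[ℚ] L} (h : Rt σ f = -f) :
    f σ = -f 1 := by
  have h1 := congrFun h 1
  unfold Rt at h1
  rw [one_mul] at h1
  exact h1

theorem IsEig.eq_zero {f : (L ≃ₐ[ℚ] L) → ℤ} (h : IsEig f) (h1 : f 1 = 0) : f = 0 := by
  funext σ
  rcases h σ with h2 | h2
  · rw [apply_of_eq h2, h1]
    rfl
  · rw [apply_of_neg h2, h1]
    rfl

theorem Par.eq_of {f f' : (L ≃ₐ[ℚ] L) → ℤ} (h : Par f f') (h1 : f 1 = f' 1) : f = f' := by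
  funext σ
  rcases h σ with ⟨h2, h3⟩ | ⟨h2, h3⟩
  · rw [apply_of_eq h2, apply_of_eq h3, h1]
  · rw [apply_of_neg h2, apply_of_neg h3, h1]

theorem Par.neg_right {f f' : (L ≃ₐ[ℚ] L) → ℤ} (h : Par f f') : Par f (-f') := by
  intro σ
  rcases h σ with ⟨h2, h3⟩ | ⟨h2, h3⟩
  · exact Or.inl ⟨h2, by rw [Rt_neg, h3]⟩
  · exact Or.inr ⟨h2, by rw [Rt_neg, h3]⟩

theorem Par.symm {f f' : (L ≃ₐ[ℚ] L) → ℤ} (h : Par f f') : Par f' f := fun σ =>
  (h σ).imp (fun h => ⟨h.2, h.1⟩) fun h => ⟨h.2, h.1⟩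

theorem IsEig.par_self {f : (L ≃ₐ[ℚ] L) → ℤ} (h : IsEig f) : Par f f := fun σ =>
  (h σ).imp (fun h => ⟨h, h⟩) fun h => ⟨h, h⟩

/-- Orthogonality. -/
theorem orth {f f' : (L ≃ₐ[ℚ] L) → ℤ} (h : IsEig f) (h' : IsEig f') (hP : ¬ Par f f') :
    ∑ σ, f σ * f' σ = 0 := by
  classical
  unfold Par at hP
  push Not at hP
  obtain ⟨τ, h1, h2⟩ := hP
  have h3 : ∑ σ, Rt τ f σ * Rt τ f' σ = ∑ σ, f σ * f' σ :=
    Equiv.sum_comp (Equiv.mulRight τ) fun σ => f σ * f' σ
  have h4 : ∑ σ, Rt τ f σ * Rt τ f' σ = -∑ σ, f σ * f' σ := by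
    rw [← Finset.sum_neg_distrib]
    refine Finset.sum_congr rfl fun σ _ => ?_
    rcases h τ with h5 | h5
    · have h6 := (h' τ).resolve_left (h1 h5)
      rw [h5, h6, Pi.neg_apply]
      ring
    · have h6 : Rt τ f' = f' := (h' τ).resolve_right (h2 h5)
      rw [h5, h6, Pi.neg_apply]
      ring
  omega

theorem orth_par {f f' : (L ≃ₐ[ℚ] L) → ℤ} (hP : Par f f') :
    ∑ σ, f σ * f' σ = (Fintype.card (L ≃ₐ[ℚ] L) : ℤ) * (f 1 * f' 1) := by
  classical
  have h1 : ∀ σ, f σ * f' σ = f 1 * f' 1 := by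
    intro σ
    rcases hP σ with ⟨h2, h3⟩ | ⟨h2, h3⟩
    · rw [apply_of_eq h2, apply_of_eq h3]
    · rw [apply_of_neg h2, apply_of_neg h3]
      ring
  rw [Finset.sum_congr rfl fun σ _ => h1 σ, Finset.sum_const, Finset.card_univ, nsmul_eq_mul]

open Classical in
/-- The components of a relation. -/
theorem comp_zero {Λ : Type} [Fintype Λ] {T : Λ → (L ≃ₐ[ℚ] L) → ℤ} {x : Λ → ℤ}
    (hx : ∀ l, x l ≠ 0 → IsEig (T l)) (hsum : ∀ σ, ∑ l, x l * T l σ = 0)
    {f : (L ≃ₐ[ℚ] L) → ℤ} (hf : IsEig f) (hf1 : f 1 ≠ 0) :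
    ∑ l, (if Par f (T l) then x l * T l 1 else 0) = 0 := by
  have h1 : ∑ σ, f σ * ∑ l, x l * T l σ = 0 :=
    Finset.sum_eq_zero fun σ _ => by rw [hsum, mul_zero]
  have h2 : ∑ σ, f σ * ∑ l, x l * T l σ =
      ∑ l, x l * ∑ σ, f σ * T l σ := by
    simp only [Finset.mul_sum]
    rw [Finset.sum_comm]
    exact Finset.sum_congr rfl fun l _ => Finset.sum_congr rfl fun σ _ => by ring
  have h3 : ∑ l, x l * ∑ σ, f σ * T l σ = ((Fintype.card (L ≃ₐ[ℚ] L) : ℤ) * f 1) *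
      ∑ l, (if Par f (T l) then x l * T l 1 else 0) := by
    rw [Finset.mul_sum]
    refine Finset.sum_congr rfl fun l _ => ?_
    by_cases hP : Par f (T l)
    · rw [if_pos hP, orth_par hP]
      ring
    · rw [if_neg hP, mul_zero]
      by_cases hxl : x l = 0
      · rw [hxl, zero_mul]
      · rw [orth hf (hx l hxl) hP, mul_zero]
  rw [h2, h3] at h1
  refine (mul_eq_zero.1 h1).resolve_left (mul_ne_zero ?_ hf1)
  exact_mod_cast Fintype.card_ne_zero

end

variable {p : ℕ} [Fact p.Prime] {ν : PadicAlgCl p ≃+* ℂ}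
  {L : Type} [Field L] [NumberField L] [IsCMField L] [IsGalois ℚ L] {j : L →+* ℂ}
  {Z : RedAV p ν}

/-- The values of factors of dimension one. -/
theorem smul_of_two (hZ : Big Z.X j) {l : Wt Z.X L}
    (h : finrank ℚ (Z.X.factor l.1).E = 2) (σ : L ≃ₐ[ℚ] L) : σ • l = l ∨ σ • l = cw Z l := by
  classical
  obtain ⟨i, φ⟩ := l
  have hcard : Nat.card ((Z.X.factor i).E →+* L) = 2 :=
    (Pool.Agent.W67.TA.card_emb j hZ i).trans h
  have hfin : Finite ((Z.X.factor i).E →+* L) := Nat.finite_of_card_ne_zero (by omega)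
  let _ : Fintype ((Z.X.factor i).E →+* L) := Fintype.ofFinite _
  have hne : cc L • φ ≠ φ := (setting j (Z.X.factor i)).ne φ
  have hall : ∀ ψ : (Z.X.factor i).E →+* L, ψ = φ ∨ ψ = cc L • φ := by
    intro ψ
    by_contra hcon
    push Not at hcon
    have h1 : ({φ, cc L • φ, ψ} : Finset ((Z.X.factor i).E →+* L)).card = 3 := by
      rw [Finset.card_insert_of_notMem, Finset.card_insert_of_notMem, Finset.card_singleton]
      · rw [Finset.mem_singleton]
        exact fun h => hcon.2 h.symm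
      · rw [Finset.mem_insert, Finset.mem_singleton]
        rintro (h | h)
        · exact hne h.symm
        · exact hcon.1 h.symm
    have h2 := Finset.card_le_univ ({φ, cc L • φ, ψ} : Finset ((Z.X.factor i).E →+* L))
    rw [h1, ← Nat.card_eq_fintype_card, hcard] at h2
    omega
  rcases hall (σ • φ) with h1 | h1
  · left
    change (⟨i, σ • φ⟩ : Wt Z.X L) = ⟨i, φ⟩
    rw [h1]
  · right
    change (⟨i, σ • φ⟩ : Wt Z.X L) = ⟨i, cc L • φ⟩
    rw [h1]

theorem isEig_of_two (hZ : Big Z.X j) {l : Wt Z.X L}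
    (h : finrank ℚ (Z.X.factor l.1).E = 2) : IsEig (tw p ν j Z.X l) := by
  intro σ
  rw [← tw_smul]
  rcases smul_of_two hZ h σ with h1 | h1
  · left
    rw [h1]
  · right
    rw [h1, tw_cw]

/-- Invariance under the decomposition group. -/
theorem tw_dec (l : Wt Z.X L) {d : L ≃ₐ[ℚ] L} (hd : d ∈ Dec p ν j) :
    tw p ν j Z.X l d = tw p ν j Z.X l 1 := by
  classical
  change nf (Dec p ν j) (eps j (Z.X.factor l.1)) l.2 d =
    nf (Dec p ν j) (eps j (Z.X.factor l.1)) l.2 1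
  unfold nf
  rw [← Equiv.sum_comp (Equiv.mulRight d) fun x => if x ∈ Dec p ν j then
    eps j (Z.X.factor l.1) (x • (1 : L ≃ₐ[ℚ] L) • l.2) else 0]
  refine Finset.sum_congr rfl fun x _ => ?_
  have h1 : (Equiv.mulRight d) x = x * d := rfl
  rw [h1]
  have h2 : x * d ∈ Dec p ν j ↔ x ∈ Dec p ν j := Subgroup.mul_mem_cancel_right _ hd
  rw [one_smul, mul_smul]
  by_cases h3 : x ∈ Dec p ν j
  · rw [if_pos h3, if_pos (h2.2 h3)]
  · rw [if_neg h3, if_neg fun h => h3 (h2.1 h)]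

theorem tw_one (l : Wt Z.X L) : tw p ν j Z.X l 1 =
    ∑ d : L ≃ₐ[ℚ] L, open Classical in if d ∈ Dec p ν j then
      eps j (Z.X.factor l.1) (d • l.2) else 0 := by
  classical
  change nf (Dec p ν j) (eps j (Z.X.factor l.1)) l.2 1 = _
  unfold nf
  exact Finset.sum_congr rfl fun x _ => by rw [one_smul]

theorem eps_cases (l : Wt Z.X L) : eps j (Z.X.factor l.1) l.2 = 1 ∨
    eps j (Z.X.factor l.1) l.2 = -1 := (isSign_eps j (Z.X.factor l.1)).sign l.2

/-- The values of factors of dimension one. -/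
theorem val_of_two (hZ : Big Z.X j) {l : Wt Z.X L}
    (h : finrank ℚ (Z.X.factor l.1).E = 2) : tw p ν j Z.X l 1 = 0 ∨
      tw p ν j Z.X l 1 = Nat.card (Dec p ν j) ∨ tw p ν j Z.X l 1 = -(Nat.card (Dec p ν j) : ℤ) := by
  classical
  by_cases h0 : tw p ν j Z.X l 1 = 0
  · exact Or.inl h0
  right
  have h1 : ∀ d ∈ Dec p ν j, d • l = l := by
    intro d hd
    rcases smul_of_two hZ h d with h2 | h2
    · exact h2
    · exfalso
      have h3 := congrFun (tw_smul (p := p) (ν := ν) (j := j) d l) 1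
      rw [h2, tw_cw, Pi.neg_apply] at h3
      unfold Rt at h3
      rw [one_mul, tw_dec l hd] at h3
      omega
  have h2 : tw p ν j Z.X l 1 = (Nat.card (Dec p ν j) : ℤ) * eps j (Z.X.factor l.1) l.2 := by
    rw [tw_one]
    have h3 : ∀ d : L ≃ₐ[ℚ] L, (if d ∈ Dec p ν j then
        eps j (Z.X.factor l.1) (d • l.2) else 0) =
        if d ∈ Dec p ν j then eps j (Z.X.factor l.1) l.2 else 0 := by
      intro d
      by_cases hd : d ∈ Dec p ν j
      · rw [if_pos hd, if_pos hd]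
        have h4 : d • l.2 = l.2 := eq_of_heq (Sigma.mk.inj_iff.1 (h1 d hd)).2
        rw [h4]
      · rw [if_neg hd, if_neg hd]
    rw [Finset.sum_congr rfl fun d _ => h3 d, ← Finset.sum_filter, Finset.sum_const, nsmul_eq_mul]
    congr 1
    rw [Nat.card_eq_fintype_card, Fintype.card_subtype]
  rcases eps_cases (j := j) l with h3 | h3
  · left
    rw [h2, h3, mul_one]
  · right
    rw [h2, h3, mul_neg, mul_one]

/-- The line sum. -/
theorem line_sum [Fintype (Wt Z.X L)] (x : Wt Z.X L → ℤ) {f : (L ≃ₐ[ℚ] L) → ℤ} (hf : f 1 ≠ 0)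
    [∀ l, Decidable (tw p ν j Z.X l = f ∨ tw p ν j Z.X l = -f)] :
    ∑ l : Wt Z.X L, (if tw p ν j Z.X l = f ∨ tw p ν j Z.X l = -f then
      x l * tw p ν j Z.X l 1 else 0) = f 1 * DD (tw p ν j Z.X) x f := by
  classical
  rw [DD_eq, Finset.mul_sum]
  have hne : f ≠ -f := by
    intro h
    have h1 := congrFun h 1
    rw [Pi.neg_apply] at h1
    omega
  refine Finset.sum_congr rfl fun l _ => ?_
  by_cases ha : tw p ν j Z.X l = f
  · have hb : ¬ tw p ν j Z.X l = -f := fun hb => hne (ha.symm.trans hb)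
    rw [if_pos (Or.inl ha), if_pos ha, if_neg hb, ha]
    ring
  · by_cases hb : tw p ν j Z.X l = -f
    · rw [if_pos (Or.inr hb), if_neg ha, if_pos hb, hb, Pi.neg_apply]
      ring
    · rw [if_neg (not_or.2 ⟨ha, hb⟩), if_neg ha, if_neg hb]
      ring

/-- Relations between factors of dimension one. -/
theorem ell_indep (hZ : Big Z.X j) [Fintype (Wt Z.X L)] {x : Wt Z.X L → ℤ}
    (hx : ∀ l, x l ≠ 0 → finrank ℚ (Z.X.factor l.1).E = 2)
    (hsum : ∀ σ, ∑ l : Wt Z.X L, x l * tw p ν j Z.X l σ = 0) : DD (tw p ν j Z.X) x = 0 := by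
  classical
  funext f
  rw [Pi.zero_apply]
  by_contra hne
  -- a factor with this value
  obtain ⟨l₀, hl₀, hl₁⟩ : ∃ l₀ : Wt Z.X L, finrank ℚ (Z.X.factor l₀.1).E = 2 ∧
      tw p ν j Z.X l₀ = f := by
    rw [DD_eq] at hne
    obtain ⟨l, -, hl⟩ := Finset.exists_ne_zero_of_sum_ne_zero hne
    have h1 := left_ne_zero_of_mul hl
    have h2 := right_ne_zero_of_mul hl
    by_cases ha : tw p ν j Z.X l = f
    · exact ⟨l, hx l h1, ha⟩
    · by_cases hb : tw p ν j Z.X l = -f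
      · exact ⟨cw Z l, hx l h1, by rw [tw_cw, hb, neg_neg]⟩
      · rw [if_neg ha, if_neg hb] at h2
        exact absurd (sub_zero _) h2
  have hE : IsEig f := by
    rw [← hl₁]
    exact isEig_of_two hZ hl₀
  have hf1 : f 1 ≠ 0 := by
    intro h
    apply hne
    rw [hE.eq_zero h]
    have h1 := DD_odd (p := p) (ν := ν) (j := j) x 0
    rw [neg_zero] at h1
    omega
  have h1 := comp_zero (T := tw p ν j Z.X) (fun l hl => isEig_of_two hZ (hx l hl)) hsum hE hf1
  have h2 := line_sum (p := p) (ν := ν) (j := j) x hf1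
  have h3 : ∀ l : Wt Z.X L, (if Par f (tw p ν j Z.X l) then x l * tw p ν j Z.X l 1 else 0) =
      if tw p ν j Z.X l = f ∨ tw p ν j Z.X l = -f then x l * tw p ν j Z.X l 1 else 0 := by
    intro l
    by_cases hxl : x l = 0
    · rw [hxl, zero_mul, ite_self, ite_self]
    by_cases hv : tw p ν j Z.X l 1 = 0
    · rw [hv, mul_zero, ite_self, ite_self]
    have h4 := val_of_two hZ (hx l hxl)
    have h5 := val_of_two hZ hl₀
    rw [hl₁] at h5
    by_cases hP : Par f (tw p ν j Z.X l)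
    · rw [if_pos hP, if_pos]
      have h6 : tw p ν j Z.X l 1 = f 1 ∨ tw p ν j Z.X l 1 = -f 1 := by omega
      rcases h6 with h6 | h6
      · exact Or.inl (hP.eq_of h6.symm).symm
      · right
        have h7 := hP.neg_right.eq_of (by rw [Pi.neg_apply, h6, neg_neg])
        rw [h7, neg_neg]
    · rw [if_neg hP, if_neg]
      rintro (h6 | h6)
      · apply hP
        rw [h6]
        exact hE.par_self
      · apply hP
        rw [h6]
        exact hE.par_self.neg_right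
  rw [Finset.sum_congr rfl fun l _ => h3 l, h2] at h1
  exact hne ((mul_eq_zero.1 h1).resolve_left hf1)

end

end Pool.Agent.Q43.HN
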