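import Pool.Agent.Q43.HN.Model

/-!
# Larger coefficient fields
-/

set_option autoImplicit false
set_option linter.unusedSectionVars false
set_option linter.unusedVariables false

namespace Pool.Agent.Q43.HN

open NumberField Pool.Agent.H204R3.CM Pool.Agent.W547.KB Pool.Agent.W547.LD Pool.Agent.W547.HR
  Pool.Agent.W495.TA Pool.Agent.W495.TB Pool.Agent.W495.TC Pool.Agent.TH117.F5
  Pool.Agent.TH117.PO Pool.Agent.TH117.BL Module Pool.Agent.W976.TA Equiv
open scoped TensorProduct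

noncomputable section

/-- A CM type of a CM field. -/
theorem exists_half (L : Type) [Field L] [NumberField L] [IsCMField L] :
    ∃ Φ : Set (L →+* ℂ), IsCMType Φ := by
  have h0 : ∃ y : L, IsCMField.complexConj L y ≠ y := by
    by_contra hcon
    push Not at hcon
    exact IsCMField.complexConj_ne_one L (AlgEquiv.ext hcon)
  obtain ⟨y, hy⟩ := h0
  set t : L := y - IsCMField.complexConj L y with ht
  have ht0 : t ≠ 0 := sub_ne_zero.2 (Ne.symm hy)
  have htc : IsCMField.complexConj L t = -t := by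
    rw [ht, map_sub, IsCMField.complexConj_apply_apply]
    ring
  have him : ∀ φ : L →+* ℂ, (φ t).im ≠ 0 := by
    intro φ h
    have h1 : φ (IsCMField.complexConj L t) = starRingEnd ℂ (φ t) :=
      IsCMField.complexEmbedding_complexConj L φ t
    rw [htc, map_neg] at h1
    have h2 := congrArg Complex.re h1
    rw [Complex.neg_re, Complex.conj_re] at h2
    have h3 : φ t = 0 := Complex.ext (by rw [Complex.zero_re]; linarith) (by
      rw [h, Complex.zero_im])
    exact ht0 ((map_eq_zero φ).1 h3)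
  refine ⟨{φ | 0 < (φ t).im}, fun φ => ?_⟩
  have h1 := him φ
  change 0 < (φ t).im ↔ ¬ (0 < (ComplexEmbedding.conjugate φ t).im)
  rw [ComplexEmbedding.conjugate_coe_eq, Complex.conj_im]
  constructor
  · intro h
    linarith
  · intro h
    rcases lt_or_gt_of_ne h1 with h2 | h2
    · exact absurd (by linarith) h
    · exact h2

/-- Larger fields. -/
theorem exists_ext (X : CMAV) {L : Type} [Field L] [NumberField L] [IsCMField L] (j : L →+* ℂ)
    {Ω : Type} [Field Ω] [IsAlgClosed Ω] (jO : L →+* Ω) :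
    ∃ (L' : Type) (_ : Field L') (_ : NumberField L') (_ : IsCMField L') (_ : IsGalois ℚ L')
      (j' : L' →+* ℂ) (u : L →+* L') (jO' : L' →+* Ω), j'.comp u = j ∧ jO'.comp u = jO ∧
        Big X j' := by
  obtain ⟨Φ, hΦ⟩ := exists_half L
  let B : CMPair := { E := L, Φ := Φ, isCMType := hΦ }
  have hne : Nonempty ((X.prod (single B))).I := ⟨Sum.inr ()⟩
  obtain ⟨L', i1, i2, i3, i4, j', hj⟩ := exists_cm (X.prod (single B))
  obtain ⟨u, hu⟩ := hj (Sum.inr ()) j
  let _ : Algebra L L' := RingHom.toAlgebra u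
  let _ : Algebra L Ω := RingHom.toAlgebra jO
  have hal : Algebra.IsAlgebraic L L' := by
    have h1 : Algebra.IsAlgebraic ℚ L' := inferInstance
    have h2 : IsScalarTower ℚ L L' := inferInstance
    exact Algebra.IsAlgebraic.tower_top (K := ℚ) L
  let f : L' →ₐ[L] Ω := IsAlgClosed.lift
  refine ⟨L', i1, i2, i3, i4, j', u, (f : L' →+* Ω), hu, ?_, fun i ψ => hj (Sum.inl i) ψ⟩
  ext x
  exact f.commutes x

section

variable {p : ℕ} [Fact p.Prime] {ν : PadicAlgCl p ≃+* ℂ} {Ω : Type} [Field Ω] [CharZero Ω]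
  {L : Type} [Field L] [NumberField L] [IsCMField L] [IsGalois ℚ L]
  {L' : Type} [Field L'] [NumberField L'] [IsCMField L'] [IsGalois ℚ L']
  {j : L →+* ℂ} {j' : L' →+* ℂ} {u : L →+* L'} {jO : L →+* Ω} {jO' : L' →+* Ω}

/-- The weight over the larger field. -/
def uW (u : L →+* L') {X : CMAV} (w : Wt X L) : Wt X L' := ⟨w.1, u.comp w.2⟩

theorem ev_uW {X : CMAV} (x : X.H1) (w : Wt X L) : ev x (uW u w) = u (ev x w) := rfl

theorem co_uW (hO : jO'.comp u = jO) {Y : RedAV p ν} (w : Wt Y.X L) :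
    co jO' (uW u w) = co jO w := by
  have h1 : evO jO' (uW u w) = (evO jO w : Y.X.H1 →ₗ[ℚ] Ω) := by
    ext x
    change jO' (u (w.2 (x w.1))) = jO (w.2 (x w.1))
    rw [← hO]
    rfl
  unfold co
  rw [h1]

theorem monoO_uW (hO : jO'.comp u = jO) {Y : RedAV p ν} {κ : Type} [Fintype κ] [DecidableEq κ]
    (I : κ → Wt Y.X L) : monoO jO' (fun k => uW u (I k)) = (monoO jO I : _ [⋀^κ]→ₗ[Ω] Ω) := by
  unfold monoO
  have h1 : (fun k => co jO' (uW u (I k))) = fun k => co jO (I k) := funext fun k => co_uW hO _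
  rw [h1]

theorem uW_bar (hu : j'.comp u = j) {X : CMAV} (w : Wt X L) : uW u (bar w) = bar (uW u w) := by
  refine Sigma.ext rfl (heq_of_eq ?_)
  ext x
  change u (cc L (w.2 x)) = cc L' (u (w.2 x))
  apply j'.injective
  rw [emb_cc]
  have h1 : ∀ y, j' (u y) = j y := fun y => RingHom.congr_fun hu y
  rw [h1, h1, emb_cc]

theorem up_uW (hu : j'.comp u = j) {X : CMAV} (θ : X.H1) (w : Wt X L) :
    Up j' θ (uW u w) ↔ Up j θ w := by
  unfold Up
  rw [ev_uW]
  have h1 : j' (u (ev θ w)) = j (ev θ w) := RingHom.congr_fun hu _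
  rw [h1]

theorem uW_injective {X : CMAV} : Function.Injective (uW u : Wt X L → Wt X L') := by
  rintro ⟨i, φ⟩ ⟨i', φ'⟩ h
  obtain ⟨h1, h2⟩ := Sigma.mk.inj_iff.1 h
  subst h1
  have h3 : u.comp φ = u.comp φ' := eq_of_heq h2
  have h4 : φ = φ' := by
    ext x
    exact u.injective (RingHom.congr_fun h3 x)
  rw [h4]

theorem uW_surjective (hu : j'.comp u = j) {X : CMAV} (hB : Big X j) :
    Function.Surjective (uW u : Wt X L → Wt X L') := by
  rintro ⟨i, φ'⟩
  obtain ⟨φ, hφ⟩ := hB i (j'.comp φ')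
  refine ⟨⟨i, φ⟩, Sigma.ext rfl (heq_of_eq ?_)⟩
  ext x
  apply j'.injective
  have h1 : j' (u (φ x)) = j (φ x) := RingHom.congr_fun hu _
  have h2 : j (φ x) = j' (φ' x) := RingHom.congr_fun hφ x
  exact h1.trans h2

theorem big_ext (hu : j'.comp u = j) {X : CMAV} (hB : Big X j) : Big X j' := by
  intro i ψ
  obtain ⟨φ, hφ⟩ := hB i ψ
  refine ⟨u.comp φ, ?_⟩
  rw [← hφ, ← hu]
  rfl

/-- The bases agree. -/
theorem e_uW (hu : j'.comp u = j) (hO : jO'.comp u = jO) {Y : RedAV p ν} (hB : Big Y.X j)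
    (e : Basis (Wt Y.X L) Ω (TM Ω Y)) (h1 : ∀ w, co jO w (e w) = 1)
    (h0 : ∀ w w', w ≠ w' → co jO w (e w') = 0)
    (e' : Basis (Wt Y.X L') Ω (TM Ω Y)) (h1' : ∀ w, co jO' w (e' w) = 1)
    (h0' : ∀ w w', w ≠ w' → co jO' w (e' w') = 0) (w : Wt Y.X L) : e' (uW u w) = e w := by
  refine e'.ext_elem fun v' => ?_
  obtain ⟨v, rfl⟩ := uW_surjective hu hB v'
  rw [Pool.Agent.TH117.BL.repr_eq jO' e' h1' h0', Pool.Agent.TH117.BL.repr_eq jO' e' h1' h0',
    co_uW hO v]
  by_cases hv : v = w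
  · subst hv
    rw [h1, ← co_uW hO v, h1']
  · rw [h0 v w hv, ← co_uW hO v, h0' _ _ fun h => hv (uW_injective h)]

end

end

end Pool.Agent.Q43.HN
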