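import Pool.Agent.Q43.HN.Eig
import Pool.Agent.Q43.HN.Cyc

/-!
# The contributions of the factors to a relation
-/

set_option autoImplicit false
set_option linter.unusedSectionVars false
set_option linter.unusedVariables false

namespace Pool.Agent.Q43.HN

open NumberField Pool.Agent.H204R3.CM Pool.Agent.W547.KB Pool.Agent.W547.LD Pool.Agent.W547.HR
  Pool.Agent.W495.TA Pool.Agent.W495.TB Pool.Agent.W495.TC Pool.Agent.TH117.F5
  Pool.Agent.TH117.PO Pool.Agent.TH117.BL Module Pool.Agent.W976.TA Equiv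
open scoped TensorProduct

noncomputable section

variable {p : ℕ} [Fact p.Prime] {ν : PadicAlgCl p ≃+* ℂ}
  {L : Type} [Field L] [NumberField L] [IsCMField L] [IsGalois ℚ L] {j : L →+* ℂ}
  {Z : RedAV p ν}

theorem bar_bar' (l : Wt Z.X L) : cw Z (cw Z l) = l := bar_bar l

theorem cw_smul (l : Wt Z.X L) : cw Z l = cc L • l := rfl

theorem smul_cw' (σ : L ≃ₐ[ℚ] L) (l : Wt Z.X L) (j : L →+* ℂ) : σ • cw Z l = cw Z (σ • l) := by
  obtain ⟨i, φ⟩ := l
  change (⟨i, σ • cc L • φ⟩ : Wt Z.X L) = ⟨i, cc L • σ • φ⟩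
  rw [← mul_smul, ← mul_smul, cc_comm j]

/-- Transitivity. -/
theorem exists_smul (j : L →+* ℂ) {l l' : Wt Z.X L} (h : l.1 = l'.1) :
    ∃ σ : L ≃ₐ[ℚ] L, σ • l = l' := by
  obtain ⟨i, φ⟩ := l
  obtain ⟨i', φ'⟩ := l'
  obtain rfl : i = i' := h
  obtain ⟨σ, hσ⟩ := (setting j (Z.X.factor i)).trans φ φ'
  refine ⟨σ, ?_⟩
  change (⟨i, σ • φ⟩ : Wt Z.X L) = ⟨i, φ'⟩
  rw [hσ]

/-- Elements of prime power order act trivially on small factors. -/
theorem smul_of_small (hZ : Big Z.X j) {g b : ℕ} (hg : g.Prime) (hg2 : g ≠ 2) {τ : L ≃ₐ[ℚ] L}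
    (hτ : orderOf τ = g ^ b) {l : Wt Z.X L} (hl : finrank ℚ (Z.X.factor l.1).E < 2 * g) :
    τ • l = l := by
  obtain ⟨i, φ⟩ := l
  have hcard : Nat.card ((Z.X.factor i).E →+* L) = finrank ℚ (Z.X.factor i).E :=
    Pool.Agent.W67.TA.card_emb j hZ i
  have hfin : Finite ((Z.X.factor i).E →+* L) := Nat.finite_of_card_ne_zero (by
    rw [hcard]
    exact finrank_pos.ne')
  have hset := setting j (Z.X.factor i)
  have h1 := smul_of_pow (X := (Z.X.factor i).E →+* L) (cc L) hset.comm hset.sq hset.ne hg hg2 hτ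
    (by rw [hcard]; exact hl) φ
  change (⟨i, τ • φ⟩ : Wt Z.X L) = ⟨i, φ⟩
  rw [h1]

/-- Functions on which the Galois group acts by signs are fixed by the elements of odd order. -/
theorem Rt_of_odd {f : (L ≃ₐ[ℚ] L) → ℤ} (hf : IsEig f) {τ : L ≃ₐ[ℚ] L}
    (hτ : Odd (orderOf τ)) : Rt τ f = f := by
  rcases hf τ with h | h
  · exact h
  · have h2 : ∀ k : ℕ, Rt (τ ^ (2 * k)) f = f := by
      intro k
      induction k with
      | zero => rw [mul_zero, pow_zero, Rt_one]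
      | succ k ih =>
        rw [mul_add, pow_add, Rt_mul, mul_one, pow_two, Rt_mul, h, Rt_neg, h, neg_neg, ih]
    obtain ⟨k, hk⟩ := hτ
    have h3 : Rt (τ ^ (orderOf τ)) f = -f := by
      rw [hk, pow_succ', Rt_mul, h2, h]
    rw [pow_orderOf_eq_one, Rt_one] at h3
    rw [h, ← h3]

section

variable [Fintype (Wt Z.X L)]

/-- The odd part. -/
def xm (x : Wt Z.X L → ℤ) (l : Wt Z.X L) : ℤ := x l - x (cw Z l)

theorem xm_cw (x : Wt Z.X L → ℤ) (l : Wt Z.X L) : xm x (cw Z l) = -xm x l := by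
  unfold xm
  rw [bar_bar']
  ring

/-- Relations. -/
def Re (p : ℕ) [Fact p.Prime] (ν : PadicAlgCl p ≃+* ℂ) (j : L →+* ℂ) (Z : RedAV p ν)
    [Fintype (Wt Z.X L)] (x : Wt Z.X L → ℤ) : Prop :=
  ∀ σ, ∑ l : Wt Z.X L, x l * tw p ν j Z.X l σ = 0

open Classical in
/-- The contribution of a factor. -/
def Fi (p : ℕ) [Fact p.Prime] (ν : PadicAlgCl p ≃+* ℂ) (j : L →+* ℂ) (Z : RedAV p ν)
    [Fintype (Wt Z.X L)] (x : Wt Z.X L → ℤ) (i : Z.X.I) (σ : L ≃ₐ[ℚ] L) : ℤ :=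
  ∑ l : Wt Z.X L with l.1 = i, x l * tw p ν j Z.X l σ

open Classical in
theorem sum_smul (σ : L ≃ₐ[ℚ] L) (i : Z.X.I) (f : Wt Z.X L → ℤ) :
    ∑ l : Wt Z.X L with l.1 = i, f (σ • l) = ∑ l : Wt Z.X L with l.1 = i, f l := by
  refine Finset.sum_bij (fun l _ => σ • l) ?_ ?_ ?_ ?_
  · intro l hl
    rw [Finset.mem_filter] at hl ⊢
    exact ⟨Finset.mem_univ _, hl.2⟩
  · intro l _ l' _ h
    exact MulAction.injective σ h
  · intro l hl
    rw [Finset.mem_filter] at hl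
    refine ⟨σ⁻¹ • l, ?_, smul_inv_smul σ l⟩
    rw [Finset.mem_filter]
    exact ⟨Finset.mem_univ _, hl.2⟩
  · intro l _
    rfl

theorem Fi_sum (x : Wt Z.X L → ℤ) (σ : L ≃ₐ[ℚ] L) :
    ∑ i, Fi p ν j Z x i σ = ∑ l : Wt Z.X L, x l * tw p ν j Z.X l σ := by
  classical
  unfold Fi
  exact Finset.sum_fiberwise Finset.univ (fun l : Wt Z.X L => l.1) _

open Classical in
theorem Fi_two (x : Wt Z.X L → ℤ) (i : Z.X.I) (σ : L ≃ₐ[ℚ] L) :
    2 * Fi p ν j Z x i σ = ∑ l : Wt Z.X L with l.1 = i, xm x l * tw p ν j Z.X l σ := by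
  unfold Fi xm
  have h1 := sum_smul (cc L) i fun l : Wt Z.X L => x l * tw p ν j Z.X l σ
  have h2 : ∑ l : Wt Z.X L with l.1 = i, x (cc L • l) * tw p ν j Z.X (cc L • l) σ =
      -∑ l : Wt Z.X L with l.1 = i, x (cw Z l) * tw p ν j Z.X l σ := by
    rw [← Finset.sum_neg_distrib]
    refine Finset.sum_congr rfl fun l _ => ?_
    have h3 : tw p ν j Z.X (cc L • l) = -tw p ν j Z.X l := tw_cw l
    rw [h3, Pi.neg_apply, cw_smul]
    ring
  rw [h2] at h1
  simp only [sub_mul, Finset.sum_sub_distrib]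
  linarith

/-- The signs of the odd part. -/
def Sgn (x : Wt Z.X L → ℤ) (i : Z.X.I) : Prop :=
  ∀ σ : L ≃ₐ[ℚ] L, (∀ l : Wt Z.X L, l.1 = i → xm x (σ • l) = xm x l) ∨
    ∀ l : Wt Z.X L, l.1 = i → xm x (σ • l) = -xm x l

theorem isEig_Fi_of_sgn {x : Wt Z.X L → ℤ} {i : Z.X.I} (h : Sgn x i) :
    IsEig (Fi p ν j Z x i) := by
  classical
  intro σ
  have h1 : ∀ g, 2 * Fi p ν j Z x i (g * σ) =
      ∑ l : Wt Z.X L with l.1 = i, xm x (σ⁻¹ • l) * tw p ν j Z.X l g := by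
    intro g
    rw [Fi_two, ← sum_smul σ i fun l => xm x (σ⁻¹ • l) * tw p ν j Z.X l g]
    refine Finset.sum_congr rfl fun l _ => ?_
    rw [inv_smul_smul, tw_smul]
    rfl
  rcases h σ⁻¹ with h2 | h2
  · left
    funext g
    have h3 := h1 g
    have h4 : ∑ l : Wt Z.X L with l.1 = i, xm x (σ⁻¹ • l) * tw p ν j Z.X l g =
        ∑ l : Wt Z.X L with l.1 = i, xm x l * tw p ν j Z.X l g :=
      Finset.sum_congr rfl fun l hl => by rw [h2 l (Finset.mem_filter.1 hl).2]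
    rw [h4, ← Fi_two] at h3
    change Fi p ν j Z x i (g * σ) = Fi p ν j Z x i g
    omega
  · right
    funext g
    have h3 := h1 g
    have h4 : ∑ l : Wt Z.X L with l.1 = i, xm x (σ⁻¹ • l) * tw p ν j Z.X l g =
        -∑ l : Wt Z.X L with l.1 = i, xm x l * tw p ν j Z.X l g := by
      rw [← Finset.sum_neg_distrib]
      exact Finset.sum_congr rfl fun l hl => by rw [h2 l (Finset.mem_filter.1 hl).2, neg_mul]
    rw [h4, ← Fi_two] at h3
    change Fi p ν j Z x i (g * σ) = -Fi p ν j Z x i g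
    omega

/-- The Galois group acts on the functions of the factor by signs. -/
def EigF (p : ℕ) [Fact p.Prime] (ν : PadicAlgCl p ≃+* ℂ) (j : L →+* ℂ) (Z : RedAV p ν)
    (i : Z.X.I) : Prop := ∀ l : Wt Z.X L, l.1 = i → IsEig (tw p ν j Z.X l)

theorem EigF.val {i : Z.X.I} (h : EigF p ν j Z i) {l l' : Wt Z.X L} (hl : l.1 = i)
    (hl' : l'.1 = i) : tw p ν j Z.X l' = tw p ν j Z.X l ∨
      tw p ν j Z.X l' = -tw p ν j Z.X l := by
  obtain ⟨σ, hσ⟩ := exists_smul j (hl.trans hl'.symm)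
  rw [← hσ, tw_smul]
  exact h l hl σ

theorem EigF.sign {i : Z.X.I} (h : EigF p ν j Z i) (σ : L ≃ₐ[ℚ] L) :
    (∀ l : Wt Z.X L, l.1 = i → tw p ν j Z.X (σ • l) = tw p ν j Z.X l) ∨
      ∀ l : Wt Z.X L, l.1 = i → tw p ν j Z.X (σ • l) = -tw p ν j Z.X l := by
  by_cases hne : ∃ l : Wt Z.X L, l.1 = i
  · obtain ⟨l₀, hl₀⟩ := hne
    rcases h l₀ hl₀ σ with h1 | h1
    · left
      intro l hl
      rw [tw_smul]
      rcases h.val hl₀ hl with h2 | h2
      · rw [h2, h1]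
      · rw [h2, Rt_neg, h1]
    · right
      intro l hl
      rw [tw_smul]
      rcases h.val hl₀ hl with h2 | h2
      · rw [h2, h1]
      · rw [h2, Rt_neg, h1]
  · left
    intro l hl
    exact absurd ⟨l, hl⟩ hne

theorem isEig_Fi_of_eig {x : Wt Z.X L → ℤ} {i : Z.X.I} (h : EigF p ν j Z i) :
    IsEig (Fi p ν j Z x i) := by
  classical
  intro σ
  have h1 : ∀ g, Fi p ν j Z x i (g * σ) =
      ∑ l : Wt Z.X L with l.1 = i, x l * tw p ν j Z.X (σ • l) g := by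
    intro g
    refine Finset.sum_congr rfl fun l _ => ?_
    rw [tw_smul]
    rfl
  rcases h.sign σ with h2 | h2
  · left
    funext g
    change Fi p ν j Z x i (g * σ) = _
    rw [h1]
    exact Finset.sum_congr rfl fun l hl => by rw [h2 l (Finset.mem_filter.1 hl).2]
  · right
    funext g
    change Fi p ν j Z x i (g * σ) = -Fi p ν j Z x i g
    rw [h1]
    unfold Fi
    rw [← Finset.sum_neg_distrib]
    exact Finset.sum_congr rfl fun l hl => by
      rw [h2 l (Finset.mem_filter.1 hl).2, Pi.neg_apply, mul_neg]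

/-- Conjugate relations. -/
theorem Re.smul {x : Wt Z.X L → ℤ} (hx : Re p ν j Z x) (σ : L ≃ₐ[ℚ] L) :
    Re p ν j Z fun l => x (σ • l) := by
  intro τ
  have h1 := rel_smul hx σ⁻¹ τ
  rw [inv_inv] at h1
  exact h1

/-- The contribution of a factor with a cycle. -/
theorem Fi_cyc {i : Z.X.I} {g : ℕ} {τ : L ≃ₐ[ℚ] L} {φ₀ : (Z.X.factor i).E →+* L}
    (hbij : Function.Bijective (cyc (cc L) τ g φ₀)) (x : Wt Z.X L → ℤ) (h : L ≃ₐ[ℚ] L) :
    Fi p ν j Z x i h = ∑ k ∈ Finset.range g, xm x ⟨i, τ ^ k • φ₀⟩ *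
      tw p ν j Z.X ⟨i, φ₀⟩ (h * τ ^ k) := by
  classical
  let X₀ := (Z.X.factor i).E →+* L
  have hfin : Finite X₀ := Finite.of_surjective _ hbij.2
  let _ : Fintype X₀ := Fintype.ofFinite _
  let T := tw p ν j Z.X
  let t : (L ≃ₐ[ℚ] L) → ℤ := T ⟨i, φ₀⟩
  have hTpow : ∀ k : ℕ, T ⟨i, τ ^ k • φ₀⟩ = Rt (τ ^ k) t := fun k => tw_smul (τ ^ k) ⟨i, φ₀⟩
  have hTcc : ∀ φ : X₀, T ⟨i, cc L • φ⟩ = -T ⟨i, φ⟩ := fun φ => tw_cw ⟨i, φ⟩
  have h0 : Fi p ν j Z x i h = ∑ φ : X₀, x ⟨i, φ⟩ * T ⟨i, φ⟩ h := by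
    symm
    refine Finset.sum_bij (fun φ _ => (⟨i, φ⟩ : Wt Z.X L)) ?_ ?_ ?_ ?_
    · intro φ _
      rw [Finset.mem_filter]
      exact ⟨Finset.mem_univ _, rfl⟩
    · intro φ _ φ' _ h
      exact eq_of_heq (Sigma.mk.inj_iff.1 h).2
    · rintro ⟨i', φ⟩ hl
      rw [Finset.mem_filter] at hl
      obtain rfl : i' = i := hl.2
      exact ⟨φ, Finset.mem_univ _, rfl⟩
    · intro φ _
      rfl
  rw [h0, ← (Equiv.ofBijective (cyc (cc L) τ g φ₀) hbij).sum_comp, Fintype.sum_prod_type,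
    Finset.sum_range]
  refine Finset.sum_congr rfl fun k _ => ?_
  rw [Fintype.sum_bool]
  have h1 : (Equiv.ofBijective (cyc (cc L) τ g φ₀) hbij) (k, true) =
    cc L • τ ^ (k : ℕ) • φ₀ := rfl
  have h2 : (Equiv.ofBijective (cyc (cc L) τ g φ₀) hbij) (k, false) = τ ^ (k : ℕ) • φ₀ := rfl
  rw [h1, h2, hTcc, Pi.neg_apply, hTpow]
  unfold Rt xm
  change _ = (x ⟨i, τ ^ (k : ℕ) • φ₀⟩ - x ⟨i, cc L • τ ^ (k : ℕ) • φ₀⟩) * _
  ring

/-- A factor of odd prime dimension. -/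
theorem prime_or (hZ : Big Z.X j) {i : Z.X.I} {g : ℕ} (hg : g.Prime) (hg2 : g ≠ 2)
    {τ : L ≃ₐ[ℚ] L} {φ₀ : (Z.X.factor i).E →+* L} (hτg : τ ^ g • φ₀ = φ₀)
    (hbij : Function.Bijective (cyc (cc L) τ g φ₀))
    (hinv : ∀ x : Wt Z.X L → ℤ, Re p ν j Z x → ∀ i', i' ≠ i →
      Rt τ (Fi p ν j Z x i') = Fi p ν j Z x i') :
    EigF p ν j Z i ∨ ((∀ φ φ', tw p ν j Z.X ⟨i, φ⟩ = tw p ν j Z.X ⟨i, φ'⟩ → φ = φ') ∧
      ∀ x : Wt Z.X L → ℤ, Re p ν j Z x → ∀ k < g, xm x ⟨i, τ ^ k • φ₀⟩ = xm x ⟨i, φ₀⟩) := by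
  classical
  let X₀ := (Z.X.factor i).E →+* L
  have hcard : Nat.card X₀ = finrank ℚ (Z.X.factor i).E := Pool.Agent.W67.TA.card_emb j hZ i
  have hfin : Finite X₀ := Nat.finite_of_card_ne_zero (by
    rw [hcard]
    exact finrank_pos.ne')
  let _ : Fintype X₀ := Fintype.ofFinite _
  have hset := setting j (Z.X.factor i)
  have hgodd : Odd g := hg.odd_of_ne_two hg2
  let T := tw p ν j Z.X
  set B := cyc (cc L) τ g φ₀ with hB
  let t : (L ≃ₐ[ℚ] L) → ℤ := T ⟨i, φ₀⟩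
  have hTpow : ∀ k : ℕ, T ⟨i, τ ^ k • φ₀⟩ = Rt (τ ^ k) t := fun k => tw_smul (τ ^ k) ⟨i, φ₀⟩
  have hTcc : ∀ φ : X₀, T ⟨i, cc L • φ⟩ = -T ⟨i, φ⟩ := fun φ => tw_cw ⟨i, φ⟩
  have hTg : Rt (τ ^ g) t = t := by
    rw [← hTpow, hτg]
  -- the sum over the factor
  have hsumA : ∀ (x : Wt Z.X L → ℤ) (h : L ≃ₐ[ℚ] L),
      Fi p ν j Z x i h = ∑ k ∈ Finset.range g, xm x ⟨i, τ ^ k • φ₀⟩ * t (h * τ ^ k) :=
    fun x h => Fi_cyc hbij x h
  -- the two cases
  have hcases : ∀ x : Wt Z.X L → ℤ, Re p ν j Z x → (Rt τ t = t) ∨ ∀ k < g,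
      xm x ⟨i, τ ^ k • φ₀⟩ = xm x ⟨i, τ ^ 0 • φ₀⟩ := by
    intro x hx
    have hrest : ∀ h, Fi p ν j Z x i h = -∑ i' ∈ Finset.univ.erase i, Fi p ν j Z x i' h := by
      intro h
      have h1 := hx h
      rw [← Fi_sum, ← Finset.add_sum_erase Finset.univ _ (Finset.mem_univ i)] at h1
      linarith
    have h1 := const_or t τ hg (fun h => congrFun hTg h) (fun k => xm x ⟨i, τ ^ k • φ₀⟩)
      (fun h => by
        rw [← hsumA, ← hsumA, hrest, hrest]
        congr 1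
        refine Finset.sum_congr rfl fun i' hi' => ?_
        exact congrFun (hinv x hx i' (Finset.ne_of_mem_erase hi')) h)
    exact h1.imp (fun h => funext h) fun h => h
  by_cases hII : Rt τ t = t
  · left
    have hk : ∀ k : ℕ, Rt (τ ^ k) t = t := by
      intro k
      induction k with
      | zero => rw [pow_zero, Rt_one]
      | succ k ih => rw [pow_succ, Rt_mul, hII, ih]
    have hval : ∀ φ : X₀, T ⟨i, φ⟩ = t ∨ T ⟨i, φ⟩ = -t := by
      intro φ
      obtain ⟨⟨k, b⟩, rfl⟩ := hbij.2 φ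
      rcases b with _ | _
      · left
        exact (hTpow k).trans (hk k)
      · right
        have h1 : B (k, true) = cc L • τ ^ (k : ℕ) • φ₀ := rfl
        rw [h1, hTcc, hTpow, hk]
    have hEt : IsEig t := by
      intro σ
      have h1 : Rt σ t = T ⟨i, σ • φ₀⟩ := (tw_smul σ ⟨i, φ₀⟩).symm
      rw [h1]
      exact hval _
    rintro ⟨i', φ⟩ hi'
    obtain rfl : i' = i := hi'
    rcases hval φ with h1 | h1
    · change IsEig (T ⟨i', φ⟩)
      rw [h1]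
      exact hEt
    · change IsEig (T ⟨i', φ⟩)
      rw [h1]
      intro σ
      rw [Rt_neg]
      rcases hEt σ with h2 | h2
      · left
        rw [h2]
      · right
        rw [h2]
  · right
    refine ⟨?_, fun x hx k hk => ?_⟩
    swap
    · have h1 := (hcases x hx).resolve_left hII k hk
      rw [pow_zero, one_smul] at h1
      exact h1
    have ht0 : t ≠ 0 := by
      intro h
      apply hII
      rw [h]
      rfl
    -- injectivity
    have hτT : ∀ m : ℤ, Rt (τ ^ m) t = t → (g : ℤ) ∣ m := by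
      intro m hm
      by_contra hnd
      apply hII
      obtain ⟨u, v, huv⟩ := (Nat.prime_iff_prime_int.1 hg).coprime_iff_not_dvd.2 hnd
      let S : Subgroup (L ≃ₐ[ℚ] L) :=
        { carrier := {σ | Rt σ t = t}
          mul_mem' := fun {a b} ha hb => by
            change Rt (a * b) t = t
            rw [Rt_mul, hb, ha]
          one_mem' := Rt_one t
          inv_mem' := fun {a} ha => by
            change Rt a⁻¹ t = t
            have h1 : Rt a t = t := ha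
            conv_lhs => rw [← h1]
            rw [Rt_self_inv] }
      have h1 : τ ^ (g : ℤ) ∈ S := by
        change Rt (τ ^ (g : ℤ)) t = t
        rw [zpow_natCast]
        exact hTg
      have h2 : τ ^ m ∈ S := hm
      have h3 : τ = (τ ^ (g : ℤ)) ^ u * (τ ^ m) ^ v := by
        rw [← zpow_mul, ← zpow_mul, ← zpow_add, mul_comm (g : ℤ) u, mul_comm m v, huv, zpow_one]
      have h4 : τ ∈ S := by
        rw [h3]
        exact Subgroup.mul_mem _ (Subgroup.zpow_mem _ h1 u) (Subgroup.zpow_mem _ h2 v)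
      exact h4
    have hTz : ∀ (m : ℤ), (g : ℤ) ∣ m → Rt (τ ^ m) t = t := by
      rintro m ⟨u, rfl⟩
      have h1 : ∀ k : ℕ, Rt ((τ ^ g) ^ k) t = t := by
        intro k
        induction k with
        | zero => rw [pow_zero, Rt_one]
        | succ k ih => rw [pow_succ, Rt_mul, hTg, ih]
      rw [zpow_mul, zpow_natCast]
      rcases Int.eq_nat_or_neg u with ⟨k, hk | hk⟩
      · rw [hk, zpow_natCast, h1]
      · rw [hk, zpow_neg, zpow_natCast]
        conv_lhs => rw [← h1 k]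
        rw [Rt_self_inv]
    intro φ φ' h
    change T ⟨i, φ⟩ = T ⟨i, φ'⟩ at h
    obtain ⟨⟨k, b⟩, rfl⟩ := hbij.2 φ
    obtain ⟨⟨k', b'⟩, rfl⟩ := hbij.2 φ'
    have hv : ∀ k : Fin g, T ⟨i, B (k, false)⟩ = Rt (τ ^ (k : ℤ)) t := by
      intro k
      rw [zpow_natCast]
      exact hTpow k
    have hv' : ∀ k : Fin g, T ⟨i, B (k, true)⟩ = -Rt (τ ^ (k : ℤ)) t := by
      intro k
      rw [zpow_natCast]
      exact (hTcc (τ ^ (k : ℕ) • φ₀)).trans (congrArg _ (hTpow k))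
    have hsame : ∀ k k' : Fin g, Rt (τ ^ (k : ℤ)) t = Rt (τ ^ (k' : ℤ)) t → k = k' := by
      intro k k' h
      have h1 : Rt (τ ^ ((k : ℤ) - k')) t = t := by
        have h2 := congrArg (Rt (τ ^ (-(k' : ℤ)))) h
        rw [← Rt_mul, ← Rt_mul, ← zpow_add, ← zpow_add, neg_add_cancel, zpow_zero, Rt_one] at h2
        rw [sub_eq_neg_add]
        exact h2
      have h2 := hτT _ h1
      have h3 := k.2
      have h4 := k'.2
      have h5 : (k : ℤ) - (k' : ℤ) = 0 := Int.eq_zero_of_abs_lt_dvd h2 (by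
        rw [abs_lt]
        constructor <;> omega)
      exact Fin.ext (by omega)
    have hmix : ∀ k k' : Fin g, Rt (τ ^ (k : ℤ)) t ≠ -Rt (τ ^ (k' : ℤ)) t := by
      intro k k' h
      have h1 : Rt (τ ^ ((k : ℤ) - k')) t = -t := by
        have h2 := congrArg (Rt (τ ^ (-(k' : ℤ)))) h
        rw [Rt_neg, ← Rt_mul, ← Rt_mul, ← zpow_add, ← zpow_add, neg_add_cancel, zpow_zero,
          Rt_one] at h2
        rw [sub_eq_neg_add]
        exact h2
      have h2 : Rt (τ ^ (2 * ((k : ℤ) - k'))) t = t := by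
        rw [two_mul, zpow_add, Rt_mul, h1, Rt_neg, h1, neg_neg]
      have h3 := hτT _ h2
      have h4 : (g : ℤ) ∣ (k : ℤ) - k' := by
        have h5 : IsCoprime (g : ℤ) 2 := by
          rw [Int.isCoprime_iff_gcd_eq_one]
          exact (Nat.coprime_two_right.2 hgodd)
        exact h5.dvd_of_dvd_mul_left h3
      have h5 := hTz _ h4
      rw [h5] at h1
      apply ht0
      funext σ
      have h6 := congrFun h1 σ
      rw [Pi.neg_apply] at h6
      rw [Pi.zero_apply]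
      omega
    rcases b with _ | _ <;> rcases b' with _ | _
    · rw [hv, hv] at h
      rw [hsame k k' h]
    · rw [hv, hv'] at h
      exact absurd h (hmix k k')
    · rw [hv, hv'] at h
      exact absurd h.symm (hmix k' k)
    · rw [hv', hv'] at h
      rw [hsame k k' (neg_injective h)]

/-- The signs of the odd part, if it is constant on a system of representatives for all relations. -/
theorem sgn_of_const {i : Z.X.I} {g : ℕ} {τ : L ≃ₐ[ℚ] L} {φ₀ : (Z.X.factor i).E →+* L}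
    (j : L →+* ℂ) (hbij : Function.Bijective (cyc (cc L) τ g φ₀))
    (hconst : ∀ x : Wt Z.X L → ℤ, Re p ν j Z x → ∀ k < g, xm x ⟨i, τ ^ k • φ₀⟩ = xm x ⟨i, φ₀⟩)
    {x : Wt Z.X L → ℤ} (hx : Re p ν j Z x) : Sgn x i := by
  classical
  -- values up to the sign
  have hval : ∀ l : Wt Z.X L, l.1 = i → xm x l = xm x ⟨i, φ₀⟩ ∨ xm x l = -xm x ⟨i, φ₀⟩ := by
    rintro ⟨i', φ⟩ hi'
    obtain rfl : i' = i := hi'
    obtain ⟨⟨k, b⟩, rfl⟩ := hbij.2 φ
    rcases b with _ | _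
    · exact Or.inl (hconst x hx k k.2)
    · right
      exact (xm_cw x ⟨i', τ ^ (k : ℕ) • φ₀⟩).trans (by rw [hconst x hx k k.2])
  intro σ
  have hy := hx.smul σ
  have hyx : ∀ l : Wt Z.X L, xm (fun l => x (σ • l)) l = xm x (σ • l) := by
    intro l
    change x (σ • l) - x (σ • cw Z l) = x (σ • l) - x (cw Z (σ • l))
    rw [smul_cw' σ l j]
  have hyc := hconst _ hy
  rcases hval (σ • (⟨i, φ₀⟩ : Wt Z.X L)) rfl with h1 | h1
  · left
    rintro ⟨i', φ⟩ hi'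
    obtain rfl : i' = i := hi'
    obtain ⟨⟨k, b⟩, rfl⟩ := hbij.2 φ
    rcases b with _ | _
    · have h2 := hyc k k.2
      rw [hyx, hyx] at h2
      exact h2.trans (h1.trans (hconst x hx k k.2).symm)
    · have h2 := hyc k k.2
      rw [hyx, hyx] at h2
      have h3 : xm x (σ • cw Z (⟨i', τ ^ (k : ℕ) • φ₀⟩ : Wt Z.X L)) =
          xm x (cw Z (⟨i', τ ^ (k : ℕ) • φ₀⟩ : Wt Z.X L)) := by
        rw [smul_cw' σ _ j, xm_cw, xm_cw, h2, h1, hconst x hx k k.2]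
      exact h3
  · right
    rintro ⟨i', φ⟩ hi'
    obtain rfl : i' = i := hi'
    obtain ⟨⟨k, b⟩, rfl⟩ := hbij.2 φ
    rcases b with _ | _
    · have h2 := hyc k k.2
      rw [hyx, hyx] at h2
      exact h2.trans (h1.trans (by
        change _ = -xm x (⟨i', τ ^ (k : ℕ) • φ₀⟩ : Wt Z.X L)
        rw [hconst x hx k k.2]))
    · have h2 := hyc k k.2
      rw [hyx, hyx] at h2
      have h3 : xm x (σ • cw Z (⟨i', τ ^ (k : ℕ) • φ₀⟩ : Wt Z.X L)) =
          -xm x (cw Z (⟨i', τ ^ (k : ℕ) • φ₀⟩ : Wt Z.X L)) := by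
        rw [smul_cw' σ _ j, xm_cw, xm_cw, h2, h1, hconst x hx k k.2]
      exact h3

end

end

end Pool.Agent.Q43.HN
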