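import Pool.Agent.Q43.HN.Weil

/-!
# The intersection form on primitive classes
-/

set_option autoImplicit false
set_option linter.unusedSectionVars false
set_option linter.unusedVariables false

namespace Pool.Agent.Q43.HN

open NumberField Pool.Agent.H204R3.CM Pool.Agent.W547.KB Pool.Agent.W547.LD Pool.Agent.W547.HR
  Pool.Agent.W495.TA Pool.Agent.TH117.PO Module Pool.Agent.W976.TA Equiv
open scoped TensorProduct

noncomputable section

variable {p : ℕ} [Fact p.Prime] {ν : PadicAlgCl p ≃+* ℂ} {Ω : Type} [Field Ω] [CharZero Ω]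
  {C : (Y : RedAV p ν) → (κ : Type) → ((TM Ω Y) [⋀^κ]→ₗ[Ω] Ω) → Prop}
  {L : Type} [Field L] [NumberField L] [IsCMField L] [IsGalois ℚ L]
  {jO : L →+* Ω} {j : L →+* ℂ} {Y : RedAV p ν}

theorem theta_one {α : Y.X.H1} {θ : (TM Ω Y) [⋀^Fin 2]→ₗ[Ω] Ω}
    (hθr : ∀ x y, res θ ![x, y] = (riemannForm Y.X α x y : Ω)) (x y : Y.X.H1) :
    θ ![(1 : Ω) ⊗ₜ[ℚ] x, (1 : Ω) ⊗ₜ[ℚ] y] = castE Ω (riemannForm Y.X α) x y := by
  rw [castE, ← hθr]
  unfold res
  congr 1
  funext k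
  fin_cases k <;> rfl

theorem powE_one {α : Y.X.H1} {θ : (TM Ω Y) [⋀^Fin 2]→ₗ[Ω] Ω}
    (hθr : ∀ x y, res θ ![x, y] = (riemannForm Y.X α x y : Ω)) (k : ℕ)
    (v : Fin k × Fin 2 → Y.X.H1) :
    powE (fun x y => θ ![x, y]) k (fun i => (1 : Ω) ⊗ₜ[ℚ] v i) =
      powE (castE Ω (riemannForm Y.X α)) k v := by
  unfold powE
  exact Finset.prod_congr rfl fun i _ => theta_one hθr _ _

/-- The primitivity over `Ω`. -/
theorem prim_ext {α : Y.X.H1} {θ : (TM Ω Y) [⋀^Fin 2]→ₗ[Ω] Ω}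
    (hθr : ∀ x y, res θ ![x, y] = (riemannForm Y.X α x y : Ω)) {r m : ℕ}
    {z : (TM Ω Y) [⋀^Fin r × Fin 2]→ₗ[Ω] Ω} (hprim : IsPrim α m z)
    (v : (Fin r × Fin 2) ⊕ (Fin (m + 1) × Fin 2) → TM Ω Y) :
    altSum (times z (powE (fun x y => θ ![x, y]) (m + 1))) v = 0 := by
  classical
  have h2 : (times z (powE (fun x y => θ ![x, y]) (m + 1)) : _ → Ω) =
      RK.mulM z.toMultilinearMap (RK.pw θ.toMultilinearMap (m + 1)) := by
    funext v
    rw [RK.mulM_apply, RK.pw_apply]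
    unfold times powE
    congr 1
    refine Finset.prod_congr rfl fun i _ => ?_
    change θ _ = θ _
    congr 1
    funext k
    fin_cases k <;> rfl
  rw [h2]
  refine ext_altSum _ (fun v => ?_) v
  rw [← h2, ← hprim v]
  unfold altSum
  refine Finset.sum_congr rfl fun σ _ => ?_
  congr 1
  unfold times
  rw [powE_one hθr]
  rfl

section

variable (e : Basis (Wt Y.X L) Ω (TM Ω Y)) (h1 : ∀ w, co jO w (e w) = 1)
  (h0 : ∀ w w', w ≠ w' → co jO w (e w') = 0)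

variable (jO) in
/-- The sum over the coordinates. -/
def SS (α : Y.X.H1) {κ : Type} [Fintype κ] [DecidableEq κ] [Fintype (Wt Y.X L)]
    (z : (TM Ω Y) [⋀^κ]→ₗ[Ω] Ω) : Ω :=
  ∑ s : κ → Wt Y.X L, (z fun k => e (s k)) * (z fun k => JJ jO e α (e (s k)))

include h1 h0

/-- The Hodge-Riemann relations. -/
theorem hr_formula (j : L →+* ℂ) {α : Y.X.H1} (hα : IsPolar Y.X α)
    {θ : (TM Ω Y) [⋀^Fin 2]→ₗ[Ω] Ω} (hθ : ∀ x y, θ ![x, y] =
      ∑ w : Wt Y.X L, jO (ev α w) * (co jO (bar w) x * co jO w y))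
    (hθr : ∀ x y, res θ ![x, y] = (riemannForm Y.X α x y : Ω)) {r m : ℕ}
    {z : (TM Ω Y) [⋀^Fin r × Fin 2]→ₗ[Ω] Ω}
    (hprim' : ∀ v, altSum (times z (powE (fun x y => θ ![x, y]) (m + 1))) v = 0)
    (v : (Fin r × Fin 2) ⊕ ((Fin r × Fin 2) ⊕ (Fin m × Fin 2)) → Y.X.H1) :
    (-1) ^ r * altSum (times (res z) (times (res z)
        (powE (castE Ω (riemannForm Y.X α)) m))) v =
      RK.cst r m (∑ s : Fin r × Fin 2 → Wt Y.X L, (z fun k => e (s k)) *
        (z fun k => JJ jO e α (e (s k)))) *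
        altSum (times (powE (castE Ω (riemannForm Y.X α)) r)
        (times (powE (castE Ω (riemannForm Y.X α)) r)
          (powE (castE Ω (riemannForm Y.X α)) m))) v := by
  classical
  have hpow := powE_one hθr
  have hmain := RK.hr_basis e θ (JJ jO e α)
    (fun u w => JJ_spec e h1 h0 hα (fun w => ev_polar_ne j hα w) hθ u w) r m z hprim'
  have h2 := hmain fun i => (1 : Ω) ⊗ₜ[ℚ] v i
  have e1 : altSum (times z (times z (powE (fun a b => θ ![a, b]) m)))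
      (fun i => (1 : Ω) ⊗ₜ[ℚ] v i) = altSum (times (res z) (times (res z)
      (powE (castE Ω (riemannForm Y.X α)) m))) v := by
    unfold altSum
    refine Finset.sum_congr rfl fun σ _ => ?_
    congr 1
    unfold times
    rw [hpow]
    rfl
  have e2 : altSum (times (powE (fun a b => θ ![a, b]) r)
        (times (powE (fun a b => θ ![a, b]) r) (powE (fun a b => θ ![a, b]) m)))
      (fun i => (1 : Ω) ⊗ₜ[ℚ] v i) = altSum (times (powE (castE Ω (riemannForm Y.X α)) r)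
      (times (powE (castE Ω (riemannForm Y.X α)) r)
        (powE (castE Ω (riemannForm Y.X α)) m))) v := by
    unfold altSum
    refine Finset.sum_congr rfl fun σ _ => ?_
    congr 1
    unfold times
    rw [hpow, hpow, hpow]
  rw [e1, e2] at h2
  exact h2

end

/-- The constant. -/
def cD (r m : ℕ) : ℚ := (m.factorial : ℕ) * (Fintype.card (Perm (Fin r × Fin 2)) : ℕ) /
    (((m + len r).factorial : ℕ) * 2 ^ (len r))

theorem cD_pos (r m : ℕ) : 0 < cD r m := by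
  unfold cD
  have e1 : 0 < ((m.factorial : ℕ) : ℚ) := Nat.cast_pos.2 (Nat.factorial_pos _)
  have e2 : 0 < ((Fintype.card (Perm (Fin r × Fin 2)) : ℕ) : ℚ) :=
    Nat.cast_pos.2 Fintype.card_pos
  have e3 : 0 < (((m + len r).factorial : ℕ) : ℚ) := Nat.cast_pos.2 (Nat.factorial_pos _)
  positivity

theorem cst_eq (r m : ℕ) (x : Ω) : RK.cst r m x = (cD r m : Ω) * x := by
  unfold RK.cst cD
  push_cast
  ring

/-- The volume is rational and not zero. -/
theorem exists_vol {α : Y.X.H1} (hα : IsPolar Y.X α) {r m : ℕ}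
    (hrm : 2 * (2 * r + m) = finrank ℚ Y.X.H1) :
    ∃ (v0 : (Fin r × Fin 2) ⊕ ((Fin r × Fin 2) ⊕ (Fin m × Fin 2)) → Y.X.H1) (V0 : ℚ), V0 ≠ 0 ∧
      altSum (times (powE (castE Ω (riemannForm Y.X α)) r)
        (times (powE (castE Ω (riemannForm Y.X α)) r)
          (powE (castE Ω (riemannForm Y.X α)) m))) v0 = (V0 : Ω) := by
  classical
  obtain ⟨v0, hv0⟩ := exists_vol_rat (isPolarization hα) r m hrm
  refine ⟨v0, _, hv0, ?_⟩
  have h2 := altSum_cast (Q := Unit) (Rat.castHom Ω) (times (powE (riemannForm Y.X α) r)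
    (times (powE (riemannForm Y.X α) r) (powE (riemannForm Y.X α) m))) v0
  rw [Rat.coe_castHom] at h2
  rw [h2]
  congr 1
  funext w
  have h3 : ∀ (k : ℕ) (u : Fin k × Fin 2 → Y.X.H1),
      powE (castE Ω (riemannForm Y.X α)) k u = ((powE (riemannForm Y.X α) k u : ℚ) : Ω) :=
    fun k u => (powE_cast (Rat.castHom Ω) (riemannForm Y.X α) k u).symm
  unfold times
  rw [h3, h3, h3, Rat.cast_mul, Rat.cast_mul]

section

variable (e : Basis (Wt Y.X L) Ω (TM Ω Y)) (h1 : ∀ w, co jO w (e w) = 1)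
  (h0 : ∀ w w', w ≠ w' → co jO w (e w') = 0)
include h1 h0

/-- The sum over the coordinates of a positive class. -/
theorem sum_of_pos (j : L →+* ℂ) {α : Y.X.H1} (hα : IsPolar Y.X α)
    {θ : (TM Ω Y) [⋀^Fin 2]→ₗ[Ω] Ω} (hθ : ∀ x y, θ ![x, y] =
      ∑ w : Wt Y.X L, jO (ev α w) * (co jO (bar w) x * co jO w y))
    (hθr : ∀ x y, res θ ![x, y] = (riemannForm Y.X α x y : Ω)) {r m : ℕ}
    (hrm : 2 * (2 * r + m) = finrank ℚ Y.X.H1)
    {z : (TM Ω Y) [⋀^Fin r × Fin 2]→ₗ[Ω] Ω}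
    (hprim' : ∀ v, altSum (times z (powE (fun x y => θ ![x, y]) (m + 1))) v = 0)
    (hpos : IsPosClass α m z) :
    ∃ q : ℚ, 0 < q ∧ ∑ s : Fin r × Fin 2 → Wt Y.X L, (z fun k => e (s k)) *
        (z fun k => JJ jO e α (e (s k))) = (q : Ω) := by
  obtain ⟨c, hc, hcv⟩ := hpos
  obtain ⟨v0, V0, hV0, hv0⟩ := exists_vol (Ω := Ω) hα hrm
  have h2 := hr_formula e h1 h0 j hα hθ hθr hprim' v0
  rw [hcv v0, hv0, cst_eq] at h2
  have e2 : ((cD r m : ℚ) : Ω) ≠ 0 := Rat.cast_ne_zero.2 (cD_pos r m).ne'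
  have e3 : ((V0 : ℚ) : Ω) ≠ 0 := Rat.cast_ne_zero.2 hV0
  have h3 := mul_right_cancel₀ e3 h2
  refine ⟨c / cD r m, div_pos hc (cD_pos r m), ?_⟩
  rw [Rat.cast_div, eq_div_iff e2, h3]
  ring

omit h1 h0 in
/-- Numerically trivial classes. -/
theorem num_cross (hC : IsCycleSystem Ω C) (j : L →+* ℂ) (hB : Big Y.X j) {α : Y.X.H1}
    (hα : IsPolar Y.X α) {r m : ℕ} (hrm : 2 * (2 * r + m) = finrank ℚ Y.X.H1)
    {z : (TM Ω Y) [⋀^Fin r × Fin 2]→ₗ[Ω] Ω} (hz : C Y _ z) (hnum : IsNumTrivial Ω C z)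
    (jO : L →+* Ω) (v : (Fin r × Fin 2) ⊕ ((Fin r × Fin 2) ⊕ (Fin m × Fin 2)) → Y.X.H1) :
    altSum (times (res z) (times (res z) (powE (castE Ω (riemannForm Y.X α)) m))) v = 0 := by
  classical
  have : Finite (Wt Y.X L) := Pool.Agent.W67.TA.finite_wt j hB
  let _ : Fintype (Wt Y.X L) := Fintype.ofFinite _
  obtain ⟨θ, hθ⟩ := exists_theta (Ω := Ω) (jO := jO) j hα
  have hθr := res_theta j hB hθ
  have hCθ : C Y (Fin 2) θ := theta_mem hC hα hθr
  have hpow := powE_one hθr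
  obtain ⟨Θ, a, ha, hΘ, hΘv⟩ := power_mem hC hCθ m
  have hy : C Y _ (cupO z Θ) := hC.cup z Θ hz hΘ _ fun v => cupO_apply z Θ v
  have h2 := hnum _ (cupO z Θ) hy (by
    rw [← hrm]
    simp only [Fintype.card_prod, Fintype.card_fin, Fintype.card_sum]
    ring) v
  set N : Ω := (a : Ω) * ((Fintype.card (Perm ((Fin r × Fin 2) ⊕ (Fin m × Fin 2))) : ℕ) : Ω) with hN
  have hN0 : N ≠ 0 := mul_ne_zero (Rat.cast_ne_zero.2 ha) (Nat.cast_ne_zero.2 Fintype.card_ne_zero)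
  have h3 : ∀ u, res (cupO z Θ) u = ((a : Ω) * ((Fintype.card (Perm (Fin m × Fin 2)) : ℕ) : Ω)) *
      altSum (times (res z) (powE (castE Ω (riemannForm Y.X α)) m)) u := by
    intro u
    change cupO z Θ (fun i => (1 : Ω) ⊗ₜ[ℚ] u i) = _
    have h4 : altSum (times z Θ) (fun i => (1 : Ω) ⊗ₜ[ℚ] u i) =
        altSum (times (res z) (res Θ)) u := rfl
    have h5 : (res Θ : (Fin m × Fin 2 → Y.X.H1) → Ω) = fun w =>
        (a : Ω) * altSum (powE (castE Ω (riemannForm Y.X α)) m) w := by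
      funext w
      change Θ (fun i => (1 : Ω) ⊗ₜ[ℚ] w i) = _
      rw [hΘv]
      congr 1
      unfold altSum
      refine Finset.sum_congr rfl fun σ _ => ?_
      congr 1
      exact hpow m fun i => w (σ i)
    rw [cupO_apply, h4, h5, mul_assoc, ← altSum_absorb, ← altSum_const_mul]
    congr 1
    funext x
    unfold times
    ring
  have h6 : (res (cupO z Θ) : _ → Ω) = fun u =>
      ((a : Ω) * ((Fintype.card (Perm (Fin m × Fin 2)) : ℕ) : Ω)) *
      altSum (times (res z) (powE (castE Ω (riemannForm Y.X α)) m)) u := funext h3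
  set M : Ω := (a : Ω) * ((Fintype.card (Perm (Fin m × Fin 2)) : ℕ) : Ω) with hM
  have hM0 : M ≠ 0 := mul_ne_zero (Rat.cast_ne_zero.2 ha) (Nat.cast_ne_zero.2 Fintype.card_ne_zero)
  rw [h6] at h2
  have h7 : altSum (times (res z) fun u => M * altSum (times (res z)
      (powE (castE Ω (riemannForm Y.X α)) m)) u) v =
      M * (((Fintype.card (Perm ((Fin r × Fin 2) ⊕ (Fin m × Fin 2))) : ℕ) : Ω) *
        altSum (times (res z) (times (res z) (powE (castE Ω (riemannForm Y.X α)) m))) v) := by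
    rw [← altSum_absorb, ← altSum_const_mul]
    congr 1
    funext x
    unfold times
    ring
  rw [h7] at h2
  exact (mul_eq_zero.1 ((mul_eq_zero.1 h2).resolve_left hM0)).resolve_left
    (Nat.cast_ne_zero.2 Fintype.card_ne_zero)

/-- Classes whose sum over the coordinates is not zero are not numerically trivial. -/
theorem not_num (hC : IsCycleSystem Ω C) (j : L →+* ℂ) (hB : Big Y.X j) {α : Y.X.H1}
    (hα : IsPolar Y.X α)
    {θ : (TM Ω Y) [⋀^Fin 2]→ₗ[Ω] Ω} (hθ : ∀ x y, θ ![x, y] =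
      ∑ w : Wt Y.X L, jO (ev α w) * (co jO (bar w) x * co jO w y))
    (hθr : ∀ x y, res θ ![x, y] = (riemannForm Y.X α x y : Ω)) {r m : ℕ}
    (hrm : 2 * (2 * r + m) = finrank ℚ Y.X.H1)
    {z : (TM Ω Y) [⋀^Fin r × Fin 2]→ₗ[Ω] Ω} (hz : C Y _ z)
    (hprim' : ∀ v, altSum (times z (powE (fun x y => θ ![x, y]) (m + 1))) v = 0)
    (hne : ∑ s : Fin r × Fin 2 → Wt Y.X L, (z fun k => e (s k)) *
        (z fun k => JJ jO e α (e (s k))) ≠ 0) : ¬ IsNumTrivial Ω C z := by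
  intro hnum
  obtain ⟨v0, V0, hV0, hv0⟩ := exists_vol (Ω := Ω) hα hrm
  have h2 := hr_formula e h1 h0 j hα hθ hθr hprim' v0
  rw [num_cross hC j hB hα hrm hz hnum jO v0, mul_zero, hv0, cst_eq] at h2
  have e2 : ((cD r m : ℚ) : Ω) ≠ 0 := Rat.cast_ne_zero.2 (cD_pos r m).ne'
  have e3 : ((V0 : ℚ) : Ω) ≠ 0 := Rat.cast_ne_zero.2 hV0
  exact mul_ne_zero (mul_ne_zero e2 hne) e3 h2.symm

/-- The terms of the sum. -/
theorem term_pos' (hC : IsCycleSystem Ω C) (hR : IsRosatiPositive Ω C) (j : L →+* ℂ)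
    (hB : Big Y.X j) {α : Y.X.H1} (hα : IsPolar Y.X α)
    {r : ℕ} {z : (TM Ω Y) [⋀^Fin r × Fin 2]→ₗ[Ω] Ω} (hz : C Y _ z)
    {s : Fin r × Fin 2 → Wt Y.X L} (h3 : IsPos jO C j Y s)
    (hs : (z fun k => e (s k)) ≠ 0) :
    ∃ μ : L, (z fun k => e (s k)) * (z fun k => JJ jO e α (e (s k))) = jO μ ∧ PosC (j μ) := by
  classical
  have hsi : Function.Injective s := by
    intro k k' hk
    by_contra hne
    refine hs (z.map_eq_zero_of_eq _ ?_ hne)
    rw [hk]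
  obtain ⟨μ, h4, h5⟩ := h3.line hC hB hsi (Ln_coef hC j hB e h1 h0 hz hsi) hs
  refine ⟨μ * (∏ k, ev α (s k))⁻¹, ?_, ?_⟩
  · rw [x_JJ e h1 h0, map_mul, ← h4, map_inv₀, map_prod]
    ring
  · have h6 : PosC (∏ k, (j (ev α (bar (s k))) * sgn j (s k))) :=
      PosC.prod _ _ fun k _ => polar_sign j hα (s k)
    rw [Finset.prod_mul_distrib] at h6
    have h7 : ∏ k, j (ev α (bar (s k))) = ∏ k, j (ev α (s k)) := by
      rw [Fintype.prod_prod_type, Fintype.prod_prod_type]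
      refine Finset.prod_congr rfl fun i _ => ?_
      rw [Fin.prod_univ_two, Fin.prod_univ_two, ev_bar_polar j hα, ev_bar_polar j hα, map_neg,
        map_neg]
      ring
    rw [h7] at h6
    have h8 := (h5.2 hR).mul h6.inv
    have h9 : j (μ * (∏ k, ev α (s k))⁻¹) = (j μ * ∏ k, sgn j (s k)) *
        ((∏ k, j (ev α (s k))) * ∏ k, sgn j (s k))⁻¹ := by
      have e1 : ∏ k, sgn j (s k) ≠ 0 := Finset.prod_ne_zero_iff.2 fun k _ => sgn_ne j (s k)
      rw [map_mul, map_inv₀, map_prod, mul_inv]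
      field_simp
    rw [h9]
    exact h8

/-- The sum. -/
theorem sum_pos' (hC : IsCycleSystem Ω C) (hR : IsRosatiPositive Ω C) (j : L →+* ℂ)
    (hB : Big Y.X j) {α : Y.X.H1} (hα : IsPolar Y.X α)
    {r : ℕ} {z : (TM Ω Y) [⋀^Fin r × Fin 2]→ₗ[Ω] Ω} (hz : C Y _ z)
    (hS : ∀ s : Fin r × Fin 2 → Wt Y.X L, (z fun k => e (s k)) ≠ 0 →
      (z fun k => e (bar (s k))) ≠ 0 → IsPos jO C j Y s)
    (hex : ∃ s : Fin r × Fin 2 → Wt Y.X L, (z fun k => e (s k)) ≠ 0 ∧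
      (z fun k => e (bar (s k))) ≠ 0) :
    ∃ γ : L, ∑ s : Fin r × Fin 2 → Wt Y.X L, (z fun k => e (s k)) *
      (z fun k => JJ jO e α (e (s k))) = jO γ ∧ PosC (j γ) := by
  classical
  have key : ∀ s : Fin r × Fin 2 → Wt Y.X L, ∃ μ : L,
      (z fun k => e (s k)) * (z fun k => JJ jO e α (e (s k))) = jO μ ∧
        (((z fun k => e (s k)) ≠ 0 ∧ (z fun k => e (bar (s k))) ≠ 0 → PosC (j μ)) ∧
          ∃ t : ℝ, 0 ≤ t ∧ j μ = t) := by
    intro s
    by_cases hs : (z fun k => e (s k)) ≠ 0 ∧ (z fun k => e (bar (s k))) ≠ 0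
    · obtain ⟨μ, h2, h3⟩ := term_pos' e h1 h0 hC hR j hB hα hz (hS s hs.1 hs.2) hs.1
      obtain ⟨t, ht, ht2⟩ := h3
      exact ⟨μ, h2, fun _ => ⟨t, ht, ht2⟩, t, ht.le, ht2⟩
    · refine ⟨0, ?_, fun h => absurd h hs, 0, le_rfl, by simp⟩
      rw [x_JJ e h1 h0, map_zero]
      by_cases h2 : (z fun k => e (s k)) = 0
      · rw [h2, zero_mul]
      · have h3 : (z fun k => e (bar (s k))) = 0 := by
          by_contra h3
          exact hs ⟨h2, h3⟩
        rw [h3, mul_zero, mul_zero]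
  choose μ h2 h3 t ht h4 using key
  refine ⟨∑ s, μ s, ?_, ∑ s, t s, ?_, ?_⟩
  · rw [map_sum]
    exact Finset.sum_congr rfl fun s _ => h2 s
  · obtain ⟨s, hs⟩ := hex
    refine Finset.sum_pos' (fun s _ => ht s) ⟨s, Finset.mem_univ s, ?_⟩
    obtain ⟨t', ht', h5⟩ := h3 s hs
    rw [h4] at h5
    have h6 : t s = t' := by exact_mod_cast h5
    rw [h6]
    exact ht'
  · rw [map_sum]
    push_cast
    exact Finset.sum_congr rfl fun s _ => h4 s

/-- Positivity of primitive classes. -/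
theorem positive_of (hC : IsCycleSystem Ω C) (hR : IsRosatiPositive Ω C) (j : L →+* ℂ)
    (hB : Big Y.X j) {α : Y.X.H1} (hα : IsPolar Y.X α) {r m : ℕ}
    (hrm : 2 * (2 * r + m) = finrank ℚ Y.X.H1) {z : (TM Ω Y) [⋀^Fin r × Fin 2]→ₗ[Ω] Ω}
    (hz : C Y _ z)
    (hS : ∀ s : Fin r × Fin 2 → Wt Y.X L, (z fun k => e (s k)) ≠ 0 →
      (z fun k => e (bar (s k))) ≠ 0 → IsPos jO C j Y s)
    (hex : ∃ s : Fin r × Fin 2 → Wt Y.X L, (z fun k => e (s k)) ≠ 0 ∧
      (z fun k => e (bar (s k))) ≠ 0)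
    (hprim : IsPrim α m z) : IsPosClass α m z := by
  classical
  obtain ⟨θ, hθ⟩ := exists_theta (Ω := Ω) (jO := jO) j hα
  have hθr := res_theta j hB hθ
  have hCθ : C Y (Fin 2) θ := theta_mem hC hα hθr
  have hpow := powE_one hθr
  have hprim' := prim_ext hθr hprim
  obtain ⟨γ, hγ, hpos⟩ := sum_pos' e h1 h0 hC hR j hB hα hz hS hex
  have hmain' : ∀ v : (Fin r × Fin 2) ⊕ ((Fin r × Fin 2) ⊕ (Fin m × Fin 2)) → Y.X.H1,
      (-1) ^ r * altSum (times (res z) (times (res z)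
        (powE (castE Ω (riemannForm Y.X α)) m))) v =
      RK.cst r m (jO γ) * altSum (times (powE (castE Ω (riemannForm Y.X α)) r)
        (times (powE (castE Ω (riemannForm Y.X α)) r)
          (powE (castE Ω (riemannForm Y.X α)) m))) v := by
    intro v
    rw [hr_formula e h1 h0 j hα hθ hθr hprim' v, hγ]
  -- the constant is rational
  obtain ⟨v0, V0, hv0, hvol⟩ := exists_vol (Ω := Ω) hα hrm
  obtain ⟨Θ, a, ha, hΘ, hΘv⟩ := power_mem hC hCθ m
  have hW : C Y _ (cupO z (cupO z Θ)) :=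
    hC.cup z _ hz (hC.cup z Θ hz hΘ _ fun v => cupO_apply z Θ v) _ fun v =>
      cupO_apply z (cupO z Θ) v
  obtain ⟨b, hb⟩ := hC.top (cupO z (cupO z Θ)) (by
    rw [← hrm, Nat.card_eq_fintype_card]
    simp only [Fintype.card_prod, Fintype.card_fin, Fintype.card_sum]
    ring) hW v0
  have hWv : ∀ w : (Fin r × Fin 2) ⊕ ((Fin r × Fin 2) ⊕ (Fin m × Fin 2)) → TM Ω Y,
      cupO z (cupO z Θ) w = ((Fintype.card (Perm ((Fin r × Fin 2) ⊕ (Fin m × Fin 2))) : ℕ) : Ω) *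
        ((a : Ω) * ((Fintype.card (Perm (Fin m × Fin 2)) : ℕ) : Ω)) *
          altSum (times z (times z (powE (fun a b => θ ![a, b]) m))) w := by
    intro w
    have h2 : ∀ u, cupO z Θ u = (a : Ω) * ((Fintype.card (Perm (Fin m × Fin 2)) : ℕ) : Ω) *
        altSum (times z (powE (fun a b => θ ![a, b]) m)) u := by
      intro u
      rw [cupO_apply, mul_assoc, ← altSum_absorb, ← altSum_const_mul]
      congr 1
      funext x
      unfold times
      rw [hΘv]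
      ring
    rw [cupO_apply, mul_comm ((Fintype.card (Perm ((Fin r × Fin 2) ⊕ (Fin m × Fin 2))) : ℕ) : Ω),
      mul_assoc, ← altSum_absorb, ← altSum_const_mul]
    congr 1
    funext x
    unfold times
    rw [h2]
    unfold times
    ring
  have e0 : res (cupO z (cupO z Θ)) v0 =
      ((Fintype.card (Perm ((Fin r × Fin 2) ⊕ (Fin m × Fin 2))) : ℕ) : Ω) *
        ((a : Ω) * ((Fintype.card (Perm (Fin m × Fin 2)) : ℕ) : Ω)) *
          altSum (times (res z) (times (res z)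
        (powE (castE Ω (riemannForm Y.X α)) m))) v0 := by
    change cupO z (cupO z Θ) (fun i => (1 : Ω) ⊗ₜ[ℚ] v0 i) = _
    rw [hWv]
    congr 1
    unfold altSum
    refine Finset.sum_congr rfl fun σ _ => ?_
    congr 1
    unfold times
    rw [hpow]
    rfl
  set N : ℚ := (Fintype.card (Perm ((Fin r × Fin 2) ⊕ (Fin m × Fin 2))) : ℕ) *
    (a * (Fintype.card (Perm (Fin m × Fin 2)) : ℕ)) with hN
  have hN0 : N ≠ 0 := mul_ne_zero (Nat.cast_ne_zero.2 Fintype.card_ne_zero)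
    (mul_ne_zero ha (Nat.cast_ne_zero.2 Fintype.card_ne_zero))
  set D : ℚ := cD r m with hD
  have hD0 : 0 < D := cD_pos r m
  have hmm := hmain' v0
  rw [hvol, cst_eq] at hmm
  have hq : jO γ = (((-1) ^ r * b / (N * D * V0) : ℚ) : Ω) := by
    have e1 : ((N : ℚ) : Ω) ≠ 0 := Rat.cast_ne_zero.2 hN0
    have e2 : ((D : ℚ) : Ω) ≠ 0 := Rat.cast_ne_zero.2 hD0.ne'
    have e3 : ((V0 : ℚ) : Ω) ≠ 0 := Rat.cast_ne_zero.2 hv0
    rw [hb] at e0
    have e4 : (b : Ω) = (N : Ω) * altSum (times (res z) (times (res z)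
        (powE (castE Ω (riemannForm Y.X α)) m))) v0 := by
      rw [e0, hN]
      push_cast
      ring
    push_cast
    rw [e4]
    field_simp
    linear_combination (-1 : Ω) * hmm
  have hq0 := rat_of_pos j jO hpos hq
  refine ⟨D * ((-1) ^ r * b / (N * D * V0)), mul_pos hD0 hq0, fun v => ?_⟩
  rw [hmain' v, cst_eq, hq, Rat.cast_mul]

end

end

end Pool.Agent.Q43.HN
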