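import Pool.Agent.Q43.HN.Form

/-!
# The monomials of Weil type are positive
-/

set_option autoImplicit false
set_option linter.unusedSectionVars false
set_option linter.unusedVariables false

namespace Pool.Agent.Q43.HN

open NumberField Pool.Agent.H204R3.CM Pool.Agent.W547.KB Pool.Agent.W547.LD Pool.Agent.W547.HR
  Pool.Agent.W495.TA Pool.Agent.TH117.PO Module Pool.Agent.W976.TA Equiv
open scoped TensorProduct

noncomputable section

variable {p : ℕ} [Fact p.Prime] {ν : PadicAlgCl p ≃+* ℂ} {Ω : Type} [Field Ω] [CharZero Ω]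
  {C : (Y : RedAV p ν) → (κ : Type) → ((TM Ω Y) [⋀^κ]→ₗ[Ω] Ω) → Prop}
  {L : Type} [Field L] [NumberField L] [IsCMField L] [IsGalois ℚ L]
  {jO : L →+* Ω} {j : L →+* ℂ} {Y : RedAV p ν}

theorem conj_of_sq {E : Type} [Field E] [NumberField E] [IsCMField E] {t : E} {d : ℕ}
    (hd : 0 < d) (ht : t ^ 2 = -(d : E)) : IsCMField.complexConj E t = -t := by
  obtain ⟨φ⟩ : Nonempty (E →+* ℂ) := inferInstance
  apply φ.injective
  rw [IsCMField.complexEmbedding_complexConj, map_neg]
  have h1 := congrArg φ ht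
  rw [map_pow, map_neg, map_natCast] at h1
  have h2 := congrArg Complex.re h1
  have h3 := congrArg Complex.im h1
  rw [sq, Complex.mul_re, Complex.neg_re, Complex.natCast_re] at h2
  rw [sq, Complex.mul_im, Complex.neg_im, Complex.natCast_im] at h3
  have hd0 : (0 : ℝ) < d := by exact_mod_cast hd
  have h4 : (φ t).re = 0 := by
    have h5 : (φ t).re * (φ t).im = 0 := by linarith
    rcases mul_eq_zero.1 h5 with h6 | h6
    · exact h6
    · rw [h6] at h2
      nlinarith [mul_self_nonneg (φ t).re]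
  apply Complex.ext
  · rw [Complex.conj_re, Complex.neg_re, h4, neg_zero]
  · rw [Complex.conj_im, Complex.neg_im]

theorem riemann_mulA {X : CMAV} {θ : X.H1} {d : ℕ} (hd : 0 < d)
    (hθ : ∀ i, θ i ^ 2 = -((d : ℕ) : (X.factor i).E)) (α v w : X.H1) :
    riemannForm X α (mulA θ v) w = -riemannForm X α v (mulA θ w) := by
  unfold riemannForm
  rw [← Finset.sum_neg_distrib]
  refine Finset.sum_congr rfl fun i _ => ?_
  rw [← map_neg]
  congr 1
  change α i * IsCMField.complexConj (X.factor i).E (θ i * v i) * w i =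
    -(α i * IsCMField.complexConj (X.factor i).E (v i) * (θ i * w i))
  rw [map_mul, conj_of_sq hd (hθ i)]
  ring

theorem mulA_sq {X : CMAV} {θ : X.H1} {d : ℕ}
    (hθ : ∀ i, θ i ^ 2 = -((d : ℕ) : (X.factor i).E)) (w : X.H1) :
    mulA θ (mulA θ w) = -((d : ℚ) • w) := by
  funext i
  change θ i * (θ i * w i) = -((d : ℚ) • w i)
  rw [← mul_assoc, ← sq, hθ i, Rat.smul_def, Rat.cast_natCast]
  ring

/-- Families of weights of the type `+`. -/
theorem perm_of_up {X : CMAV} {κ : Type} [Finite κ] {P : Wt X L → Prop} {J : κ → Wt X L}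
    (hJi : Function.Injective J) (hJ : ∀ w, P w → ∃ k, J k = w) {s : κ → Wt X L}
    (hs : Function.Injective s) (hsP : ∀ k, P (s k)) : ∃ σ : Perm κ, s = J ∘ σ := by
  choose f hf using fun k => hJ (s k) (hsP k)
  have hfi : Function.Injective f := by
    intro k k' h
    apply hs
    rw [← hf, ← hf, h]
  refine ⟨Equiv.ofBijective f (Finite.injective_iff_bijective.1 hfi), ?_⟩
  funext k
  exact (hf k).symm

/-- The monomial of the weights of the type `+` is positive if some class has a nonzero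
coefficient. -/
theorem weil_pos' (hC : IsCycleSystem Ω C) (hW : IsWeilPositive Ω C) (hB : Big Y.X j)
    (e : Basis (Wt Y.X L) Ω (TM Ω Y)) (h1 : ∀ w, co jO w (e w) = 1)
    (h0 : ∀ w w', w ≠ w' → co jO w (e w') = 0) {θ : Y.X.H1} {d : ℕ} (hd : 0 < d)
    (hθ : ∀ i, θ i ^ 2 = -((d : ℕ) : (Y.X.factor i).E)) {r : ℕ} (hr : 0 < r)
    {J : Fin r × Fin 2 → Wt Y.X L} (hJi : Function.Injective J) (hJ : ∀ k, Up j θ (J k))
    (hJ' : ∀ w, Up j θ w → ∃ k, J k = w) {y : (TM Ω Y) [⋀^Fin r × Fin 2]→ₗ[Ω] Ω}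
    (hy : C Y _ y) (hyJ : (y fun k => e (J k)) ≠ 0) (hyJ' : (y fun k => e (bar (J k))) ≠ 0) :
    IsPos jO C j Y J := by
  classical
  let k₀ : Fin r × Fin 2 := (⟨0, hr⟩, 0)
  obtain ⟨z, hz, hzJ, hzJ'', hmix⟩ := exists_weil hC e h1 h0 hd hθ k₀ hJ hy hyJ
  have hzJ' := hzJ'' hyJ'
  obtain ⟨α, hα⟩ := exists_polar Y.X
  have hcard : finrank ℚ Y.X.H1 = 4 * r := by
    have hb : Function.Bijective (Sum.elim J fun k => bar (J k)) := by
      constructor
      · refine Function.Injective.sumElim hJi (fun k k' h => hJi (bar_injective h)) ?_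
        intro k k' h
        have h2 := hJ k
        rw [h] at h2
        exact (up_bar hd hθ (J k')).1 h2 (hJ k')
      · intro w
        by_cases hw : Up j θ w
        · obtain ⟨k, hk⟩ := hJ' w hw
          exact ⟨Sum.inl k, hk⟩
        · obtain ⟨k, hk⟩ := hJ' (bar w) ((up_bar hd hθ w).2 hw)
          refine ⟨Sum.inr k, ?_⟩
          change bar (J k) = w
          rw [hk, bar_bar]
    rw [← Pool.Agent.W67.TA.card_wt j hB, ← Nat.card_eq_of_bijective _ hb,
      Nat.card_eq_fintype_card, Fintype.card_sum, Fintype.card_prod, Fintype.card_fin,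
      Fintype.card_fin]
    ring
  obtain ⟨θ', hθ'⟩ := exists_theta (Ω := Ω) (jO := jO) j hα
  have hθr := res_theta j hB hθ'
  have hprim' := weil_prim e h1 h0 hθ' hd hθ hmix hJ'
  -- the terms
  let T : (Fin r × Fin 2 → Wt Y.X L) → Ω := fun s => (z fun k => e (s k)) *
    (z fun k => JJ jO e α (e (s k)))
  have hT : ∀ s, T s = (z fun k => e (s k)) *
      ((∏ k, jO (ev α (s k)))⁻¹ * z fun k => e (bar (s k))) := by
    intro s
    change _ * _ = _
    rw [x_JJ e h1 h0]
  have hsg : ∀ σ : Perm (Fin r × Fin 2), ((Perm.sign σ : ℤ) : Ω) * ((Perm.sign σ : ℤ) : Ω) = 1 := by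
    intro σ
    rw [← Int.cast_mul, ← Units.val_mul, Int.units_mul_self, Units.val_one, Int.cast_one]
  have hTσ : ∀ (s : Fin r × Fin 2 → Wt Y.X L) (σ : Perm (Fin r × Fin 2)), T (s ∘ σ) = T s := by
    intro s σ
    rw [hT, hT]
    have e1 : (z fun k => e ((s ∘ σ) k)) = ((Perm.sign σ : ℤ) : Ω) * z fun k => e (s k) := by
      have := z.map_perm (fun k => e (s k)) σ
      rw [Units.smul_def, zsmul_eq_mul] at this
      exact this
    have e2 : (z fun k => e (bar ((s ∘ σ) k))) = ((Perm.sign σ : ℤ) : Ω) *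
        z fun k => e (bar (s k)) := by
      have := z.map_perm (fun k => e (bar (s k))) σ
      rw [Units.smul_def, zsmul_eq_mul] at this
      exact this
    have e3 : ∏ k, jO (ev α ((s ∘ σ) k)) = ∏ k, jO (ev α (s k)) :=
      Fintype.prod_equiv σ _ _ fun k => rfl
    rw [e1, e2, e3]
    linear_combination ((z fun k => e (s k)) * (∏ k, jO (ev α (s k)))⁻¹ *
      z fun k => e (bar (s k))) * hsg σ
  have hprodbar : ∀ s : Fin r × Fin 2 → Wt Y.X L, ∏ k, ev α (bar (s k)) = ∏ k, ev α (s k) := by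
    intro s
    rw [Fintype.prod_prod_type, Fintype.prod_prod_type]
    refine Finset.prod_congr rfl fun i _ => ?_
    rw [Fin.prod_univ_two, Fin.prod_univ_two, ev_bar_polar j hα, ev_bar_polar j hα]
    ring
  have hTbar : ∀ s : Fin r × Fin 2 → Wt Y.X L, T (fun k => bar (s k)) = T s := by
    intro s
    rw [hT, hT]
    have e1 : (fun k => e (bar (bar (s k)))) = fun k => e (s k) := funext fun k => by
      rw [bar_bar]
    rw [e1, ← map_prod, hprodbar s, map_prod]
    ring
  -- the support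
  have hTinj : ∀ s, T s ≠ 0 → Function.Injective s := by
    intro s hs k k' hk
    by_contra hne
    apply hs
    rw [hT, z.map_eq_zero_of_eq _ (by rw [hk]) hne, zero_mul]
  have hTup : ∀ s, T s ≠ 0 → (∀ k, Up j θ (s k)) ∨ ∀ k, Up j θ (bar (s k)) := by
    intro s hs
    have h2 : ¬ Mixed j θ s := by
      intro hm
      apply hs
      rw [hT, hmix s hm, zero_mul]
    by_cases hall : ∀ k, Up j θ (s k)
    · exact Or.inl hall
    · push Not at hall
      obtain ⟨l, hl⟩ := hall
      refine Or.inr fun k => (up_bar hd hθ _).2 fun hk => h2 ⟨⟨k, hk⟩, l, hl⟩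
  let f : Perm (Fin r × Fin 2) ⊕ Perm (Fin r × Fin 2) → (Fin r × Fin 2 → Wt Y.X L) :=
    Sum.elim (fun σ => J ∘ σ) fun σ => (fun k => bar (J k)) ∘ σ
  have hfi : Function.Injective f := by
    refine Function.Injective.sumElim ?_ ?_ ?_
    · intro σ τ h
      exact Equiv.ext fun k => hJi (congrFun h k)
    · intro σ τ h
      exact Equiv.ext fun k => hJi (bar_injective (congrFun h k))
    · intro σ τ h
      have h2 := congrFun h k₀
      have h3 := hJ (σ k₀)
      have h4 : J (σ k₀) = bar (J (τ k₀)) := h2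
      rw [h4] at h3
      exact (up_bar hd hθ _).1 h3 (hJ _)
  have hsum : ∑ s, T s = 2 * ((Fintype.card (Perm (Fin r × Fin 2)) : ℕ) : Ω) * T J := by
    have h2 : ∑ x, T (f x) = ∑ s, T s := by
      refine Fintype.sum_of_injective f hfi _ _ ?_ fun x => rfl
      intro s hs
      by_contra hne
      apply hs
      rcases hTup s hne with h | h
      · obtain ⟨σ, hσ⟩ := perm_of_up hJi hJ' (hTinj s hne) h
        exact ⟨Sum.inl σ, hσ.symm⟩
      · obtain ⟨σ, hσ⟩ := perm_of_up hJi hJ' (s := fun k => bar (s k))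
          (fun k k' hk => hTinj s hne (bar_injective hk)) h
        refine ⟨Sum.inr σ, ?_⟩
        funext k
        have h3 : bar (s k) = J (σ k) := congrFun hσ k
        change bar (J (σ k)) = s k
        rw [← h3, bar_bar]
    rw [← h2, Fintype.sum_sum_type]
    have e1 : ∀ σ : Perm (Fin r × Fin 2), T (f (Sum.inl σ)) = T J := fun σ => hTσ J σ
    have e2 : ∀ σ : Perm (Fin r × Fin 2), T (f (Sum.inr σ)) = T J := fun σ =>
      (hTσ (fun k => bar (J k)) σ).trans (hTbar J)
    rw [Finset.sum_congr rfl fun σ _ => e1 σ, Finset.sum_congr rfl fun σ _ => e2 σ,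
      Finset.sum_const, Finset.card_univ, nsmul_eq_mul]
    ring
  have hTJ : T J ≠ 0 := by
    rw [hT]
    refine mul_ne_zero hzJ (mul_ne_zero (inv_ne_zero ?_) hzJ')
    exact Finset.prod_ne_zero_iff.2 fun k _ => (map_ne_zero jO).2 (ev_polar_ne j hα _)
  have hsum0 : ∑ s, T s ≠ 0 := by
    rw [hsum]
    exact mul_ne_zero (mul_ne_zero two_ne_zero (Nat.cast_ne_zero.2 Fintype.card_ne_zero)) hTJ
  have hpos : IsPosClass α 0 z := by
    refine hW r hcard α hα d (mulA θ) hd (isHom_mulA θ) (mulA_sq hθ) (riemann_mulA hd hθ α) z hz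
      ?_ (weil_linear_res e h1 h0 hd hθ hmix)
    exact not_num e h1 h0 hC j hB hα hθ' hθr (m := 0) (by rw [hcard]; ring) hz hprim' hsum0
  obtain ⟨q, hq, hqs⟩ := sum_of_pos e h1 h0 j hα hθ' hθr (m := 0) (by rw [hcard]; ring) hprim'
    hpos
  have hqs' : ∑ s, T s = (q : Ω) := hqs
  set F : ℚ := ((Fintype.card (Perm (Fin r × Fin 2)) : ℕ) : ℚ) with hF
  have hF0 : 0 < F := Nat.cast_pos.2 Fintype.card_pos
  have hev0 : ∏ k, ev α (J k) ≠ 0 := Finset.prod_ne_zero_iff.2 fun k _ => ev_polar_ne j hα _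
  refine ⟨z fun k => e (J k), z fun k => e (bar (J k)), ((q / (2 * F) : ℚ) : L) * ∏ k, ev α (J k),
    Ln_coef hC j hB e h1 h0 hz hJi, ?_, ?_⟩
  · have h2 : T J = ((q / (2 * F) : ℚ) : Ω) := by
      have h3 : (2 * ((F : ℚ) : Ω)) ≠ 0 :=
        mul_ne_zero two_ne_zero (Rat.cast_ne_zero.2 hF0.ne')
      have h4 : (2 * ((F : ℚ) : Ω)) * T J = (q : Ω) := by
        rw [← hqs', hsum, hF, Rat.cast_natCast]
      push_cast
      rw [eq_div_iff h3, mul_comm]
      exact h4
    rw [hT] at h2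
    rw [map_mul, map_ratCast, ← h2, map_prod]
    have h5 : ∏ k, jO (ev α (J k)) ≠ 0 := by
      rw [← map_prod]
      exact (map_ne_zero jO).2 hev0
    field_simp
  · have h6 : PosC (∏ k, (j (ev α (bar (J k))) * sgn j (J k))) :=
      PosC.prod _ _ fun k _ => polar_sign j hα (J k)
    rw [Finset.prod_mul_distrib, ← map_prod, hprodbar J] at h6
    have h7 : PosC (((q / (2 * F) : ℚ) : ℂ)) :=
      ⟨((q / (2 * F) : ℚ) : ℝ), by exact_mod_cast div_pos hq (mul_pos two_pos hF0), by
        push_cast; rfl⟩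
    have h8 := h7.mul h6
    have h9 : (((q / (2 * F) : ℚ) : ℂ)) * (j (∏ k, ev α (J k)) * ∏ k, sgn j (J k)) =
        j (((q / (2 * F) : ℚ) : L) * ∏ k, ev α (J k)) * ∏ k, sgn j (J k) := by
      rw [map_mul, map_ratCast]
      ring
    rw [h9] at h8
    exact h8.posR

/-- The same for arbitrary index sets. -/
theorem weil_pos (hC : IsCycleSystem Ω C) (hW : IsWeilPositive Ω C) (hB : Big Y.X j)
    (e : Basis (Wt Y.X L) Ω (TM Ω Y)) (h1 : ∀ w, co jO w (e w) = 1)
    (h0 : ∀ w w', w ≠ w' → co jO w (e w') = 0) {θ : Y.X.H1} {d : ℕ} (hd : 0 < d)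
    (hθ : ∀ i, θ i ^ 2 = -((d : ℕ) : (Y.X.factor i).E)) {κ : Type} [Fintype κ] [DecidableEq κ]
    (heven : Even (Fintype.card κ)) {J : κ → Wt Y.X L} (hJi : Function.Injective J)
    (hJ : ∀ k, Up j θ (J k)) (hJ' : ∀ w, Up j θ w → ∃ k, J k = w)
    {y : (TM Ω Y) [⋀^κ]→ₗ[Ω] Ω} (hy : C Y _ y) (hyJ : (y fun k => e (J k)) ≠ 0)
    (hyJ' : (y fun k => e (bar (J k))) ≠ 0) : IsPos jO C j Y J := by
  classical
  obtain ⟨r, hr⟩ := heven
  rcases Nat.eq_zero_or_pos r with hr0 | hr0
  · have : IsEmpty κ := Fintype.card_eq_zero_iff.1 (by omega)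
    exact IsPos.empty hC J
  let ε : κ ≃ Fin r × Fin 2 := Fintype.equivOfCardEq (by
    rw [Fintype.card_prod, Fintype.card_fin, Fintype.card_fin]
    omega)
  have h2 := weil_pos' (jO := jO) hC hW hB e h1 h0 hd hθ hr0 (J := fun k => J (ε.symm k))
    (fun k k' h => ε.symm.injective (hJi h)) (fun k => hJ _) (fun w hw => by
      obtain ⟨k, hk⟩ := hJ' w hw
      exact ⟨ε k, by rw [ε.symm_apply_apply]; exact hk⟩)
    (y := y.domDomCongr ε) (hC.reindex ε y hy) (by
      rw [AlternatingMap.domDomCongr_apply]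
      have h3 : ((fun k => e (J (ε.symm k))) ∘ ε) = fun k => e (J k) := by
        funext k
        change e (J (ε.symm (ε k))) = _
        rw [ε.symm_apply_apply]
      rw [h3]
      exact hyJ) (by
      rw [AlternatingMap.domDomCongr_apply]
      have h3 : ((fun k => e (bar (J (ε.symm k)))) ∘ ε) = fun k => e (bar (J k)) := by
        funext k
        change e (bar (J (ε.symm (ε k)))) = _
        rw [ε.symm_apply_apply]
      rw [h3]
      exact hyJ')
  exact IsPos.reindex hC ε.symm (fun k => rfl) h2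

end

end Pool.Agent.Q43.HN
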