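import Pool.Agent.Q43.HN.Line

/-!
# Classes that are not numerically trivial
-/

set_option autoImplicit false
set_option linter.unusedSectionVars false
set_option linter.unusedVariables false

namespace Pool.Agent.Q43.HN

open NumberField Pool.Agent.H204R3.CM Pool.Agent.W547.KB Pool.Agent.W547.LD Pool.Agent.W547.HR
  Pool.Agent.W495.TA Pool.Agent.TH117.PO Module Pool.Agent.W976.TA Equiv
open scoped TensorProduct

noncomputable section

variable {p : ℕ} [Fact p.Prime] {ν : PadicAlgCl p ≃+* ℂ} {Ω : Type} [Field Ω] [CharZero Ω]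
  {C : (Y : RedAV p ν) → (κ : Type) → ((TM Ω Y) [⋀^κ]→ₗ[Ω] Ω) → Prop}
  {L : Type} [Field L] [NumberField L] [IsCMField L] [IsGalois ℚ L]
  {jO : L →+* Ω} {j : L →+* ℂ} {Y : RedAV p ν}

variable (hC : IsCycleSystem Ω C)
include hC

/-- The complementary family. -/
theorem Ln_compl (j : L →+* ℂ) (hB : Big Y.X j) {κ : Type} [Fintype κ] [DecidableEq κ]
    {I : κ → Wt Y.X L} (hI : Function.Injective I) {κ' : Type} [Fintype κ'] [DecidableEq κ']
    {I' : κ' → Wt Y.X L} (hb : Function.Bijective (Sum.elim I I')) {c c' : Ω}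
    (h : Ln jO C Y I c c') :
    ∃ δ : L, δ ≠ 0 ∧ Ln jO C Y I' (c' * jO δ) (c * jO (cc L δ)) := by
  classical
  let P := prodR Y Y
  let K1 : κ → Wt P.X L := fun k => inrW (bar (I k))
  have h1 : Ln jO C P K1 c' c :=
    Ln.types hC j (Y := P) (I := K1) (J := fun k => bar (I k))
      (fun k k' hk => hI (bar_injective hk)) (fun k => rfl) h.swap
  let K2 : κ' × Fin 2 → Wt P.X L := fun x =>
    ![inlW (I' x.1), inrW (bar (I' x.1))] x.2
  have h2 : Ln jO C P K2 1 1 := by
    have h4 := Ln_pairsF (jO := jO) hC K2 (fun _ => 1) (fun _ => 1) fun i =>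
      Ln_hodge hC j rfl
    rw [Finset.prod_const_one] at h4
    exact h4
  have h3 := Ln.cup hC h1 h2
  rw [mul_one, mul_one] at h3
  let f : κ ⊕ (κ' × Fin 2) ≃ κ' ⊕ (κ ⊕ κ') :=
    { toFun := fun x => match x with
        | Sum.inl k => Sum.inr (Sum.inl k)
        | Sum.inr (k, b) => if b = 0 then Sum.inl k else Sum.inr (Sum.inr k)
      invFun := fun x => match x with
        | Sum.inl k => Sum.inr (k, 0)
        | Sum.inr (Sum.inl k) => Sum.inl k
        | Sum.inr (Sum.inr k) => Sum.inr (k, 1)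
      left_inv := by
        rintro (k | ⟨k, b⟩)
        · rfl
        · fin_cases b <;> rfl
      right_inv := by
        rintro (k | (k | k)) <;> rfl }
  have h5 : Ln jO C P (Sum.elim (fun k => inlW (I' k)) fun x =>
      inrW (bar (Sum.elim I I' x))) c' c := by
    refine Ln.reindex hC f ?_ h3
    rintro (k | ⟨k, b⟩)
    · rfl
    · fin_cases b <;> rfl
  refine Ln.push hC j hB (B := fun x => bar (Sum.elim I I' x)) ?_ h5
  exact (Function.Involutive.bijective (f := (bar : Wt Y.X L → Wt Y.X L)) bar_bar).comp hb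

/-- Combinations with two given coefficients. -/
theorem exists_both {κ : Type} {u v : κ → TM Ω Y} {x y : (TM Ω Y) [⋀^κ]→ₗ[Ω] Ω} (hx : C Y κ x)
    (hy : C Y κ y) (hxu : x u ≠ 0) (hyv : y v ≠ 0) :
    ∃ z : (TM Ω Y) [⋀^κ]→ₗ[Ω] Ω, C Y κ z ∧ z u ≠ 0 ∧ z v ≠ 0 := by
  by_cases h1 : x v = 0
  · by_cases h2 : y u = 0
    · refine ⟨x + y, hC.add _ _ hx hy, ?_, ?_⟩
      · rw [AlternatingMap.add_apply, h2, add_zero]
        exact hxu
      · rw [AlternatingMap.add_apply, h1, zero_add]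
        exact hyv
    · exact ⟨y, hy, h2, hyv⟩
  · exact ⟨x, hx, hxu, h1⟩

/-- From lines to classes. -/
theorem exists_class₂ (j : L →+* ℂ) (hB : Big Y.X j)
    (e : Basis (Wt Y.X L) Ω (TM Ω Y)) (h1 : ∀ w, co jO w (e w) = 1)
    (h0 : ∀ w w', w ≠ w' → co jO w (e w') = 0) {κ : Type} [Fintype κ] [DecidableEq κ]
    {I : κ → Wt Y.X L} (hI : Function.Injective I) {c c' : Ω} (h : Ln jO C Y I c c')
    (hc : c ≠ 0) (hc' : c' ≠ 0) :
    ∃ y : (TM Ω Y) [⋀^κ]→ₗ[Ω] Ω, C Y κ y ∧ (y fun k => e (I k)) ≠ 0 ∧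
      (y fun k => e (bar (I k))) ≠ 0 := by
  obtain ⟨x, hx, hx1⟩ := exists_class hC j hB e h1 h0 hI h hc
  obtain ⟨y, hy, hy1⟩ := exists_class hC j hB e h1 h0 (I := fun k => bar (I k))
    (fun k k' hk => hI (bar_injective hk)) h.swap hc'
  exact exists_both hC hx hy hx1 hy1

/-- A class which is not numerically trivial. -/
theorem exists_of_not_num (j : L →+* ℂ) (hB : Big Y.X j)
    (e : Basis (Wt Y.X L) Ω (TM Ω Y)) (h1 : ∀ w, co jO w (e w) = 1)
    (h0 : ∀ w w', w ≠ w' → co jO w (e w') = 0) {κ : Type} [Fintype κ] [DecidableEq κ]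
    {z : (TM Ω Y) [⋀^κ]→ₗ[Ω] Ω} (hz : C Y κ z) (hnum : ¬ IsNumTrivial Ω C z) :
    ∃ (A : κ → Wt Y.X L) (y : (TM Ω Y) [⋀^κ]→ₗ[Ω] Ω), Function.Injective A ∧ C Y κ y ∧
      (y fun k => e (A k)) ≠ 0 ∧ (y fun k => e (bar (A k))) ≠ 0 ∧ (z fun k => e (A k)) ≠ 0 := by
  classical
  have : Finite (Wt Y.X L) := Pool.Agent.W67.TA.finite_wt j hB
  let _ : Fintype (Wt Y.X L) := Fintype.ofFinite _
  unfold IsNumTrivial at hnum
  push Not at hnum
  obtain ⟨κ', _, _, y, hy, hcard, v, hv⟩ := hnum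
  have h2 : (times z y : _ → Ω) = RK.mulM z.toMultilinearMap y.toMultilinearMap := by
    funext v
    rw [RK.mulM_apply]
    rfl
  set G := RK.mulM z.toMultilinearMap y.toMultilinearMap with hG
  have h3 : ∀ u, altSum G u = MultilinearMap.alternatization G u := by
    intro u
    rw [MultilinearMap.alternatization_apply]
    refine Finset.sum_congr rfl fun σ _ => ?_
    rw [Units.smul_def, zsmul_eq_mul]
    rfl
  have h4 : MultilinearMap.alternatization G ≠ 0 := by
    intro h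
    apply hv
    have h5 : altSum (times (res z) (res y)) v =
        altSum (times z y) fun k => (1 : Ω) ⊗ₜ[ℚ] v k := rfl
    rw [h5, h2, h3, h]
    rfl
  obtain ⟨K, hK, hKne⟩ : ∃ K : κ ⊕ κ' → Wt Y.X L, Function.Injective K ∧
      (MultilinearMap.alternatization G fun i => e (K i)) ≠ 0 := by
    by_contra hcon
    push Not at hcon
    exact h4 (Basis.ext_alternating e fun K hK => hcon K hK)
  rw [MultilinearMap.alternatization_apply] at hKne
  obtain ⟨σ, -, hσ⟩ := Finset.exists_ne_zero_of_sum_ne_zero hKne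
  have h6 : (G.domDomCongr σ) (fun i => e (K i)) = times z y (fun i => e (K (σ i))) := by
    rw [h2]
    rfl
  have h7 : times z y (fun i => e (K (σ i))) ≠ 0 := by
    intro h
    apply hσ
    rw [h6, h, smul_zero]
  unfold times at h7
  have h8 := left_ne_zero_of_mul h7
  have h9 := right_ne_zero_of_mul h7
  let A : κ → Wt Y.X L := fun k => K (σ (Sum.inl k))
  let A' : κ' → Wt Y.X L := fun k => K (σ (Sum.inr k))
  have hAi : Function.Injective A := fun k k' hk => Sum.inl.inj (σ.injective (hK hk))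
  have hAi' : Function.Injective A' := fun k k' hk => Sum.inr.inj (σ.injective (hK hk))
  have hel : Sum.elim A' A = fun x => K (σ x.swap) := by
    funext x
    rcases x with x | x <;> rfl
  have hbi : Function.Injective (Sum.elim A' A) := by
    rw [hel]
    exact hK.comp (σ.injective.comp Sum.swap_rightInverse.injective)
  have hbb : Function.Bijective (Sum.elim A' A) := by
    refine hbi.bijective_of_nat_card_le ?_
    rw [Pool.Agent.W67.TA.card_wt j hB, Nat.card_eq_fintype_card, Fintype.card_sum, ← hcard]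
    omega
  obtain ⟨δ, hδ, h10⟩ := Ln_compl hC j hB hAi' hbb (Ln_coef hC j hB e h1 h0 hy hAi')
  have hδ' : jO (cc L δ) ≠ 0 := (map_ne_zero jO).2 ((map_ne_zero (cc L)).2 hδ)
  obtain ⟨y', hy', hy1⟩ := exists_class hC j hB e h1 h0 (I := fun k => bar (A k))
    (fun k k' hk => hAi (bar_injective hk)) h10.swap (mul_ne_zero h9 hδ')
  obtain ⟨x, hx, hx1, hx2⟩ := exists_both hC hz hy' h8 hy1
  exact ⟨A, x, hAi, hx, hx1, hx2, h8⟩

end

end Pool.Agent.Q43.HN
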