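import Pool.Agent.Q43.HN.Rel
import Pool.Agent.Q43.HN.Num

/-!
# The standard conjecture of Hodge type for controlled relations
-/

set_option autoImplicit false
set_option linter.unusedSectionVars false
set_option linter.unusedVariables false

namespace Pool.Agent.Q43.HN

open NumberField Pool.Agent.H204R3.CM Pool.Agent.W547.KB Pool.Agent.W547.LD Pool.Agent.W547.HR
  Pool.Agent.W495.TA Pool.Agent.W495.TB Pool.Agent.W495.TC Pool.Agent.TH117.F5
  Pool.Agent.TH117.PO Pool.Agent.TH117.BL Module Pool.Agent.W976.TA Equiv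
open scoped TensorProduct

noncomputable section

variable {p : ℕ} [Fact p.Prime] {ν : PadicAlgCl p ≃+* ℂ} {Ω : Type} [Field Ω] [CharZero Ω]
  {C : (Y : RedAV p ν) → (κ : Type) → ((TM Ω Y) [⋀^κ]→ₗ[Ω] Ω) → Prop}

section

variable {L : Type} [Field L] [NumberField L] [IsCMField L] [IsGalois ℚ L]
  {jO : L →+* Ω} {j : L →+* ℂ} {Y Z : RedAV p ν}

/-- Monomials which are combinations of positive monomials. -/
theorem isPos_of_SP (hC : IsCycleSystem Ω C) (e : Basis (Wt Y.X L) Ω (TM Ω Y))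
    (h1 : ∀ w, co jO w (e w) = 1) (h0 : ∀ w w', w ≠ w' → co jO w (e w') = 0) {κ : Type}
    [Fintype κ] [DecidableEq κ] {F : κ → Wt Y.X L} (hF : Function.Injective F)
    (h : monoO jO F ∈ SP jO C j Y κ) : IsPos jO C j Y F := by
  classical
  have h5 : (monoO jO F fun k => e (F k)) ≠ 0 := by
    rw [monoO_det]
    have h6 : (Matrix.of fun k l => co jO (F l) (e (F k))) = 1 := by
      ext a b
      rw [Matrix.of_apply]
      by_cases hab : a = b
      · subst hab
        rw [h1, Matrix.one_apply_eq]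
      · rw [Matrix.one_apply_ne hab]
        exact h0 _ _ fun h => hab (hF h).symm
    rw [h6, Matrix.det_one]
    exact one_ne_zero
  obtain ⟨_, ⟨I, hI, rfl⟩, hg⟩ := exists_of_span h h5
  obtain ⟨σ, hσ⟩ := exists_of_mono hg
  have h2 : ∀ k, I k = F (σ k) := by
    intro k
    by_contra hne
    exact hσ k (h0 _ _ hne)
  exact IsPos.reindex hC σ (fun k => (h2 k).symm) hI

/-- The relation belonging to a class. -/
theorem exists_rel (hC : IsCycleSystem Ω C) (hT : AreTate Ω C) (hYj : Big Y.X j)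
    (hZj : Big Z.X j) (hY : IsPowersTimesSupersingular Z Y) (eb : Basis (Wt Y.X L) Ω (TM Ω Y))
    (h1 : ∀ w, co jO w (eb w) = 1) (h0 : ∀ w w', w ≠ w' → co jO w (eb w') = 0) {r : ℕ}
    {z : (TM Ω Y) [⋀^Fin r × Fin 2]→ₗ[Ω] Ω} (hz : C Y _ z) {I : Fin r × Fin 2 → Wt Y.X L}
    (hI : (z fun k => eb (I k)) ≠ 0) [Fintype (Wt Z.X L)] :
    ∃ (o : Fin r × Fin 2 → Option (Wt Z.X L)) (e : Emb Z → ℕ),
      (∀ k, tf p ν j (St j (I k)) = ext0 (tw p ν j Z.X) (o k)) ∧
      (∀ v, (e (toEmb j Z v) : ℤ) = Pool.Agent.TH117.BL.cnt o v) ∧ IsRel Z e ∧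
      ∑ w, e w ≤ 2 * r := by
  classical
  let ε : Fin r × Fin 2 ≃ Fin (2 * r) := finProdFinEquiv.trans (finCongr (mul_comm r 2))
  obtain ⟨s, hs, hf⟩ := hT (z.domDomCongr ε) (hC.reindex ε z hz)
  have hI2 : (z.domDomCongr ε) (fun k => eb (I (ε.symm k))) ≠ 0 := by
    rw [AlternatingMap.domDomCongr_apply]
    have h3 : ((fun k => eb (I (ε.symm k))) ∘ ε) = fun k => eb (I k) := by
      funext k
      change eb (I (ε.symm (ε k))) = _
      rw [ε.symm_apply_apply]
    rw [h3]
    exact hI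
  have hbal := balanced jO Pool.Agent.W366.TA.val hYj eb h1 h0 s r hs _ hf
    (fun k => I (ε.symm k)) hI2
  have hbal' : ∀ g, ∑ k, tf p ν j (St j (I k)) g = 0 := by
    intro g
    rw [← hbal g]
    exact (Equiv.sum_comp ε.symm fun k => tf p ν j (St j (I k)) g).symm
  choose o ho using fun w => weight_cases hYj hZj hY w
  have hbij := toEmb_bijective (j := j) hZj
  let E : Wt Z.X L ≃ Emb Z := Equiv.ofBijective _ hbij
  let e : Emb Z → ℕ := fun u => Nat.card {k // o (I k) = some (E.symm u)}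
  have he' : ∀ v : Wt Z.X L, e (toEmb j Z v) = Nat.card {k // o (I k) = some v} := by
    intro v
    have h1 : E.symm (toEmb j Z v) = v := E.symm_apply_apply v
    change (Nat.card {k // o (I k) = some (E.symm (toEmb j Z v))} : ℕ) = _
    rw [h1]
  have he : ∀ v : Wt Z.X L, (e (toEmb j Z v) : ℤ) =
      Pool.Agent.TH117.BL.cnt (fun k => o (I k)) v := by
    intro v
    rw [he']
    rfl
  refine ⟨fun k => o (I k), e, fun k => ho (I k), he, ?_, ?_⟩
  · rw [isRel_iff hZj]
    intro σ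
    rw [← hbal' σ]
    have h3 : ∀ k, tf p ν j (St j (I k)) σ = ext0 (tw p ν j Z.X) (o (I k)) σ := fun k => by
      rw [ho (I k)]
    rw [Finset.sum_congr rfl fun k _ => h3 k, sum_eq_cnt]
    exact Finset.sum_congr rfl fun v _ => by rw [he]
  · have h4 : ∑ w, e w = ∑ v : Wt Z.X L, Nat.card {k // o (I k) = some v} := by
      rw [← Equiv.sum_comp E e]
      exact Finset.sum_congr rfl fun v _ => he' v
    rw [h4, ← Nat.card_sigma]
    have h5 : Nat.card (Σ v : Wt Z.X L, {k // o (I k) = some v}) ≤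
        Nat.card (Fin r × Fin 2) := by
      refine Nat.card_le_card_of_injective (fun x => x.2.1) ?_
      rintro ⟨v, k, hk⟩ ⟨v', k', hk'⟩ h
      obtain rfl : k = k' := h
      obtain rfl : v = v' := Option.some_injective _ (hk.symm.trans hk')
      rfl
    refine h5.trans (le_of_eq ?_)
    rw [Nat.card_eq_fintype_card, Fintype.card_prod, Fintype.card_fin, Fintype.card_fin, mul_comm]

/-- Families at which some class has coefficients different from zero are positive. -/
theorem main_pos (hC : IsCycleSystem Ω C) (hW : IsWeilPositive Ω C) (hT : AreTate Ω C)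
    {r : ℕ} (hctl : IsControlled Z r) (hY : IsPowersTimesSupersingular Z Y)
    (hYj : Big Y.X j) (hZj : Big Z.X j) (hkp : BigA (kp p) j)
    (eb : Basis (Wt Y.X L) Ω (TM Ω Y)) (h1 : ∀ w, co jO w (eb w) = 1)
    (h0 : ∀ w w', w ≠ w' → co jO w (eb w') = 0)
    {z : (TM Ω Y) [⋀^Fin r × Fin 2]→ₗ[Ω] Ω} (hz : C Y _ z) {I : Fin r × Fin 2 → Wt Y.X L}
    (hI : (z fun k => eb (I k)) ≠ 0) (hI' : (z fun k => eb (bar (I k))) ≠ 0) :
    ∃ T : CMAV, ∀ (L' : Type) [Field L'] [NumberField L'] [IsCMField L'] [IsGalois ℚ L']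
      (j' : L' →+* ℂ) (u : L →+* L') (jO' : L' →+* Ω), j'.comp u = j → jO'.comp u = jO →
        Big T j' → IsPos jO' C j' Y fun k => uW u (I k) := by
  classical
  have hfin := finite_wt j hZj
  let _ : Fintype (Wt Z.X L) := Fintype.ofFinite _
  obtain ⟨o, e, ho, he, hrel, hle⟩ := exists_rel hC hT hYj hZj hY eb h1 h0 hz hI
  have heven : Even (Fintype.card (Fin r × Fin 2)) := by
    rw [Fintype.card_prod, Fintype.card_fin, Fintype.card_fin]
    exact even_two.mul_left r
  have hIi : Function.Injective I := by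
    intro k k' hk
    by_contra hne
    refine hI (z.map_eq_zero_of_eq _ ?_ hne)
    rw [hk]
  obtain ⟨hfam1, hfam2⟩ := fam_controlled jO hZj hkp o (e := e) he heven (n := 0)
  clear hfam2
  rcases hctl e hrel hle with hmem | ⟨n, hn, hmem⟩
  · -- no norm relation
    have halg : Alg Ω Y (Fin r × Fin 2) (monoO jO I) := hfam1 hmem Y hYj I ho
    obtain ⟨T, hT1⟩ := alg_SP hC halg
    refine ⟨T, fun L' _ _ _ _ j' u jO' hu hO hTj => ?_⟩
    have hYj' := big_ext hu hYj
    obtain ⟨e', h1', h0'⟩ := Pool.Agent.W67.TA.basis p ν Ω L' j' jO' Y hYj'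
    refine isPos_of_SP hC e' h1' h0' (fun k k' hk => hIi (uW_injective hk)) ?_
    have h3 : (monoO jO' (fun k => uW u (I k)) : _ [⋀^Fin r × Fin 2]→ₗ[Ω] Ω) = monoO jO I :=
      monoO_uW hO I
    rw [h3]
    exact hT1 L' j' jO' hTj hYj'
  · -- a norm relation
    have hsum : ∀ σ, ∑ w : Wt Z.X L, (n (toEmb j Z w) : ℤ) * tw p ν j Z.X w σ = 0 := by
      intro σ
      have h3 := sum_closure hZj _ hmem σ
      have h4 := (isRel_iff hZj e).1 hrel σ
      have h5 : ∑ w : Wt Z.X L, ((fun w => (e w : ℤ) - n w) (toEmb j Z w)) * tw p ν j Z.X w σ =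
          ∑ w : Wt Z.X L, (e (toEmb j Z w) : ℤ) * tw p ν j Z.X w σ -
            ∑ w : Wt Z.X L, (n (toEmb j Z w) : ℤ) * tw p ν j Z.X w σ := by
        rw [← Finset.sum_sub_distrib]
        exact Finset.sum_congr rfl fun w _ => by ring
      rw [h5, h4, zero_sub, neg_eq_zero] at h3
      exact h3
    obtain ⟨Y', θ', d, κ', _, _, J, o', hM⟩ := exists_model hZj hn hsum
    obtain ⟨-, hfam2⟩ := fam_controlled jO hZj hkp o (e := e) he heven (n := n)
    have hAlgM := hfam2 Y' θ' d κ' J o' hM hmem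
    have halg : Alg Ω (prodR Y Y') ((Fin r × Fin 2) ⊕ κ')
        (monoO jO (Sum.elim (fun k => inlW (I k)) fun k => inrW (bar (J k)))) := by
      refine hAlgM (prodR Y Y') (big_prodR hYj hM.big) _ ?_
      rintro (k | k)
      · exact ho k
      · rfl
    obtain ⟨T, hT1⟩ := alg_SP hC halg
    refine ⟨T, fun L' _ _ _ _ j' u jO' hu hO hTj => ?_⟩
    have hYj' := big_ext hu hYj
    have hY'j' : Big Y'.X j' := big_ext hu hM.big
    have hPj' : Big (prodR Y Y').X j' := big_prodR hYj' hY'j'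
    obtain ⟨e', h1', h0'⟩ := Pool.Agent.W67.TA.basis p ν Ω L' j' jO' Y hYj'
    obtain ⟨f', h1'', h0''⟩ := Pool.Agent.W67.TA.basis p ν Ω L' j' jO' Y' hY'j'
    obtain ⟨g', h1g, h0g⟩ := Pool.Agent.W67.TA.basis p ν Ω L' j' jO' (prodR Y Y') hPj'
    let A : Fin r × Fin 2 → Wt Y.X L' := fun k => uW u (I k)
    let J' : κ' → Wt Y'.X L' := fun k => uW u (J k)
    have hAi : Function.Injective A := fun k k' hk => hIi (uW_injective hk)
    have hJi : Function.Injective J' := fun k k' hk => hM.inj (uW_injective hk)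
    let B : κ' → Wt Y'.X L' := fun k => bar (J' k)
    have hBi : Function.Injective B := fun k k' hk => hJi (bar_injective hk)
    have hP : IsPos jO' C j' (prodR Y Y')
        (Sum.elim (fun k => inlW (A k)) fun k => inrW (B k)) := by
      refine isPos_of_SP hC g' h1g h0g (inj_two hAi hBi) ?_
      have h3 : (fun x => uW u (Sum.elim (fun k => (inlW (I k) : Wt (prodR Y Y').X L))
          (fun k => inrW (bar (J k))) x)) =
          Sum.elim (fun k => (inlW (A k) : Wt (prodR Y Y').X L')) fun k => inrW (B k) := by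
        funext x
        rcases x with k | k
        · rfl
        · change (inrW (uW u (bar (J k))) : Wt (prodR Y Y').X L') = inrW (bar (uW u (J k)))
          rw [uW_bar hu]
      have h4 := monoO_uW (Y := prodR Y Y') hO
        (Sum.elim (fun k => inlW (I k)) fun k => inrW (bar (J k)))
      rw [h3] at h4
      rw [h4]
      exact hT1 L' j' jO' hTj hPj'
    -- the class on `Y'`
    have hzA : (z fun k => e' (A k)) ≠ 0 := by
      have h3 : (fun k => e' (A k)) = fun k => eb (I k) :=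
        funext fun k => e_uW hu hO hYj eb h1 h0 e' h1' h0' (I k)
      rw [h3]
      exact hI
    have hzA' : (z fun k => e' (bar (A k))) ≠ 0 := by
      have h3 : (fun k => e' (bar (A k))) = fun k => eb (bar (I k)) := by
        funext k
        rw [← e_uW hu hO hYj eb h1 h0 e' h1' h0' (bar (I k)), uW_bar hu]
      rw [h3]
      exact hI'
    have hLz := Ln_coef hC j' hYj' e' h1' h0' hz hAi
    obtain ⟨c, c', μ, hLP, hμ, hμ2⟩ := hP
    have hμ0 : μ ≠ 0 := by
      intro h
      have := hμ2.1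
      rw [h, map_zero, zero_mul] at this
      exact this rfl
    have hcc : c * c' ≠ 0 := by
      rw [hμ]
      exact (map_ne_zero jO').2 hμ0
    have hc : c ≠ 0 := left_ne_zero_of_mul hcc
    have hc' : c' ≠ 0 := right_ne_zero_of_mul hcc
    have hbarA : Function.Injective fun k => bar (A k) := fun k k' hk => hAi (bar_injective hk)
    have hsw : Ln jO' C (prodR Y' Y)
        (Sum.elim (fun k => inlW (J' k)) fun k => inrW (bar (A k))) c' c := by
      have h3 := hLP.swap
      have h4 : Ln jO' C (prodR Y Y')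
          (Sum.elim (fun k => inrW (J' k)) fun k => inlW (bar (A k))) c' c := by
        refine Ln.reindex hC (Equiv.sumComm _ _) ?_ h3
        rintro (k | k)
        · rfl
        · change (inrW (J' k) : Wt (prodR Y Y').X L') = bar (inrW (bar (J' k)))
          have h5 : (bar (inrW (bar (J' k))) : Wt (prodR Y Y').X L') =
            inrW (bar (bar (J' k))) := rfl
          rw [h5, bar_bar]
      have hsrc : Function.Injective (Sum.elim (fun k => (inrW (J' k) : Wt (prodR Y Y').X L'))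
          fun k => inlW (bar (A k))) := by
        have h5 : Sum.elim (fun k => (inrW (J' k) : Wt (prodR Y Y').X L'))
            (fun k => inlW (bar (A k))) =
            (Sum.elim (fun k => (inlW (bar (A k)) : Wt (prodR Y Y').X L'))
              fun k => inrW (J' k)) ∘ Sum.swap := by
          funext x
          rcases x with x | x <;> rfl
        rw [h5]
        exact (inj_two hbarA hJi).comp Sum.swap_rightInverse.injective
      refine Ln.types hC j' hsrc (fun k => ?_) h4
      rcases k with k | k <;> rfl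
    have hLz' : Ln jO' C Y (fun k => bar (bar (A k))) (z fun k => e' (A k))
        (z fun k => e' (bar (A k))) := by
      have h3 : (fun k => bar (bar (A k))) = A := funext fun k => bar_bar _
      rw [h3]
      exact hLz
    obtain ⟨δ, hδ, hLJ⟩ := Ln_contract hC j' hYj' hJi hbarA hsw hLz'
    have hδ1 : jO' δ ≠ 0 := (map_ne_zero jO').2 hδ
    have hδ2 : jO' (cc L' δ) ≠ 0 := (map_ne_zero jO').2 ((map_ne_zero (cc L')).2 hδ)
    obtain ⟨y, hy, hy1, hy2⟩ := exists_class₂ hC j' hY'j' f' h1'' h0'' hJi hLJ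
      (mul_ne_zero (mul_ne_zero hc' hzA) hδ1) (mul_ne_zero (mul_ne_zero hc hzA') hδ2)
    have hJpos : IsPos jO' C j' Y' J' := by
      refine weil_pos hC hW hY'j' f' h1'' h0'' hM.pos hM.sq hM.even hJi
        (fun k => (up_uW hu θ' (J k)).2 (hM.up k)) (fun w hw => ?_) hy hy1 hy2
      obtain ⟨w', rfl⟩ := uW_surjective hu hM.big w
      obtain ⟨k, hk⟩ := hM.surj w' ((up_uW hu θ' w').1 hw)
      exact ⟨k, by rw [← hk]⟩
    refine IsPos_contract hC hY'j' hAi hBi ⟨c, c', μ, hLP, hμ, hμ2⟩ ?_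
    have h3 : (fun k => bar (B k)) = J' := funext fun k => bar_bar _
    rw [h3]
    exact hJpos

end

/-- The product of a finite family. -/
def bigT {S : Type} [Fintype S] (T : S → CMAV) : CMAV :=
  ⟨Σ a : S, (T a).I, fun x => (T x.1).factor x.2⟩

/-- **Main theorem.** -/
theorem main [IsAlgClosed Ω] (hC : IsCycleSystem Ω C) (hR : IsRosatiPositive Ω C)
    (hW : IsWeilPositive Ω C) (hT : AreTate Ω C) {Z Y : RedAV p ν} {r : ℕ}
    (hctl : IsControlled Z r) (hY : IsPowersTimesSupersingular Z Y) {α : Y.X.H1}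
    (hα : IsPolar Y.X α) {m : ℕ} (hrm : 2 * (2 * r + m) = finrank ℚ Y.X.H1)
    {z : (TM Ω Y) [⋀^Fin r × Fin 2]→ₗ[Ω] Ω} (hz : C Y _ z) (hnum : ¬ IsNumTrivial Ω C z)
    (hprim : IsPrim α m z) : IsPosClass α m z := by
  classical
  have hne : Nonempty ((Y.X.prod Z.X).prod (single (kp p))).I := ⟨Sum.inr ()⟩
  obtain ⟨L, _, _, _, _, j, hj⟩ := exists_cm ((Y.X.prod Z.X).prod (single (kp p)))
  have hYj : Big Y.X j := fun i ψ => hj (Sum.inl (Sum.inl i)) ψ
  have hZj : Big Z.X j := fun i ψ => hj (Sum.inl (Sum.inr i)) ψ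
  have hkp : BigA (kp p) j := fun ψ => hj (Sum.inr ()) ψ
  let jO : L →+* Ω := ((IsAlgClosed.lift : L →ₐ[ℚ] Ω) : L →+* Ω)
  obtain ⟨e, h1, h0⟩ := Pool.Agent.W67.TA.basis p ν Ω L j jO Y hYj
  have hfin : Finite (Wt Y.X L) := Pool.Agent.W67.TA.finite_wt j hYj
  let _ : Fintype (Wt Y.X L) := Fintype.ofFinite _
  -- the auxiliary varieties
  have key : ∀ I : Fin r × Fin 2 → Wt Y.X L, ∃ T : CMAV,
      (∃ y : (TM Ω Y) [⋀^Fin r × Fin 2]→ₗ[Ω] Ω, C Y _ y ∧ (y fun k => e (I k)) ≠ 0 ∧
        (y fun k => e (bar (I k))) ≠ 0) →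
      ∀ (L' : Type) [Field L'] [NumberField L'] [IsCMField L'] [IsGalois ℚ L']
      (j' : L' →+* ℂ) (u : L →+* L') (jO' : L' →+* Ω), j'.comp u = j → jO'.comp u = jO →
        Big T j' → IsPos jO' C j' Y fun k => uW u (I k) := by
    intro I
    by_cases hI : ∃ y : (TM Ω Y) [⋀^Fin r × Fin 2]→ₗ[Ω] Ω, C Y _ y ∧
        (y fun k => e (I k)) ≠ 0 ∧ (y fun k => e (bar (I k))) ≠ 0
    · obtain ⟨y, hy, hy1, hy2⟩ := hI
      obtain ⟨T, hTT⟩ := main_pos hC hW hT hctl hY hYj hZj hkp e h1 h0 hy hy1 hy2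
      exact ⟨T, fun _ => hTT⟩
    · exact ⟨Y.X, fun h => absurd h hI⟩
  choose T hTT using key
  obtain ⟨L', _, _, _, _, j', u, jO', hu, hO, hbig⟩ := exists_ext (bigT T) j jO
  have hTbig : ∀ I, Big (T I) j' := fun I i ψ => hbig ⟨I, i⟩ ψ
  have hYj' := big_ext hu hYj
  obtain ⟨e', h1', h0'⟩ := Pool.Agent.W67.TA.basis p ν Ω L' j' jO' Y hYj'
  have hval : ∀ (y : (TM Ω Y) [⋀^Fin r × Fin 2]→ₗ[Ω] Ω) (I : Fin r × Fin 2 → Wt Y.X L),
      (y fun k => e' (uW u (I k))) = y fun k => e (I k) := by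
    intro y I
    congr 1
    exact funext fun k => e_uW hu hO hYj e h1 h0 e' h1' h0' (I k)
  have hval' : ∀ (y : (TM Ω Y) [⋀^Fin r × Fin 2]→ₗ[Ω] Ω) (I : Fin r × Fin 2 → Wt Y.X L),
      (y fun k => e' (bar (uW u (I k)))) = y fun k => e (bar (I k)) := by
    intro y I
    rw [← hval y fun k => bar (I k)]
    congr 1
    exact funext fun k => by rw [uW_bar hu]
  refine positive_of e' h1' h0' hC hR j' hYj' hα hrm hz ?_ ?_ hprim
  · intro s' hs1 hs2
    choose s hs using fun k => uW_surjective hu hYj (s' k)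
    have hss : s' = fun k => uW u (s k) := funext fun k => (hs k).symm
    subst hss
    rw [hval] at hs1
    rw [hval'] at hs2
    exact hTT s ⟨z, hz, hs1, hs2⟩ L' j' u jO' hu hO (hTbig s)
  · obtain ⟨A, y, hA, hy, hy1, hy2, hzA⟩ := exists_of_not_num hC j hYj e h1 h0 hz hnum
    have hpos := hTT A ⟨y, hy, hy1, hy2⟩ L' j' u jO' hu hO (hTbig A)
    have hAi : Function.Injective fun k => uW u (A k) := fun k k' hk => hA (uW_injective hk)
    have hzA' : (z fun k => e' (uW u (A k))) ≠ 0 := by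
      rw [hval]
      exact hzA
    obtain ⟨μ, h4, h5⟩ := hpos.line hC hYj' hAi (Ln_coef hC j' hYj' e' h1' h0' hz hAi) hzA'
    refine ⟨fun k => uW u (A k), hzA', ?_⟩
    intro h6
    rw [h6, mul_zero] at h4
    have h7 : μ = 0 := jO'.injective (by rw [← h4, map_zero])
    have h8 := h5.1
    rw [h7, map_zero, zero_mul] at h8
    exact h8 rfl

end

end Pool.Agent.Q43.HN
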