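import Pool.Agent.Q43.HN.Quad
import Pool.Agent.TH117.BL.Gen

/-!
# Abelian varieties belonging to norm relations
-/

set_option autoImplicit false
set_option linter.unusedSectionVars false
set_option linter.unusedVariables false

namespace Pool.Agent.Q43.HN

open NumberField Pool.Agent.H204R3.CM Pool.Agent.W547.KB Pool.Agent.W547.LD Pool.Agent.W547.HR
  Pool.Agent.W495.TA Pool.Agent.W495.TB Pool.Agent.W495.TC Pool.Agent.TH117.F5
  Pool.Agent.TH117.PO Pool.Agent.TH117.BL Module Pool.Agent.W976.TA Equiv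
open scoped TensorProduct

noncomputable section

variable {p : ℕ} [Fact p.Prime] {ν : PadicAlgCl p ≃+* ℂ}
  {L : Type} [Field L] [NumberField L] [IsCMField L] [IsGalois ℚ L] {j : L →+* ℂ}

theorem tf_tw (Y : RedAV p ν) (w : Wt Y.X L) : tf p ν j (St j w) = tw p ν j Y.X w :=
  tf_hs j (Y.X.factor w.1) w.2

theorem Kq_ext {d : ℕ} {ψ ψ' : Kq d →+* ℂ} (h : ψ (genq d) = ψ' (genq d)) : ψ = ψ' := by
  have hmem : ∀ (x : ℂ) (hx : x ∈ IntermediateField.adjoin ℚ {thq d}),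
      ψ ⟨x, hx⟩ = ψ' ⟨x, hx⟩ := by
    intro x hx
    induction hx using IntermediateField.adjoin_induction with
    | mem x hx =>
      obtain rfl : x = thq d := hx
      exact h
    | algebraMap q =>
      have h2 : (⟨algebraMap ℚ ℂ q, IntermediateField.algebraMap_mem _ q⟩ : Kq d) = (q : Kq d) := by
        apply Subtype.ext
        simp
      refine ((congrArg ψ h2).trans (map_ratCast ψ q)).trans ?_
      exact ((congrArg ψ' h2).trans (map_ratCast ψ' q)).symm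
    | add x y hx hy ihx ihy =>
      have h2 : (⟨x + y, add_mem hx hy⟩ : Kq d) = ⟨x, hx⟩ + ⟨y, hy⟩ := rfl
      have h3 : ψ ⟨x + y, add_mem hx hy⟩ = ψ' ⟨x + y, add_mem hx hy⟩ := by
        rw [h2, map_add, map_add, ihx, ihy]
      exact h3
    | inv x hx ihx =>
      have h2 : (⟨x⁻¹, inv_mem hx⟩ : Kq d) = (⟨x, hx⟩ : Kq d)⁻¹ := rfl
      have h3 : ψ ⟨x⁻¹, inv_mem hx⟩ = ψ' ⟨x⁻¹, inv_mem hx⟩ := by
        rw [h2, map_inv₀, map_inv₀, ihx]
      exact h3
    | mul x y hx hy ihx ihy =>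
      have h2 : (⟨x * y, mul_mem hx hy⟩ : Kq d) = ⟨x, hx⟩ * ⟨y, hy⟩ := rfl
      have h3 : ψ ⟨x * y, mul_mem hx hy⟩ = ψ' ⟨x * y, mul_mem hx hy⟩ := by
        rw [h2, map_mul, map_mul, ihx, ihy]
      exact h3
  ext x
  exact hmem x.1 x.2

/-- The product of powers of the factors. -/
def mX (Z : RedAV p ν) (m : Z.X.I → ℕ) : CMAV :=
  haveI : Fintype {i : Z.X.I // m i ≠ 0} := Fintype.ofFinite _
  ⟨Σ i : {i : Z.X.I // m i ≠ 0}, Fin (m i.1), fun x => Z.X.factor x.1.1⟩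

/-- The same with Frobenius endomorphism. -/
def mR (Z : RedAV p ν) (m : Z.X.I → ℕ) : RedAV p ν where
  X := mX Z m
  a := Z.a
  pos := Z.pos
  π := fun x => Z.π x.1.1
  frob := fun x => Z.frob x.1.1

/-- The square roots of `-d`. -/
def mθ (Z : RedAV p ν) (m : Z.X.I → ℕ) (θ : Z.X.H1) : (mR Z m).X.H1 := fun x => θ x.1.1

/-- The weights of the type `+`. -/
abbrev mK (j : L →+* ℂ) (Z : RedAV p ν) (m : Z.X.I → ℕ) (θ : Z.X.H1) : Type :=
  {w : Wt (mR Z m).X L // Up j (mθ Z m θ) w}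

/-- The labels. -/
def mo (j : L →+* ℂ) (Z : RedAV p ν) (m : Z.X.I → ℕ) (θ : Z.X.H1) (w : mK j Z m θ) :
    Option (Wt Z.X L) := some ⟨w.1.1.1.1, w.1.2⟩

theorem cnt_mo (Z : RedAV p ν) (m : Z.X.I → ℕ) (θ : Z.X.H1) {n : Emb Z → ℕ}
    (hn : ∀ w : Emb Z, (0 < (w.2 (θ w.1)).im → n w = m w.1) ∧ (¬ 0 < (w.2 (θ w.1)).im → n w = 0))
    (v : Wt Z.X L) : cnt (mo j Z m θ) v = n (toEmb j Z v) := by
  classical
  unfold Pool.Agent.TH117.BL.cnt
  by_cases hv : 0 < (j (v.2 (θ v.1))).im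
  · have h1 : n (toEmb j Z v) = m v.1 := (hn (toEmb j Z v)).1 hv
    rw [h1]
    have hne : ∀ i : Fin (m v.1), m v.1 ≠ 0 := fun i h => by
      rw [h] at i
      exact i.elim0
    let f : Fin (m v.1) → {k : mK j Z m θ // mo j Z m θ k = some v} := fun i =>
      ⟨⟨⟨⟨⟨v.1, hne i⟩, i⟩, v.2⟩, hv⟩, rfl⟩
    have hf : Function.Bijective f := by
      constructor
      · intro i i' h
        have h2 := congrArg (fun k : {k : mK j Z m θ // mo j Z m θ k = some v} => k.1.1.1) h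
        have h3 := Sigma.mk.inj_iff.1 h2
        exact eq_of_heq h3.2
      · rintro ⟨⟨⟨⟨⟨i0, h0⟩, t⟩, φ⟩, hup⟩, ho⟩
        have h2 : (⟨i0, φ⟩ : Wt Z.X L) = v := Option.some_injective _ ho
        subst h2
        exact ⟨t, rfl⟩
    rw [← Nat.card_congr (Equiv.ofBijective f hf), Nat.card_eq_fintype_card, Fintype.card_fin]
  · have h1 : n (toEmb j Z v) = 0 := (hn (toEmb j Z v)).2 hv
    rw [h1]
    have h2 : IsEmpty {k : mK j Z m θ // mo j Z m θ k = some v} := by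
      constructor
      rintro ⟨⟨⟨⟨⟨i0, h0⟩, t⟩, φ⟩, hup⟩, ho⟩
      have h2 : (⟨i0, φ⟩ : Wt Z.X L) = v := Option.some_injective _ ho
      subst h2
      exact hv hup
    rw [Nat.card_of_isEmpty]

/-- The data of a model of a norm relation. -/
structure IsModel (j : L →+* ℂ) (Z : RedAV p ν) (n : Emb Z → ℕ) (Y' : RedAV p ν) (θ' : Y'.X.H1)
    (d : ℕ) (κ' : Type) [Fintype κ'] (J : κ' → Wt Y'.X L) (o : κ' → Option (Wt Z.X L)) : Prop where
  big : Big Y'.X j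
  pos : 0 < d
  sq : ∀ i, θ' i ^ 2 = -((d : ℕ) : (Y'.X.factor i).E)
  inj : Function.Injective J
  up : ∀ k, Up j θ' (J k)
  surj : ∀ w, Up j θ' w → ∃ k, J k = w
  even : Even (Fintype.card κ')
  tf_eq : ∀ k, tf p ν j (St j (J k)) = ext0 (tw p ν j Z.X) (o k)
  cnt_eq : ∀ v, cnt o v = n (toEmb j Z v)

/-- Models exist. -/
theorem exists_model_at {Z : RedAV p ν} (hZ : Big Z.X j) {n : Emb Z → ℕ} {d : ℕ}
    {m : Z.X.I → ℕ} {θ : Z.X.H1} (hd : 0 < d)
    (hθ : ∀ i, m i ≠ 0 → θ i ^ 2 = -((d : ℕ) : (Z.X.factor i).E))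
    (hn : ∀ w : Emb Z, (0 < (w.2 (θ w.1)).im → n w = m w.1) ∧ (¬ 0 < (w.2 (θ w.1)).im → n w = 0))
    [Fintype (Wt Z.X L)]
    (hrel : ∀ σ, ∑ w : Wt Z.X L, (n (toEmb j Z w) : ℤ) * tw p ν j Z.X w σ = 0) :
    ∃ (Y' : RedAV p ν) (θ' : Y'.X.H1) (κ' : Type) (_ : Fintype κ') (_ : DecidableEq κ')
      (J : κ' → Wt Y'.X L) (o : κ' → Option (Wt Z.X L)), IsModel j Z n Y' θ' d κ' J o := by
  classical
  have hbig : Big (mR Z m).X j := fun x ψ => hZ x.1.1 ψ
  have hfin : Finite (Wt (mR Z m).X L) := Pool.Agent.W67.TA.finite_wt j hbig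
  let _ : Fintype (mK j Z m θ) := Fintype.ofFinite _
  have hsq : ∀ i, mθ Z m θ i ^ 2 = -((d : ℕ) : ((mR Z m).X.factor i).E) := fun x =>
    hθ x.1.1 x.1.2
  have htf : ∀ k : mK j Z m θ, tf p ν j (St j k.1) = ext0 (tw p ν j Z.X) (mo j Z m θ k) :=
    fun k => tf_tw (mR Z m) k.1
  by_cases heven : Even (Fintype.card (mK j Z m θ))
  · exact ⟨mR Z m, mθ Z m θ, mK j Z m θ, inferInstance, inferInstance, Subtype.val,
      mo j Z m θ, hbig, hd, hsq, Subtype.val_injective, fun k => k.2, fun w hw => ⟨⟨w, hw⟩, rfl⟩,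
      heven, htf, cnt_mo Z m θ hn⟩
  have hfact : Fact (0 < d) := ⟨hd⟩
  have hsum : ∀ σ, ∑ k : mK j Z m θ, tw p ν j (mR Z m).X k.1 σ = 0 := by
    intro σ
    have h1 : ∑ k : mK j Z m θ, ext0 (tw p ν j Z.X) (mo j Z m θ k) σ = 0 := by
      rw [sum_eq_cnt, ← hrel σ]
      exact Finset.sum_congr rfl fun v _ => by rw [cnt_mo Z m θ hn]
    exact h1
  have hnn := nn_kq (p := p) (ν := ν) (j := j) hd hsq Subtype.val_injective
    (J := (Subtype.val : mK j Z m θ → Wt (mR Z m).X L)) (fun k => k.2)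
    (fun w hw => ⟨⟨w, hw⟩, rfl⟩) heven hsum
  obtain ⟨k₀⟩ : Nonempty (mK j Z m θ) := by
    by_contra hcon
    rw [not_nonempty_iff] at hcon
    apply heven
    rw [Fintype.card_eq_zero]
    exact ⟨0, rfl⟩
  have hη2 : (ev (mθ Z m θ) k₀.1) ^ 2 = -(d : L) := ev_sq hsq _
  let E0 : RedAV p ν :=
    { X := single (kq d)
      a := 2
      pos := two_pos
      π := fun _ => (p : Kq d)
      frob := fun _ => exists_red (j := j) hη2 hnn }
  have hE0 : Big E0.X j := fun _ ψ => big_kq d j hη2 ψ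
  obtain ⟨φq, hφq⟩ := factor_Kq d j hη2 (IntermediateField.val _ : Kq d →ₐ[ℚ] ℂ).toRingHom
  have hφim : 0 < (j (φq (genq d))).im := by
    have h1 : j (φq (genq d)) = thq d := RingHom.congr_fun hφq (genq d)
    rw [h1]
    unfold thq
    rw [Complex.mul_im, Complex.I_re, Complex.I_im, Complex.ofReal_re, Complex.ofReal_im,
      mul_one, zero_mul, add_zero]
    exact Real.sqrt_pos.2 (by exact_mod_cast hd)
  let θ2 : (prodR (mR Z m) E0).X.H1 := (mR Z m).X.pair E0.X (mθ Z m θ) fun _ => genq d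
  have hsq2 : ∀ i, θ2 i ^ 2 = -((d : ℕ) : ((prodR (mR Z m) E0).X.factor i).E) := by
    rintro (i | i)
    · exact hsq i
    · exact genq_sq d
  let J2 : mK j Z m θ ⊕ Unit → Wt (prodR (mR Z m) E0).X L :=
    Sum.elim (fun k => inlW k.1) fun _ => inrW ⟨(), φq⟩
  refine ⟨prodR (mR Z m) E0, θ2, mK j Z m θ ⊕ Unit, inferInstance, inferInstance, J2,
    Sum.elim (mo j Z m θ) fun _ => none, big_prodR hbig hE0, hd, hsq2, ?_, ?_, ?_, ?_, ?_, ?_⟩
  · exact inj_two (A := (Subtype.val : mK j Z m θ → Wt (mR Z m).X L))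
      (B := fun _ : Unit => (⟨(), φq⟩ : Wt E0.X L)) Subtype.val_injective
      (fun _ _ _ => rfl)
  · rintro (k | k)
    · exact k.2
    · exact hφim
  · rintro ⟨i | i, φ⟩ hw
    · exact ⟨Sum.inl ⟨⟨i, φ⟩, hw⟩, rfl⟩
    · refine ⟨Sum.inr (), ?_⟩
      change Kq d →+* L at φ
      have h1 : 0 < (j (φ (genq d))).im := hw
      have h2 : φ (genq d) = φq (genq d) := by
        rcases sq_eq_sq_iff_eq_or_eq_neg.1
          ((map_genq_sq d φ).trans (map_genq_sq d φq).symm) with h | h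
        · exact h
        · rw [h, map_neg, Complex.neg_im] at h1
          linarith
      have h3 : φq = φ := by
        have h4 : j.comp φq = j.comp φ := Kq_ext (congrArg j h2.symm)
        ext x
        exact j.injective (RingHom.congr_fun h4 x)
      subst h3
      rfl
  · rw [Fintype.card_sum, Fintype.card_unit]
    exact (Nat.not_even_iff_odd.1 heven).add_one
  · rintro (k | k)
    · exact htf k
    · have h1 : tf p ν j (St j (inrW (⟨(), φq⟩ : Wt E0.X L) : Wt (prodR (mR Z m) E0).X L)) = 0 := by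
        rw [tf_tw]
        exact hnn φq
      exact h1
  · intro v
    rw [← cnt_mo (j := j) Z m θ hn v]
    unfold Pool.Agent.TH117.BL.cnt
    congr 1
    let f : {k : mK j Z m θ // mo j Z m θ k = some v} →
        {k : mK j Z m θ ⊕ Unit // Sum.elim (mo j Z m θ) (fun _ => none) k = some v} :=
      fun k => ⟨Sum.inl k.1, k.2⟩
    have hf : Function.Bijective f := by
      constructor
      · intro k k' h
        exact Subtype.ext (Sum.inl.inj (congrArg Subtype.val h))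
      · rintro ⟨k | k, hk⟩
        · exact ⟨⟨k, hk⟩, rfl⟩
        · exact absurd hk (by simp)
    exact (Nat.card_congr (Equiv.ofBijective f hf)).symm

/-- Models exist. -/
theorem exists_model {Z : RedAV p ν} (hZ : Big Z.X j) {n : Emb Z → ℕ} (hn : IsNorm Z n)
    [Fintype (Wt Z.X L)]
    (hrel : ∀ σ, ∑ w : Wt Z.X L, (n (toEmb j Z w) : ℤ) * tw p ν j Z.X w σ = 0) :
    ∃ (Y' : RedAV p ν) (θ' : Y'.X.H1) (d : ℕ) (κ' : Type) (_ : Fintype κ') (_ : DecidableEq κ')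
      (J : κ' → Wt Y'.X L) (o : κ' → Option (Wt Z.X L)), IsModel j Z n Y' θ' d κ' J o := by
  obtain ⟨d, m, θ, hd, hθ, hn⟩ := hn
  obtain ⟨Y', θ', κ', h1, h2, J, o, hM⟩ := exists_model_at (j := j) hZ hd hθ hn hrel
  exact ⟨Y', θ', d, κ', h1, h2, J, o, hM⟩

end

end Pool.Agent.Q43.HN
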