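import Pool.Agent.Q43.HN.Two

/-!
# Relations which are products of norms to an imaginary quadratic field
-/

set_option autoImplicit false
set_option linter.unusedSectionVars false
set_option linter.unusedVariables false

namespace Pool.Agent.Q43.HN

open NumberField Pool.Agent.H204R3.CM Pool.Agent.W547.KB Pool.Agent.W547.LD Pool.Agent.W547.HR
  Pool.Agent.W495.TA Pool.Agent.W495.TB Pool.Agent.W495.TC Pool.Agent.TH117.F5
  Pool.Agent.TH117.PO Pool.Agent.TH117.BL Module Pool.Agent.W976.TA Equiv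
open scoped TensorProduct

noncomputable section

section

variable {L : Type} [Field L] [NumberField L] [IsCMField L] [IsGalois ℚ L]

/-- A square root belonging to a subgroup of index two. -/
theorem exists_root (j : L →+* ℂ) (H : Subgroup (L ≃ₐ[ℚ] L)) (hc : cc L ∉ H)
    (h2 : ∀ σ, σ ∉ H → cc L * σ ∈ H) :
    ∃ (d : ℕ) (θ : L), 0 < d ∧ θ ^ 2 = -(d : L) ∧ (∀ σ ∈ H, σ θ = θ) ∧
      ∀ σ, σ ∉ H → σ θ = -θ := by
  classical
  have hcc : ∀ x : L, cc L (cc L x) = x := cc_invol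
  obtain ⟨x, hx, hxc⟩ : ∃ x ∈ IntermediateField.fixedField H, cc L x ≠ x := by
    by_contra hcon
    push Not at hcon
    apply hc
    rw [← IntermediateField.fixingSubgroup_fixedField H]
    rw [IntermediateField.mem_fixingSubgroup_iff]
    exact hcon
  have hxH : ∀ σ ∈ H, σ x = x := fun σ hσ => hx ⟨σ, hσ⟩
  set t : L := x - cc L x with ht
  have ht0 : t ≠ 0 := sub_ne_zero.2 (Ne.symm hxc)
  have htH : ∀ σ ∈ H, σ t = t := by
    intro σ hσ
    have h1 : σ (cc L x) = cc L (σ x) := by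
      have := congrArg (fun g : L ≃ₐ[ℚ] L => g x) (cc_comm j σ)
      exact this.symm
    rw [ht, map_sub, h1, hxH σ hσ]
  have htc : cc L t = -t := by
    rw [ht, map_sub, hcc]
    ring
  have htn : ∀ σ, σ ∉ H → σ t = -t := by
    intro σ hσ
    have h1 := htH _ (h2 σ hσ)
    have h3 : cc L (σ t) = t := h1
    have h4 := congrArg (cc L) h3
    rw [hcc, htc] at h4
    exact h4
  have hfix : ∀ σ : L ≃ₐ[ℚ] L, σ (t ^ 2) = t ^ 2 := by
    intro σ
    rw [map_pow]
    by_cases hσ : σ ∈ H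
    · rw [htH σ hσ]
    · rw [htn σ hσ, neg_sq]
  obtain ⟨q, hq⟩ : ∃ q : ℚ, algebraMap ℚ L q = t ^ 2 := (IsGalois.mem_bot_iff_fixed _).2 hfix
  have hneg : q < 0 := by
    have h1 : starRingEnd ℂ (j t) = -j t := by
      rw [← emb_cc, htc, map_neg]
    have h3 : (j t).re = 0 := by
      have := congrArg Complex.re h1
      rw [Complex.conj_re, Complex.neg_re] at this
      linarith
    have h4 : (j t).im ≠ 0 := by
      intro h4
      apply ht0
      apply j.injective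
      rw [map_zero]
      exact Complex.ext h3 h4
    have h5 : ((q : ℚ) : ℂ) = (j t) ^ 2 := by
      rw [← map_pow, ← hq, eq_ratCast, map_ratCast]
    have h6 := congrArg Complex.re h5
    rw [sq, Complex.mul_re, h3, Complex.ratCast_re] at h6
    have h7 : (q : ℝ) < 0 := by
      rw [h6]
      nlinarith [mul_self_pos.2 h4]
    exact_mod_cast h7
  obtain ⟨b, hb⟩ : ∃ b : ℕ, (b : ℤ) = -q.num := ⟨(-q.num).toNat, by
    rw [Int.toNat_of_nonneg]
    have := Rat.num_neg.2 hneg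
    omega⟩
  have hb0 : 0 < b := by
    have := Rat.num_neg.2 hneg
    omega
  refine ⟨b * q.den, (q.den : L) * t, Nat.mul_pos hb0 q.den_pos, ?_, fun σ hσ => ?_,
    fun σ hσ => ?_⟩
  · rw [mul_pow, ← hq, eq_ratCast]
    have h1 : (q : L) * (q.den : L) = (q.num : L) := by
      have := congrArg (fun x : ℚ => (x : L)) (Rat.mul_den_eq_num q)
      push_cast at this
      exact this
    have h3 : (q.num : L) = -(b : L) := by
      have h4 : q.num = -(b : ℤ) := by omega
      rw [h4]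
      push_cast
      rfl
    push_cast
    calc (q.den : L) ^ 2 * (q : L) = ((q : L) * (q.den : L)) * (q.den : L) := by ring
      _ = -((b : L) * (q.den : L)) := by
        rw [h1, h3]
        ring
  · rw [map_mul, htH σ hσ, map_natCast]
  · rw [map_mul, htn σ hσ, map_natCast]
    ring

/-- Elements of subfields. -/
theorem mem_range {E : Type} [Field E] [NumberField E] (φ : E →+* L) {θ : L}
    (h : ∀ σ : L ≃ₐ[ℚ] L, σ • φ = φ → σ θ = θ) : ∃ t : E, φ t = θ := by
  classical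
  let φ' : E →ₐ[ℚ] L := φ.toRatAlgHom
  have h1 : θ ∈ IntermediateField.fixedField (IntermediateField.fixingSubgroup φ'.fieldRange) := by
    intro σ
    refine h σ.1 ?_
    have h2 := (IntermediateField.mem_fixingSubgroup_iff φ'.fieldRange σ.1).1 σ.2
    ext x
    exact h2 (φ' x) ⟨x, rfl⟩
  rw [IsGalois.fixedField_fixingSubgroup] at h1
  obtain ⟨t, ht⟩ := h1
  exact ⟨t, ht⟩

end

variable {p : ℕ} [Fact p.Prime] {ν : PadicAlgCl p ≃+* ℂ}
  {L : Type} [Field L] [NumberField L] [IsCMField L] [IsGalois ℚ L] {j : L →+* ℂ}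
  {Z : RedAV p ν}

/-- Relations on which the Galois group acts by signs are norm relations. -/
theorem exists_norm (hZ : Big Z.X j) [Fintype (Wt Z.X L)] {D : ((L ≃ₐ[ℚ] L) → ℤ) → ℤ}
    (hodd : ∀ f, D (-f) = -D f) (hval : ∀ f, D f ≠ 0 → ∃ l : Wt Z.X L, tw p ν j Z.X l = f)
    (hQ : ∀ σ, (∀ f, D (Rt σ f) = D f) ∨ ∀ f, D (Rt σ f) = -D f)
    (hM : ∀ f, D f ≠ 0 → ∃ l : Wt Z.X L, tw p ν j Z.X l = f ∧
      (Nat.card {φ : (Z.X.factor l.1).E →+* L // tw p ν j Z.X ⟨l.1, φ⟩ = f} : ℤ) ∣ D f) :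
    ∃ n : Emb Z → ℕ, IsNorm Z n ∧ DD (tw p ν j Z.X) (fun l => (n (toEmb j Z l) : ℤ)) = D := by
  classical
  let T := tw p ν j Z.X
  by_cases hD0 : ∀ f, D f = 0
  · refine ⟨fun _ => 0, ⟨1, fun _ => 0, 0, one_pos, fun i h => absurd rfl h, fun w => ⟨fun _ => rfl,
      fun _ => rfl⟩⟩, ?_⟩
    have h1 : (fun l : Wt Z.X L => (((fun _ => 0 : Emb Z → ℕ) (toEmb j Z l) : ℕ) : ℤ)) = 0 := by
      funext l
      rfl
    rw [h1, DD_zero]
    funext f
    exact (hD0 f).symm
  push Not at hD0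
  obtain ⟨f₀, hf₀⟩ := hD0
  obtain ⟨l₀, hl₀⟩ := hval f₀ hf₀
  -- the subgroup
  let H : Subgroup (L ≃ₐ[ℚ] L) :=
    { carrier := {σ | ∀ f, D (Rt σ f) = D f}
      mul_mem' := fun {a b} ha hb f => by rw [Rt_mul, ha, hb]
      one_mem' := fun f => by rw [Rt_one]
      inv_mem' := fun {a} ha f => by
        change D (Rt a⁻¹ f) = D f
        rw [← ha (Rt a⁻¹ f), Rt_inv_self] }
  have hH : ∀ σ, σ ∈ H ↔ ∀ f, D (Rt σ f) = D f := fun σ => Iff.rfl
  have hHn : ∀ σ, σ ∉ H → ∀ f, D (Rt σ f) = -D f := fun σ hσ =>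
    (hQ σ).resolve_left hσ
  have hcT : ∀ l : Wt Z.X L, Rt (cc L) (T l) = -T l := by
    intro l
    rw [← tw_smul]
    exact tw_cw l
  have hcH : cc L ∉ H := by
    intro h
    have h1 : D (Rt (cc L) (T l₀)) = D (T l₀) := h _
    rw [hcT, hodd] at h1
    have h2 : D (T l₀) = D f₀ := congrArg D hl₀
    omega
  obtain ⟨d, θ, hd, hθ, hθ1, hθ2⟩ := exists_root j H hcH (fun σ hσ f => by
    rw [Rt_mul]
    rw [(hHn _ hcH), hHn σ hσ, neg_neg])
  -- the embeddings of a factor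
  have hne : ∀ i : Z.X.I, ∃ φ : (Z.X.factor i).E →+* L, True := by
    intro i
    obtain ⟨ψ⟩ : Nonempty ((Z.X.factor i).E →+* ℂ) := inferInstance
    obtain ⟨φ, -⟩ := hZ i ψ
    exact ⟨φ, trivial⟩
  choose φ₀ _ using hne
  let w₀ : ∀ i : Z.X.I, Wt Z.X L := fun i => ⟨i, φ₀ i⟩
  have htrans : ∀ l : Wt Z.X L, ∃ σ : L ≃ₐ[ℚ] L, l = σ • w₀ l.1 := by
    rintro ⟨i, φ⟩
    obtain ⟨σ, hσ⟩ := Pool.Agent.W547.LN.exists_smul (Z.X.factor i) (φ₀ i) φ
    refine ⟨σ, ?_⟩
    change (⟨i, φ⟩ : Wt Z.X L) = ⟨i, σ • φ₀ i⟩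
    rw [hσ]
  have him : (j θ).im ≠ 0 := by
    intro h
    have h1 := congrArg j hθ
    rw [map_pow, map_neg, map_natCast] at h1
    have h2 := congrArg Complex.re h1
    rw [sq, Complex.mul_re, h, Complex.neg_re, Complex.natCast_re] at h2
    have hd0 : (0 : ℝ) < d := by exact_mod_cast hd
    nlinarith [mul_self_nonneg (j θ).re]
  -- the elements of the CM fields
  have hel : ∀ i : Z.X.I, ∃ t : (Z.X.factor i).E, D (T (w₀ i)) ≠ 0 →
      (t ^ 2 = -((d : ℕ) : (Z.X.factor i).E) ∧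
        (φ₀ i t = θ ∨ φ₀ i t = -θ) ∧ (0 < (j (φ₀ i t)).im ↔ 0 < D (T (w₀ i)))) := by
    intro i
    by_cases hi : D (T (w₀ i)) = 0
    · exact ⟨0, fun h => absurd hi h⟩
    obtain ⟨t, ht⟩ := mem_range (φ₀ i) (θ := θ) (fun σ hσ => by
      by_cases hσH : σ ∈ H
      · exact hθ1 σ hσH
      · exfalso
        have h1 : σ • w₀ i = w₀ i := by
          change (⟨i, σ • φ₀ i⟩ : Wt Z.X L) = ⟨i, φ₀ i⟩
          rw [hσ]
        have h2 : D (Rt σ (T (w₀ i))) = -D (T (w₀ i)) := hHn σ hσH _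
        rw [← tw_smul, h1] at h2
        apply hi
        change D (T (w₀ i)) = -D (T (w₀ i)) at h2
        omega)
    have ht2 : t ^ 2 = -((d : ℕ) : (Z.X.factor i).E) := by
      apply (φ₀ i).injective
      rw [map_pow, ht, hθ, map_neg, map_natCast]
    by_cases hs : 0 < (j θ).im ↔ 0 < D (T (w₀ i))
    · exact ⟨t, fun _ => ⟨ht2, Or.inl ht, by rw [ht]; exact hs⟩⟩
    · refine ⟨-t, fun _ => ⟨by rw [neg_sq]; exact ht2, Or.inr (by rw [map_neg, ht]), ?_⟩⟩
      rw [map_neg, ht, map_neg, Complex.neg_im]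
      by_cases h1 : 0 < (j θ).im
      · have h2 : ¬ 0 < D (T (w₀ i)) := fun h2 => hs ⟨fun _ => h2, fun _ => h1⟩
        exact ⟨fun h3 => absurd h1 (by linarith), fun h3 => absurd h3 h2⟩
      · have h2 : 0 < D (T (w₀ i)) := by
          by_contra h2
          exact hs ⟨fun h => absurd h h1, fun h => absurd h h2⟩
        refine ⟨fun _ => h2, fun _ => ?_⟩
        rcases lt_or_gt_of_ne him with h3 | h3
        · linarith
        · exact absurd h3 h1
  choose t ht using hel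
  -- the signs
  have hDw : ∀ l : Wt Z.X L, D (T l) = D (T (w₀ l.1)) ∨ D (T l) = -D (T (w₀ l.1)) := by
    intro l
    obtain ⟨σ, hσ⟩ := htrans l
    have h1 : T l = Rt σ (T (w₀ l.1)) := by
      rw [← tw_smul]
      exact congrArg T hσ
    rw [h1]
    exact (hQ σ).imp (fun h => h _) fun h => h _
  have hup : ∀ l : Wt Z.X L, D (T (w₀ l.1)) ≠ 0 →
      (0 < (j (l.2 (t l.1))).im ↔ 0 < D (T l)) := by
    intro l hl
    obtain ⟨ht1, ht2, ht3⟩ := ht l.1 hl
    obtain ⟨σ, hσ⟩ := htrans l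
    have h1 : T l = Rt σ (T (w₀ l.1)) := by
      rw [← tw_smul]
      exact congrArg T hσ
    have h2 : l.2 (t l.1) = σ (φ₀ l.1 (t l.1)) := by
      have h3 : ev (fun i => t i) l = ev (fun i => t i) (σ • w₀ l.1) := congrArg _ hσ
      exact h3
    by_cases hσH : σ ∈ H
    · have h3 : σ (φ₀ l.1 (t l.1)) = φ₀ l.1 (t l.1) := by
        rcases ht2 with h | h
        · rw [h, hθ1 σ hσH]
        · rw [h, map_neg, hθ1 σ hσH]
      rw [h2, h3, ht3, h1, (hH σ).1 hσH]
    · have h3 : σ (φ₀ l.1 (t l.1)) = -φ₀ l.1 (t l.1) := by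
        rcases ht2 with h | h
        · rw [h, hθ2 σ hσH]
        · rw [h, map_neg, hθ2 σ hσH]
      rw [h2, h3, h1, hHn σ hσH, map_neg, Complex.neg_im]
      have h4 : (j (φ₀ l.1 (t l.1))).im ≠ 0 := by
        rcases ht2 with h | h
        · rw [h]
          exact him
        · rw [h, map_neg, Complex.neg_im]
          exact neg_ne_zero.2 him
      constructor
      · intro h5
        have h6 : ¬ 0 < D (T (w₀ l.1)) := fun h6 => by
          have := ht3.2 h6
          linarith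
        omega
      · intro h5
        have h6 : ¬ 0 < (j (φ₀ l.1 (t l.1))).im := fun h6 => by
          have := ht3.1 h6
          omega
        rcases lt_or_gt_of_ne h4 with h7 | h7
        · linarith
        · exact absurd h7 h6
  -- representatives
  let s : Setoid (Wt Z.X L) :=
    { r := fun l l' => ∃ σ : L ≃ₐ[ℚ] L, T l' = Rt σ (T l)
      iseqv :=
        { refl := fun l => ⟨1, (Rt_one _).symm⟩
          symm := by
            rintro l l' ⟨σ, hσ⟩
            exact ⟨σ⁻¹, by rw [hσ, Rt_self_inv]⟩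
          trans := by
            rintro l l' l'' ⟨σ, hσ⟩ ⟨τ, hτ⟩
            exact ⟨τ * σ, by rw [hτ, hσ, Rt_mul]⟩ } }
  have hcard : ∀ (i : Z.X.I) (σ : L ≃ₐ[ℚ] L) (f : (L ≃ₐ[ℚ] L) → ℤ),
      Nat.card {φ : (Z.X.factor i).E →+* L // T ⟨i, φ⟩ = f} =
        Nat.card {φ : (Z.X.factor i).E →+* L // T ⟨i, φ⟩ = Rt σ f} := by
    intro i σ f
    refine Nat.card_congr ((MulAction.toPerm σ).subtypeEquiv fun φ => ?_)
    have h1 : T ⟨i, (MulAction.toPerm σ : Perm ((Z.X.factor i).E →+* L)) φ⟩ =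
        Rt σ (T ⟨i, φ⟩) := tw_smul σ ⟨i, φ⟩
    rw [h1]
    constructor
    · intro h
      rw [h]
    · intro h
      rw [← Rt_self_inv σ (T ⟨i, φ⟩), h, Rt_self_inv]
  have hrep : ∀ q : Quotient s, ∃ i : Z.X.I, D (T q.out) ≠ 0 →
      (∃ φ, T ⟨i, φ⟩ = T q.out) ∧
        (Nat.card {φ : (Z.X.factor i).E →+* L // T ⟨i, φ⟩ = T q.out} : ℤ) ∣ D (T q.out) := by
    intro q
    by_cases hq : D (T q.out) = 0
    · exact ⟨q.out.1, fun h => absurd hq h⟩
    · obtain ⟨l, hl, hl2⟩ := hM _ hq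
      exact ⟨l.1, fun _ => ⟨⟨l.2, hl⟩, hl2⟩⟩
  choose ρ hρ using hrep
  let m : Z.X.I → ℕ := fun i => if ρ ⟦w₀ i⟧ = i then
    (D (T (w₀ i))).natAbs / Nat.card {φ : (Z.X.factor i).E →+* L // T ⟨i, φ⟩ = T (w₀ i)} else 0
  have hm0 : ∀ i, D (T (w₀ i)) = 0 → m i = 0 := by
    intro i hi
    change (if ρ ⟦w₀ i⟧ = i then _ else 0) = 0
    rw [hi]
    simp
  let n : Emb Z → ℕ := fun u => if 0 < (u.2 (t u.1)).im then m u.1 else 0
  have hn : ∀ l : Wt Z.X L, n (toEmb j Z l) = if 0 < (j (l.2 (t l.1))).im then m l.1 else 0 :=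
    fun l => rfl
  refine ⟨n, ⟨d, m, t, hd, fun i hi => ?_, fun w => ⟨fun h => if_pos h, fun h => if_neg h⟩⟩, ?_⟩
  · exact (ht i fun h => hi (hm0 i h)).1
  -- the values
  have hn1 : ∀ l : Wt Z.X L, D (T l) = 0 → n (toEmb j Z l) = 0 := by
    intro l hl
    rw [hn]
    have h1 : D (T (w₀ l.1)) = 0 := by
      rcases hDw l with h | h <;> omega
    rw [hm0 _ h1]
    simp
  have hn2 : ∀ l : Wt Z.X L, D (T l) < 0 → n (toEmb j Z l) = 0 := by
    intro l hl
    have h1 : D (T (w₀ l.1)) ≠ 0 := by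
      rcases hDw l with h | h <;> omega
    rw [hn, if_neg]
    rw [hup l h1]
    omega
  have hn3 : ∀ l : Wt Z.X L, 0 < D (T l) → n (toEmb j Z l) = m l.1 := by
    intro l hl
    have h1 : D (T (w₀ l.1)) ≠ 0 := by
      rcases hDw l with h | h <;> omega
    rw [hn, if_pos]
    rw [hup l h1]
    exact hl
  have hpos : ∀ f, 0 < D f → DD T (fun l => (n (toEmb j Z l) : ℤ)) f = D f := by
    intro f hf
    obtain ⟨l₁, hl₁⟩ := hval f (by omega)
    have hl₁' : T l₁ = f := hl₁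
    -- the class
    have hclass : ∀ l : Wt Z.X L, T l = f → (⟦w₀ l.1⟧ : Quotient s) = ⟦l₁⟧ := by
      intro l hl
      refine Quotient.sound ?_
      obtain ⟨σ, hσ⟩ := htrans l
      refine ⟨σ, ?_⟩
      rw [← tw_smul]
      exact (hl₁'.trans hl.symm).trans (congrArg T hσ)
    set q : Quotient s := ⟦l₁⟧ with hq
    obtain ⟨τ, hτ⟩ : ∃ τ : L ≃ₐ[ℚ] L, T l₁ = Rt τ (T q.out) :=
      Quotient.exact (Quotient.out_eq q)
    have hDq : D (T q.out) = D f ∨ D (T q.out) = -D f := by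
      have h1 := hQ τ
      rw [← hl₁', hτ]
      rcases h1 with h | h
      · exact Or.inl (h _).symm
      · right
        rw [h, neg_neg]
    have hρq := hρ q (by rcases hDq with h | h <;> omega)
    obtain ⟨i, hi⟩ : ∃ i, i = ρ q := ⟨_, rfl⟩
    rw [← hi] at hρq
    obtain ⟨⟨φ₁, hφ₁⟩, hdvd⟩ := hρq
    have hfi : T ⟨i, τ • φ₁⟩ = f := by
      have h1 : T ⟨i, τ • φ₁⟩ = Rt τ (T ⟨i, φ₁⟩) := tw_smul τ ⟨i, φ₁⟩
      rw [h1, hφ₁, ← hτ, hl₁']
    set μ : ℕ := Nat.card {φ : (Z.X.factor i).E →+* L // T ⟨i, φ⟩ = f} with hμ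
    have hμd : (μ : ℤ) ∣ D f := by
      have h1 := hcard i τ (T q.out)
      rw [← hτ, hl₁'] at h1
      rw [hμ, ← h1]
      rcases hDq with h | h
      · rw [← h]
        exact hdvd
      · have h2 : D f = -D (T q.out) := by omega
        rw [h2]
        exact dvd_neg.2 hdvd
    -- the exponent
    have hmi : ∀ l : Wt Z.X L, T l = f → m l.1 = if l.1 = i then (D f).natAbs / μ else 0 := by
      intro l hl
      change (if ρ ⟦w₀ l.1⟧ = l.1 then (D (T (w₀ l.1))).natAbs /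
        Nat.card {φ : (Z.X.factor l.1).E →+* L // T ⟨l.1, φ⟩ = T (w₀ l.1)} else 0) = _
      rw [hclass l hl, ← hi]
      by_cases hli : l.1 = i
      · rw [if_pos hli.symm, if_pos hli]
        have h1 : (D (T (w₀ l.1))).natAbs = (D f).natAbs := by
          rw [← hl]
          rcases hDw l with h | h
          · rw [h]
          · rw [h, Int.natAbs_neg]
        have h2 : Nat.card {φ : (Z.X.factor l.1).E →+* L // T ⟨l.1, φ⟩ = T (w₀ l.1)} = μ := by
          obtain ⟨σ, hσ⟩ := htrans l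
          have h3 : Rt σ (T (w₀ l.1)) = f := by
            rw [← tw_smul]
            exact (congrArg T hσ).symm.trans hl
          rw [hcard l.1 σ (T (w₀ l.1)), h3, hμ, hli]
        rw [h1, h2]
      · rw [if_neg fun h => hli h.symm, if_neg hli]
    have hne : f ≠ -f := by
      intro h
      have h1 := hodd f
      rw [← h] at h1
      omega
    rw [DD_eq]
    have h1 : ∀ l : Wt Z.X L, (n (toEmb j Z l) : ℤ) * ((if T l = f then 1 else 0) -
        (if T l = -f then 1 else 0)) =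
        if T l = f ∧ l.1 = i then (((D f).natAbs / μ : ℕ) : ℤ) else 0 := by
      intro l
      by_cases ha : T l = f
      · have hb : ¬ T l = -f := fun hb => hne (ha.symm.trans hb)
        rw [if_pos ha, if_neg hb, sub_zero, mul_one, hn3 l (by rw [ha]; exact hf), hmi l ha]
        by_cases hc : l.1 = i
        · rw [if_pos hc, if_pos ⟨ha, hc⟩]
        · rw [if_neg hc, if_neg fun h => hc h.2]
          rfl
      · rw [if_neg ha, if_neg (show ¬ (T l = f ∧ l.1 = i) from fun h => ha h.1)]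
        by_cases hb : T l = -f
        · rw [hn2 l (by rw [hb, hodd]; omega)]
          simp
        · rw [if_neg hb, sub_zero, mul_zero]
    rw [Finset.sum_congr rfl fun l _ => h1 l, ← Finset.sum_filter, Finset.sum_const, nsmul_eq_mul]
    have h2 : (Finset.univ.filter fun l : Wt Z.X L => T l = f ∧ l.1 = i).card = μ := by
      let g : {φ : (Z.X.factor i).E →+* L // T ⟨i, φ⟩ = f} →
          {l : Wt Z.X L // T l = f ∧ l.1 = i} := fun φ => ⟨⟨i, φ.1⟩, φ.2, rfl⟩
      have hg : Function.Bijective g := by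
        constructor
        · rintro ⟨φ, hφ⟩ ⟨φ', hφ'⟩ h
          have h3 := congrArg Subtype.val h
          have h4 := eq_of_heq (Sigma.mk.inj_iff.1 h3).2
          exact Subtype.ext h4
        · rintro ⟨⟨i', φ⟩, h3, h4⟩
          obtain rfl : i' = i := h4
          exact ⟨⟨φ, h3⟩, rfl⟩
      rw [← Fintype.card_subtype, ← Nat.card_eq_fintype_card, hμ,
        Nat.card_congr (Equiv.ofBijective g hg)]
    rw [h2]
    have h3 : ((μ : ℕ) : ℤ) * (((D f).natAbs / μ : ℕ) : ℤ) = D f := by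
      have h4 : μ ∣ (D f).natAbs := Int.natCast_dvd.1 hμd
      rw [← Nat.cast_mul, Nat.mul_div_cancel' h4]
      exact Int.natAbs_of_nonneg hf.le
    exact h3
  funext f
  rcases lt_trichotomy (D f) 0 with h | h | h
  · have h1 := hpos (-f) (by rw [hodd]; omega)
    rw [DD_odd, hodd] at h1
    omega
  · rw [h, DD_eq]
    refine Finset.sum_eq_zero fun l _ => ?_
    by_cases ha : tw p ν j Z.X l = f
    · rw [hn1 l (by change D (tw p ν j Z.X l) = 0; rw [ha]; exact h)]
      simp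
    · by_cases hb : tw p ν j Z.X l = -f
      · rw [hn1 l (by change D (tw p ν j Z.X l) = 0; rw [hb, hodd, h, neg_zero])]
        simp
      · rw [if_neg ha, if_neg hb, sub_zero, mul_zero]
  · exact hpos f h

end

end Pool.Agent.Q43.HN
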