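import Pool.Agent.Q43.HN.Sep

/-!
# Products of elliptic curves and of simple abelian varieties of different prime dimensions
-/

set_option autoImplicit false
set_option linter.unusedSectionVars false
set_option linter.unusedVariables false

namespace Pool.Agent.Q43.HN

open NumberField Pool.Agent.H204R3.CM Pool.Agent.W547.KB Pool.Agent.W547.LD Pool.Agent.W547.HR
  Pool.Agent.W495.TA Pool.Agent.W495.TB Pool.Agent.W495.TC Pool.Agent.TH117.F5
  Pool.Agent.TH117.PO Pool.Agent.TH117.BL Module Pool.Agent.W976.TA Equiv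
open scoped TensorProduct

noncomputable section

variable {p : ℕ} [Fact p.Prime] {ν : PadicAlgCl p ≃+* ℂ}

variable {L : Type} [Field L] [NumberField L] [IsCMField L] [IsGalois ℚ L] {j : L →+* ℂ}
  {Z : RedAV p ν} {g : Z.X.I → ℕ} (hP : PrimeDims Z g)
  (hcom : ∀ i, g i ≠ 1 → g i ≠ 2 → IsCommutative Z i ∨ HasPRankZero Z i) (hZ : Big Z.X j)
  [Fintype (Wt Z.X L)]

include hP hcom hZ

theorem D_ne {x : Wt Z.X L → ℤ} (hx : Re p ν j Z x) {l₀ l : Wt Z.X L}
    (hne : DD (tw p ν j Z.X) x (tw p ν j Z.X l₀) ≠ 0) (hl : l.1 = l₀.1) :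
    DD (tw p ν j Z.X) x (tw p ν j Z.X l) ≠ 0 := by
  obtain ⟨σ, hσ⟩ := exists_smul j hl.symm
  rw [← hσ]
  rcases sgnD hP hcom hZ hx l₀.1 σ with h | h
  · rw [h l₀ rfl]
    exact hne
  · rw [h l₀ rfl]
    exact neg_ne_zero.2 hne

/-- The sign is determined by one embedding. -/
theorem sign_iff {x : Wt Z.X L → ℤ} (hx : Re p ν j Z x) {l : Wt Z.X L}
    (hne : DD (tw p ν j Z.X) x (tw p ν j Z.X l) ≠ 0) (σ : L ≃ₐ[ℚ] L) :
    (∀ l' : Wt Z.X L, l'.1 = l.1 → DD (tw p ν j Z.X) x (tw p ν j Z.X (σ • l')) =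
      DD (tw p ν j Z.X) x (tw p ν j Z.X l')) ↔
    DD (tw p ν j Z.X) x (tw p ν j Z.X (σ • l)) = DD (tw p ν j Z.X) x (tw p ν j Z.X l) := by
  constructor
  · intro h
    exact h l rfl
  · intro h
    rcases sgnD hP hcom hZ hx l.1 σ with h1 | h1
    · exact h1
    · exfalso
      have h2 := h1 l rfl
      omega

/-- The imaginary quadratic field belonging to the signs. -/
theorem exists_rt {x : Wt Z.X L → ℤ} (hx : Re p ν j Z x) {l : Wt Z.X L}
    (hne : DD (tw p ν j Z.X) x (tw p ν j Z.X l) ≠ 0) :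
    ∃ (d : ℕ) (θ : L) (t : (Z.X.factor l.1).E), 0 < d ∧ θ ^ 2 = -(d : L) ∧
      t ^ 2 = -(d : (Z.X.factor l.1).E) ∧
      (∀ σ : L ≃ₐ[ℚ] L, DD (tw p ν j Z.X) x (tw p ν j Z.X (σ • l)) =
        DD (tw p ν j Z.X) x (tw p ν j Z.X l) → σ θ = θ) ∧
      ∀ σ : L ≃ₐ[ℚ] L, DD (tw p ν j Z.X) x (tw p ν j Z.X (σ • l)) ≠
        DD (tw p ν j Z.X) x (tw p ν j Z.X l) → σ θ = -θ := by
  classical
  let D := DD (tw p ν j Z.X) x
  let H : Subgroup (L ≃ₐ[ℚ] L) :=
    { carrier := {σ | ∀ l' : Wt Z.X L, l'.1 = l.1 → D (tw p ν j Z.X (σ • l')) =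
        D (tw p ν j Z.X l')}
      mul_mem' := fun {a b} ha hb l' hl' => by
        rw [mul_smul, ha (b • l') hl', hb l' hl']
      one_mem' := fun l' _ => by rw [one_smul]
      inv_mem' := fun {a} ha l' hl' => by
        rw [← ha (a⁻¹ • l') hl', smul_inv_smul] }
  have hH : ∀ σ, σ ∈ H ↔ D (tw p ν j Z.X (σ • l)) = D (tw p ν j Z.X l) := fun σ =>
    sign_iff hP hcom hZ hx hne σ
  have hodd : ∀ f, D (-f) = -D f := DD_odd x
  have hcH : cc L ∉ H := by
    rw [hH]
    intro h
    have h1 : tw p ν j Z.X (cc L • l) = -tw p ν j Z.X l := tw_cw l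
    rw [h1, hodd] at h
    have h2 : D (tw p ν j Z.X l) ≠ 0 := hne
    omega
  have h2 : ∀ σ, σ ∉ H → cc L * σ ∈ H := by
    intro σ hσ
    rw [hH] at hσ ⊢
    rcases sgnD hP hcom hZ hx l.1 σ with h | h
    · exact absurd (h l rfl) hσ
    · rw [mul_smul]
      have h1 : tw p ν j Z.X (cc L • σ • l) = -tw p ν j Z.X (σ • l) := tw_cw (σ • l)
      have h3 : D (tw p ν j Z.X (σ • l)) = -D (tw p ν j Z.X l) := h l rfl
      rw [h1, hodd, h3, neg_neg]
  obtain ⟨d, θ, hd, hθ, hθ1, hθ2⟩ := exists_root j H hcH h2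
  obtain ⟨t, ht⟩ := mem_range l.2 (θ := θ) (fun σ hσ => by
    refine hθ1 σ ((hH σ).2 ?_)
    have h3 : σ • l = l := by
      obtain ⟨i, φ⟩ := l
      change (⟨i, σ • φ⟩ : Wt Z.X L) = ⟨i, φ⟩
      rw [hσ]
    rw [h3])
  refine ⟨d, θ, t, hd, hθ, ?_, fun σ hσ => hθ1 σ ((hH σ).2 hσ), fun σ hσ =>
    hθ2 σ fun h => hσ ((hH σ).1 h)⟩
  apply l.2.injective
  rw [map_pow, ht, hθ, map_neg, map_natCast]

/-- The signs of two factors agree if the imaginary quadratic fields are isomorphic. -/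
theorem same_sign {x : Wt Z.X L → ℤ} (hx : Re p ν j Z x) {l l' : Wt Z.X L}
    (hne : DD (tw p ν j Z.X) x (tw p ν j Z.X l) ≠ 0)
    (hne' : DD (tw p ν j Z.X) x (tw p ν j Z.X l') ≠ 0) (hg' : g l'.1 ≠ 1)
    (hsame : SameQuadratic (Z.X.factor l.1) (Z.X.factor l'.1)) (σ : L ≃ₐ[ℚ] L) :
    (DD (tw p ν j Z.X) x (tw p ν j Z.X (σ • l)) = DD (tw p ν j Z.X) x (tw p ν j Z.X l)) ↔
      (DD (tw p ν j Z.X) x (tw p ν j Z.X (σ • l')) = DD (tw p ν j Z.X) x (tw p ν j Z.X l')) := by
  classical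
  obtain ⟨d, θ, t, hd, hθ, ht, h1, h2⟩ := exists_rt hP hcom hZ hx hne
  obtain ⟨d', θ', t', hd', hθ', ht', h1', h2'⟩ := exists_rt hP hcom hZ hx hne'
  obtain ⟨t'', ht''⟩ := hsame d d' t t' hd hd' ht ht'
  obtain ⟨τ, φ₀, -, hodd, hτg, hbij⟩ := hP.data hZ hg' (ne_two hP hcom hZ hx hne')
  let D := DD (tw p ν j Z.X) x
  have hDodd : ∀ f, D (-f) = -D f := DD_odd x
  have hθ0 : θ ≠ 0 := by
    rintro rfl
    rw [zero_pow two_ne_zero, eq_comm, neg_eq_zero] at hθ
    exact hd.ne' (by exact_mod_cast hθ)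
  have hθneg : θ ≠ -θ := by
    intro h
    apply hθ0
    have h3 : (2 : L) * θ = 0 := by
      rw [two_mul]
      nth_rewrite 2 [h]
      rw [add_neg_cancel]
    exact (mul_eq_zero.1 h3).resolve_left two_ne_zero
  set u := φ₀ t'' with hu
  have hu2 : u = θ ∨ u = -θ := by
    apply sq_eq_sq_iff_eq_or_eq_neg.1
    rw [hu, ← map_pow, ht'', map_neg, map_natCast, hθ]
  have hfix : ∀ σ : L ≃ₐ[ℚ] L, σ u = u ↔ σ θ = θ := by
    intro σ
    rcases hu2 with h | h
    · rw [h]
    · rw [h, map_neg, neg_inj]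
  have hθσ : ∀ σ : L ≃ₐ[ℚ] L, σ θ = θ ↔ D (tw p ν j Z.X (σ • l)) = D (tw p ν j Z.X l) := by
    intro σ
    constructor
    · intro h
      by_contra h3
      have h4 := h2 σ h3
      exact hθneg (h.symm.trans h4)
    · exact h1 σ
  -- elements of odd order
  have hτθ : τ θ = θ := by
    by_contra hcon
    have h3 : τ θ = -θ := by
      by_cases h4 : D (tw p ν j Z.X (τ • l)) = D (tw p ν j Z.X l)
      · exact absurd (h1 τ h4) hcon
      · exact h2 τ h4
    have h4 : ∀ k : ℕ, (τ ^ (2 * k)) θ = θ := by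
      intro k
      induction k with
      | zero => rw [mul_zero, pow_zero, AlgEquiv.one_apply]
      | succ k ih =>
        rw [mul_add, pow_add, AlgEquiv.mul_apply, mul_one, pow_two, AlgEquiv.mul_apply, h3,
          map_neg, h3, neg_neg, ih]
    obtain ⟨k, hk⟩ := hodd
    have h5 : (τ ^ (orderOf τ)) θ = -θ := by
      rw [hk, pow_succ', AlgEquiv.mul_apply, h4, h3]
    rw [pow_orderOf_eq_one, AlgEquiv.one_apply] at h5
    exact hθneg h5
  have hτu : ∀ k : ℕ, (τ ^ k) u = u := by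
    intro k
    rw [hfix]
    induction k with
    | zero => rw [pow_zero, AlgEquiv.one_apply]
    | succ k ih => rw [pow_succ, AlgEquiv.mul_apply, hτθ, ih]
  let l₀ : Wt Z.X L := ⟨l'.1, φ₀⟩
  have hne₀ : D (tw p ν j Z.X l₀) ≠ 0 := D_ne hP hcom hZ hx hne' rfl
  have hτD : ∀ l₁ : Wt Z.X L, l₁.1 = l'.1 → D (tw p ν j Z.X (τ • l₁)) = D (tw p ν j Z.X l₁) := by
    rcases sgnD hP hcom hZ hx l'.1 τ with h | h
    · exact h
    · exfalso
      have h3 : ∀ k : ℕ, D (tw p ν j Z.X (τ ^ (2 * k) • l₀)) = D (tw p ν j Z.X l₀) := by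
        intro k
        induction k with
        | zero => rw [mul_zero, pow_zero, one_smul]
        | succ k ih =>
          have h4 : τ ^ (2 * (k + 1)) • l₀ = τ • τ • τ ^ (2 * k) • l₀ := by
            change τ ^ (2 * k + 1 + 1) • l₀ = _
            rw [pow_succ', pow_succ', mul_smul, mul_smul]
          rw [h4]
          have h5 : D (tw p ν j Z.X (τ • τ • τ ^ (2 * k) • l₀)) =
            -D (tw p ν j Z.X (τ • τ ^ (2 * k) • l₀)) := h _ rfl
          have h6 : D (tw p ν j Z.X (τ • τ ^ (2 * k) • l₀)) =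
            -D (tw p ν j Z.X (τ ^ (2 * k) • l₀)) := h _ rfl
          rw [h5, h6, neg_neg, ih]
      obtain ⟨k, hk⟩ := hodd
      have h4 : D (tw p ν j Z.X (τ ^ (orderOf τ) • l₀)) = -D (tw p ν j Z.X l₀) := by
        rw [hk, pow_succ', mul_smul]
        have h5 : D (tw p ν j Z.X (τ • τ ^ (2 * k) • l₀)) =
          -D (tw p ν j Z.X (τ ^ (2 * k) • l₀)) := h _ rfl
        rw [h5, h3]
      rw [pow_orderOf_eq_one, one_smul] at h4
      omega
  have hτDk : ∀ k : ℕ, D (tw p ν j Z.X (τ ^ k • l₀)) = D (tw p ν j Z.X l₀) := by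
    intro k
    induction k with
    | zero => rw [pow_zero, one_smul]
    | succ k ih =>
      have h5 : D (tw p ν j Z.X (τ • τ ^ k • l₀)) = D (tw p ν j Z.X (τ ^ k • l₀)) := hτD _ rfl
      rw [pow_succ', mul_smul, h5, ih]
  -- comparison
  have hcmp : D (tw p ν j Z.X (σ • l')) = D (tw p ν j Z.X l') ↔
      D (tw p ν j Z.X (σ • l₀)) = D (tw p ν j Z.X l₀) :=
    (sign_iff hP hcom hZ hx hne' σ).symm.trans (sign_iff hP hcom hZ hx (l := l₀) hne₀ σ)
  change D (tw p ν j Z.X (σ • l)) = D (tw p ν j Z.X l) ↔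
    D (tw p ν j Z.X (σ • l')) = D (tw p ν j Z.X l')
  rw [hcmp, ← hθσ, ← hfix]
  obtain ⟨⟨k, b⟩, hkb⟩ := hbij.2 (σ • φ₀)
  have hσl : σ • l₀ = ⟨l'.1, σ • φ₀⟩ := rfl
  have hσu : σ u = (σ • φ₀) t'' := rfl
  rcases b with _ | _
  · have h3 : τ ^ (k : ℕ) • φ₀ = σ • φ₀ := hkb
    have h4 : σ • l₀ = τ ^ (k : ℕ) • l₀ := by
      rw [hσl, ← h3]
      rfl
    have h5 : σ u = u := by
      rw [hσu, ← h3]
      exact hτu k
    rw [h4]
    exact ⟨fun _ => hτDk k, fun _ => h5⟩
  · have h3 : cc L • τ ^ (k : ℕ) • φ₀ = σ • φ₀ := hkb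
    have h4 : σ • l₀ = cw Z (τ ^ (k : ℕ) • l₀) := by
      rw [hσl, ← h3]
      rfl
    have hccθ : cc L θ = -θ := by
      refine h2 (cc L) ?_
      have h6 : tw p ν j Z.X (cc L • l) = -tw p ν j Z.X l := tw_cw l
      rw [h6]
      intro h7
      have h8 : D (-tw p ν j Z.X l) = D (tw p ν j Z.X l) := h7
      rw [hDodd] at h8
      have h9 : D (tw p ν j Z.X l) ≠ 0 := hne
      omega
    have h5 : σ u = -u := by
      rw [hσu, ← h3]
      change cc L ((τ ^ (k : ℕ)) u) = -u
      rw [hτu]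
      rcases hu2 with h | h
      · rw [h, hccθ]
      · rw [h, map_neg, hccθ]
    have hun : u ≠ -u := by
      rcases hu2 with h | h
      · rw [h]
        exact hθneg
      · rw [h, neg_neg]
        exact fun h' => hθneg h'.symm
    rw [h4]
    constructor
    · intro h6
      exact absurd (h6.symm.trans h5) hun
    · intro h6
      exfalso
      have h7 : tw p ν j Z.X (cw Z (τ ^ (k : ℕ) • l₀)) = -tw p ν j Z.X (τ ^ (k : ℕ) • l₀) :=
        tw_cw _
      rw [h7, hDodd, hτDk] at h6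
      omega

open Classical in
/-- The number of the terms of a factor. -/
theorem le_sum_factor {x : Wt Z.X L → ℤ} (hx : Re p ν j Z x) (h0 : ∀ l, 0 ≤ x l)
    {l : Wt Z.X L} (hg : g l.1 ≠ 1) (hne : DD (tw p ν j Z.X) x (tw p ν j Z.X l) ≠ 0) :
    (g l.1 : ℤ) ≤ ∑ l' : Wt Z.X L with l'.1 = l.1, x l' := by
  rcases hP.types (p := p) (ν := ν) hZ l.1 with hE | ⟨-, hI, hS⟩
  · have hT : tw p ν j Z.X l ≠ 0 := by
      intro h
      apply hne
      rw [h]
      have h1 := DD_odd (p := p) (ν := ν) (j := j) x 0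
      rw [neg_zero] at h1
      omega
    have hf1 : tw p ν j Z.X l 1 ≠ 0 := fun h => hT ((hE l rfl).eq_zero h)
    have h1 := D_dvd hP hcom hZ hx hg hE hT
    have h2 : (g l.1 : ℤ) ≤ |DD (tw p ν j Z.X) x (tw p ν j Z.X l)| :=
      Int.le_of_dvd (abs_pos.2 hne) ((dvd_abs _ _).2 h1)
    refine h2.trans ?_
    have h3 := Fi_eig hP hcom hZ x hg hE hT 1
    have h4 : |Fi p ν j Z x l.1 1| ≤ (∑ l' : Wt Z.X L with l'.1 = l.1, x l') *
        |tw p ν j Z.X l 1| := by
      unfold Fi
      refine (Finset.abs_sum_le_sum_abs _ _).trans ?_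
      rw [Finset.sum_mul]
      refine Finset.sum_le_sum fun l' hl' => ?_
      rw [abs_mul, abs_of_nonneg (h0 l')]
      rcases hE.val (l := l) (l' := l') rfl (Finset.mem_filter.1 hl').2 with h | h
      · rw [h]
      · rw [h, Pi.neg_apply, abs_neg]
    rw [h3, abs_mul] at h4
    exact le_of_mul_le_mul_right h4 (abs_pos.2 hf1)
  · have h1 : ∀ l' : Wt Z.X L, l'.1 = l.1 → xm x l' ≠ 0 := by
      intro l' hl'
      have h2 := D_ne hP hcom hZ hx hne hl'
      rw [D_inj hP hcom hZ x (by rw [hl']; exact hg) (by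
        rw [hl']
        exact hI)] at h2
      exact h2
    have h2 := sum_smul (cc L) l.1 x
    have h3 : ∑ l' : Wt Z.X L with l'.1 = l.1, (x l' + x (cc L • l')) =
        2 * ∑ l' : Wt Z.X L with l'.1 = l.1, x l' := by
      rw [Finset.sum_add_distrib, h2]
      ring
    have h4 : ∑ l' : Wt Z.X L with l'.1 = l.1, (1 : ℤ) ≤
        ∑ l' : Wt Z.X L with l'.1 = l.1, (x l' + x (cc L • l')) := by
      refine Finset.sum_le_sum fun l' hl' => ?_
      have h5 := h1 l' (Finset.mem_filter.1 hl').2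
      have h6 := h0 l'
      have h7 := h0 (cc L • l')
      by_contra hcon
      push Not at hcon
      apply h5
      unfold xm
      rw [cw_smul]
      omega
    have h5 := card_factor (L := L) (i := l.1) hZ
    rw [Finset.sum_const, nsmul_eq_mul, mul_one, h5, hP.dim, h3] at h4
    push_cast at h4
    linarith

open Classical in
theorem two_factors {x : Wt Z.X L → ℤ} (hx : Re p ν j Z x) (h0 : ∀ l, 0 ≤ x l)
    {l l' : Wt Z.X L} (hl : l.1 ≠ l'.1) (hg : g l.1 ≠ 1) (hg' : g l'.1 ≠ 1)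
    (hne : DD (tw p ν j Z.X) x (tw p ν j Z.X l) ≠ 0)
    (hne' : DD (tw p ν j Z.X) x (tw p ν j Z.X l') ≠ 0) :
    (g l.1 : ℤ) + g l'.1 ≤ ∑ l, x l := by
  have h1 := le_sum_factor hP hcom hZ hx h0 hg hne
  have h2 := le_sum_factor hP hcom hZ hx h0 hg' hne'
  have h3 : ∑ l, x l = ∑ i, ∑ l' : Wt Z.X L with l'.1 = i, x l' :=
    (Finset.sum_fiberwise Finset.univ (fun l : Wt Z.X L => l.1) _).symm
  have h4 : ∑ i ∈ ({l.1, l'.1} : Finset Z.X.I), ∑ l' : Wt Z.X L with l'.1 = i, x l' ≤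
      ∑ i, ∑ l' : Wt Z.X L with l'.1 = i, x l' :=
    Finset.sum_le_sum_of_subset_of_nonneg (Finset.subset_univ _) fun i _ _ =>
      Finset.sum_nonneg fun l _ => h0 l
  rw [Finset.sum_pair hl] at h4
  rw [h3]
  linarith

/-- Relations without contributions of factors of dimension different from one. -/
theorem ell_zero {y : Wt Z.X L → ℤ} (hy : Re p ν j Z y)
    (h : ∀ l : Wt Z.X L, g l.1 ≠ 1 → DD (tw p ν j Z.X) y (tw p ν j Z.X l) = 0) :
    DD (tw p ν j Z.X) y = 0 := by
  classical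
  have hbij := toEmb_bijective (j := j) hZ
  let E : Wt Z.X L ≃ Emb Z := Equiv.ofBijective _ hbij
  let yN : Wt Z.X L → ℤ := fun l => if g l.1 = 1 then 0 else y l
  let yE : Wt Z.X L → ℤ := fun l => if g l.1 = 1 then y l else 0
  have hsum : y = yN + yE := by
    funext l
    change y l = (if g l.1 = 1 then 0 else y l) + if g l.1 = 1 then y l else 0
    by_cases hl : g l.1 = 1
    · rw [if_pos hl, if_pos hl, zero_add]
    · rw [if_neg hl, if_neg hl, add_zero]
  have hN : DD (tw p ν j Z.X) yN = 0 := by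
    funext f
    rw [Pi.zero_apply]
    by_contra hne
    obtain ⟨l, hl, hlf⟩ : ∃ l : Wt Z.X L, g l.1 ≠ 1 ∧ tw p ν j Z.X l = f := by
      rw [DD_eq] at hne
      obtain ⟨l, -, hl⟩ := Finset.exists_ne_zero_of_sum_ne_zero hne
      have h1 : g l.1 ≠ 1 := by
        intro h1
        apply left_ne_zero_of_mul hl
        change (if g l.1 = 1 then 0 else y l) = 0
        rw [if_pos h1]
      have h2 := right_ne_zero_of_mul hl
      by_cases ha : tw p ν j Z.X l = f
      · exact ⟨l, h1, ha⟩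
      · by_cases hb : tw p ν j Z.X l = -f
        · exact ⟨cw Z l, h1, by rw [tw_cw, hb, neg_neg]⟩
        · rw [if_neg ha, if_neg hb] at h2
          exact absurd (sub_zero _) h2
    have hf0 : tw p ν j Z.X l ≠ 0 := by
      intro h1
      apply hne
      rw [← hlf, h1]
      have h2 := DD_odd (p := p) (ν := ν) (j := j) yN 0
      rw [neg_zero] at h2
      omega
    have hE : DD (tw p ν j Z.X) yE f = 0 := by
      rw [DD_eq]
      refine Finset.sum_eq_zero fun l' _ => ?_
      change (if g l'.1 = 1 then y l' else 0) * _ = 0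
      by_cases hl' : g l'.1 = 1
      · have h1 : ¬ tw p ν j Z.X l' = f := by
          intro h1
          have h2 := sep' hP hcom hZ (l := l) (l' := l') (Or.inl (h1.trans hlf.symm)) hf0 hl
          exact hl (by rw [← h2]; exact hl')
        have h3 : ¬ tw p ν j Z.X l' = -f := by
          intro h1
          have h2 := sep' hP hcom hZ (l := l) (l' := l') (Or.inr (by rw [h1, hlf])) hf0 hl
          exact hl (by rw [← h2]; exact hl')
        rw [if_neg h1, if_neg h3, sub_zero, mul_zero]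
      · rw [if_neg hl', zero_mul]
    have h1 := h l hl
    rw [hlf, hsum, DD_add, Pi.add_apply, hE, add_zero] at h1
    exact hne h1
  have hNsum : ∀ σ, ∑ l : Wt Z.X L, yN l * tw p ν j Z.X l σ = 0 := by
    intro σ
    have h1 : (fun u => yN (E.symm u) : Emb Z → ℤ) ∈ twoGroup Z := by
      refine mem_two (j := j) hZ ?_
      have h2 : (fun l : Wt Z.X L => yN (E.symm (toEmb j Z l))) = yN :=
        funext fun l => congrArg yN (E.symm_apply_apply l)
      rw [h2]
      exact hN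
    have h2 := sum_closure hZ _ (twoGroup_le Z h1) σ
    rw [← h2]
    exact Finset.sum_congr rfl fun l _ => by rw [show E.symm (toEmb j Z l) = l from
      E.symm_apply_apply l]
  have hEsum : ∀ σ, ∑ l : Wt Z.X L, yE l * tw p ν j Z.X l σ = 0 := by
    intro σ
    have h1 := hy σ
    have h2 := hNsum σ
    have h3 : ∑ l : Wt Z.X L, y l * tw p ν j Z.X l σ = ∑ l : Wt Z.X L, yN l * tw p ν j Z.X l σ +
        ∑ l : Wt Z.X L, yE l * tw p ν j Z.X l σ := by
      rw [← Finset.sum_add_distrib]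
      refine Finset.sum_congr rfl fun l _ => ?_
      rw [← add_mul]
      congr 1
      exact congrFun hsum l
    rw [h3, h2, zero_add] at h1
    exact h1
  have hE0 := ell_indep hZ (x := yE) (fun l hl => by
    have h1 : g l.1 = 1 := by
      by_contra h1
      apply hl
      change (if g l.1 = 1 then y l else 0) = 0
      rw [if_neg h1]
    rw [hP.dim, h1]) hEsum
  rw [hsum, DD_add, hN, hE0, add_zero]

omit hP hcom hZ in
theorem DD_comp (x : Wt Z.X L → ℤ) (σ : L ≃ₐ[ℚ] L) (f : (L ≃ₐ[ℚ] L) → ℤ) :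
    DD (tw p ν j Z.X) (fun l => x (σ • l)) f = DD (tw p ν j Z.X) x (Rt σ f) := by
  have h1 := DD_smul (p := p) (ν := ν) (j := j) x σ⁻¹ (Rt σ f)
  rw [Rt_self_inv, inv_inv] at h1
  exact h1

omit hP hcom hZ [Fintype (Wt Z.X L)] in
/-- Products of elliptic curves and of simple abelian varieties of different prime dimensions. -/
theorem controlled_of_primes (Z : RedAV p ν) {r : ℕ} (hZr : IsPrimeProduct Z r) :
    IsControlled Z r := by
  classical
  obtain ⟨g, hP, hcom, hquad⟩ := hZr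
  intro e he hle
  right
  have hne : Nonempty (Z.X.prod (single (kp p))).I := ⟨Sum.inr ()⟩
  obtain ⟨L, _, _, _, _, j, hj⟩ := exists_cm (Z.X.prod (single (kp p)))
  have hZ : Big Z.X j := fun i ψ => hj (Sum.inl i) ψ
  have hfin := finite_wt j hZ
  let _ : Fintype (Wt Z.X L) := Fintype.ofFinite _
  have hbij := toEmb_bijective (j := j) hZ
  let E : Wt Z.X L ≃ Emb Z := Equiv.ofBijective _ hbij
  let x : Wt Z.X L → ℤ := fun l => (e (toEmb j Z l) : ℤ)
  have hx : Re p ν j Z x := (isRel_iff hZ e).1 he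
  have h0 : ∀ l, 0 ≤ x l := fun l => Int.natCast_nonneg _
  have hxle : ∑ l, x l ≤ 2 * r := by
    have h1 : ∑ l, x l = ((∑ w, e w : ℕ) : ℤ) := by
      rw [← Equiv.sum_comp E e]
      push_cast
      rfl
    rw [h1]
    exact_mod_cast hle
  set D := DD (tw p ν j Z.X) x with hD
  have hDodd : ∀ f, D (-f) = -D f := DD_odd x
  by_cases hex : ∃ l₁ : Wt Z.X L, g l₁.1 ≠ 1 ∧ D (tw p ν j Z.X l₁) ≠ 0
  · obtain ⟨l₁, hg₁, hne₁⟩ := hex
    -- the signs of the factors
    have hsgn : ∀ (l : Wt Z.X L), g l.1 ≠ 1 → D (tw p ν j Z.X l) ≠ 0 → ∀ σ : L ≃ₐ[ℚ] L,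
        (D (tw p ν j Z.X (σ • l)) = D (tw p ν j Z.X l) ↔
          D (tw p ν j Z.X (σ • l₁)) = D (tw p ν j Z.X l₁)) := by
      intro l hg hl σ
      by_cases hll : l.1 = l₁.1
      · refine (sign_iff hP hcom hZ hx hl σ).symm.trans ?_
        rw [hll]
        exact sign_iff hP hcom hZ hx hne₁ σ
      · refine same_sign hP hcom hZ hx hl hne₁ hg₁ (hquad _ _ hll hg hg₁ ?_) σ
        have h1 := two_factors hP hcom hZ hx h0 hll hg hg₁ hl hne₁
        have h2 : (g l.1 : ℤ) + g l₁.1 ≤ 2 * r := h1.trans hxle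
        exact_mod_cast h2
    refine controlled_of hZ (fun σ => ?_) fun f hf => ?_
    · -- signs
      let ε : ℤ := if D (tw p ν j Z.X (σ • l₁)) = D (tw p ν j Z.X l₁) then 1 else -1
      have hε : ε * ε = 1 := by
        change (if _ then (1 : ℤ) else -1) * (if _ then (1 : ℤ) else -1) = 1
        split_ifs <;> norm_num
      have hy : Re p ν j Z fun l => x l + (-ε) * x (σ • l) := by
        intro τ
        have h1 := hx τ
        have h2 := hx.smul σ τ
        have h3 : ∀ l : Wt Z.X L, (x l + (-ε) * x (σ • l)) * tw p ν j Z.X l τ =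
            x l * tw p ν j Z.X l τ + (-ε) * (x (σ • l) * tw p ν j Z.X l τ) := fun l => by ring
        rw [Finset.sum_congr rfl fun l _ => h3 l, Finset.sum_add_distrib, h1, ← Finset.mul_sum, h2]
        ring
      have hDy : ∀ f, DD (tw p ν j Z.X) (fun l => x l + (-ε) * x (σ • l)) f =
          D f - ε * D (Rt σ f) := by
        intro f
        have h1 : (fun l => x l + (-ε) * x (σ • l)) = x + fun l => (-ε) * x (σ • l) := rfl
        rw [h1, DD_add, Pi.add_apply, DD_smul_const, DD_comp]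
        ring
      have hz : DD (tw p ν j Z.X) (fun l => x l + (-ε) * x (σ • l)) = 0 := by
        refine ell_zero hP hcom hZ hy fun l hl => ?_
        rw [hDy, ← tw_smul]
        by_cases hl0 : D (tw p ν j Z.X l) = 0
        · have h1 : D (tw p ν j Z.X (σ • l)) = 0 := by
            rcases sgnD hP hcom hZ hx l.1 σ with h | h
            · exact (h l rfl).trans hl0
            · have h2 : D (tw p ν j Z.X (σ • l)) = -D (tw p ν j Z.X l) := h l rfl
              rw [h2, hl0, neg_zero]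
          rw [hl0, h1, mul_zero, sub_zero]
        · have h1 : D (tw p ν j Z.X (σ • l)) = ε * D (tw p ν j Z.X l) := by
            by_cases h2 : D (tw p ν j Z.X (σ • l₁)) = D (tw p ν j Z.X l₁)
            · have h3 : ε = 1 := if_pos h2
              rw [h3, one_mul]
              exact (hsgn l hl hl0 σ).2 h2
            · have h3 : ε = -1 := if_neg h2
              rw [h3, neg_one_mul]
              rcases sgnD hP hcom hZ hx l.1 σ with h | h
              · exact absurd ((hsgn l hl hl0 σ).1 (h l rfl)) h2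
              · exact h l rfl
          rw [h1, ← mul_assoc, hε, one_mul, sub_self]
      have hall : ∀ f, D (Rt σ f) = ε * D f := by
        intro f
        have h1 := congrFun hz f
        rw [hDy, Pi.zero_apply] at h1
        have h2 : D f = ε * D (Rt σ f) := by linarith
        rw [h2, ← mul_assoc, hε, one_mul]
      by_cases h2 : D (tw p ν j Z.X (σ • l₁)) = D (tw p ν j Z.X l₁)
      · left
        intro f
        have h3 : ε = 1 := if_pos h2
        change D (Rt σ f) = D f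
        rw [hall, h3, one_mul]
      · right
        intro f
        have h3 : ε = -1 := if_neg h2
        change D (Rt σ f) = -D f
        rw [hall, h3, neg_one_mul]
    · -- multiplicities
      change D f ≠ 0 at hf
      obtain ⟨l, hl⟩ := exists_of_DD hf
      refine ⟨l, hl, ?_⟩
      change ((Nat.card {φ : (Z.X.factor l.1).E →+* L // tw p ν j Z.X ⟨l.1, φ⟩ = f} : ℕ) : ℤ) ∣ D f
      have hT : tw p ν j Z.X l ≠ 0 := by
        intro h
        apply hf
        rw [← hl, h]
        have h1 := hDodd 0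
        rw [neg_zero] at h1
        omega
      rcases hP.types (p := p) (ν := ν) hZ l.1 with hE | ⟨-, hI, -⟩
      · have h1 := hE.card hZ (l₀ := l) rfl hT
        rw [hP.dim] at h1
        let F : {φ : (Z.X.factor l.1).E →+* L // tw p ν j Z.X ⟨l.1, φ⟩ = f} →
            {l' : Wt Z.X L // l'.1 = l.1 ∧ tw p ν j Z.X l' = tw p ν j Z.X l} := fun φ =>
          ⟨⟨l.1, φ.1⟩, rfl, φ.2.trans hl.symm⟩
        have hF : Function.Bijective F := by
          constructor
          · rintro ⟨φ, hφ⟩ ⟨φ', hφ'⟩ h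
            exact Subtype.ext (eq_of_heq (Sigma.mk.inj_iff.1 (congrArg Subtype.val h)).2)
          · rintro ⟨⟨i', φ⟩, h2, h3⟩
            obtain rfl : i' = l.1 := h2
            exact ⟨⟨φ, h3.trans hl⟩, rfl⟩
        rw [Nat.card_congr (Equiv.ofBijective F hF)]
        have h2 : Nat.card {l' : Wt Z.X L // l'.1 = l.1 ∧ tw p ν j Z.X l' =
            tw p ν j Z.X l} = g l.1 := by omega
        rw [h2]
        by_cases hg : g l.1 = 1
        · rw [hg, Nat.cast_one]
          exact one_dvd _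
        · have h3 := D_dvd hP hcom hZ hx hg hE hT
          rw [hl] at h3
          exact h3
      · have h1 : Nat.card {φ : (Z.X.factor l.1).E →+* L // tw p ν j Z.X ⟨l.1, φ⟩ = f} = 1 := by
          rw [Nat.card_eq_one_iff_unique]
          constructor
          · constructor
            rintro ⟨φ, hφ⟩ ⟨φ', hφ'⟩
            exact Subtype.ext (hI φ φ' (hφ.trans hφ'.symm))
          · exact ⟨⟨l.2, hl⟩⟩
        rw [h1, Nat.cast_one]
        exact one_dvd _
  · -- no contribution of factors of prime dimension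
    push Not at hex
    have hz : D = 0 := ell_zero hP hcom hZ hx fun l hl => hex l hl
    refine controlled_of hZ (fun σ => ?_) fun f hf => ?_
    · left
      intro f
      change D (Rt σ f) = D f
      rw [hz]
      rfl
    · exfalso
      change D f ≠ 0 at hf
      rw [hz] at hf
      exact hf rfl

end

end Pool.Agent.Q43.HN
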