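import Pool.Agent.Q43.HN.Contract

/-!
# Projections to the classes of Weil type
-/

set_option autoImplicit false
set_option linter.unusedSectionVars false
set_option linter.unusedVariables false

namespace Pool.Agent.Q43.HN

open NumberField Pool.Agent.H204R3.CM Pool.Agent.W547.KB Pool.Agent.W547.LD Pool.Agent.W547.HR
  Pool.Agent.W495.TA Pool.Agent.TH117.PO Module Pool.Agent.W976.TA Polynomial
open scoped TensorProduct

noncomputable section

/-- A number with distinct powers. -/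
theorem exists_nat {L : Type} [Field L] [CharZero L] {η : L} (hη : η ≠ 0) (N : ℕ) :
    ∃ a : ℕ, ∀ n : ℕ, 0 < n → n ≤ N → ((a : L) + η) ^ n ≠ ((a : L) - η) ^ n := by
  classical
  let Q : ℕ → L[X] := fun n => (X + C η) ^ n - (X - C η) ^ n
  have hQ : ∀ n, 0 < n → Q n ≠ 0 := by
    intro n hn h
    have h1 := congrArg (Polynomial.eval η) h
    simp only [Q, eval_sub, eval_pow, eval_add, eval_X, eval_C, sub_self, eval_zero] at h1
    rw [zero_pow hn.ne', sub_zero] at h1
    have h2 := pow_eq_zero_iff (hn.ne') |>.1 h1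
    apply hη
    have h3 : (2 : L) * η = 0 := by linear_combination h2
    exact (mul_eq_zero.1 h3).resolve_left two_ne_zero
  let P : L[X] := ∏ n ∈ Finset.Icc 1 N, Q n
  have hP : P ≠ 0 := Finset.prod_ne_zero_iff.2 fun n hn => hQ n (Finset.mem_Icc.1 hn).1
  have hfin : (P.rootSet L).Finite := Polynomial.rootSet_finite P L
  have hinf : (Set.range (fun a : ℕ => (a : L))).Infinite :=
    Set.infinite_range_of_injective Nat.cast_injective
  obtain ⟨x, ⟨a, rfl⟩, hx⟩ := (hinf.sdiff hfin).nonempty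
  refine ⟨a, fun n hn hnN h => hx ?_⟩
  rw [Polynomial.mem_rootSet]
  refine ⟨hP, ?_⟩
  simp only [P, map_prod]
  refine Finset.prod_eq_zero (Finset.mem_Icc.2 ⟨hn, hnN⟩) ?_
  simp only [Q, map_sub, map_pow, map_add, aeval_X, aeval_C, Algebra.algebraMap_self,
    RingHom.id_apply]
  rw [h, sub_self]

/-- A rational polynomial that vanishes at the mixed products and not at the pure one. -/
theorem exists_rat_poly {L : Type} [Field L] [CharZero L] [Algebra ℚ L] [Normal ℚ L] {η : L}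
    {d : ℚ} (hη : η ^ 2 = algebraMap ℚ L (-d)) (hη0 : η ≠ 0) (hne : ∀ a : ℕ, (a : L) + η ≠ 0)
    (hne' : ∀ a : ℕ, (a : L) - η ≠ 0) (N : ℕ) (hN : 0 < N) :
    ∃ (a : ℕ) (P : ℚ[X]), aeval (((a : L) + η) ^ N) P ≠ 0 ∧
      ∀ s t : ℕ, 0 < s → 0 < t → s + t = N →
        aeval (((a : L) + η) ^ s * ((a : L) - η) ^ t) P = 0 := by
  classical
  obtain ⟨a, ha⟩ := exists_nat hη0 N
  let γ : ℕ → L := fun s => ((a : L) + η) ^ s * ((a : L) - η) ^ (N - s)
  refine ⟨a, ∏ s ∈ Finset.Ioo 0 N, minpoly ℚ (γ s), ?_, ?_⟩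
  · rw [map_prod, Finset.prod_ne_zero_iff]
    intro s hs h
    obtain ⟨hs0, hsN⟩ := Finset.mem_Ioo.1 hs
    have hint : IsIntegral ℚ (γ s) := Normal.isIntegral inferInstance (γ s)
    have hconj : IsConjRoot ℚ (γ s) (((a : L) + η) ^ N) := by
      rw [isConjRoot_iff_aeval_eq_zero hint]
      exact h
    rw [isConjRoot_iff_exists_algEquiv] at hconj
    obtain ⟨σ, hσ⟩ := hconj
    rw [map_pow, map_add, map_natCast] at hσ
    have hση : σ η = η ∨ σ η = -η := by
      have h1 : (σ η) ^ 2 = η ^ 2 := by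
        rw [← map_pow, hη, AlgEquiv.commutes]
      exact sq_eq_sq_iff_eq_or_eq_neg.1 h1
    have hpow : ∀ x : L, x ^ N = x ^ s * x ^ (N - s) := by
      intro x
      rw [← pow_add]
      congr 1
      omega
    rcases hση with h1 | h1
    · rw [h1, hpow] at hσ
      have h2 := mul_left_cancel₀ (pow_ne_zero s (hne a)) hσ
      exact ha (N - s) (by omega) (by omega) h2
    · rw [h1, hpow] at hσ
      have h3 : (a : L) + -η = (a : L) - η := by ring
      rw [h3] at hσ
      have h2 := mul_right_cancel₀ (pow_ne_zero (N - s) (hne' a)) hσ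
      exact ha s hs0 hsN.le h2.symm
  · intro s t hs ht hst
    rw [map_prod]
    refine Finset.prod_eq_zero (Finset.mem_Ioo.2 ⟨hs, by omega⟩) ?_
    have h1 : γ s = ((a : L) + η) ^ s * ((a : L) - η) ^ t := by
      have h2 : N - s = t := by omega
      simp only [γ, h2]
    rw [← h1]
    exact minpoly.aeval _ _

section

variable {L : Type} [Field L] [NumberField L] [IsCMField L] [IsGalois ℚ L]
  {p : ℕ} [Fact p.Prime] {ν : PadicAlgCl p ≃+* ℂ} {Ω : Type} [Field Ω] [CharZero Ω]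
  {jO : L →+* Ω} {C : (Y : RedAV p ν) → (κ : Type) → ((TM Ω Y) [⋀^κ]→ₗ[Ω] Ω) → Prop}

theorem co_mulA (jO : L →+* Ω) {Y : RedAV p ν} (a : Y.X.H1) (w : Wt Y.X L) (t : TM Ω Y) :
    co jO w ((mulA a).baseChange Ω t) = jO (ev a w) * co jO w t := by
  induction t using TensorProduct.induction_on with
  | zero => rw [map_zero, map_zero, mul_zero]
  | tmul c x =>
    rw [LinearMap.baseChange_tmul, Pool.Agent.W67.TA.co_tmul, Pool.Agent.W67.TA.co_tmul]
    change c * jO (ev (mulA a x) w) = jO (ev a w) * (c * jO (ev x w))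
    rw [ev_mulA, map_mul]
    ring
  | add x y hx hy => rw [map_add, map_add, map_add, hx, hy, mul_add]

section

variable {Y : RedAV p ν} (e : Basis (Wt Y.X L) Ω (TM Ω Y)) (h1 : ∀ w, co jO w (e w) = 1)
  (h0 : ∀ w w', w ≠ w' → co jO w (e w') = 0)
include h1 h0

theorem mulA_e (a : Y.X.H1) (w : Wt Y.X L) :
    (mulA a).baseChange Ω (e w) = jO (ev a w) • e w := by
  refine e.ext_elem fun v => ?_
  rw [Pool.Agent.TH117.BL.repr_eq jO e h1 h0, Pool.Agent.TH117.BL.repr_eq jO e h1 h0,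
    co_mulA, map_smul, smul_eq_mul]
  by_cases hv : v = w
  · subst hv
    rfl
  · rw [h0 v w hv, mul_zero, mul_zero]

/-- Polynomials in a multiplication operator. -/
theorem exists_poly (hC : IsCycleSystem Ω C) (x : Y.X.H1) {κ : Type} [Fintype κ] [DecidableEq κ]
    {y : (TM Ω Y) [⋀^κ]→ₗ[Ω] Ω} (hy : C Y κ y) (P : ℚ[X]) :
    ∃ z : (TM Ω Y) [⋀^κ]→ₗ[Ω] Ω, C Y κ z ∧ ∀ I : κ → Wt Y.X L,
      (z fun k => e (I k)) = jO (aeval (chr I x) P) * y fun k => e (I k) := by
  classical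
  induction P using Polynomial.induction_on' with
  | add P Q hP hQ =>
    obtain ⟨z, hz, hz2⟩ := hP
    obtain ⟨z', hz', hz2'⟩ := hQ
    refine ⟨z + z', hC.add _ _ hz hz', fun I => ?_⟩
    rw [AlternatingMap.add_apply, hz2, hz2', map_add, map_add, add_mul]
  | monomial n a =>
    refine ⟨(a : Ω) • y.compLinearMap ((mulA (x ^ n)).baseChange Ω),
      hC.smul a _ (hC.pull _ (isHom_mulA _) y hy), fun I => ?_⟩
    have h2 : (fun k => (mulA (x ^ n)).baseChange Ω (e (I k))) =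
        fun k => jO (ev (x ^ n) (I k)) • e (I k) := funext fun k => mulA_e e h1 h0 _ _
    have h3 := y.toMultilinearMap.map_smul_univ (fun k => jO (ev (x ^ n) (I k)))
      fun k => e (I k)
    rw [AlternatingMap.smul_apply, smul_eq_mul, AlternatingMap.compLinearMap_apply]
    change (a : Ω) * y (fun k => (mulA (x ^ n)).baseChange Ω (e (I k))) = _
    rw [h2]
    have h4 : (y fun k => jO (ev (x ^ n) (I k)) • e (I k)) =
        (∏ k, jO (ev (x ^ n) (I k))) * y fun k => e (I k) := h3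
    rw [h4, aeval_monomial, map_mul, ← map_prod, ← mul_assoc]
    congr 2
    · rw [eq_ratCast, map_ratCast]
    · rw [← map_pow]
      rfl

end

/-- The weights of the type `+`. -/
def Up (j : L →+* ℂ) {X : CMAV} (θ : X.H1) (w : Wt X L) : Prop := 0 < (j (ev θ w)).im

section

variable {j : L →+* ℂ} {X : CMAV} {θ : X.H1} {d : ℕ}

theorem ev_sq (hθ : ∀ i, θ i ^ 2 = -((d : ℕ) : (X.factor i).E)) (w : Wt X L) :
    ev θ w ^ 2 = -(d : L) := by
  have h := congrArg w.2 (hθ w.1)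
  rw [map_pow, map_neg, map_natCast] at h
  exact h

theorem im_ne (hd : 0 < d) (hθ : ∀ i, θ i ^ 2 = -((d : ℕ) : (X.factor i).E)) (w : Wt X L) :
    (j (ev θ w)).im ≠ 0 := by
  intro h
  have h1 := congrArg j (ev_sq hθ w)
  rw [map_pow, map_neg, map_natCast] at h1
  have h2 := congrArg Complex.re h1
  rw [sq, Complex.mul_re, h, Complex.neg_re, Complex.natCast_re] at h2
  have hd0 : (0 : ℝ) < d := by exact_mod_cast hd
  nlinarith [mul_self_nonneg (j (ev θ w)).re]

theorem up_bar (hd : 0 < d) (hθ : ∀ i, θ i ^ 2 = -((d : ℕ) : (X.factor i).E)) (w : Wt X L) :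
    Up j θ (bar w) ↔ ¬ Up j θ w := by
  unfold Up
  rw [ev_bar, emb_cc, Complex.conj_im]
  have h := im_ne (j := j) hd hθ w
  constructor
  · intro h1 h2
    linarith
  · intro h1
    rcases lt_or_gt_of_ne h with h2 | h2
    · linarith
    · exact absurd h2 h1

theorem ev_eq_or {Y : CMAV} {θ' : Y.H1} (hθ : ∀ i, θ i ^ 2 = -((d : ℕ) : (X.factor i).E))
    (hθ' : ∀ i, θ' i ^ 2 = -((d : ℕ) : (Y.factor i).E)) (w : Wt X L) (w' : Wt Y L) :
    ev θ w = ev θ' w' ∨ ev θ w = -ev θ' w' :=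
  sq_eq_sq_iff_eq_or_eq_neg.1 ((ev_sq hθ w).trans (ev_sq hθ' w').symm)

/-- The value depends only on the sign. -/
theorem ev_eq {Y : CMAV} {θ' : Y.H1} (hθ : ∀ i, θ i ^ 2 = -((d : ℕ) : (X.factor i).E))
    (hθ' : ∀ i, θ' i ^ 2 = -((d : ℕ) : (Y.factor i).E)) {w : Wt X L} {w' : Wt Y L}
    (hw : Up j θ w) (hw' : Up j θ' w') : ev θ w = ev θ' w' := by
  rcases ev_eq_or hθ hθ' w w' with h | h
  · exact h
  · unfold Up at hw hw'
    rw [h, map_neg, Complex.neg_im] at hw
    linarith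

theorem ev_eq_neg (hd : 0 < d) {Y : CMAV} {θ' : Y.H1}
    (hθ : ∀ i, θ i ^ 2 = -((d : ℕ) : (X.factor i).E))
    (hθ' : ∀ i, θ' i ^ 2 = -((d : ℕ) : (Y.factor i).E)) {w : Wt X L} {w' : Wt Y L}
    (hw : Up j θ w) (hw' : ¬ Up j θ' w') : ev θ' w' = -ev θ w := by
  rcases ev_eq_or hθ' hθ w' w with h | h
  · exfalso
    apply hw'
    unfold Up
    rw [h]
    exact hw
  · exact h

end

end

end

end Pool.Agent.Q43.HN
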