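import Pool.Agent.Q43.HN.Line
import Pool.Agent.TH117.BL.Alg

/-!
# Supersingular elliptic curves with complex multiplication by a given imaginary quadratic field
-/

set_option autoImplicit false
set_option linter.unusedSectionVars false
set_option linter.unusedVariables false

namespace Pool.Agent.Q43.HN

open NumberField Pool.Agent.H204R3.CM Pool.Agent.W547.KB Pool.Agent.W547.LD Pool.Agent.W547.HR
  Pool.Agent.W495.TA Pool.Agent.W495.TB Pool.Agent.W495.TC Pool.Agent.TH117.F5
  Pool.Agent.TH117.PO Pool.Agent.TH117.BL Module Pool.Agent.W976.TA Equiv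
open scoped TensorProduct

noncomputable section

section field

variable (d : ℕ) [hd : Fact (0 < d)]

/-- A square root of `-d`. -/
def thq : ℂ := (Real.sqrt d : ℂ) * Complex.I

theorem thq_sq : thq d ^ 2 = -(d : ℂ) := by
  unfold thq
  rw [mul_pow, Complex.I_sq, ← Complex.ofReal_pow, Real.sq_sqrt (Nat.cast_nonneg d)]
  push_cast
  ring

theorem isIntegral_thq : IsIntegral ℚ (thq d) := by
  refine ⟨Polynomial.X ^ 2 + Polynomial.C (d : ℚ), ?_, ?_⟩
  · exact Polynomial.monic_X_pow_add_C _ two_ne_zero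
  · rw [← Polynomial.aeval_def]
    simp only [map_add, map_pow, Polynomial.aeval_X, map_natCast]
    rw [thq_sq]
    ring

/-- The field generated by it. -/
abbrev Kq : Type := IntermediateField.adjoin ℚ {thq d}

instance : FiniteDimensional ℚ (Kq d) :=
  IntermediateField.adjoin.finiteDimensional (isIntegral_thq d)

instance : NumberField (Kq d) where
  to_charZero := inferInstance
  to_finiteDimensional := inferInstance

/-- The generator. -/
def genq : Kq d := ⟨thq d, IntermediateField.mem_adjoin_simple_self ℚ (thq d)⟩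

theorem genq_sq : genq d ^ 2 = -(d : Kq d) := by
  apply Subtype.ext
  change thq d ^ 2 = -((d : Kq d) : ℂ)
  rw [thq_sq]
  simp

theorem map_genq_sq {R : Type*} [Ring R] (φ : Kq d →+* R) : φ (genq d) ^ 2 = -(d : R) := by
  rw [← map_pow, genq_sq, map_neg, map_natCast]

theorem imq_ne (φ : Kq d →+* ℂ) : (φ (genq d)).im ≠ 0 := by
  intro h
  have h1 := map_genq_sq d φ
  have h2 := congrArg Complex.re h1
  rw [sq, Complex.mul_re, h, Complex.neg_re, Complex.natCast_re] at h2
  have hp0 : (0 : ℝ) < d := by exact_mod_cast hd.out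
  nlinarith [mul_self_nonneg (φ (genq d)).re]

instance : IsTotallyComplex (Kq d) where
  isComplex v := by
    rw [InfinitePlace.isComplex_iff]
    intro h
    have h1 : ComplexEmbedding.conjugate v.embedding (genq d) = v.embedding (genq d) :=
      RingHom.congr_fun h (genq d)
    rw [ComplexEmbedding.conjugate_coe_eq] at h1
    have h2 := congrArg Complex.im h1
    rw [Complex.conj_im] at h2
    exact imq_ne d v.embedding (by linarith)

theorem minpoly_thq : minpoly ℚ (thq d) = Polynomial.X ^ 2 + Polynomial.C (d : ℚ) := by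
  have hmon : (Polynomial.X ^ 2 + Polynomial.C (d : ℚ)).Monic :=
    Polynomial.monic_X_pow_add_C (d : ℚ) two_ne_zero
  have h1 : minpoly ℚ (thq d) ∣ Polynomial.X ^ 2 + Polynomial.C (d : ℚ) := by
    apply minpoly.dvd
    simp only [map_add, map_pow, Polynomial.aeval_X, map_natCast]
    rw [thq_sq]
    ring
  have h2 : 2 ≤ (minpoly ℚ (thq d)).natDegree := by
    have h1 := minpoly.natDegree_pos (isIntegral_thq d)
    by_contra hcon
    have h2 : (minpoly ℚ (thq d)).natDegree = 1 := by omega
    rw [minpoly.natDegree_eq_one_iff] at h2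
    obtain ⟨r, hr⟩ := h2
    have h3 := thq_sq d
    rw [← hr] at h3
    have h4 : (r : ℂ) ^ 2 = -(d : ℂ) := h3
    have h5 : ((r ^ 2 : ℚ) : ℂ) = ((-(d : ℚ) : ℚ) : ℂ) := by
      push_cast
      exact h4
    have h6 : r ^ 2 = -(d : ℚ) := by exact_mod_cast h5
    have hp0 : (0 : ℚ) < d := by exact_mod_cast hd.out
    nlinarith [sq_nonneg r]
  refine (Polynomial.eq_of_monic_of_dvd_of_natDegree_le (minpoly.monic (isIntegral_thq d)) hmon h1
    ?_).symm
  rw [Polynomial.natDegree_X_pow_add_C]
  exact h2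

theorem finrank_Kq : finrank ℚ (Kq d) = 2 := by
  rw [IntermediateField.adjoin.finrank (isIntegral_thq d), minpoly_thq,
    Polynomial.natDegree_X_pow_add_C]

instance : Algebra.IsQuadraticExtension ℚ (Kq d) where
  finrank_eq_two' := finrank_Kq d

instance : IsCMField (Kq d) := IsCMField.ofCMExtension ℚ (Kq d)

/-- The CM type. -/
def kq : CMPair where
  E := Kq d
  Φ := {φ | 0 < (φ (genq d)).im}
  isCMType := by
    intro φ
    have h1 := imq_ne d φ
    change 0 < (φ (genq d)).im ↔ ¬ (0 < (ComplexEmbedding.conjugate φ (genq d)).im)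
    rw [ComplexEmbedding.conjugate_coe_eq, Complex.conj_im]
    constructor
    · intro h
      linarith
    · intro h
      rcases lt_or_gt_of_ne h1 with h2 | h2
      · exact absurd (by linarith) h
      · exact h2

/-- The field is contained in all fields that contain a square root of `-d`. -/
theorem factor_Kq {L : Type} [Field L] [NumberField L] (j : L →+* ℂ) {η : L}
    (hη : η ^ 2 = -(d : L)) (ψ : Kq d →+* ℂ) : ∃ φ : Kq d →+* L, j.comp φ = ψ := by
  have h1 : ψ (genq d) = j η ∨ ψ (genq d) = -j η := by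
    apply sq_eq_sq_iff_eq_or_eq_neg.1
    rw [map_genq_sq, ← map_pow, hη, map_neg, map_natCast]
  obtain ⟨η', hη', hψ⟩ : ∃ η' : L, η' ^ 2 = -(d : L) ∧ ψ (genq d) = j η' := by
    rcases h1 with h | h
    · exact ⟨η, hη, h⟩
    · exact ⟨-η, by rw [neg_sq, hη], by rw [map_neg, h]⟩
  have hmem : ∀ (x : ℂ) (hx : x ∈ IntermediateField.adjoin ℚ {thq d}),
      ∃ y : L, j y = ψ ⟨x, hx⟩ := by
    intro x hx
    induction hx using IntermediateField.adjoin_induction with
    | mem x hx =>
      obtain rfl : x = thq d := hx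
      exact ⟨η', hψ.symm⟩
    | algebraMap q =>
      refine ⟨(q : L), ?_⟩
      rw [map_ratCast]
      have h2 : (⟨algebraMap ℚ ℂ q, IntermediateField.algebraMap_mem _ q⟩ : Kq d) = (q : Kq d) := by
        apply Subtype.ext
        simp
      exact ((congrArg ψ h2).trans (map_ratCast ψ q)).symm
    | add x y hx hy ihx ihy =>
      obtain ⟨a, ha⟩ := ihx
      obtain ⟨b, hb⟩ := ihy
      refine ⟨a + b, ?_⟩
      rw [map_add, ha, hb, ← map_add]
      rfl
    | inv x hx ihx =>
      obtain ⟨a, ha⟩ := ihx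
      refine ⟨a⁻¹, ?_⟩
      rw [map_inv₀, ha, ← map_inv₀]
      rfl
    | mul x y hx hy ihx ihy =>
      obtain ⟨a, ha⟩ := ihx
      obtain ⟨b, hb⟩ := ihy
      refine ⟨a * b, ?_⟩
      rw [map_mul, ha, hb, ← map_mul]
      rfl
  choose f hf using fun x : Kq d => hmem x.1 x.2
  have hf' : ∀ x : Kq d, j (f x) = ψ x := hf
  refine ⟨{ toFun := f
            map_one' := j.injective (by rw [hf', map_one, map_one])
            map_mul' := fun x y => j.injective (by rw [hf', map_mul, map_mul, hf', hf'])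
            map_zero' := j.injective (by rw [hf', map_zero, map_zero])
            map_add' := fun x y => j.injective (by rw [hf', map_add, map_add, hf', hf']) }, ?_⟩
  ext x
  exact hf' x

theorem big_kq {L : Type} [Field L] [NumberField L] (j : L →+* ℂ) {η : L} (hη : η ^ 2 = -(d : L)) :
    BigA (kq d) j := fun ψ => factor_Kq d j hη ψ

end field

section ss

variable {p : ℕ} [Fact p.Prime] {ν : PadicAlgCl p ≃+* ℂ}
  {L : Type} [Field L] [NumberField L] [IsCMField L] [IsGalois ℚ L] {j : L →+* ℂ}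

/-- The translate of a weight. -/
def gW {X : CMAV} (g : L ≃ₐ[ℚ] L) (w : Wt X L) : Wt X L := ⟨w.1, g • w.2⟩

/-- The sign of a weight. -/
def eW (j : L →+* ℂ) {X : CMAV} (w : Wt X L) : ℤ := eps j (X.factor w.1) w.2

theorem ev_gW {X : CMAV} (g : L ≃ₐ[ℚ] L) (w : Wt X L) (x : X.H1) : ev x (gW g w) = g (ev x w) :=
  rfl

theorem gW_bar (j : L →+* ℂ) {X : CMAV} (g : L ≃ₐ[ℚ] L) (w : Wt X L) :
    gW g (bar w) = bar (gW g w) := by
  refine Sigma.ext rfl (heq_of_eq ?_)
  change g • (cc L • w.2) = cc L • (g • w.2)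
  rw [← mul_smul, ← mul_smul, cc_comm j g]

theorem gW_injective {X : CMAV} (g : L ≃ₐ[ℚ] L) : Function.Injective (gW g : Wt X L → Wt X L) := by
  rintro ⟨i, φ⟩ ⟨i', φ'⟩ h
  obtain ⟨h1, h2⟩ := Sigma.mk.inj_iff.1 h
  subst h1
  have h3 : g • φ = g • φ' := eq_of_heq h2
  have h4 : φ = φ' := MulAction.injective g h3
  rw [h4]

theorem eW_bar {X : CMAV} (w : Wt X L) : eW j (bar w) = -eW j w :=
  (isSign_eps j (X.factor w.1)).odd w.2

theorem eW_sign {X : CMAV} (w : Wt X L) : eW j w = 1 ∨ eW j w = -1 :=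
  (isSign_eps j (X.factor w.1)).sign w.2

variable {X : CMAV} {θ : X.H1} {d : ℕ} (hd : 0 < d)
  (hθ : ∀ i, θ i ^ 2 = -((d : ℕ) : (X.factor i).E)) {κ : Type} [Fintype κ] {J : κ → Wt X L}
  (hJi : Function.Injective J) (hJ : ∀ k, Up j θ (J k)) (hJ' : ∀ w, Up j θ w → ∃ k, J k = w)

include hd hθ hJi hJ hJ'

/-- The signs of the translates of the weights of the type `+`. -/
theorem sum_gW {η : L} (hη : ∀ k, ev θ (J k) = η) (g : L ≃ₐ[ℚ] L) :
    (g η = η → ∑ k, eW j (gW g (J k)) = ∑ k, eW j (J k)) ∧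
    (g η = -η → ∑ k, eW j (gW g (J k)) = -∑ k, eW j (J k)) := by
  classical
  constructor
  · intro hg
    obtain ⟨σ, hσ⟩ := perm_of_up hJi hJ' (s := fun k => gW g (J k))
      (fun k k' h => hJi (gW_injective g h)) (fun k => by
        unfold Up
        rw [ev_gW, hη, hg, ← hη k]
        exact hJ k)
    rw [← Equiv.sum_comp σ (fun k => eW j (J k))]
    refine Finset.sum_congr rfl fun k _ => ?_
    have h2 : gW g (J k) = J (σ k) := congrFun hσ k
    rw [h2]
  · intro hg
    obtain ⟨σ, hσ⟩ := perm_of_up hJi hJ' (s := fun k => bar (gW g (J k)))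
      (fun k k' h => hJi (gW_injective g (bar_injective h))) (fun k => by
        rw [up_bar hd hθ]
        unfold Up
        rw [ev_gW, hη, hg, map_neg, Complex.neg_im]
        have h2 : 0 < (j (ev θ (J k))).im := hJ k
        rw [hη] at h2
        linarith)
    rw [← Equiv.sum_comp σ (fun k => eW j (J k)), ← Finset.sum_neg_distrib]
    refine Finset.sum_congr rfl fun k _ => ?_
    have h2 : bar (gW g (J k)) = J (σ k) := congrFun hσ k
    rw [← h2, eW_bar, neg_neg]

/-- If a relation with an odd number of terms holds, then the elliptic curve is supersingular. -/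
theorem nn_kq [Fact (0 < d)] (hodd : ¬ Even (Fintype.card κ))
    (hsum : ∀ σ, ∑ k, tw p ν j X (J k) σ = 0) (φ : (kq d).E →+* L) :
    nn p ν j (kq d) φ = 0 := by
  classical
  have hne : Nonempty κ := by
    by_contra hcon
    rw [not_nonempty_iff] at hcon
    apply hodd
    rw [Fintype.card_eq_zero]
    exact ⟨0, rfl⟩
  obtain ⟨k₀⟩ := hne
  set η : L := ev θ (J k₀) with hη
  have hη' : ∀ k, ev θ (J k) = η := fun k => ev_eq hθ hθ (hJ k) (hJ k₀)
  have hη2 : η ^ 2 = -(d : L) := ev_sq hθ _
  have hηg : ∀ g : L ≃ₐ[ℚ] L, g η = η ∨ g η = -η := by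
    intro g
    apply sq_eq_sq_iff_eq_or_eq_neg.1
    rw [← map_pow, hη2, map_neg, map_natCast]
  have hη0 : η ≠ -η := by
    intro h
    have h1 : η = 0 := by
      have h2 : (2 : L) * η = 0 := by linear_combination h
      exact (mul_eq_zero.1 h2).resolve_left two_ne_zero
    rw [h1, zero_pow two_ne_zero] at hη2
    have h3 : (d : L) = 0 := neg_eq_zero.1 hη2.symm
    exact hd.ne' (Nat.cast_eq_zero.1 h3)
  set s : ℤ := ∑ k, eW j (J k) with hs
  have hs0 : s ≠ 0 := by
    intro h
    apply hodd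
    have h1 : ∀ k, eW j (J k) = 1 - 2 * (if eW j (J k) = -1 then 1 else 0) := by
      intro k
      rcases eW_sign (j := j) (J k) with h | h
      · rw [h]
        norm_num
      · rw [h]
        norm_num
    have h2 : s = (Fintype.card κ : ℤ) - 2 * ∑ k, (if eW j (J k) = -1 then 1 else 0) := by
      rw [hs, Finset.sum_congr rfl fun k _ => h1 k, Finset.sum_sub_distrib, Finset.sum_const,
        Finset.card_univ, nsmul_eq_mul, mul_one, Finset.mul_sum]
    rw [h] at h2
    have h3 : (Fintype.card κ : ℤ) = 2 * ∑ k, (if eW j (J k) = -1 then 1 else 0) := by linarith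
    have h4 : Even ((Fintype.card κ : ℕ) : ℤ) := by
      rw [h3]
      exact even_two_mul _
    exact (Int.even_coe_nat _).1 h4
  -- the character
  let χ : (L ≃ₐ[ℚ] L) → ℤ := fun g => if g η = η then 1 else -1
  have hE : ∀ g, ∑ k, eW j (gW g (J k)) = χ g * s := by
    intro g
    obtain ⟨h1, h2⟩ := sum_gW hd hθ hJi hJ hJ' hη' g
    rcases hηg g with h | h
    · rw [h1 h]
      simp only [χ, if_pos h, one_mul]
      rfl
    · rw [h2 h]
      have h3 : ¬ g η = η := by
        rw [h]
        exact fun h4 => hη0 h4.symm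
      simp only [χ, if_neg h3, neg_one_mul]
      rfl
  have hchi : ∀ σ : L ≃ₐ[ℚ] L, ∑ g : L ≃ₐ[ℚ] L, (if g ∈ Dec p ν j then χ (g * σ) else 0) = 0 := by
    intro σ
    have h1 := hsum σ
    have h2 : ∀ k, tw p ν j X (J k) σ = ∑ g : L ≃ₐ[ℚ] L,
        if g ∈ Dec p ν j then eW j (gW (g * σ) (J k)) else 0 := by
      intro k
      change nf (Dec p ν j) (eps j (X.factor (J k).1)) (J k).2 σ = _
      unfold nf
      refine Finset.sum_congr rfl fun g _ => ?_
      by_cases hg : g ∈ Dec p ν j
      · rw [if_pos hg, if_pos hg]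
        change eps j (X.factor (J k).1) (g • σ • (J k).2) =
          eps j (X.factor (J k).1) ((g * σ) • (J k).2)
        rw [mul_smul]
      · rw [if_neg hg, if_neg hg]
    rw [Finset.sum_congr rfl fun k _ => h2 k, Finset.sum_comm] at h1
    have h3 : ∀ g : L ≃ₐ[ℚ] L, ∑ k, (if g ∈ Dec p ν j then eW j (gW (g * σ) (J k)) else 0) =
        (if g ∈ Dec p ν j then χ (g * σ) else 0) * s := by
      intro g
      by_cases hg : g ∈ Dec p ν j
      · simp only [if_pos hg]
        exact hE _
      · simp only [if_neg hg]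
        rw [Finset.sum_const_zero, zero_mul]
    rw [Finset.sum_congr rfl fun g _ => h3 g, ← Finset.sum_mul] at h1
    exact (mul_eq_zero.1 h1).resolve_right hs0
  -- the elliptic curve
  have hφ2 : (φ (genq d)) ^ 2 = -(d : L) := map_genq_sq d φ
  have hφη : φ (genq d) = η ∨ φ (genq d) = -η := by
    apply sq_eq_sq_iff_eq_or_eq_neg.1
    rw [hφ2, hη2]
  have heps : ∀ ψ : (kq d).E →+* L, eps j (kq d) ψ = if 0 < (j (ψ (genq d))).im then 1 else -1 :=
    fun ψ => rfl
  have hq : ∀ g : L ≃ₐ[ℚ] L, eps j (kq d) (g • φ) = χ g * eps j (kq d) φ := by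
    intro g
    have h0 : (j (φ (genq d))).im ≠ 0 := imq_ne d (j.comp φ)
    have h1 : (g • φ) (genq d) = g (φ (genq d)) := rfl
    rw [heps, heps, h1]
    rcases hηg g with h | h
    · have h2 : g (φ (genq d)) = φ (genq d) := by
        rcases hφη with h3 | h3
        · rw [h3, h]
        · rw [h3, map_neg, h]
      rw [h2]
      simp only [χ, if_pos h, one_mul]
    · have h2 : g (φ (genq d)) = -φ (genq d) := by
        rcases hφη with h3 | h3
        · rw [h3, h]
        · rw [h3, map_neg, h]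
      have h3 : ¬ g η = η := by
        rw [h]
        exact fun h4 => hη0 h4.symm
      rw [h2, map_neg, Complex.neg_im]
      simp only [χ, if_neg h3]
      rcases lt_or_gt_of_ne h0 with h1 | h1
      · rw [if_pos (by linarith), if_neg (by linarith)]
        norm_num
      · rw [if_neg (by linarith), if_pos h1]
        norm_num
  funext σ
  rw [Pi.zero_apply]
  have h1 : nn p ν j (kq d) φ σ = (∑ g : L ≃ₐ[ℚ] L,
      (if g ∈ Dec p ν j then χ (g * σ) else 0)) * eps j (kq d) φ := by
    change nf (Dec p ν j) (eps j (kq d)) φ σ = _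
    unfold nf
    rw [Finset.sum_mul]
    refine Finset.sum_congr rfl fun g _ => ?_
    by_cases hg : g ∈ Dec p ν j
    · rw [if_pos hg, if_pos hg, ← mul_smul, hq]
    · rw [if_neg hg, if_neg hg, zero_mul]
  rw [h1, hchi, zero_mul]

end ss

/-- The supersingular elliptic curve. -/
theorem exists_red {p : ℕ} [Fact p.Prime] {ν : PadicAlgCl p ≃+* ℂ}
    {L : Type} [Field L] [NumberField L] [IsCMField L] [IsGalois ℚ L] {j : L →+* ℂ} {d : ℕ}
    [Fact (0 < d)] {η : L} (hη : η ^ 2 = -(d : L))
    (h : ∀ φ : (kq d).E →+* L, nn p ν j (kq d) φ = 0) :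
    IsFrobenius p ν (kq d) 2 (p : Kq d) where
  integral := isIntegral_natCast p
  weil φ := by
    have h1 : φ (p : Kq d) = (p : ℂ) := map_natCast φ p
    rw [h1, Complex.norm_natCast]
  shimuraTaniyama := by
    rw [Pool.Agent.W366.TA.val p ν L j (kq d) (big_kq d j hη) 2 (p : Kq d)]
    intro φ
    have h1 : φ (p : Kq d) = (p : L) := map_natCast φ p
    have h2 : tf p ν j (hs (kq d) j φ) 1 = 0 := by
      rw [tf_hs]
      exact congrFun (h φ) 1
    rw [h2, h1, map_natCast, map_natCast, add_zero, norm_pow, zpow_mul]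
    norm_cast

end

end Pool.Agent.Q43.HN
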