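import Pool.Agent.Q43.HN.Ext
import Pool.Agent.TH117.BL.Main

/-!
# Relations that are controlled by norms
-/

set_option autoImplicit false
set_option linter.unusedSectionVars false
set_option linter.unusedVariables false

namespace Pool.Agent.Q43.HN

open NumberField Pool.Agent.H204R3.CM Pool.Agent.W547.KB Pool.Agent.W547.LD Pool.Agent.W547.HR
  Pool.Agent.W495.TA Pool.Agent.W495.TB Pool.Agent.W495.TC Pool.Agent.TH117.F5
  Pool.Agent.TH117.PO Pool.Agent.TH117.BL Module Pool.Agent.W976.TA Equiv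
open scoped TensorProduct

noncomputable section

variable {p : ℕ} [Fact p.Prime] {ν : PadicAlgCl p ≃+* ℂ} {Ω : Type} [Field Ω] [CharZero Ω]
  {L : Type} [Field L] [NumberField L] [IsCMField L] [IsGalois ℚ L] {j : L →+* ℂ}
  (jO : L →+* Ω) {Z : RedAV p ν}

/-- The group generated by the elementary relations. -/
abbrev elemGroup (Z : RedAV p ν) : AddSubgroup (Emb Z → ℤ) := AddSubgroup.closure
  {d : Emb Z → ℤ | ∃ n : Emb Z → ℕ, IsRel Z n ∧ IsElementary Z n ∧ ∀ w, d w = n w}

theorem genD_closure (hZ : Big Z.X j) (hkp : BigA (kp p) j) [Fintype (Wt Z.X L)]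
    (d : Emb Z → ℤ) (hd : d ∈ elemGroup Z) :
    GenD (AlgM p ν j jO) (Set.range (ext0 (tw p ν j Z.X)))
        (DD (tw p ν j Z.X) fun l => d (toEmb j Z l)) := by
  classical
  have hbij := toEmb_bijective (j := j) hZ
  let E : Wt Z.X L ≃ Emb Z := Equiv.ofBijective _ hbij
  induction hd using AddSubgroup.closure_induction with
  | mem d hd =>
    obtain ⟨n, h0, h2, h3⟩ := hd
    have h1 := (isRel_iff hZ n).1 h0
    have h4 : (fun l => d (toEmb j Z l)) = fun l : Wt Z.X L => (n (toEmb j Z l) : ℤ) :=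
      funext fun l => h3 _
    rw [h4]
    rcases h2 with h2 | ⟨S, hS, h2⟩ | h2
    · rw [DD_small (tw p ν j Z.X) (fun l => n (toEmb j Z l)) (by
        rw [← Equiv.sum_comp E] at h2
        exact h2) h1]
      exact GenD.zero
    · exact genD_of_good (cw Z) (tw p ν j Z.X) tw_cw (fam_set jO hZ hkp S hS)
        (fun l => n (toEmb j Z l)) (fun l hl => h2 _ hl) h1
    · exact genD_weil jO hZ hkp n h0 h2
  | zero =>
    have h4 : (fun l : Wt Z.X L => (0 : Emb Z → ℤ) (toEmb j Z l)) = 0 := rfl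
    rw [h4, DD_zero]
    exact GenD.zero
  | add d d' _ _ h h' =>
    have h4 : (fun l : Wt Z.X L => (d + d') (toEmb j Z l)) =
      (fun l => d (toEmb j Z l)) + fun l => d' (toEmb j Z l) := rfl
    rw [h4, DD_add]
    exact h.add h'
  | neg d _ h =>
    have h4 : (fun l : Wt Z.X L => (-d) (toEmb j Z l)) = -fun l => d (toEmb j Z l) := rfl
    rw [h4, DD_neg]
    exact h.neg

theorem sum_closure (hZ : Big Z.X j) [Fintype (Wt Z.X L)]
    (d : Emb Z → ℤ) (hd : d ∈ elemGroup Z) (σ : L ≃ₐ[ℚ] L) :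
    ∑ w : Wt Z.X L, d (toEmb j Z w) * tw p ν j Z.X w σ = 0 := by
  classical
  induction hd using AddSubgroup.closure_induction with
  | mem d hd =>
    obtain ⟨n, h0, h2, h3⟩ := hd
    rw [← (isRel_iff hZ n).1 h0 σ]
    exact Finset.sum_congr rfl fun w _ => by rw [h3]
  | zero =>
    exact Finset.sum_eq_zero fun w _ => by rw [Pi.zero_apply, zero_mul]
  | add d d' _ _ h h' =>
    have h6 : ∑ w : Wt Z.X L, (d + d') (toEmb j Z w) * tw p ν j Z.X w σ =
        ∑ w : Wt Z.X L, d (toEmb j Z w) * tw p ν j Z.X w σ +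
          ∑ w : Wt Z.X L, d' (toEmb j Z w) * tw p ν j Z.X w σ := by
      rw [← Finset.sum_add_distrib]
      exact Finset.sum_congr rfl fun w _ => by rw [Pi.add_apply, add_mul]
    rw [h6, h, h', add_zero]
  | neg d _ h =>
    rw [← neg_zero, ← h, ← Finset.sum_neg_distrib]
    exact Finset.sum_congr rfl fun w _ => by rw [Pi.neg_apply, neg_mul]

/-- Counting functions of conjugate labels. -/
theorem DD_cw [Fintype (Wt Z.X L)] (x : Wt Z.X L → ℤ) :
    DD (tw p ν j Z.X) (fun l => x (cw Z l)) = -DD (tw p ν j Z.X) x := by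
  classical
  have hinv : ∀ l : Wt Z.X L, cw Z (cw Z l) = l := fun l => bar_bar l
  funext f
  unfold DD
  rw [Pi.neg_apply, ← Finset.sum_neg_distrib,
    ← Equiv.sum_comp (Function.Involutive.toPerm (cw Z) hinv)]
  refine Finset.sum_congr rfl fun l _ => ?_
  have e0 : (Function.Involutive.toPerm (cw Z) hinv) l = cw Z l := rfl
  have e1 : (-tw p ν j Z.X l = f) ↔ (tw p ν j Z.X l = -f) := neg_eq_iff_eq_neg
  have e2 : (-tw p ν j Z.X l = -f) ↔ (tw p ν j Z.X l = f) := neg_inj
  simp only [e0, hinv, tw_cw, e1, e2]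
  rw [← mul_neg, neg_sub]
  split_ifs <;> rfl

theorem cnt_sum {κ κ' Λ : Type} [Finite κ] [Finite κ'] (w : κ → Option Λ) (w' : κ' → Option Λ)
    (l : Λ) : Pool.Agent.TH117.BL.cnt (Sum.elim w w') l =
      Pool.Agent.TH117.BL.cnt w l + Pool.Agent.TH117.BL.cnt w' l := by
  classical
  unfold Pool.Agent.TH117.BL.cnt
  rw [← Nat.cast_add]
  congr 1
  rw [← Nat.card_sum]
  refine Nat.card_congr ?_
  exact
    { toFun := fun k => match k with
        | ⟨Sum.inl k, h⟩ => Sum.inl ⟨k, h⟩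
        | ⟨Sum.inr k, h⟩ => Sum.inr ⟨k, h⟩
      invFun := fun k => match k with
        | Sum.inl k => ⟨Sum.inl k.1, k.2⟩
        | Sum.inr k => ⟨Sum.inr k.1, k.2⟩
      left_inv := by rintro ⟨k | k, h⟩ <;> rfl
      right_inv := by rintro (k | k) <;> rfl }

theorem cnt_map_cw {κ : Type} (o : κ → Option (Wt Z.X L)) (v : Wt Z.X L) :
    Pool.Agent.TH117.BL.cnt (fun k => (o k).map (cw Z)) v = Pool.Agent.TH117.BL.cnt o (cw Z v) := by
  have hinv : ∀ l : Wt Z.X L, cw Z (cw Z l) = l := fun l => bar_bar l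
  unfold Pool.Agent.TH117.BL.cnt
  congr 1
  refine Nat.card_congr (Equiv.subtypeEquivRight fun k => ?_)
  constructor
  · intro h
    rw [Option.map_eq_some_iff] at h
    obtain ⟨a, ha, hav⟩ := h
    rw [ha, ← hav, hinv]
  · intro h
    show Option.map (cw Z) (o k) = some v
    rw [h, Option.map_some, hinv]

/-- Families whose relation is controlled by a norm relation. -/
theorem fam_controlled (hZ : Big Z.X j) (hkp : BigA (kp p) j) [Fintype (Wt Z.X L)]
    {κ : Type} [Fintype κ] (w : κ → Option (Wt Z.X L)) {e n : Emb Z → ℕ}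
    (he : ∀ v : Wt Z.X L, (e (toEmb j Z v) : ℤ) = Pool.Agent.TH117.BL.cnt w v)
    (heven : Even (Fintype.card κ)) :
    ((fun w => (e w : ℤ)) ∈ elemGroup Z → AlgM p ν j jO κ fun k => ext0 (tw p ν j Z.X) (w k)) ∧
    ∀ (Y' : RedAV p ν) (θ' : Y'.X.H1) (d : ℕ) (κ' : Type) [Fintype κ'] (J : κ' → Wt Y'.X L)
      (o : κ' → Option (Wt Z.X L)), IsModel j Z n Y' θ' d κ' J o →
      (fun w => (e w : ℤ) - n w) ∈ elemGroup Z →
      AlgM p ν j jO (κ ⊕ κ') (Sum.elim (fun k => ext0 (tw p ν j Z.X) (w k))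
        fun k => tf p ν j (St j (bar (J k)))) := by
  classical
  have hclosed := closedM (p := p) (ν := ν) j jO
  have hc0 := cancel_zero (p := p) (ν := ν) j jO hkp
  have hR : ∀ f ∈ Set.range (ext0 (tw p ν j Z.X)), PairCancel (L ≃ₐ[ℚ] L) (AlgM p ν j jO) f := by
    rintro f ⟨o, rfl⟩
    rcases o with _ | l
    · exact hc0
    · exact cancel_nn j jO (Z.X.factor l.1) l.2
  constructor
  · intro hmem
    have h2 := genD_closure jO hZ hkp _ hmem
    have h3 : (fun l : Wt Z.X L => ((e (toEmb j Z l) : ℕ) : ℤ)) = Pool.Agent.TH117.BL.cnt w :=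
      funext he
    have h4 : GenD (AlgM p ν j jO) (Set.range (ext0 (tw p ν j Z.X)))
        (dcnt fun k => ext0 (tw p ν j Z.X) (w k)) := by
      rw [dcnt_eq_DD, ← h3]
      exact h2
    exact @of_genD _ _ (Set.range (ext0 (tw p ν j Z.X))) hclosed hR κ _
      (fun k => ext0 (tw p ν j Z.X) (w k)) (fun k => ⟨w k, rfl⟩)
      (by rw [Nat.card_eq_fintype_card]; exact heven) h4
  · intro Y' θ' d κ' _ J o hM hmem
    let B : κ ⊕ κ' → Option (Wt Z.X L) := Sum.elim w fun k => (o k).map (cw Z)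
    have hB : (Sum.elim (fun k => ext0 (tw p ν j Z.X) (w k))
        fun k => tf p ν j (St j (bar (J k)))) = fun k => ext0 (tw p ν j Z.X) (B k) := by
      funext k
      rcases k with k | k
      · rfl
      · change tf p ν j (St j (bar (J k))) = ext0 (tw p ν j Z.X) ((o k).map (cw Z))
        have h1 : tf p ν j (St j (bar (J k))) = -tf p ν j (St j (J k)) := by
          rw [tf_tw, tf_tw]
          exact nn_cc (Y'.X.factor (J k).1) (J k).2
        rw [h1, hM.tf_eq]
        rcases o k with _ | l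
        · exact neg_zero
        · exact (tw_cw l).symm
    rw [hB]
    have hcnt : Pool.Agent.TH117.BL.cnt B = (fun v => (e (toEmb j Z v) : ℤ)) +
        fun v => (n (toEmb j Z (cw Z v)) : ℤ) := by
      funext v
      rw [Pi.add_apply, he]
      change Pool.Agent.TH117.BL.cnt (Sum.elim w fun k => (o k).map (cw Z)) v = _
      rw [cnt_sum, cnt_map_cw, hM.cnt_eq]
    have h4 : GenD (AlgM p ν j jO) (Set.range (ext0 (tw p ν j Z.X)))
        (dcnt fun k => ext0 (tw p ν j Z.X) (B k)) := by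
      rw [dcnt_eq_DD, hcnt, DD_add, DD_cw (fun v => (n (toEmb j Z v) : ℤ)), ← DD_neg, ← DD_add]
      have h5 := genD_closure jO hZ hkp _ hmem
      have h6 : (fun v : Wt Z.X L => (e (toEmb j Z v) : ℤ)) +
          -(fun v : Wt Z.X L => (n (toEmb j Z v) : ℤ)) =
          fun l => (fun w => (e w : ℤ) - n w) (toEmb j Z l) := by
        funext v
        rw [Pi.add_apply, Pi.neg_apply]
        ring
      rw [h6]
      exact h5
    refine @of_genD _ _ (Set.range (ext0 (tw p ν j Z.X))) hclosed hR (κ ⊕ κ') _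
      (fun k => ext0 (tw p ν j Z.X) (B k)) (fun k => ⟨B k, rfl⟩) ?_ h4
    rw [Nat.card_eq_fintype_card, Fintype.card_sum]
    exact heven.add hM.even

end

end Pool.Agent.Q43.HN
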