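import Pool.Agent.Q43.HN.Types

/-!
# Relations between factors of odd prime dimension
-/

set_option autoImplicit false
set_option linter.unusedSectionVars false
set_option linter.unusedVariables false

namespace Pool.Agent.Q43.HN

open NumberField Pool.Agent.H204R3.CM Pool.Agent.W547.KB Pool.Agent.W547.LD Pool.Agent.W547.HR
  Pool.Agent.W495.TA Pool.Agent.W495.TB Pool.Agent.W495.TC Pool.Agent.TH117.F5
  Pool.Agent.TH117.PO Pool.Agent.TH117.BL Module Pool.Agent.W976.TA Equiv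
open scoped TensorProduct

noncomputable section

variable {p : ℕ} [Fact p.Prime] {ν : PadicAlgCl p ≃+* ℂ}
  {L : Type} [Field L] [NumberField L] [IsCMField L] [IsGalois ℚ L] {j : L →+* ℂ}
  {Z : RedAV p ν} {g : Z.X.I → ℕ} (hP : PrimeDims Z g)
  (hcom : ∀ i, g i ≠ 1 → g i ≠ 2 → IsCommutative Z i ∨ HasPRankZero Z i) (hZ : Big Z.X j)
  [Fintype (Wt Z.X L)]

include hZ in
theorem inj_card {l l' : Wt Z.X L}
    (hinj : ∀ φ φ', tw p ν j Z.X ⟨l.1, φ⟩ = tw p ν j Z.X ⟨l.1, φ'⟩ → φ = φ')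
    (h : tw p ν j Z.X l = tw p ν j Z.X l') :
    finrank ℚ (Z.X.factor l.1).E ≤ finrank ℚ (Z.X.factor l'.1).E := by
  have h1 := Pool.Agent.W67.TA.card_emb j hZ l.1
  have h2 := Pool.Agent.W67.TA.card_emb j hZ l'.1
  have hfin : Finite ((Z.X.factor l'.1).E →+* L) := Nat.finite_of_card_ne_zero (by
    rw [h2]
    exact finrank_pos.ne')
  have h3 : ∀ φ : (Z.X.factor l.1).E →+* L, ∃ φ' : (Z.X.factor l'.1).E →+* L,
      tw p ν j Z.X ⟨l.1, φ⟩ = tw p ν j Z.X ⟨l'.1, φ'⟩ := by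
    intro φ
    obtain ⟨σ, hσ⟩ := exists_smul j (l := l) (l' := ⟨l.1, φ⟩) rfl
    refine ⟨σ • l'.2, ?_⟩
    rw [← hσ, tw_smul, h, ← tw_smul]
    rfl
  choose F hF using h3
  rw [← h1, ← h2]
  refine Nat.card_le_card_of_injective F fun φ φ' hφ => hinj _ _ ?_
  rw [hF, hF, hφ]

include hZ in
theorem inj_eig {l : Wt Z.X L}
    (hinj : ∀ φ φ', tw p ν j Z.X ⟨l.1, φ⟩ = tw p ν j Z.X ⟨l.1, φ'⟩ → φ = φ')
    (h : IsEig (tw p ν j Z.X l)) : finrank ℚ (Z.X.factor l.1).E ≤ 2 := by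
  classical
  have h1 := Pool.Agent.W67.TA.card_emb j hZ l.1
  have h3 : ∀ φ : (Z.X.factor l.1).E →+* L, tw p ν j Z.X ⟨l.1, φ⟩ = tw p ν j Z.X l ∨
      tw p ν j Z.X ⟨l.1, φ⟩ = -tw p ν j Z.X l := by
    intro φ
    obtain ⟨σ, hσ⟩ := exists_smul j (l := l) (l' := ⟨l.1, φ⟩) rfl
    rw [← hσ, tw_smul]
    exact h σ
  have h4 : Nat.card ((Z.X.factor l.1).E →+* L) ≤ Nat.card Bool := by
    refine Nat.card_le_card_of_injective (fun φ => decide (tw p ν j Z.X ⟨l.1, φ⟩ =
      tw p ν j Z.X l)) fun φ φ' hφ => hinj _ _ ?_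
    have h5 : (tw p ν j Z.X ⟨l.1, φ⟩ = tw p ν j Z.X l) ↔
        (tw p ν j Z.X ⟨l.1, φ'⟩ = tw p ν j Z.X l) := by
      rw [← decide_eq_decide]
      exact hφ
    by_cases h6 : tw p ν j Z.X ⟨l.1, φ⟩ = tw p ν j Z.X l
    · rw [h6, h5.1 h6]
    · rw [(h3 φ).resolve_left h6, (h3 φ').resolve_left fun h7 => h6 (h5.2 h7)]
  rw [h1, Nat.card_eq_fintype_card, Fintype.card_bool] at h4
  exact h4

include hP hcom hZ in
/-- The values of factors of this type are not integral. -/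
theorem not_dvd {i : Z.X.I} (hi : g i ≠ 1)
    (h : EigF p ν j Z i) {l : Wt Z.X L} (hl : l.1 = i) (hne : tw p ν j Z.X l ≠ 0) :
    ¬ (Nat.card (Dec p ν j) : ℤ) ∣ tw p ν j Z.X l 1 := by
  classical
  intro hdvd
  by_cases hi2 : g i = 2
  · rcases hP.two (p := p) (ν := ν) hZ hi2 with h1 | ⟨h1, -⟩
    · exact hne (h1 l hl)
    · subst hl
      have h3 : finrank ℚ (Z.X.factor l.1).E ≤ 2 := inj_eig hZ h1 (h l rfl)
      rw [hP.dim, hi2] at h3
      omega
  rcases hcom i hi hi2 with hc | hc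
  · obtain ⟨τ, φ₀, ⟨b, hb⟩, hodd, hτg, hbij⟩ := hP.data hZ hi hi2
    have h1 : tw p ν j Z.X (⟨i, τ • φ₀⟩ : Wt Z.X L) = tw p ν j Z.X ⟨i, φ₀⟩ := by
      have h2 := tw_smul (p := p) (ν := ν) (j := j) τ (⟨i, φ₀⟩ : Wt Z.X L)
      rw [Rt_of_odd (h ⟨i, φ₀⟩ rfl) hodd] at h2
      exact h2
    obtain ⟨s, hs, h3⟩ := pow_eq_of_tw hZ (l := ⟨i, τ • φ₀⟩) (l' := ⟨i, φ₀⟩) h1
    have h4 := hc _ _ s hs h3
    have h5 : τ • φ₀ = φ₀ := by
      ext x
      exact j.injective (RingHom.congr_fun h4 x)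
    have hg := (hP.prime i).resolve_left hi
    have h6 := @hbij.1 (⟨1, hg.one_lt⟩, false) (⟨0, hg.pos⟩, false) (by
      change τ ^ 1 • φ₀ = τ ^ 0 • φ₀
      rw [pow_one, pow_zero, one_smul, h5])
    have h7 := congrArg (fun y : Fin (g i) × Bool => (y.1 : ℕ)) h6
    exact absurd h7 (by norm_num)
  · subst hl
    have habs := abs_tw_le (p := p) (ν := ν) (j := j) l
    have hN : (0 : ℤ) < Nat.card (Dec p ν j) := card_pos'
    obtain ⟨k, hk⟩ := hdvd
    have h0 : tw p ν j Z.X l 1 ≠ 0 := fun h' => hne ((h l rfl).eq_zero h')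
    have hk0 : k ≠ 0 := by
      rintro rfl
      exact h0 (by rw [hk, mul_zero])
    have hk1 : |k| ≤ 1 := by
      rw [hk, abs_mul, abs_of_pos hN] at habs
      by_contra hcon
      push Not at hcon
      nlinarith
    have h1 : k = 1 ∨ k = -1 := by
      rw [abs_le] at hk1
      omega
    rcases h1 with rfl | rfl
    · have h2 := norm_of_tw (p := p) (ν := ν) hZ (l := cw Z l) (by
        rw [tw_cw, Pi.neg_apply, hk, mul_one])
      exact hc _ h2
    · have h2 := norm_of_tw (p := p) (ν := ν) hZ (l := l) (by rw [hk, mul_neg, mul_one])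
      exact hc _ h2

include hP hcom hZ in
/-- The functions of different factors are different. -/
theorem sep {l l' : Wt Z.X L} (h : tw p ν j Z.X l = tw p ν j Z.X l')
    (hne : tw p ν j Z.X l ≠ 0) (hg : g l.1 ≠ 1) : l.1 = l'.1 := by
  classical
  by_contra hii
  have hpos : ∀ i, 0 < g i := by
    intro i
    rcases hP.prime i with h | h
    · omega
    · exact h.pos
  rcases hP.types (p := p) (ν := ν) hZ l.1 with hE | ⟨-, hI, -⟩
  · rcases hP.types (p := p) (ν := ν) hZ l'.1 with hE' | ⟨hg', hI', -⟩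
    · refine not_dvd hP hcom hZ hg hE rfl hne ?_
      have h1 := hE.dvd hZ (hP.dim _) (l₀ := l) rfl
      have h2 := hE'.dvd hZ (hP.dim _) (l₀ := l') rfl
      rw [← h] at h2
      have hcop : IsCoprime (g l.1 : ℤ) (g l'.1 : ℤ) := by
        rw [Nat.isCoprime_iff_coprime]
        by_cases hg' : g l'.1 = 1
        · rw [hg']
          exact Nat.coprime_one_right _
        · refine (Nat.coprime_primes ((hP.prime _).resolve_left hg)
            ((hP.prime _).resolve_left hg')).2 fun h3 => hg (hP.dist _ _ hii h3)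
      obtain ⟨u, v, huv⟩ := hcop
      have h3 : tw p ν j Z.X l 1 = u * (g l.1 * tw p ν j Z.X l 1) +
          v * (g l'.1 * tw p ν j Z.X l 1) := by
        calc tw p ν j Z.X l 1 = 1 * tw p ν j Z.X l 1 := (one_mul _).symm
          _ = _ := by
            rw [← huv]
            ring
      rw [h3]
      exact dvd_add (dvd_mul_of_dvd_right h1 _) (dvd_mul_of_dvd_right h2 _)
    · have h1 := inj_eig hZ (l := l') hI' (by
        rw [← h]
        exact hE l rfl)
      rw [hP.dim] at h1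
      have := hpos l'.1
      omega
  · rcases hP.types (p := p) (ν := ν) hZ l'.1 with hE' | ⟨hg', hI', -⟩
    · have h1 := inj_eig hZ (l := l) hI (by
        rw [h]
        exact hE' l' rfl)
      rw [hP.dim] at h1
      have := hpos l.1
      omega
    · have h1 := inj_card hZ hI h
      have h2 := inj_card hZ hI' h.symm
      rw [hP.dim, hP.dim] at h1 h2
      exact hg (hP.dist _ _ hii (by omega))

include hP hcom hZ in
theorem sep' {l l' : Wt Z.X L} (h : tw p ν j Z.X l' = tw p ν j Z.X l ∨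
    tw p ν j Z.X l' = -tw p ν j Z.X l) (hne : tw p ν j Z.X l ≠ 0) (hg : g l.1 ≠ 1) :
    l'.1 = l.1 := by
  rcases h with h | h
  · exact (sep hP hcom hZ h.symm hne hg).symm
  · have h1 : tw p ν j Z.X l = tw p ν j Z.X (cw Z l') := by rw [tw_cw, h, neg_neg]
    have h2 := sep hP hcom hZ h1 hne hg
    exact h2.symm

theorem ne_neg_of {f : (L ≃ₐ[ℚ] L) → ℤ} (hne : f ≠ 0) : f ≠ -f := by
  intro h1
  apply hne
  funext σ
  have h2 := congrFun h1 σ
  rw [Pi.neg_apply] at h2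
  rw [Pi.zero_apply]
  omega

theorem inj_ne_zero {l : Wt Z.X L}
    (hinj : ∀ φ φ', tw p ν j Z.X ⟨l.1, φ⟩ = tw p ν j Z.X ⟨l.1, φ'⟩ → φ = φ') :
    tw p ν j Z.X l ≠ 0 := by
  intro h
  have h1 : tw p ν j Z.X (cw Z l) = tw p ν j Z.X l := by rw [tw_cw, h, neg_zero]
  have h2 := hinj (cc L • l.2) l.2 h1
  exact (setting j (Z.X.factor l.1)).ne l.2 h2

include hP hcom hZ in
/-- The multiplicities of factors of the first type. -/
theorem D_inj (x : Wt Z.X L → ℤ) {l : Wt Z.X L} (hg : g l.1 ≠ 1)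
    (hinj : ∀ φ φ', tw p ν j Z.X ⟨l.1, φ⟩ = tw p ν j Z.X ⟨l.1, φ'⟩ → φ = φ') :
    DD (tw p ν j Z.X) x (tw p ν j Z.X l) = xm x l := by
  classical
  have hne := inj_ne_zero (p := p) (ν := ν) (j := j) hinj
  have h1 : ∀ l' : Wt Z.X L, tw p ν j Z.X l' = tw p ν j Z.X l ↔ l' = l := by
    intro l'
    constructor
    · intro h
      have h2 := sep' hP hcom hZ (Or.inl h) hne hg
      obtain ⟨i, φ⟩ := l
      obtain ⟨i', φ'⟩ := l'
      obtain rfl : i' = i := h2
      rw [hinj φ' φ h]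
    · intro h
      rw [h]
  have h2 : ∀ l' : Wt Z.X L, tw p ν j Z.X l' = -tw p ν j Z.X l ↔ l' = cw Z l := by
    intro l'
    constructor
    · intro h
      have h3 := (h1 (cw Z l')).1 (by rw [tw_cw, h, neg_neg])
      rw [← h3, bar_bar']
    · intro h
      rw [h, tw_cw]
  rw [DD_eq]
  have h3 : ∀ l' : Wt Z.X L, x l' * ((if tw p ν j Z.X l' = tw p ν j Z.X l then 1 else 0) -
      (if tw p ν j Z.X l' = -tw p ν j Z.X l then 1 else 0)) =
      (if l' = l then x l' else 0) - if l' = cw Z l then x l' else 0 := by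
    intro l'
    rw [mul_sub]
    congr 1
    · by_cases h : l' = l
      · rw [if_pos h, if_pos ((h1 l').2 h), mul_one]
      · rw [if_neg h, if_neg fun h' => h ((h1 l').1 h'), mul_zero]
    · by_cases h : l' = cw Z l
      · rw [if_pos h, if_pos ((h2 l').2 h), mul_one]
      · rw [if_neg h, if_neg fun h' => h ((h2 l').1 h'), mul_zero]
  rw [Finset.sum_congr rfl fun l' _ => h3 l', Finset.sum_sub_distrib, Finset.sum_ite_eq',
    Finset.sum_ite_eq', if_pos (Finset.mem_univ _), if_pos (Finset.mem_univ _)]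
  rfl

include hP hcom hZ in
/-- The contributions of factors of the second type. -/
theorem Fi_eig (x : Wt Z.X L → ℤ) {l : Wt Z.X L} (hg : g l.1 ≠ 1)
    (hE : EigF p ν j Z l.1) (hne : tw p ν j Z.X l ≠ 0) (σ : L ≃ₐ[ℚ] L) :
    Fi p ν j Z x l.1 σ = DD (tw p ν j Z.X) x (tw p ν j Z.X l) * tw p ν j Z.X l σ := by
  classical
  have hnn := ne_neg_of hne
  have h1 : DD (tw p ν j Z.X) x (tw p ν j Z.X l) = ∑ l' : Wt Z.X L with l'.1 = l.1,
      x l' * ((if tw p ν j Z.X l' = tw p ν j Z.X l then 1 else 0) -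
      (if tw p ν j Z.X l' = -tw p ν j Z.X l then 1 else 0)) := by
    rw [DD_eq, Finset.sum_filter]
    refine Finset.sum_congr rfl fun l' _ => ?_
    by_cases hl : l'.1 = l.1
    · rw [if_pos hl]
    · rw [if_neg hl, if_neg fun h => hl (sep' hP hcom hZ (Or.inl h) hne hg),
        if_neg fun h => hl (sep' hP hcom hZ (Or.inr h) hne hg), sub_zero, mul_zero]
  rw [h1, Finset.sum_mul]
  unfold Fi
  refine Finset.sum_congr rfl fun l' hl' => ?_
  rcases hE.val (l := l) (l' := l') rfl (Finset.mem_filter.1 hl').2 with h | h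
  · rw [if_pos h, if_neg fun h' => hnn (h.symm.trans h'), h]
    ring
  · rw [if_pos h, if_neg fun h' => hnn (h'.symm.trans h), h, Pi.neg_apply]
    ring

include hP hZ in
/-- Integrality of the contributions. -/
theorem Fi_dvd {x : Wt Z.X L → ℤ} (hx : Re p ν j Z x) (i : Z.X.I) :
    (Nat.card (Dec p ν j) : ℤ) ∣ g i * Fi p ν j Z x i 1 := by
  classical
  rcases hP.types (p := p) (ν := ν) hZ i with hE | ⟨-, -, hS⟩
  · unfold Fi
    rw [Finset.mul_sum]
    refine Finset.dvd_sum fun l hl => ?_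
    have h1 := hE.dvd hZ (hP.dim i) (Finset.mem_filter.1 hl).2
    have h2 : (g i : ℤ) * (x l * tw p ν j Z.X l 1) = x l * (g i * tw p ν j Z.X l 1) := by ring
    rw [h2]
    exact dvd_mul_of_dvd_right h1 _
  · refine dvd_mul_of_dvd_right ?_ _
    by_cases hall : ∀ d ∈ Dec p ν j, ∀ l : Wt Z.X L, l.1 = i → xm x (d • l) = xm x l
    · exact dec_dvd hall
    push Not at hall
    obtain ⟨d, hd, l₁, hl₁, hne⟩ := hall
    have h2 : ∀ l : Wt Z.X L, l.1 = i → xm x (d • l) = -xm x l := by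
      rcases hS x hx d with h | h
      · exact absurd (h l₁ hl₁) hne
      · exact h
    have e1 : 2 * Fi p ν j Z x i d = 2 * Fi p ν j Z x i 1 := by
      rw [Fi_two, Fi_two]
      exact Finset.sum_congr rfl fun l _ => by rw [tw_dec l hd]
    have e2 : 2 * Fi p ν j Z x i d = -(2 * Fi p ν j Z x i 1) := by
      rw [Fi_two, Fi_two, ← sum_smul d i fun l : Wt Z.X L => xm x l * tw p ν j Z.X l 1,
        ← Finset.sum_neg_distrib]
      refine Finset.sum_congr rfl fun l hl => ?_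
      rw [h2 l (Finset.mem_filter.1 hl).2, tw_smul]
      unfold Rt
      rw [one_mul]
      ring
    have e3 : Fi p ν j Z x i 1 = 0 := by omega
    rw [e3]
    exact dvd_zero _

include hP hcom hZ in
/-- Divisibility of the multiplicities of factors of the second type. -/
theorem D_dvd {x : Wt Z.X L → ℤ} (hx : Re p ν j Z x) {l : Wt Z.X L} (hg : g l.1 ≠ 1)
    (hE : EigF p ν j Z l.1) (hne : tw p ν j Z.X l ≠ 0) :
    (g l.1 : ℤ) ∣ DD (tw p ν j Z.X) x (tw p ν j Z.X l) := by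
  classical
  set f := tw p ν j Z.X l with hf
  set D := DD (tw p ν j Z.X) x f with hD
  have hEf : IsEig f := hE l rfl
  have hf1 : f 1 ≠ 0 := fun h => hne (hEf.eq_zero h)
  have hprime := (hP.prime _).resolve_left hg
  have h1 := comp_zero (Λ := Z.X.I) (T := fun i' => Fi p ν j Z x i') (x := fun _ => 1)
    (fun i' _ => hP.isEig_Fi hZ i' x hx) (fun σ => by
      simp only [one_mul]
      rw [Fi_sum]
      exact hx σ) hEf hf1
  set M : ℤ := ∏ i' ∈ Finset.univ.erase l.1, (g i' : ℤ) with hM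
  have hFl : ∀ σ, Fi p ν j Z x l.1 σ = D * f σ := fun σ => Fi_eig hP hcom hZ x hg hE hne σ
  have hpar : Par f (Fi p ν j Z x l.1) := by
    intro σ
    rcases hEf σ with h | h
    · left
      refine ⟨h, ?_⟩
      funext τ
      change Fi p ν j Z x l.1 (τ * σ) = Fi p ν j Z x l.1 τ
      have h2 : f (τ * σ) = f τ := congrFun h τ
      rw [hFl, hFl, h2]
    · right
      refine ⟨h, ?_⟩
      funext τ
      change Fi p ν j Z x l.1 (τ * σ) = -Fi p ν j Z x l.1 τ
      have h2 : f (τ * σ) = -f τ := congrFun h τ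
      rw [hFl, hFl, h2, mul_neg]
  rw [← Finset.add_sum_erase Finset.univ _ (Finset.mem_univ l.1)] at h1
  have e1 : (if Par f (Fi p ν j Z x l.1) then 1 * Fi p ν j Z x l.1 1 else 0) = D * f 1 := by
    rw [if_pos hpar, one_mul, hFl]
  have h2 : (Nat.card (Dec p ν j) : ℤ) ∣ M * (D * f 1) := by
    have h3 : M * (D * f 1) = -∑ i' ∈ Finset.univ.erase l.1,
        M * (if Par f (Fi p ν j Z x i') then 1 * Fi p ν j Z x i' 1 else 0) := by
      rw [← Finset.mul_sum]
      have h4 : D * f 1 = -∑ i' ∈ Finset.univ.erase l.1,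
          (if Par f (Fi p ν j Z x i') then 1 * Fi p ν j Z x i' 1 else 0) := by
        have h5 : D * f 1 + ∑ i' ∈ Finset.univ.erase l.1,
            (if Par f (Fi p ν j Z x i') then 1 * Fi p ν j Z x i' 1 else 0) = 0 := by
          rw [← e1]
          exact h1
        linarith
      rw [h4]
      ring
    rw [h3]
    refine dvd_neg.2 (Finset.dvd_sum fun i' hi' => ?_)
    by_cases hpi : Par f (Fi p ν j Z x i')
    · rw [if_pos hpi, one_mul, hM, ← Finset.mul_prod_erase _ _ hi']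
      have h5 : (g i' : ℤ) * (∏ i'' ∈ (Finset.univ.erase l.1).erase i', (g i'' : ℤ)) *
          Fi p ν j Z x i' 1 = (∏ i'' ∈ (Finset.univ.erase l.1).erase i', (g i'' : ℤ)) *
          (g i' * Fi p ν j Z x i' 1) := by ring
      rw [h5]
      exact dvd_mul_of_dvd_right (Fi_dvd hP hZ hx i') _
    · rw [if_neg hpi, mul_zero]
      exact dvd_zero _
  obtain ⟨s, hs⟩ := hE.dvd hZ (hP.dim l.1) (l₀ := l) rfl
  have hs' : (g l.1 : ℤ) * f 1 = Nat.card (Dec p ν j) * s := hs
  obtain ⟨u, hu⟩ := h2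
  have hN : (Nat.card (Dec p ν j) : ℤ) ≠ 0 := by
    have : (0 : ℤ) < Nat.card (Dec p ν j) := card_pos'
    omega
  have h3 : (g l.1 : ℤ) * u = M * D * s := by
    apply mul_left_cancel₀ hN
    calc (Nat.card (Dec p ν j) : ℤ) * (g l.1 * u) = g l.1 * (Nat.card (Dec p ν j) * u) := by ring
      _ = g l.1 * (M * (D * f 1)) := by rw [hu]
      _ = M * D * (g l.1 * f 1) := by ring
      _ = M * D * (Nat.card (Dec p ν j) * s) := by rw [hs']
      _ = Nat.card (Dec p ν j) * (M * D * s) := by ring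
  have hpi : Prime (g l.1 : ℤ) := Nat.prime_iff_prime_int.1 hprime
  have h4 : (g l.1 : ℤ) ∣ M * D * s := ⟨u, h3.symm⟩
  rcases hpi.dvd_or_dvd h4 with h5 | h5
  · rcases hpi.dvd_or_dvd h5 with h6 | h6
    · exfalso
      rw [hM] at h6
      obtain ⟨i', hi', h7⟩ := (Prime.dvd_finsetProd_iff hpi _).1 h6
      have hne' : l.1 ≠ i' := (Finset.ne_of_mem_erase hi').symm
      have h8 : g l.1 ∣ g i' := by exact_mod_cast h7
      by_cases hg' : g i' = 1
      · rw [hg', Nat.dvd_one] at h8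
        exact hg h8
      · have h9 := (Nat.prime_dvd_prime_iff_eq hprime ((hP.prime _).resolve_left hg')).1 h8
        exact hg (hP.dist _ _ hne' h9)
    · exact h6
  · exfalso
    refine not_dvd hP hcom hZ hg hE rfl hne ?_
    obtain ⟨w, hw⟩ := h5
    refine ⟨w, ?_⟩
    have hg0 : (g l.1 : ℤ) ≠ 0 := hpi.ne_zero
    apply mul_left_cancel₀ hg0
    change (g l.1 : ℤ) * f 1 = _
    rw [hs', hw]
    ring

include hP hcom hZ in
/-- Factors of dimension two do not contribute. -/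
theorem ne_two {x : Wt Z.X L → ℤ} (hx : Re p ν j Z x) {l : Wt Z.X L}
    (hne : DD (tw p ν j Z.X) x (tw p ν j Z.X l) ≠ 0) : g l.1 ≠ 2 := by
  intro h2
  rcases hP.two (p := p) (ν := ν) hZ h2 with h | ⟨h, h'⟩
  · apply hne
    rw [h l rfl]
    have h1 := DD_odd (p := p) (ν := ν) (j := j) x 0
    rw [neg_zero] at h1
    omega
  · rw [D_inj hP hcom hZ x (by omega) h] at hne
    exact hne (h' x hx l rfl)

include hP hcom hZ in
/-- The Galois group acts on the multiplicities of a factor by signs. -/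
theorem sgnD {x : Wt Z.X L → ℤ} (hx : Re p ν j Z x) (i : Z.X.I) (σ : L ≃ₐ[ℚ] L) :
    (∀ l : Wt Z.X L, l.1 = i → DD (tw p ν j Z.X) x (tw p ν j Z.X (σ • l)) =
      DD (tw p ν j Z.X) x (tw p ν j Z.X l)) ∨
    ∀ l : Wt Z.X L, l.1 = i → DD (tw p ν j Z.X) x (tw p ν j Z.X (σ • l)) =
      -DD (tw p ν j Z.X) x (tw p ν j Z.X l) := by
  classical
  rcases hP.types (p := p) (ν := ν) hZ i with hE | ⟨hg, hI, hS⟩
  · refine (hE.sign σ).imp (fun h l hl => by rw [h l hl]) fun h l hl => by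
      rw [h l hl, DD_odd]
  · have h1 : ∀ l : Wt Z.X L, l.1 = i → DD (tw p ν j Z.X) x (tw p ν j Z.X l) = xm x l := by
      rintro l rfl
      exact D_inj hP hcom hZ x hg hI
    refine (hS x hx σ).imp (fun h l hl => ?_) fun h l hl => ?_
    · rw [h1 (σ • l) hl, h1 l hl]
      exact h l hl
    · rw [h1 (σ • l) hl, h1 l hl]
      exact h l hl

end

end Pool.Agent.Q43.HN
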