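import Pool.Agent.Q43.HN.Fac

/-!
# Factors of dimension two
-/

set_option autoImplicit false
set_option linter.unusedSectionVars false
set_option linter.unusedVariables false

namespace Pool.Agent.Q43.HN

open NumberField Pool.Agent.H204R3.CM Pool.Agent.W547.KB Pool.Agent.W547.LD Pool.Agent.W547.HR
  Pool.Agent.W495.TA Pool.Agent.W495.TB Pool.Agent.W495.TC Pool.Agent.TH117.F5
  Pool.Agent.TH117.PO Pool.Agent.TH117.BL Module Pool.Agent.W976.TA Equiv
open scoped TensorProduct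

noncomputable section

variable {p : ℕ} [Fact p.Prime] {ν : PadicAlgCl p ≃+* ℂ}
  {L : Type} [Field L] [NumberField L] [IsCMField L] [IsGalois ℚ L] {j : L →+* ℂ}
  {Z : RedAV p ν}

/-- Four points and a central involution. -/
theorem four_points {X : Type} [Finite X] {c : X → X} (hcc : ∀ x, c (c x) = x)
    (hne : ∀ x, c x ≠ x) (hcard : Nat.card X = 4) {x y : X} (h1 : y ≠ x) (h2 : y ≠ c x) (z : X) :
    z = x ∨ z = c x ∨ z = y ∨ z = c y := by
  classical
  let _ : Fintype X := Fintype.ofFinite _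
  by_contra hcon
  push Not at hcon
  obtain ⟨a1, a2, a3, a4⟩ := hcon
  have h3 : c y ≠ x := fun h => h2 (by rw [← h, hcc])
  have h4 : c y ≠ c x := fun h => h1 (by rw [← hcc y, h, hcc])
  have h5 : ({x, c x, y, c y, z} : Finset X).card = 5 := by
    rw [Finset.card_insert_of_notMem, Finset.card_insert_of_notMem, Finset.card_insert_of_notMem,
      Finset.card_insert_of_notMem, Finset.card_singleton]
    · rw [Finset.mem_singleton]
      exact fun h => a4 h.symm
    · rw [Finset.mem_insert, Finset.mem_singleton]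
      rintro (h | h)
      · exact hne y h.symm
      · exact a3 h.symm
    · rw [Finset.mem_insert, Finset.mem_insert, Finset.mem_singleton]
      rintro (h | h | h)
      · exact h2 h.symm
      · exact h4 h.symm
      · exact a2 h.symm
    · rw [Finset.mem_insert, Finset.mem_insert, Finset.mem_insert, Finset.mem_singleton]
      rintro (h | h | h | h)
      · exact hne x h.symm
      · exact h1 h.symm
      · exact h3 h.symm
      · exact a1 h.symm
  have h6 := Finset.card_le_univ ({x, c x, y, c y, z} : Finset X)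
  rw [h5, ← Nat.card_eq_fintype_card, hcard] at h6
  omega

/-- A cycle of length four. -/
theorem exists_four (hZ : Big Z.X j) {i : Z.X.I} (h4 : finrank ℚ (Z.X.factor i).E = 4)
    (hq : ∀ (t : (Z.X.factor i).E) (d : ℕ), 0 < d → t ^ 2 ≠ -(d : (Z.X.factor i).E)) :
    ∃ (τ : L ≃ₐ[ℚ] L) (φ₀ : (Z.X.factor i).E →+* L), τ • τ • φ₀ = cc L • φ₀ ∧
      Function.Bijective (cyc (cc L) τ 2 φ₀) := by
  classical
  let X := (Z.X.factor i).E →+* L
  have hcard : Nat.card X = 4 := (Pool.Agent.W67.TA.card_emb j hZ i).trans h4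
  have hfin : Finite X := Nat.finite_of_card_ne_zero (by omega)
  have hset := setting j (Z.X.factor i)
  have hcc : ∀ φ : X, cc L • cc L • φ = φ := fun φ => by rw [← mul_smul, hset.sq, one_smul]
  have hcτ : ∀ (σ : L ≃ₐ[ℚ] L) (φ : X), σ • cc L • φ = cc L • σ • φ := fun σ φ => by
    rw [← mul_smul, ← mul_smul, hset.comm]
  obtain ⟨φ₀⟩ : Nonempty X := by
    by_contra h
    rw [not_nonempty_iff] at h
    rw [Nat.card_of_isEmpty] at hcard
    omega
  have hall : ∀ φ₁ : X, φ₁ ≠ φ₀ → φ₁ ≠ cc L • φ₀ → ∀ φ : X, φ = φ₀ ∨ φ = cc L • φ₀ ∨ φ = φ₁ ∨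
      φ = cc L • φ₁ := fun φ₁ h1 h2 φ =>
    four_points (c := fun φ : X => cc L • φ) hcc hset.ne hcard h1 h2 φ
  by_cases hex : ∃ τ : L ≃ₐ[ℚ] L, τ • τ • φ₀ = cc L • φ₀
  · obtain ⟨τ, hτ⟩ := hex
    have h1 : τ • φ₀ ≠ φ₀ := fun h => hset.ne φ₀ (by rw [← hτ, h, h])
    have h2 : τ • φ₀ ≠ cc L • φ₀ := fun h => hset.ne φ₀ (by
      rw [← hτ, h, hcτ, h, hcc])
    refine ⟨τ, φ₀, hτ, ?_⟩
    have hsurj : Function.Surjective (cyc (cc L) τ 2 φ₀) := by
      intro φ
      rcases hall _ h1 h2 φ with h | h | h | h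
      · refine ⟨(0, false), ?_⟩
        change τ ^ 0 • φ₀ = φ
        rw [pow_zero, one_smul, h]
      · refine ⟨(0, true), ?_⟩
        change cc L • τ ^ 0 • φ₀ = φ
        rw [pow_zero, one_smul, h]
      · refine ⟨(1, false), ?_⟩
        change τ ^ 1 • φ₀ = φ
        rw [pow_one, h]
      · refine ⟨(1, true), ?_⟩
        change cc L • τ ^ 1 • φ₀ = φ
        rw [pow_one, h]
    refine hsurj.bijective_of_nat_card_le ?_
    rw [hcard, Nat.card_eq_fintype_card, Fintype.card_prod, Fintype.card_fin, Fintype.card_bool]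
  · exfalso
    push Not at hex
    obtain ⟨φ₁, h1, h2⟩ : ∃ φ₁ : X, φ₁ ≠ φ₀ ∧ φ₁ ≠ cc L • φ₀ := by
      by_contra hcon
      push Not at hcon
      have h3 : Nat.card X ≤ Nat.card Bool := by
        refine Nat.card_le_card_of_injective (fun φ => decide (φ = φ₀)) fun φ φ' h => ?_
        have h5 : (φ = φ₀) ↔ (φ' = φ₀) := decide_eq_decide.1 h
        by_cases h6 : φ = φ₀
        · rw [h6, h5.1 h6]
        · rw [hcon φ h6, hcon φ' fun h7 => h6 (h5.2 h7)]
      rw [hcard, Nat.card_eq_fintype_card, Fintype.card_bool] at h3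
      omega
    have key1 : ∀ τ : L ≃ₐ[ℚ] L, τ • φ₀ = φ₁ → τ • φ₁ = φ₀ := by
      intro τ hτ
      rcases hall φ₁ h1 h2 (τ • φ₁) with h | h | h | h
      · exact h
      · exact absurd (by rw [hτ, h]) (hex τ)
      · exact absurd (MulAction.injective τ (h.trans hτ.symm)) h1
      · rw [← hτ, ← hcτ] at h
        exact absurd (MulAction.injective τ (by rw [hτ] at h; exact h)) h2
    obtain ⟨σ, hσ⟩ := hset.trans φ₀ φ₁
    have key2 : ∀ g : L ≃ₐ[ℚ] L, g • φ₀ = φ₀ → g • φ₁ = φ₁ := by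
      intro g hg
      rcases hall φ₁ h1 h2 (g • φ₁) with h | h | h | h
      · exact absurd (MulAction.injective g (h.trans hg.symm)) h1
      · have h3 : g • φ₁ = g • cc L • φ₀ := by rw [h, hcτ, hg]
        exact absurd (MulAction.injective g h3) h2
      · exact h
      · exfalso
        have h3 := key1 (σ * g) (by rw [mul_smul, hg, hσ])
        rw [mul_smul, h, hcτ, key1 σ hσ] at h3
        exact hset.ne φ₀ h3
    have key3 : ∀ g : L ≃ₐ[ℚ] L, g • φ₀ = φ₁ → g • φ₁ = φ₀ := key1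
    let H : Subgroup (L ≃ₐ[ℚ] L) :=
      { carrier := {g | (g • φ₀ = φ₀ ∧ g • φ₁ = φ₁) ∨ (g • φ₀ = φ₁ ∧ g • φ₁ = φ₀)}
        mul_mem' := by
          rintro a b (⟨ha, ha'⟩ | ⟨ha, ha'⟩) (⟨hb, hb'⟩ | ⟨hb, hb'⟩)
          · exact Or.inl ⟨by rw [mul_smul, hb, ha], by rw [mul_smul, hb', ha']⟩
          · exact Or.inr ⟨by rw [mul_smul, hb, ha'], by rw [mul_smul, hb', ha]⟩
          · exact Or.inr ⟨by rw [mul_smul, hb, ha], by rw [mul_smul, hb', ha']⟩
          · exact Or.inl ⟨by rw [mul_smul, hb, ha'], by rw [mul_smul, hb', ha]⟩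
        one_mem' := Or.inl ⟨one_smul _ _, one_smul _ _⟩
        inv_mem' := by
          rintro a (⟨ha, ha'⟩ | ⟨ha, ha'⟩)
          · exact Or.inl ⟨by rw [inv_smul_eq_iff, ha], by rw [inv_smul_eq_iff, ha']⟩
          · exact Or.inr ⟨by rw [inv_smul_eq_iff, ha'], by rw [inv_smul_eq_iff, ha]⟩ }
    have hH : ∀ g : L ≃ₐ[ℚ] L, (g • φ₀ = φ₀ ∨ g • φ₀ = φ₁) → g ∈ H := by
      rintro g (h | h)
      · exact Or.inl ⟨h, key2 g h⟩
      · exact Or.inr ⟨h, key1 g h⟩
    have hcH : cc L ∉ H := by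
      rintro (⟨h, -⟩ | ⟨h, -⟩)
      · exact hset.ne φ₀ h
      · exact h2 h.symm
    have hcg : ∀ g, g ∉ H → cc L * g ∈ H := by
      intro g hg
      refine hH _ ?_
      rw [mul_smul]
      rcases hall φ₁ h1 h2 (g • φ₀) with h | h | h | h
      · exact absurd (hH g (Or.inl h)) hg
      · left
        rw [h, hcc]
      · exact absurd (hH g (Or.inr h)) hg
      · right
        rw [h, hcc]
    obtain ⟨d, θ, hd, hθ, hθ1, hθ2⟩ := exists_root j H hcH hcg
    obtain ⟨t, ht⟩ := mem_range φ₀ (θ := θ) (fun σ hσ => hθ1 σ (hH σ (Or.inl hσ)))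
    refine hq t d hd ?_
    apply φ₀.injective
    rw [map_pow, ht, hθ, map_neg, map_natCast]

section

variable [Fintype (Wt Z.X L)] {i : Z.X.I} {τ : L ≃ₐ[ℚ] L} {φ₀ : (Z.X.factor i).E →+* L}
  (hτ : τ • τ • φ₀ = cc L • φ₀) (hbij : Function.Bijective (cyc (cc L) τ 2 φ₀))
include hτ hbij

theorem surf_t (σ : L ≃ₐ[ℚ] L) : tw p ν j Z.X ⟨i, φ₀⟩ (σ * τ * τ) =
    -tw p ν j Z.X ⟨i, φ₀⟩ σ := by
  have h1 := tw_smul (p := p) (ν := ν) (j := j) τ (τ • (⟨i, φ₀⟩ : Wt Z.X L))
  rw [tw_smul τ (⟨i, φ₀⟩ : Wt Z.X L)] at h1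
  have h2 : τ • τ • (⟨i, φ₀⟩ : Wt Z.X L) = cw Z ⟨i, φ₀⟩ := by
    change (⟨i, τ • τ • φ₀⟩ : Wt Z.X L) = ⟨i, cc L • φ₀⟩
    rw [hτ]
  rw [h2, tw_cw] at h1
  have h3 := congrFun h1 σ
  rw [Pi.neg_apply] at h3
  exact h3.symm

/-- The functions vanish, or they are different from each other. -/
theorem surf_inj : (∀ l : Wt Z.X L, l.1 = i → tw p ν j Z.X l = 0) ∨
    ∀ φ φ', tw p ν j Z.X ⟨i, φ⟩ = tw p ν j Z.X ⟨i, φ'⟩ → φ = φ' := by
  classical
  let T := tw p ν j Z.X
  let t : (L ≃ₐ[ℚ] L) → ℤ := T ⟨i, φ₀⟩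
  have hB : ∀ (k : Fin 2) (b : Bool), T ⟨i, cyc (cc L) τ 2 φ₀ (k, b)⟩ =
      if b then -Rt (τ ^ (k : ℕ)) t else Rt (τ ^ (k : ℕ)) t := by
    intro k b
    have h1 : T ⟨i, τ ^ (k : ℕ) • φ₀⟩ = Rt (τ ^ (k : ℕ)) t := tw_smul (τ ^ (k : ℕ)) ⟨i, φ₀⟩
    rcases b with _ | _
    · exact h1
    · have h2 : T ⟨i, cc L • τ ^ (k : ℕ) • φ₀⟩ = -T ⟨i, τ ^ (k : ℕ) • φ₀⟩ :=
        tw_cw ⟨i, τ ^ (k : ℕ) • φ₀⟩
      exact h2.trans (by rw [h1]; rfl)
  have htt : Rt τ (Rt τ t) = -t := by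
    funext σ
    exact surf_t (p := p) (ν := ν) (j := j) hτ hbij σ
  by_cases ht : t = 0
  · left
    rintro ⟨i', φ⟩ hi'
    obtain rfl : i' = i := hi'
    obtain ⟨⟨k, b⟩, rfl⟩ := hbij.2 φ
    refine (hB k b).trans ?_
    rw [ht]
    rcases b with _ | _
    · rfl
    · change -(0 : (L ≃ₐ[ℚ] L) → ℤ) = 0
      exact neg_zero
  · right
    have hneg : ∀ f : (L ≃ₐ[ℚ] L) → ℤ, f = -f → f = 0 := by
      intro f h
      funext σ
      have h1 := congrFun h σ
      rw [Pi.neg_apply] at h1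
      rw [Pi.zero_apply]
      omega
    have h1 : Rt τ t ≠ t := by
      intro h
      rw [h, h] at htt
      exact ht (hneg t htt)
    have h2 : Rt τ t ≠ -t := by
      intro h
      rw [h, Rt_neg, h, neg_neg] at htt
      exact ht (hneg t htt)
    intro φ φ' h
    obtain ⟨⟨k, b⟩, rfl⟩ := hbij.2 φ
    obtain ⟨⟨k', b'⟩, rfl⟩ := hbij.2 φ'
    have h3 := (hB k b).symm.trans (Eq.trans h (hB k' b'))
    congr 1
    have e0 : Rt (τ ^ ((0 : Fin 2) : ℕ)) t = t := by
      change Rt (τ ^ 0) t = t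
      rw [pow_zero, Rt_one]
    have e1 : Rt (τ ^ ((1 : Fin 2) : ℕ)) t = Rt τ t := by
      change Rt (τ ^ 1) t = Rt τ t
      rw [pow_one]
    have hnn : t ≠ -t := fun h => ht (hneg t h)
    have hnn' : Rt τ t ≠ -Rt τ t := by
      intro h
      have h4 := hneg _ h
      rw [h4] at htt
      apply ht
      have h5 : Rt τ (0 : (L ≃ₐ[ℚ] L) → ℤ) = 0 := rfl
      rw [h5] at htt
      exact neg_eq_zero.1 htt.symm
    have hm : -Rt τ t ≠ t := fun h => h2 (neg_eq_iff_eq_neg.1 h)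
    fin_cases k <;> fin_cases k' <;> rcases b with _ | _ <;> rcases b' with _ | _ <;>
      simp only [Fin.zero_eta, Fin.mk_one, if_true, if_false, Bool.false_eq_true] at h3 ⊢
    · exact absurd h3 hnn
    · exact absurd h3.symm hnn
    · exact absurd h3.symm h1
    · exact absurd h3.symm hm
    · exact absurd (e1.symm.trans (h3.symm.trans (congrArg Neg.neg e0))) h2
    · exact absurd (neg_injective h3).symm h1
    · exact absurd h3 h1
    · exact absurd h3 h2
    · exact absurd h3 hm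
    · exact absurd (neg_injective h3) h1
    · exact absurd h3 hnn'
    · exact absurd h3.symm hnn'

/-- Contributions of factors of dimension two. -/
theorem surf_zero {x : Wt Z.X L → ℤ} (hx : Re p ν j Z x)
    (hE : ∀ i', i' ≠ i → IsEig (Fi p ν j Z x i')) : (∀ σ, Fi p ν j Z x i σ = 0) ∧
      ((∀ l : Wt Z.X L, l.1 = i → tw p ν j Z.X l = 0) ∨
        ∀ l : Wt Z.X L, l.1 = i → xm x l = 0) := by
  classical
  let T := tw p ν j Z.X
  let t : (L ≃ₐ[ℚ] L) → ℤ := T ⟨i, φ₀⟩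
  set a := xm x ⟨i, φ₀⟩ with ha
  set b := xm x ⟨i, τ • φ₀⟩ with hb
  have hF : ∀ σ, Fi p ν j Z x i σ = a * t σ + b * t (σ * τ) := by
    intro σ
    rw [Fi_cyc hbij, Finset.sum_range_succ, Finset.sum_range_one]
    simp only [pow_zero, one_smul, pow_one, mul_one]
    rfl
  have htt : ∀ σ, t (σ * τ * τ) = -t σ := fun σ =>
    surf_t (p := p) (ν := ν) (j := j) hτ hbij σ
  have hrest : ∀ h, Fi p ν j Z x i h = -∑ i' ∈ Finset.univ.erase i, Fi p ν j Z x i' h := by
    intro h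
    have h1 := hx h
    rw [← Fi_sum, ← Finset.add_sum_erase Finset.univ _ (Finset.mem_univ i)] at h1
    linarith
  have h0 : ∀ σ, Fi p ν j Z x i σ = 0 := by
    intro σ
    have h1 : Fi p ν j Z x i (σ * τ * τ) = -Fi p ν j Z x i σ := by
      rw [hF, hF, htt]
      have h2 : t (σ * τ * τ * τ) = -t (σ * τ) := htt (σ * τ)
      rw [h2]
      ring
    have h2 : Fi p ν j Z x i (σ * τ * τ) = Fi p ν j Z x i σ := by
      rw [hrest, hrest]
      congr 1
      refine Finset.sum_congr rfl fun i' hi' => ?_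
      rcases hE i' (Finset.ne_of_mem_erase hi') τ with h | h
      · have h3 := congrFun h (σ * τ)
        have h4 := congrFun h σ
        exact h3.trans h4
      · have h3 := congrFun h (σ * τ)
        have h4 := congrFun h σ
        rw [Pi.neg_apply] at h3 h4
        have h5 : Fi p ν j Z x i' (σ * τ * τ) = -Fi p ν j Z x i' (σ * τ) := h3
        have h6 : Fi p ν j Z x i' (σ * τ) = -Fi p ν j Z x i' σ := h4
        rw [h5, h6, neg_neg]
    omega
  refine ⟨h0, ?_⟩
  by_cases hab : a = 0 ∧ b = 0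
  · right
    rintro ⟨i', φ⟩ hi'
    obtain rfl : i' = i := hi'
    obtain ⟨⟨k, c⟩, rfl⟩ := hbij.2 φ
    have h1 : ∀ k : Fin 2, xm x (⟨i', τ ^ (k : ℕ) • φ₀⟩ : Wt Z.X L) = 0 := by
      intro k
      fin_cases k
      · change xm x (⟨i', τ ^ 0 • φ₀⟩ : Wt Z.X L) = 0
        rw [pow_zero, one_smul]
        exact hab.1
      · change xm x (⟨i', τ ^ 1 • φ₀⟩ : Wt Z.X L) = 0
        rw [pow_one]
        exact hab.2
    rcases c with _ | _
    · exact h1 k
    · exact (xm_cw x ⟨i', τ ^ (k : ℕ) • φ₀⟩).trans (by rw [h1, neg_zero])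
  · left
    have ht : ∀ σ, t σ = 0 := by
      intro σ
      have h1 := h0 σ
      have h2 := h0 (σ * τ)
      rw [hF] at h1 h2
      rw [htt] at h2
      have h3 : (a * a + b * b) * t σ = 0 := by
        linear_combination a * h1 - b * h2
      rcases mul_eq_zero.1 h3 with h4 | h4
      · exfalso
        apply hab
        have h5 := mul_self_nonneg a
        have h6 := mul_self_nonneg b
        constructor
        · exact mul_self_eq_zero.1 (by omega)
        · exact mul_self_eq_zero.1 (by omega)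
      · exact h4
    rintro ⟨i', φ⟩ hi'
    obtain rfl : i' = i := hi'
    obtain ⟨σ, hσ⟩ := exists_smul j (l := (⟨i', φ₀⟩ : Wt Z.X L)) (l' := ⟨i', φ⟩) rfl
    rw [← hσ, tw_smul]
    funext g
    exact ht (g * σ)

end

end

end Pool.Agent.Q43.HN
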