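import Pool.Agent.Q43.HN.Rel
import Pool.Agent.Q43.HN.Cond

/-!
# The relations with at most two terms
-/

set_option autoImplicit false
set_option linter.unusedSectionVars false
set_option linter.unusedVariables false

namespace Pool.Agent.Q43.HN

open NumberField Pool.Agent.H204R3.CM Pool.Agent.W547.KB Pool.Agent.W547.LD Pool.Agent.W547.HR
  Pool.Agent.W495.TA Pool.Agent.W495.TB Pool.Agent.W495.TC Pool.Agent.TH117.F5
  Pool.Agent.TH117.PO Pool.Agent.TH117.BL Module Pool.Agent.W976.TA Equiv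
open scoped TensorProduct

noncomputable section

variable {p : ℕ} [Fact p.Prime] {ν : PadicAlgCl p ≃+* ℂ}
  {L : Type} [Field L] [NumberField L] [IsCMField L] [IsGalois ℚ L] {j : L →+* ℂ}
  {Z : RedAV p ν}

theorem DD_eq {Λ G : Type} [Fintype Λ] (T : Λ → G → ℤ) (x : Λ → ℤ) (f : G → ℤ)
    [∀ l, Decidable (T l = f)] [∀ l, Decidable (T l = -f)] :
    DD T x f = ∑ l, x l * ((if T l = f then 1 else 0) - (if T l = -f then 1 else 0)) := by
  unfold DD
  refine Finset.sum_congr rfl fun l _ => ?_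
  by_cases h : T l = f
  · by_cases h' : T l = -f
    · rw [if_pos h, if_pos h', if_pos h, if_pos h']
    · rw [if_pos h, if_neg h', if_pos h, if_neg h']
  · by_cases h' : T l = -f
    · rw [if_neg h, if_pos h', if_neg h, if_pos h']
    · rw [if_neg h, if_neg h', if_neg h, if_neg h']

theorem twoGroup_le (Z : RedAV p ν) : twoGroup Z ≤ elemGroup Z := by
  refine AddSubgroup.closure_mono ?_
  rintro d ⟨n, h1, h2, h3⟩
  exact ⟨n, h1, Or.inl h2, h3⟩

theorem DD_two (hZ : Big Z.X j) [Fintype (Wt Z.X L)] {d : Emb Z → ℤ} (hd : d ∈ twoGroup Z) :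
    DD (tw p ν j Z.X) (fun l => d (toEmb j Z l)) = 0 := by
  classical
  have hbij := toEmb_bijective (j := j) hZ
  let E : Wt Z.X L ≃ Emb Z := Equiv.ofBijective _ hbij
  unfold twoGroup at hd
  induction hd using AddSubgroup.closure_induction with
  | mem d hd =>
    obtain ⟨n, h0, h2, h3⟩ := hd
    have h1 := (isRel_iff hZ n).1 h0
    have h4 : (fun l => d (toEmb j Z l)) = fun l : Wt Z.X L => (n (toEmb j Z l) : ℤ) :=
      funext fun l => h3 _
    rw [h4]
    exact DD_small (tw p ν j Z.X) (fun l => n (toEmb j Z l)) (by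
      rw [← Equiv.sum_comp E] at h2
      exact h2) h1
  | zero =>
    have h4 : (fun l : Wt Z.X L => (0 : Emb Z → ℤ) (toEmb j Z l)) = 0 := rfl
    rw [h4, DD_zero]
  | add d d' _ _ h h' =>
    have h4 : (fun l : Wt Z.X L => (d + d') (toEmb j Z l)) =
      (fun l => d (toEmb j Z l)) + fun l => d' (toEmb j Z l) := rfl
    rw [h4, DD_add, h, h', add_zero]
  | neg d _ h =>
    have h4 : (fun l : Wt Z.X L => (-d) (toEmb j Z l)) = -fun l => d (toEmb j Z l) := rfl
    rw [h4, DD_neg, h, neg_zero]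

/-- The function with the value one at `l`. -/
def sg (Z : RedAV p ν) (j : L →+* ℂ) (l : Wt Z.X L) : Emb Z → ℤ :=
  open Classical in Pi.single (toEmb j Z l) 1

theorem sg_apply (hZ : Big Z.X j) (l l' : Wt Z.X L) [Decidable (l' = l)] :
    sg Z j l (toEmb j Z l') = if l' = l then 1 else 0 := by
  classical
  unfold sg
  by_cases h : l' = l
  · subst h
    rw [Pi.single_eq_same, if_pos rfl]
  · rw [if_neg h, Pi.single_eq_of_ne fun h' => h ((toEmb_bijective (j := j) hZ).1 h')]

theorem sg_zero (hZ : Big Z.X j) [Fintype (Wt Z.X L)] {l : Wt Z.X L}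
    (hl : tw p ν j Z.X l = 0) : sg Z j l ∈ twoGroup Z := by
  classical
  have hbij := toEmb_bijective (j := j) hZ
  let E : Wt Z.X L ≃ Emb Z := Equiv.ofBijective _ hbij
  refine AddSubgroup.subset_closure ⟨fun u => if u = toEmb j Z l then 1 else 0, ?_, ?_, ?_⟩
  · rw [isRel_iff hZ]
    intro σ
    rw [Finset.sum_eq_single l]
    · rw [if_pos rfl, hl]
      simp
    · intro b _ hb
      rw [if_neg fun h => hb (hbij.1 h)]
      simp
    · intro h
      exact absurd (Finset.mem_univ l) h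
  · rw [Finset.sum_ite_eq' Finset.univ, if_pos (Finset.mem_univ _)]
    norm_num
  · intro w
    unfold sg
    change _ = (((if w = toEmb j Z l then 1 else 0 : ℕ)) : ℤ)
    by_cases h : w = toEmb j Z l
    · subst h
      rw [Pi.single_eq_same, if_pos rfl]
      rfl
    · rw [Pi.single_eq_of_ne h, if_neg h]
      rfl

theorem rel_pair (hZ : Big Z.X j) [Fintype (Wt Z.X L)] [DecidableEq (Emb Z)] {l l' : Wt Z.X L}
    (hl : tw p ν j Z.X l' = -tw p ν j Z.X l) :
    IsRel Z fun u => (if u = toEmb j Z l then 1 else 0) + if u = toEmb j Z l' then 1 else 0 := by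
  classical
  have hbij := toEmb_bijective (j := j) hZ
  rw [isRel_iff hZ]
  intro σ
  have h1 : ∀ w : Wt Z.X L, ((((if toEmb j Z w = toEmb j Z l then 1 else 0) +
      if toEmb j Z w = toEmb j Z l' then 1 else 0 : ℕ) : ℤ)) * tw p ν j Z.X w σ =
      (if w = l then tw p ν j Z.X w σ else 0) + if w = l' then tw p ν j Z.X w σ else 0 := by
    intro w
    push_cast
    rw [add_mul]
    congr 1
    · by_cases h : w = l
      · rw [if_pos h, if_pos (congrArg _ h), one_mul]
      · rw [if_neg h, if_neg fun h' => h (hbij.1 h'), zero_mul]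
    · by_cases h : w = l'
      · rw [if_pos h, if_pos (congrArg _ h), one_mul]
      · rw [if_neg h, if_neg fun h' => h (hbij.1 h'), zero_mul]
  rw [Finset.sum_congr rfl fun w _ => h1 w, Finset.sum_add_distrib, Finset.sum_ite_eq',
    Finset.sum_ite_eq', if_pos (Finset.mem_univ _), if_pos (Finset.mem_univ _), hl, Pi.neg_apply,
    add_neg_cancel]

theorem sg_add (hZ : Big Z.X j) [Fintype (Wt Z.X L)] {l l' : Wt Z.X L}
    (hl : tw p ν j Z.X l' = -tw p ν j Z.X l) : sg Z j l + sg Z j l' ∈ twoGroup Z := by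
  classical
  have hbij := toEmb_bijective (j := j) hZ
  let E : Wt Z.X L ≃ Emb Z := Equiv.ofBijective _ hbij
  refine AddSubgroup.subset_closure ⟨fun u => (if u = toEmb j Z l then 1 else 0) +
    if u = toEmb j Z l' then 1 else 0, rel_pair hZ hl, ?_, ?_⟩
  · rw [Finset.sum_add_distrib, Finset.sum_ite_eq' Finset.univ, Finset.sum_ite_eq' Finset.univ,
      if_pos (Finset.mem_univ _), if_pos (Finset.mem_univ _)]
  · intro w
    have h1 : ∀ l : Wt Z.X L, sg Z j l w = if w = toEmb j Z l then 1 else 0 := by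
      intro l
      unfold sg
      by_cases h : w = toEmb j Z l
      · subst h
        rw [Pi.single_eq_same, if_pos rfl]
      · rw [Pi.single_eq_of_ne h, if_neg h]
    rw [Pi.add_apply, h1, h1]
    push_cast
    rfl

theorem sg_sub (hZ : Big Z.X j) [Fintype (Wt Z.X L)] {l l' : Wt Z.X L}
    (hl : tw p ν j Z.X l' = tw p ν j Z.X l) : sg Z j l - sg Z j l' ∈ twoGroup Z := by
  have h1 := sg_add hZ (l := l) (l' := cw Z l') (by rw [tw_cw, hl])
  have h2 := sg_add hZ (l := l') (l' := cw Z l') (tw_cw l')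
  have h3 := AddSubgroup.sub_mem _ h1 h2
  have h4 : sg Z j l - sg Z j l' = sg Z j l + sg Z j (cw Z l') -
    (sg Z j l' + sg Z j (cw Z l')) := by abel
  rw [h4]
  exact h3

/-- The relations in the group generated by the relations with at most two terms. -/
theorem mem_two (hZ : Big Z.X j) [Fintype (Wt Z.X L)] {d : Emb Z → ℤ}
    (hd : DD (tw p ν j Z.X) (fun l => d (toEmb j Z l)) = 0) : d ∈ twoGroup Z := by
  classical
  have hbij := toEmb_bijective (j := j) hZ
  let E : Wt Z.X L ≃ Emb Z := Equiv.ofBijective _ hbij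
  let T := tw p ν j Z.X
  let s : Setoid (Wt Z.X L) :=
    { r := fun l l' => T l = T l' ∨ T l = -T l'
      iseqv :=
        { refl := fun l => Or.inl rfl
          symm := by
            rintro l l' (h | h)
            · exact Or.inl h.symm
            · exact Or.inr (by rw [h, neg_neg])
          trans := by
            rintro l l' l'' (h | h) (h' | h')
            · exact Or.inl (h.trans h')
            · exact Or.inr (h.trans h')
            · exact Or.inr (by rw [h, h'])
            · exact Or.inl (by rw [h, h', neg_neg]) } }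
  let rep : Quotient s → Wt Z.X L := fun q => q.out
  have hrep : ∀ l, T l = T (rep ⟦l⟧) ∨ T l = -T (rep ⟦l⟧) := by
    intro l
    have h1 : s.r (rep ⟦l⟧) l := Quotient.exact (Quotient.out_eq (⟦l⟧ : Quotient s))
    exact s.iseqv.symm h1
  let ε : Wt Z.X L → ℤ := fun l => if T l = T (rep ⟦l⟧) then 1 else -1
  have hε : ∀ l, sg Z j l - ε l • sg Z j (rep ⟦l⟧) ∈ twoGroup Z := by
    intro l
    by_cases h : T l = T (rep ⟦l⟧)
    · have h1 : ε l = 1 := if_pos h
      rw [h1, one_smul]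
      exact sg_sub hZ h.symm
    · have h1 : ε l = -1 := if_neg h
      rw [h1, neg_smul, one_smul, sub_neg_eq_add]
      have h2 := (hrep l).resolve_left h
      exact sg_add hZ (by
        change T (rep ⟦l⟧) = -T l
        rw [h2, neg_neg])
  have hdec : d = ∑ l, d (toEmb j Z l) • sg Z j l := by
    funext u
    obtain ⟨l', rfl⟩ := hbij.2 u
    rw [Finset.sum_apply]
    rw [Finset.sum_eq_single l']
    · rw [Pi.smul_apply, sg_apply hZ, if_pos rfl, smul_eq_mul, mul_one]
    · intro b _ hb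
      rw [Pi.smul_apply, sg_apply hZ, if_neg (Ne.symm hb), smul_zero]
    · intro h
      exact absurd (Finset.mem_univ l') h
  have hsum : ∑ l, (d (toEmb j Z l) * ε l) • sg Z j (rep ⟦l⟧) ∈ twoGroup Z := by
    rw [← Finset.sum_fiberwise Finset.univ (fun l => (⟦l⟧ : Quotient s))]
    refine AddSubgroup.sum_mem _ fun q _ => ?_
    have h1 : ∑ l with (⟦l⟧ : Quotient s) = q, (d (toEmb j Z l) * ε l) • sg Z j (rep ⟦l⟧) =
        (∑ l with (⟦l⟧ : Quotient s) = q, d (toEmb j Z l) * ε l) • sg Z j (rep q) := by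
      rw [Finset.sum_smul]
      refine Finset.sum_congr rfl fun l hl => ?_
      rw [(Finset.mem_filter.1 hl).2]
    rw [h1]
    by_cases h0 : T (rep q) = 0
    · exact AddSubgroup.zsmul_mem _ (sg_zero hZ h0) _
    · have h2 : ∑ l with (⟦l⟧ : Quotient s) = q, d (toEmb j Z l) * ε l = 0 := by
        have h3 := congrFun hd (T (rep q))
        rw [Pi.zero_apply, DD_eq] at h3
        rw [← h3, Finset.sum_filter]
        refine Finset.sum_congr rfl fun l _ => ?_
        have hne : T (rep q) ≠ -T (rep q) := by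
          intro h
          apply h0
          funext g
          have h4 := congrFun h g
          rw [Pi.neg_apply] at h4
          rw [Pi.zero_apply]
          omega
        by_cases hl : (⟦l⟧ : Quotient s) = q
        · rw [if_pos hl]
          subst hl
          rcases hrep l with h | h
          · have h4 : ε l = 1 := if_pos h
            have h5 : ¬ T l = -T (rep ⟦l⟧) := fun h5 => hne (h.symm.trans h5)
            change _ = d (toEmb j Z l) * ((if T l = T (rep ⟦l⟧) then 1 else 0) -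
              (if T l = -T (rep ⟦l⟧) then 1 else 0))
            rw [h4, if_pos h, if_neg h5, sub_zero]
          · have h5 : ¬ T l = T (rep ⟦l⟧) := fun h5 => hne (h5.symm.trans h)
            have h4 : ε l = -1 := if_neg h5
            change _ = d (toEmb j Z l) * ((if T l = T (rep ⟦l⟧) then 1 else 0) -
              (if T l = -T (rep ⟦l⟧) then 1 else 0))
            rw [h4, if_pos h, if_neg h5, zero_sub]
        · rw [if_neg hl]
          have h4 : ¬ (T l = T (rep q) ∨ T l = -T (rep q)) := by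
            intro h4
            apply hl
            rw [← Quotient.out_eq q]
            exact Quotient.sound h4
          push Not at h4
          change _ = d (toEmb j Z l) * ((if T l = T (rep q) then 1 else 0) -
            (if T l = -T (rep q) then 1 else 0))
          rw [if_neg h4.1, if_neg h4.2, sub_zero, mul_zero]
      rw [h2, zero_smul]
      exact AddSubgroup.zero_mem _
  have hfin : d = ∑ l, d (toEmb j Z l) • (sg Z j l - ε l • sg Z j (rep ⟦l⟧)) +
      ∑ l, (d (toEmb j Z l) * ε l) • sg Z j (rep ⟦l⟧) := by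
    rw [← Finset.sum_add_distrib]
    refine hdec.trans (Finset.sum_congr rfl fun l _ => ?_)
    rw [smul_sub, mul_smul, sub_add_cancel]
  rw [hfin]
  exact AddSubgroup.add_mem _
    (AddSubgroup.sum_mem _ fun l _ => AddSubgroup.zsmul_mem _ (hε l) _) hsum

/-! ### The Galois group -/

/-- The action of the Galois group on functions. -/
def Rt (σ : L ≃ₐ[ℚ] L) (f : (L ≃ₐ[ℚ] L) → ℤ) : (L ≃ₐ[ℚ] L) → ℤ := fun h => f (h * σ)

theorem Rt_mul (σ τ : L ≃ₐ[ℚ] L) (f : (L ≃ₐ[ℚ] L) → ℤ) : Rt (σ * τ) f = Rt σ (Rt τ f) := by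
  funext h
  unfold Rt
  rw [mul_assoc]

theorem Rt_one (f : (L ≃ₐ[ℚ] L) → ℤ) : Rt 1 f = f := by
  funext h
  unfold Rt
  rw [mul_one]

theorem Rt_neg (σ : L ≃ₐ[ℚ] L) (f : (L ≃ₐ[ℚ] L) → ℤ) : Rt σ (-f) = -Rt σ f := rfl

theorem Rt_inv_self (σ : L ≃ₐ[ℚ] L) (f : (L ≃ₐ[ℚ] L) → ℤ) : Rt σ (Rt σ⁻¹ f) = f := by
  rw [← Rt_mul, mul_inv_cancel, Rt_one]

theorem Rt_self_inv (σ : L ≃ₐ[ℚ] L) (f : (L ≃ₐ[ℚ] L) → ℤ) : Rt σ⁻¹ (Rt σ f) = f := by
  rw [← Rt_mul, inv_mul_cancel, Rt_one]

theorem tw_smul (σ : L ≃ₐ[ℚ] L) (l : Wt Z.X L) :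
    tw p ν j Z.X (σ • l) = Rt σ (tw p ν j Z.X l) := Pool.Agent.TH117.F5.nn_smul j (Z.X.factor l.1) l.2 σ

theorem DD_smul [Fintype (Wt Z.X L)] (x : Wt Z.X L → ℤ) (σ : L ≃ₐ[ℚ] L)
    (f : (L ≃ₐ[ℚ] L) → ℤ) :
    DD (tw p ν j Z.X) (fun l => x (σ⁻¹ • l)) (Rt σ f) = DD (tw p ν j Z.X) x f := by
  classical
  rw [DD_eq, DD_eq]
  rw [← Equiv.sum_comp (MulAction.toPerm σ : Perm (Wt Z.X L))]
  refine Finset.sum_congr rfl fun l _ => ?_
  have e0 : (MulAction.toPerm σ : Perm (Wt Z.X L)) l = σ • l := rfl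
  have e1 : (Rt σ (tw p ν j Z.X l) = Rt σ f) ↔ (tw p ν j Z.X l = f) := by
    constructor
    · intro h
      rw [← Rt_self_inv σ (tw p ν j Z.X l), h, Rt_self_inv]
    · intro h
      rw [h]
  have e2 : (Rt σ (tw p ν j Z.X l) = -Rt σ f) ↔ (tw p ν j Z.X l = -f) := by
    rw [← Rt_neg]
    constructor
    · intro h
      rw [← Rt_self_inv σ (tw p ν j Z.X l), h, Rt_self_inv]
    · intro h
      rw [h]
  simp only [e0, tw_smul, inv_smul_smul]
  congr 1
  congr 1
  · by_cases h : tw p ν j Z.X l = f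
    · rw [if_pos h, if_pos (e1.2 h)]
    · rw [if_neg h, if_neg fun h' => h (e1.1 h')]
  · by_cases h : tw p ν j Z.X l = -f
    · rw [if_pos h, if_pos (e2.2 h)]
    · rw [if_neg h, if_neg fun h' => h (e2.1 h')]

theorem DD_odd [Fintype (Wt Z.X L)] (x : Wt Z.X L → ℤ) (f : (L ≃ₐ[ℚ] L) → ℤ) :
    DD (tw p ν j Z.X) x (-f) = -DD (tw p ν j Z.X) x f := by
  classical
  rw [DD_eq, DD_eq]
  rw [← Finset.sum_neg_distrib]
  refine Finset.sum_congr rfl fun l _ => ?_
  rw [neg_neg, ← mul_neg, neg_sub]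

theorem exists_of_DD [Fintype (Wt Z.X L)] {x : Wt Z.X L → ℤ} {f : (L ≃ₐ[ℚ] L) → ℤ}
    (h : DD (tw p ν j Z.X) x f ≠ 0) : ∃ l : Wt Z.X L, tw p ν j Z.X l = f := by
  classical
  by_contra hcon
  push Not at hcon
  apply h
  rw [DD_eq]
  refine Finset.sum_eq_zero fun l _ => ?_
  have h2 : ¬ tw p ν j Z.X l = -f := by
    intro h2
    apply hcon (cw Z l)
    rw [tw_cw, h2, neg_neg]
  rw [if_neg (hcon l), if_neg h2, sub_zero, mul_zero]

/-- The conjugate relation. -/
theorem rel_smul [Fintype (Wt Z.X L)] {x : Wt Z.X L → ℤ}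
    (hx : ∀ σ, ∑ l : Wt Z.X L, x l * tw p ν j Z.X l σ = 0) (τ σ : L ≃ₐ[ℚ] L) :
    ∑ l : Wt Z.X L, x (τ⁻¹ • l) * tw p ν j Z.X l σ = 0 := by
  classical
  rw [← Equiv.sum_comp (MulAction.toPerm τ : Perm (Wt Z.X L)), ← hx (σ * τ)]
  refine Finset.sum_congr rfl fun l _ => ?_
  have e0 : (MulAction.toPerm τ : Perm (Wt Z.X L)) l = τ • l := rfl
  rw [e0, inv_smul_smul, tw_smul]
  rfl

end

end Pool.Agent.Q43.HN
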