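import Pool.Agent.Q43.HN.Surf

/-!
# Factors of dimension one or of prime dimension
-/

set_option autoImplicit false
set_option linter.unusedSectionVars false
set_option linter.unusedVariables false

namespace Pool.Agent.Q43.HN

open NumberField Pool.Agent.H204R3.CM Pool.Agent.W547.KB Pool.Agent.W547.LD Pool.Agent.W547.HR
  Pool.Agent.W495.TA Pool.Agent.W495.TB Pool.Agent.W495.TC Pool.Agent.TH117.F5
  Pool.Agent.TH117.PO Pool.Agent.TH117.BL Module Pool.Agent.W976.TA Equiv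
open scoped TensorProduct

noncomputable section

variable {p : ℕ} [Fact p.Prime] {ν : PadicAlgCl p ≃+* ℂ}
  {L : Type} [Field L] [NumberField L] [IsCMField L] [IsGalois ℚ L] {j : L →+* ℂ}
  {Z : RedAV p ν}

section

variable {g : Z.X.I → ℕ} (hP : PrimeDims Z g)
include hP

theorem PrimeDims.data (hZ : Big Z.X j) {i : Z.X.I} (hi : g i ≠ 1) (hg2 : g i ≠ 2) :
    ∃ (τ : L ≃ₐ[ℚ] L) (φ₀ : (Z.X.factor i).E →+* L), (∃ b, orderOf τ = g i ^ b) ∧
      Odd (orderOf τ) ∧ τ ^ g i • φ₀ = φ₀ ∧ Function.Bijective (cyc (cc L) τ (g i) φ₀) := by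
  have hcard : Nat.card ((Z.X.factor i).E →+* L) = 2 * g i :=
    (Pool.Agent.W67.TA.card_emb j hZ i).trans (hP.dim i)
  have hg := (hP.prime i).resolve_left hi
  have hfin : Finite ((Z.X.factor i).E →+* L) := Nat.finite_of_card_ne_zero (by
    have := hg.pos
    omega)
  have hset := setting j (Z.X.factor i)
  obtain ⟨τ, φ₀, ⟨b, hb⟩, h1, -, h2⟩ := exists_cycle_pow (X := (Z.X.factor i).E →+* L) (cc L)
    hset.comm hset.sq hset.ne hset.trans hg hg2 hcard
  refine ⟨τ, φ₀, ⟨b, hb⟩, ?_, h1, h2⟩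
  rw [hb]
  exact (hg.odd_of_ne_two hg2).pow

variable [Fintype (Wt Z.X L)]

theorem PrimeDims.eigF (hZ : Big Z.X j) {i : Z.X.I} (hi : g i = 1) : EigF p ν j Z i := by
  rintro l rfl
  exact isEig_of_two hZ (by rw [hP.dim, hi])

/-- The contributions of the factors. -/
theorem PrimeDims.isEig_Fi (hZ : Big Z.X j) (i : Z.X.I) (x : Wt Z.X L → ℤ) (hx : Re p ν j Z x) :
    IsEig (Fi p ν j Z x i) := by
  classical
  set B := ∑ i, g i with hB
  have hle : ∀ i, g i ≤ B := fun i => Finset.single_le_sum (fun _ _ => Nat.zero_le _)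
    (Finset.mem_univ i)
  have key : ∀ n i, B - g i = n → ∀ x : Wt Z.X L → ℤ, Re p ν j Z x →
      IsEig (Fi p ν j Z x i) := by
    intro n
    induction n using Nat.strong_induction_on with
    | _ n ih =>
      intro i hi x hx
      by_cases h1 : g i = 1
      · exact isEig_Fi_of_eig (hP.eigF hZ h1)
      have hg := (hP.prime i).resolve_left h1
      by_cases hg2 : g i = 2
      · obtain ⟨τ, φ₀, hτ, hbij⟩ := exists_four hZ (by rw [hP.dim, hg2]) (hP.quartic i hg2)
        have h3 := (surf_zero hτ hbij hx fun i' hi' => by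
          by_cases h4 : g i' = 1
          · exact isEig_Fi_of_eig (hP.eigF hZ h4)
          · have h5 := ((hP.prime i').resolve_left h4).two_le
            have h6 : g i' ≠ g i := fun h => h4 (hP.dist i' i hi' h)
            exact ih (B - g i') (by have := hle i'; omega) i' rfl x hx).1
        intro σ
        left
        funext ρ
        exact (h3 _).trans (h3 _).symm
      obtain ⟨τ, φ₀, ⟨b, hb⟩, hodd, hτg, hbij⟩ := hP.data hZ h1 hg2
      have hinv : ∀ x : Wt Z.X L → ℤ, Re p ν j Z x → ∀ i', i' ≠ i →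
          Rt τ (Fi p ν j Z x i') = Fi p ν j Z x i' := by
        intro x hx i' hi'
        rcases lt_trichotomy (g i') (g i) with h | h | h
        · funext σ
          change Fi p ν j Z x i' (σ * τ) = Fi p ν j Z x i' σ
          unfold Fi
          refine Finset.sum_congr rfl fun l hl => ?_
          have hl' : l.1 = i' := (Finset.mem_filter.1 hl).2
          have h2 := smul_of_small hZ hg hg2 hb (l := l) (by
            rw [hl', hP.dim]
            omega)
          have h3 := congrFun (tw_smul (p := p) (ν := ν) (j := j) τ l) σ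
          rw [h2] at h3
          rw [h3]
          rfl
        · exact absurd (h ▸ hP.dist i' i hi' h) h1
        · exact Rt_of_odd (ih (B - g i') (by have := hle i'; omega) i' rfl x hx) hodd
      rcases prime_or hZ hg hg2 hτg hbij hinv with h | ⟨-, h⟩
      · exact isEig_Fi_of_eig h
      · exact isEig_Fi_of_sgn (sgn_of_const j hbij h hx)
  exact key _ i rfl x hx

/-- Factors of dimension two. -/
theorem PrimeDims.two (hZ : Big Z.X j) {i : Z.X.I} (hi : g i = 2) :
    (∀ l : Wt Z.X L, l.1 = i → tw p ν j Z.X l = 0) ∨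
      ((∀ φ φ', tw p ν j Z.X ⟨i, φ⟩ = tw p ν j Z.X ⟨i, φ'⟩ → φ = φ') ∧
        ∀ x : Wt Z.X L → ℤ, Re p ν j Z x → ∀ l : Wt Z.X L, l.1 = i → xm x l = 0) := by
  obtain ⟨τ, φ₀, hτ, hbij⟩ := exists_four hZ (by rw [hP.dim, hi]) (hP.quartic i hi)
  rcases surf_inj (p := p) (ν := ν) (j := j) hτ hbij with h | h
  · exact Or.inl h
  · by_cases h0 : ∀ l : Wt Z.X L, l.1 = i → tw p ν j Z.X l = 0
    · exact Or.inl h0
    · exact Or.inr ⟨h, fun x hx => (surf_zero hτ hbij hx fun i' _ =>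
        hP.isEig_Fi hZ i' x hx).2.resolve_left h0⟩

/-- The two types of factors. -/
theorem PrimeDims.types (hZ : Big Z.X j) (i : Z.X.I) : EigF p ν j Z i ∨
    (g i ≠ 1 ∧ (∀ φ φ', tw p ν j Z.X ⟨i, φ⟩ = tw p ν j Z.X ⟨i, φ'⟩ → φ = φ') ∧
      ∀ x : Wt Z.X L → ℤ, Re p ν j Z x → Sgn x i) := by
  classical
  by_cases h1 : g i = 1
  · exact Or.inl (hP.eigF hZ h1)
  have hg := (hP.prime i).resolve_left h1
  by_cases hg2 : g i = 2
  · rcases hP.two (p := p) (ν := ν) hZ hg2 with h | ⟨h, h'⟩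
    · left
      intro l hl σ
      left
      rw [h l hl]
      rfl
    · right
      refine ⟨h1, h, fun x hx σ => Or.inl fun l hl => ?_⟩
      rw [h' x hx l hl, h' x hx (σ • l) hl]
  obtain ⟨τ, φ₀, ⟨b, hb⟩, hodd, hτg, hbij⟩ := hP.data hZ h1 hg2
  rcases prime_or hZ hg hg2 hτg hbij (fun x hx i' _ =>
    Rt_of_odd (hP.isEig_Fi hZ i' x hx) hodd) with h | ⟨h, h'⟩
  · exact Or.inl h
  · exact Or.inr ⟨h1, h, fun x hx => sgn_of_const j hbij h' hx⟩

end

section

variable [Fintype (Wt Z.X L)]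

/-- Integrality of the values at the identity. -/
theorem dec_dvd {i : Z.X.I} {y : Wt Z.X L → ℤ} (hy : ∀ d ∈ Dec p ν j, ∀ l : Wt Z.X L, l.1 = i →
    xm y (d • l) = xm y l) : (Nat.card (Dec p ν j) : ℤ) ∣ Fi p ν j Z y i 1 := by
  classical
  let E : Wt Z.X L → ℤ := fun l => eps j (Z.X.factor l.1) l.2
  have hEc : ∀ l, E (cc L • l) = -E l := fun l => (isSign_eps j (Z.X.factor l.1)).odd l.2
  set S := ∑ l : Wt Z.X L with l.1 = i, xm y l * E l with hS
  set S' := ∑ l : Wt Z.X L with l.1 = i, y l * E l with hS'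
  have h1 : S = 2 * S' := by
    have h2 := sum_smul (cc L) i fun l : Wt Z.X L => y l * E l
    have h3 : ∑ l : Wt Z.X L with l.1 = i, y (cc L • l) * E (cc L • l) =
        -∑ l : Wt Z.X L with l.1 = i, y (cw Z l) * E l := by
      rw [← Finset.sum_neg_distrib]
      refine Finset.sum_congr rfl fun l _ => ?_
      rw [hEc, cw_smul]
      ring
    rw [h3] at h2
    rw [hS]
    unfold xm
    simp only [sub_mul, Finset.sum_sub_distrib]
    linarith
  have h2 : 2 * Fi p ν j Z y i 1 = Nat.card (Dec p ν j) * S := by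
    rw [Fi_two]
    have h3 : ∀ l : Wt Z.X L, xm y l * tw p ν j Z.X l 1 =
        ∑ d : L ≃ₐ[ℚ] L, if d ∈ Dec p ν j then xm y l * E (d • l) else 0 := by
      intro l
      rw [tw_one, Finset.mul_sum]
      refine Finset.sum_congr rfl fun d _ => ?_
      by_cases hd : d ∈ Dec p ν j
      · rw [if_pos hd, if_pos hd]
        rfl
      · rw [if_neg hd, if_neg hd, mul_zero]
    rw [Finset.sum_congr rfl fun l _ => h3 l, Finset.sum_comm]
    have h4 : ∀ d : L ≃ₐ[ℚ] L, (∑ l : Wt Z.X L with l.1 = i,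
        if d ∈ Dec p ν j then xm y l * E (d • l) else 0) = if d ∈ Dec p ν j then S else 0 := by
      intro d
      by_cases hd : d ∈ Dec p ν j
      · rw [if_pos hd]
        have h5 : ∑ l : Wt Z.X L with l.1 = i, (if d ∈ Dec p ν j then xm y l * E (d • l) else 0) =
            ∑ l : Wt Z.X L with l.1 = i, xm y (d • l) * E (d • l) := by
          refine Finset.sum_congr rfl fun l hl => ?_
          rw [if_pos hd, hy d hd l (Finset.mem_filter.1 hl).2]
        rw [h5, sum_smul d i fun l => xm y l * E l]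
      · rw [if_neg hd]
        exact Finset.sum_eq_zero fun l _ => if_neg hd
    rw [Finset.sum_congr rfl fun d _ => h4 d, ← Finset.sum_filter, Finset.sum_const, nsmul_eq_mul]
    congr 1
    rw [Nat.card_eq_fintype_card, Fintype.card_subtype]
  refine ⟨S', ?_⟩
  rw [h1] at h2
  have h3 : 2 * Fi p ν j Z y i 1 = 2 * (Nat.card (Dec p ν j) * S') := by rw [h2]; ring
  omega

/-- Invariance under the decomposition group. -/
theorem EigF.dec {i : Z.X.I} (h : EigF p ν j Z i) {l₀ : Wt Z.X L} (hl₀ : l₀.1 = i)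
    (hne : tw p ν j Z.X l₀ 1 ≠ 0) {d : L ≃ₐ[ℚ] L} (hd : d ∈ Dec p ν j) {l : Wt Z.X L}
    (hl : l.1 = i) : tw p ν j Z.X (d • l) = tw p ν j Z.X l := by
  rcases h.sign d with h1 | h1
  · exact h1 l hl
  · exfalso
    have h2 := congrFun (h1 l₀ hl₀) 1
    rw [tw_smul, Pi.neg_apply] at h2
    unfold Rt at h2
    rw [one_mul, tw_dec l₀ hd] at h2
    omega

theorem card_factor {i : Z.X.I} (hZ : Big Z.X j) [DecidableEq Z.X.I] :
    (Finset.univ.filter fun l : Wt Z.X L => l.1 = i).card = finrank ℚ (Z.X.factor i).E := by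
  classical
  have h1 := Pool.Agent.W67.TA.card_emb j hZ i
  rw [← h1, ← Fintype.card_subtype, ← Nat.card_eq_fintype_card]
  let f : ((Z.X.factor i).E →+* L) → {l : Wt Z.X L // l.1 = i} := fun φ => ⟨⟨i, φ⟩, rfl⟩
  have hf : Function.Bijective f := by
    constructor
    · intro φ φ' h
      exact eq_of_heq (Sigma.mk.inj_iff.1 (congrArg Subtype.val h)).2
    · rintro ⟨⟨i', φ⟩, h⟩
      obtain rfl : i' = i := h
      exact ⟨φ, rfl⟩
  exact (Nat.card_congr (Equiv.ofBijective f hf)).symm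

theorem EigF.card {i : Z.X.I} (h : EigF p ν j Z i) (hZ : Big Z.X j) {l₀ : Wt Z.X L}
    (hl₀ : l₀.1 = i) (hne : tw p ν j Z.X l₀ ≠ 0) :
    2 * Nat.card {l : Wt Z.X L // l.1 = i ∧ tw p ν j Z.X l = tw p ν j Z.X l₀} =
      finrank ℚ (Z.X.factor i).E := by
  classical
  rw [Nat.card_eq_fintype_card, Fintype.card_subtype]
  have hnef : tw p ν j Z.X l₀ ≠ -tw p ν j Z.X l₀ := by
    intro h1
    apply hne
    funext σ
    have h2 := congrFun h1 σ
    rw [Pi.neg_apply] at h2
    rw [Pi.zero_apply]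
    omega
  set f := tw p ν j Z.X l₀ with hf
  have h1 : (Finset.univ.filter fun l : Wt Z.X L => l.1 = i ∧
      tw p ν j Z.X l = -f).card = (Finset.univ.filter fun l : Wt Z.X L => l.1 = i ∧
      tw p ν j Z.X l = f).card := by
    refine Finset.card_bij (fun l _ => cw Z l) ?_ ?_ ?_
    · intro l hl
      rw [Finset.mem_filter] at hl ⊢
      refine ⟨Finset.mem_univ _, hl.2.1, ?_⟩
      rw [tw_cw, hl.2.2, neg_neg]
    · intro l _ l' _ h
      rw [← bar_bar' l, ← bar_bar' l', h]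
    · intro l hl
      rw [Finset.mem_filter] at hl
      refine ⟨cw Z l, ?_, bar_bar' l⟩
      rw [Finset.mem_filter]
      refine ⟨Finset.mem_univ _, hl.2.1, ?_⟩
      rw [tw_cw, hl.2.2]
  rw [← card_factor (L := L) (i := i) hZ, two_mul]
  nth_rewrite 1 [← h1]
  rw [← Finset.card_union_of_disjoint]
  · congr 1
    ext l
    rw [Finset.mem_union, Finset.mem_filter, Finset.mem_filter, Finset.mem_filter]
    constructor
    · rintro (hl | hl)
      · exact ⟨hl.1, hl.2.1⟩
      · exact ⟨hl.1, hl.2.1⟩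
    · rintro ⟨hl, hl2⟩
      rcases h.val hl₀ hl2 with h3 | h3
      · exact Or.inr ⟨hl, hl2, h3⟩
      · exact Or.inl ⟨hl, hl2, h3⟩
  · rw [Finset.disjoint_left]
    intro l hl hl'
    rw [Finset.mem_filter] at hl hl'
    exact hnef (hl'.2.2.symm.trans hl.2.2)

/-- The values of factors of this type. -/
theorem EigF.dvd {i : Z.X.I} (h : EigF p ν j Z i) (hZ : Big Z.X j) {g : ℕ}
    (hg : finrank ℚ (Z.X.factor i).E = 2 * g) {l₀ : Wt Z.X L} (hl₀ : l₀.1 = i) :
    (Nat.card (Dec p ν j) : ℤ) ∣ g * tw p ν j Z.X l₀ 1 := by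
  classical
  by_cases hv : tw p ν j Z.X l₀ 1 = 0
  · rw [hv, mul_zero]
    exact dvd_zero _
  have hne : tw p ν j Z.X l₀ ≠ 0 := fun h => hv (by rw [h]; rfl)
  let y : Wt Z.X L → ℤ := fun l => if l.1 = i ∧ tw p ν j Z.X l = tw p ν j Z.X l₀ then 1 else 0
  have h1 : (Nat.card (Dec p ν j) : ℤ) ∣ Fi p ν j Z y i 1 := by
    refine dec_dvd fun d hd l hl => ?_
    have e1 : y (d • l) = y l := by
      change (if l.1 = i ∧ tw p ν j Z.X (d • l) = tw p ν j Z.X l₀ then (1 : ℤ) else 0) =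
        if l.1 = i ∧ tw p ν j Z.X l = tw p ν j Z.X l₀ then 1 else 0
      rw [h.dec hl₀ hv hd hl]
    have e2 : y (cw Z (d • l)) = y (cw Z l) := by
      change (if l.1 = i ∧ tw p ν j Z.X (cw Z (d • l)) = tw p ν j Z.X l₀ then (1 : ℤ) else 0) =
        if l.1 = i ∧ tw p ν j Z.X (cw Z l) = tw p ν j Z.X l₀ then 1 else 0
      rw [tw_cw, tw_cw, h.dec hl₀ hv hd hl]
    unfold xm
    rw [e1, e2]
  have h2 : Fi p ν j Z y i 1 = g * tw p ν j Z.X l₀ 1 := by
    unfold Fi
    have h3 : ∀ l : Wt Z.X L, y l * tw p ν j Z.X l 1 =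
        if l.1 = i ∧ tw p ν j Z.X l = tw p ν j Z.X l₀ then tw p ν j Z.X l₀ 1 else 0 := by
      intro l
      change (if l.1 = i ∧ tw p ν j Z.X l = tw p ν j Z.X l₀ then (1 : ℤ) else 0) *
        tw p ν j Z.X l 1 = _
      by_cases hl : l.1 = i ∧ tw p ν j Z.X l = tw p ν j Z.X l₀
      · rw [if_pos hl, if_pos hl, hl.2, one_mul]
      · rw [if_neg hl, if_neg hl, zero_mul]
    rw [Finset.sum_congr rfl fun l _ => h3 l, ← Finset.sum_filter, Finset.filter_filter,
      Finset.sum_const, nsmul_eq_mul]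
    congr 1
    have h4 := h.card hZ hl₀ hne
    rw [hg] at h4
    have h5 : (Finset.univ.filter fun l : Wt Z.X L => l.1 = i ∧ l.1 = i ∧
        tw p ν j Z.X l = tw p ν j Z.X l₀) = Finset.univ.filter fun l : Wt Z.X L => l.1 = i ∧
        tw p ν j Z.X l = tw p ν j Z.X l₀ := by
      ext l
      simp only [Finset.mem_filter, Finset.mem_univ, true_and]
      tauto
    rw [Nat.card_eq_fintype_card, Fintype.card_subtype] at h4
    rw [h5]
    have h6 : (Finset.univ.filter fun l : Wt Z.X L => l.1 = i ∧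
        tw p ν j Z.X l = tw p ν j Z.X l₀).card = g := by omega
    rw [h6]
  rw [← h2]
  exact h1

/-- The values are bounded. -/
theorem abs_tw_le (l : Wt Z.X L) : |tw p ν j Z.X l 1| ≤ Nat.card (Dec p ν j) := by
  classical
  rw [tw_one]
  refine (Finset.abs_sum_le_sum_abs _ _).trans ?_
  have h1 : ∀ d : L ≃ₐ[ℚ] L, |if d ∈ Dec p ν j then eps j (Z.X.factor l.1) (d • l.2) else 0| =
      if d ∈ Dec p ν j then 1 else 0 := by
    intro d
    by_cases hd : d ∈ Dec p ν j
    · rw [if_pos hd, if_pos hd]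
      rcases eps_cases (j := j) (Z := Z) ⟨l.1, d • l.2⟩ with h | h
      · have h' : eps j (Z.X.factor l.1) (d • l.2) = 1 := h
        rw [h', abs_one]
      · have h' : eps j (Z.X.factor l.1) (d • l.2) = -1 := h
        rw [h', abs_neg, abs_one]
    · rw [if_neg hd, if_neg hd, abs_zero]
  rw [Finset.sum_congr rfl fun d _ => h1 d, Finset.sum_boole]
  have h2 : Nat.card (Dec p ν j) = (Finset.univ.filter fun d : L ≃ₐ[ℚ] L => d ∈ Dec p ν j).card := by
    rw [Nat.card_eq_fintype_card, Fintype.card_subtype]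
  rw [h2]

/-- Eigenvalues which are units. -/
theorem norm_of_tw (hZ : Big Z.X j) {l : Wt Z.X L}
    (h : tw p ν j Z.X l 1 = -(Nat.card (Dec p ν j) : ℤ)) :
    ‖ν.symm (eig Z (toEmb j Z l))‖ = 1 := by
  have h1 := (Pool.Agent.W366.TA.val p ν L j (Z.X.factor l.1) (hZ l.1) Z.a (Z.π l.1)).mp
    (Z.frob l.1).shimuraTaniyama ((1 : L ≃ₐ[ℚ] L) • l.2)
  rw [Pool.Agent.W82.TA.tf_smul] at h1
  have h2 : tf p ν j (hs (Z.X.factor l.1) j l.2) 1 = tw p ν j Z.X l 1 := congrFun (tf_tw Z l) 1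
  rw [h2, h, add_neg_cancel, zpow_zero] at h1
  have h3 : ‖ν.symm (eig Z (toEmb j Z l))‖ ^ (2 * Nat.card (Dec p ν j)) = 1 := by
    have h4 : ‖ν.symm (eig Z (toEmb j Z l))‖ ^ (2 * (Nat.card (Dec p ν j) : ℤ)) = 1 := h1
    exact_mod_cast h4
  have hpos : 0 < Nat.card (Dec p ν j) := Nat.card_pos
  exact (pow_eq_one_iff_of_nonneg (norm_nonneg _) (by omega)).1 h3

end

end

end Pool.Agent.Q43.HN
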