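import Pool.Agent.Q43.HN.Proj
import Pool.Agent.Q43.HN.Defs

/-!
# Classes of Weil type
-/

set_option autoImplicit false
set_option linter.unusedSectionVars false
set_option linter.unusedVariables false

namespace Pool.Agent.Q43.HN

open NumberField Pool.Agent.H204R3.CM Pool.Agent.W547.KB Pool.Agent.W547.LD Pool.Agent.W547.HR
  Pool.Agent.W495.TA Pool.Agent.TH117.PO Module Pool.Agent.W976.TA Polynomial
open scoped TensorProduct

noncomputable section

variable {L : Type} [Field L] [NumberField L] [IsCMField L] [IsGalois ℚ L]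
  {p : ℕ} [Fact p.Prime] {ν : PadicAlgCl p ≃+* ℂ} {Ω : Type} [Field Ω] [CharZero Ω]
  {jO : L →+* Ω} {C : (Y : RedAV p ν) → (κ : Type) → ((TM Ω Y) [⋀^κ]→ₗ[Ω] Ω) → Prop}

/-- Mixed families. -/
def Mixed (j : L →+* ℂ) {X : CMAV} (θ : X.H1) {κ : Type} (I : κ → Wt X L) : Prop :=
  (∃ k, Up j θ (I k)) ∧ ∃ l, ¬ Up j θ (I l)

/-- The projection to the classes of Weil type. -/
theorem exists_weil (hC : IsCycleSystem Ω C) {j : L →+* ℂ} {Y : RedAV p ν}
    (e : Basis (Wt Y.X L) Ω (TM Ω Y)) (h1 : ∀ w, co jO w (e w) = 1)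
    (h0 : ∀ w w', w ≠ w' → co jO w (e w') = 0) {θ : Y.X.H1} {d : ℕ} (hd : 0 < d)
    (hθ : ∀ i, θ i ^ 2 = -((d : ℕ) : (Y.X.factor i).E)) {κ : Type} [Fintype κ] [DecidableEq κ]
    (k₀ : κ) {J : κ → Wt Y.X L} (hJ : ∀ k, Up j θ (J k)) {y : (TM Ω Y) [⋀^κ]→ₗ[Ω] Ω}
    (hy : C Y κ y) (hyJ : (y fun k => e (J k)) ≠ 0) :
    ∃ z : (TM Ω Y) [⋀^κ]→ₗ[Ω] Ω, C Y κ z ∧ (z fun k => e (J k)) ≠ 0 ∧
      ((y fun k => e (bar (J k))) ≠ 0 → (z fun k => e (bar (J k))) ≠ 0) ∧
      ∀ I : κ → Wt Y.X L, Mixed j θ I → (z fun k => e (I k)) = 0 := by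
  classical
  set η : L := ev θ (J k₀) with hη
  have hη2 : η ^ 2 = algebraMap ℚ L (-(d : ℚ)) := by
    rw [map_neg, map_natCast]
    exact ev_sq hθ _
  have hηim : (j η).im ≠ 0 := im_ne hd hθ _
  have hη0 : η ≠ 0 := by
    intro h
    rw [h, map_zero] at hηim
    exact hηim rfl
  have hne : ∀ a : ℕ, (a : L) + η ≠ 0 := by
    intro a h
    apply hηim
    have h2 := congrArg (fun x => (j x).im) h
    simp only [map_add, map_natCast, map_zero, Complex.add_im, Complex.natCast_im, zero_add,
      Complex.zero_im] at h2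
    exact h2
  have hne' : ∀ a : ℕ, (a : L) - η ≠ 0 := by
    intro a h
    apply hηim
    have h2 := congrArg (fun x => (j x).im) h
    simp only [map_sub, map_natCast, map_zero, Complex.sub_im, Complex.natCast_im, zero_sub,
      Complex.zero_im, neg_eq_zero] at h2
    exact h2
  have hcard : 0 < Fintype.card κ := Fintype.card_pos_iff.2 ⟨k₀⟩
  obtain ⟨a, P, hP1, hP2⟩ := exists_rat_poly (L := L) hη2 hη0 hne hne' (Fintype.card κ) hcard
  let x : Y.X.H1 := fun i => (a : (Y.X.factor i).E) + θ i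
  have hev : ∀ w : Wt Y.X L, ev x w = (a : L) + ev θ w := by
    intro w
    change w.2 ((a : (Y.X.factor w.1).E) + θ w.1) = _
    rw [map_add, map_natCast]
    rfl
  have hup : ∀ w : Wt Y.X L, Up j θ w → ev x w = (a : L) + η := by
    intro w hw
    rw [hev, ev_eq hθ hθ hw (hJ k₀)]
  have hdn : ∀ w : Wt Y.X L, ¬ Up j θ w → ev x w = (a : L) - η := by
    intro w hw
    rw [hev, ev_eq_neg hd hθ hθ (hJ k₀) hw]
    ring
  obtain ⟨z, hz, hz2⟩ := exists_poly e h1 h0 hC x hy P
  have h30 : chr J x = ((a : L) + η) ^ Fintype.card κ := by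
    rw [chr_apply, Finset.prod_congr rfl fun k _ => hup _ (hJ k), Finset.prod_const,
      Finset.card_univ]
  have h31 : aeval (chr J x) P ≠ 0 := by
    rw [h30]
    exact hP1
  refine ⟨z, hz, ?_, fun hy' => ?_, fun I hI => ?_⟩
  · rw [hz2]
    exact mul_ne_zero ((map_ne_zero jO).2 h31) hyJ
  · have h4 := hz2 fun k => bar (J k)
    rw [h4]
    refine mul_ne_zero ((map_ne_zero jO).2 ?_) hy'
    have h5 : chr (fun k => bar (J k)) x = cc L (chr J x) := by
      rw [chr_apply, chr_apply, map_prod]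
      rfl
    have h6 : aeval (cc L (chr J x)) P = cc L (aeval (chr J x) P) :=
      (Polynomial.aeval_algHom_apply (cc L).toAlgHom (chr J x) P)
    rw [h5, h6]
    exact (map_ne_zero (cc L)).2 h31
  · rw [hz2]
    obtain ⟨⟨k, hk⟩, l, hl⟩ := hI
    have h3 : chr I x = ((a : L) + η) ^ (Finset.univ.filter fun k => Up j θ (I k)).card *
        ((a : L) - η) ^ (Finset.univ.filter fun k => ¬ Up j θ (I k)).card := by
      rw [chr_apply, ← Finset.prod_filter_mul_prod_filter_not Finset.univ
        (fun k => Up j θ (I k))]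
      congr 1
      · rw [Finset.prod_congr rfl fun k hk => hup _ (Finset.mem_filter.1 hk).2, Finset.prod_const]
      · rw [Finset.prod_congr rfl fun k hk => hdn _ (Finset.mem_filter.1 hk).2, Finset.prod_const]
    rw [h3, hP2 _ _ (Finset.card_pos.2 ⟨k, Finset.mem_filter.2 ⟨Finset.mem_univ _, hk⟩⟩)
      (Finset.card_pos.2 ⟨l, Finset.mem_filter.2 ⟨Finset.mem_univ _, hl⟩⟩)
      (by rw [Finset.card_filter_add_card_filter_not, Finset.card_univ]), map_zero, zero_mul]

section

variable {j : L →+* ℂ} {Y : RedAV p ν}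
    (e : Basis (Wt Y.X L) Ω (TM Ω Y)) (h1 : ∀ w, co jO w (e w) = 1)
    (h0 : ∀ w w', w ≠ w' → co jO w (e w') = 0) {θ : Y.X.H1} {d : ℕ} (hd : 0 < d)
    (hθ : ∀ i, θ i ^ 2 = -((d : ℕ) : (Y.X.factor i).E)) {κ : Type} [Fintype κ] [DecidableEq κ]
    {z : (TM Ω Y) [⋀^κ]→ₗ[Ω] Ω}
    (hz : ∀ I : κ → Wt Y.X L, Mixed j θ I → (z fun k => e (I k)) = 0)

theorem ev_eq_of_not_mixed (hd : 0 < d) (hθ : ∀ i, θ i ^ 2 = -((d : ℕ) : (Y.X.factor i).E))
    {I : κ → Wt Y.X L} (hI : ¬ Mixed j θ I) (k l : κ) : ev θ (I k) = ev θ (I l) := by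
  by_cases hk : Up j θ (I k)
  · by_cases hl : Up j θ (I l)
    · exact ev_eq hθ hθ hk hl
    · exact absurd ⟨⟨k, hk⟩, l, hl⟩ hI
  · by_cases hl : Up j θ (I l)
    · exact absurd ⟨⟨l, hl⟩, k, hk⟩ hI
    · have h2 := (up_bar (j := j) hd hθ (I k)).2 hk
      have h3 := (up_bar (j := j) hd hθ (I l)).2 hl
      have h4 := ev_eq hθ hθ h2 h3
      rw [ev_bar, ev_bar] at h4
      exact (cc L).injective h4

include h1 h0 hd hθ hz

/-- Linearity over the imaginary quadratic field. -/
theorem weil_linear (v : κ → TM Ω Y) (k l : κ) :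
    z (Function.update v k ((mulA θ).baseChange Ω (v k))) =
      z (Function.update v l ((mulA θ).baseChange Ω (v l))) := by
  classical
  let H : TM Ω Y →ₗ[Ω] TM Ω Y := (mulA θ).baseChange Ω
  let M : κ → MultilinearMap Ω (fun _ : κ => TM Ω Y) Ω := fun k =>
    z.toMultilinearMap.compLinearMap fun i => if i = k then H else LinearMap.id
  have hM : ∀ k v, M k v = z (Function.update v k (H (v k))) := by
    intro k v
    change z (fun i => (if i = k then H else LinearMap.id) (v i)) = _
    congr 1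
    funext i
    by_cases h : i = k
    · subst h
      rw [if_pos rfl, Function.update_self]
    · rw [if_neg h, Function.update_of_ne h]
      rfl
  have key : M k = M l := by
    refine Basis.ext_multilinear (fun _ => e) fun I => ?_
    rw [hM, hM]
    have hval : ∀ k, z (Function.update (fun i => e (I i)) k (H (e (I k)))) =
        jO (ev θ (I k)) * z fun i => e (I i) := by
      intro k
      have h2 : H (e (I k)) = jO (ev θ (I k)) • e (I k) := mulA_e e h1 h0 θ (I k)
      rw [h2, AlternatingMap.map_update_smul, Function.update_eq_self, smul_eq_mul]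
    rw [hval, hval]
    by_cases hI : Mixed j θ I
    · rw [hz I hI, mul_zero, mul_zero]
    · rw [ev_eq_of_not_mixed hd hθ hI k l]
  rw [← hM, ← hM, key]

theorem weil_linear_res (v : κ → Y.X.H1) (k l : κ) :
    res z (Function.update v k (mulA θ (v k))) = res z (Function.update v l (mulA θ (v l))) := by
  have h2 : ∀ k, res z (Function.update v k (mulA θ (v k))) =
      z (Function.update (fun i => (1 : Ω) ⊗ₜ[ℚ] v i) k
        ((mulA θ).baseChange Ω ((1 : Ω) ⊗ₜ[ℚ] v k))) := by
    intro k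
    unfold res
    congr 1
    funext i
    by_cases h : i = k
    · subst h
      rw [Function.update_self, Function.update_self, LinearMap.baseChange_tmul]
    · rw [Function.update_of_ne h, Function.update_of_ne h]
  rw [h2, h2]
  exact weil_linear e h1 h0 hd hθ hz _ k l

end

/-- Too many weights of the type `+`. -/
theorem no_inj {X : CMAV} {P : Wt X L → Prop} {κ : Type} [Fintype κ] {J : κ → Wt X L}
    (hJ : ∀ w, P w → ∃ k, J k = w) {A : κ → Wt X L} (hA : Function.Injective A)
    (hAP : ∀ k, P (A k)) {b : Wt X L} (hb : P b) (hbA : ∀ k, A k ≠ b) : False := by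
  classical
  let f : Option κ → Wt X L := fun x => x.elim b A
  have hf : ∀ x, P (f x) := by
    rintro (_ | k)
    · exact hb
    · exact hAP k
  have hfi : Function.Injective f := by
    rintro (_ | k) (_ | k') h
    · rfl
    · exact absurd h.symm (hbA k')
    · exact absurd h (hbA k)
    · exact congrArg some (hA h)
  choose g hg using fun x => hJ (f x) (hf x)
  have hgi : Function.Injective g := by
    intro x x' h
    apply hfi
    rw [← hg, ← hg, h]
  have h1 := Fintype.card_le_of_injective g hgi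
  rw [Fintype.card_option] at h1
  omega

section

variable {j : L →+* ℂ} {Y : RedAV p ν}
    (e : Basis (Wt Y.X L) Ω (TM Ω Y)) (h1 : ∀ w, co jO w (e w) = 1)
    (h0 : ∀ w w', w ≠ w' → co jO w (e w') = 0)
include h1 h0

theorem theta_ne {α : Y.X.H1} {θ' : (TM Ω Y) [⋀^Fin 2]→ₗ[Ω] Ω} [Fintype (Wt Y.X L)]
    (hθ' : ∀ x y, θ' ![x, y] =
      ∑ w : Wt Y.X L, jO (ev α w) * (co jO (bar w) x * co jO w y)) {b b' : Wt Y.X L}
    (h : θ' ![e b, e b'] ≠ 0) : b = bar b' := by
  rw [hθ'] at h
  obtain ⟨w, -, hw⟩ := Finset.exists_ne_zero_of_sum_ne_zero h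
  have h2 := left_ne_zero_of_mul (right_ne_zero_of_mul hw)
  have h3 := right_ne_zero_of_mul (right_ne_zero_of_mul hw)
  have h4 : bar w = b := by
    by_contra hne
    exact h2 (h0 _ _ hne)
  have h5 : w = b' := by
    by_contra hne
    exact h3 (h0 _ _ hne)
  rw [← h4, h5]

/-- Classes of Weil type are primitive. -/
theorem weil_prim {α : Y.X.H1} {θ' : (TM Ω Y) [⋀^Fin 2]→ₗ[Ω] Ω} [Fintype (Wt Y.X L)]
    (hθ' : ∀ x y, θ' ![x, y] =
      ∑ w : Wt Y.X L, jO (ev α w) * (co jO (bar w) x * co jO w y))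
    {θ : Y.X.H1} {d : ℕ} (hd : 0 < d)
    (hθ : ∀ i, θ i ^ 2 = -((d : ℕ) : (Y.X.factor i).E)) {r : ℕ}
    {z : (TM Ω Y) [⋀^Fin r × Fin 2]→ₗ[Ω] Ω}
    (hz : ∀ I : Fin r × Fin 2 → Wt Y.X L, Mixed j θ I → (z fun k => e (I k)) = 0)
    {J : Fin r × Fin 2 → Wt Y.X L} (hJ : ∀ w, Up j θ w → ∃ k, J k = w)
    (v : (Fin r × Fin 2) ⊕ (Fin (0 + 1) × Fin 2) → TM Ω Y) :
    altSum (times z (powE (fun x y => θ' ![x, y]) (0 + 1))) v = 0 := by
  classical
  have h2 : (times z (powE (fun x y => θ' ![x, y]) (0 + 1)) : _ → Ω) =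
      RK.mulM z.toMultilinearMap (RK.pw θ'.toMultilinearMap (0 + 1)) := by
    funext v
    rw [RK.mulM_apply, RK.pw_apply]
    unfold times powE
    congr 1
    refine Finset.prod_congr rfl fun i _ => ?_
    change θ' _ = θ' _
    congr 1
    funext k
    fin_cases k <;> rfl
  rw [h2]
  set G := RK.mulM z.toMultilinearMap (RK.pw θ'.toMultilinearMap (0 + 1)) with hG
  have h3 : ∀ u, altSum G u = MultilinearMap.alternatization G u := by
    intro u
    rw [MultilinearMap.alternatization_apply]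
    refine Finset.sum_congr rfl fun σ _ => ?_
    rw [Units.smul_def, zsmul_eq_mul]
    rfl
  rw [h3]
  have h4 : MultilinearMap.alternatization G = 0 := by
    refine Basis.ext_alternating e fun I hI => ?_
    rw [AlternatingMap.zero_apply, MultilinearMap.alternatization_apply]
    refine Finset.sum_eq_zero fun σ _ => ?_
    have h5 : (G.domDomCongr σ) (fun i => e (I i)) = 0 := by
      by_contra hne
      have h6 : (G.domDomCongr σ) (fun i => e (I i)) =
          times z (powE (fun x y => θ' ![x, y]) (0 + 1)) (fun i => e (I (σ i))) := by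
        rw [h2]
        rfl
      rw [h6] at hne
      unfold times at hne
      have h7 := left_ne_zero_of_mul hne
      have h8 := right_ne_zero_of_mul hne
      unfold powE at h8
      have h9 := Finset.prod_ne_zero_iff.1 h8 0 (Finset.mem_univ _)
      have h10 := theta_ne e h1 h0 hθ' h9
      let A : Fin r × Fin 2 → Wt Y.X L := fun k => I (σ (Sum.inl k))
      have hAi : Function.Injective A := fun k k' hk => Sum.inl.inj (σ.injective (hI hk))
      have hAb : ∀ k x, A k ≠ I (σ (Sum.inr x)) := by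
        intro k x hk
        have h11 := σ.injective (hI hk)
        exact absurd h11 (by simp)
      have hmix : ¬ Mixed j θ A := fun hm => h7 (hz A hm)
      set b := I (σ (Sum.inr (0, 0))) with hb
      set b' := I (σ (Sum.inr (0, 1))) with hb'
      have hAbar : ∀ k x, bar (A k) ≠ bar (I (σ (Sum.inr x))) := fun k x hk =>
        hAb k x (bar_injective hk)
      have hAbi : Function.Injective fun k => bar (A k) := fun k k' hk => hAi (bar_injective hk)
      by_cases hall : ∀ k, Up j θ (A k)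
      · by_cases hb0 : Up j θ b
        · exact no_inj hJ hAi hall hb0 fun k => hAb k _
        · have hb1 : Up j θ b' := by
            by_contra hcon
            apply hb0
            rw [h10]
            exact (up_bar hd hθ b').2 hcon
          exact no_inj hJ hAi hall hb1 fun k => hAb k _
      · have hnone : ∀ k, ¬ Up j θ (A k) := by
          intro k hk
          push Not at hall
          obtain ⟨l, hl⟩ := hall
          exact hmix ⟨⟨k, hk⟩, l, hl⟩
        have hall' : ∀ k, Up j θ (bar (A k)) := fun k => (up_bar hd hθ _).2 (hnone k)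
        by_cases hb0 : Up j θ (bar b)
        · exact no_inj hJ hAbi hall' hb0 fun k => hAbar k _
        · have hb1 : Up j θ (bar b') := by
            rw [← h10]
            by_contra hcon
            exact hb0 ((up_bar hd hθ b).2 hcon)
          exact no_inj hJ hAbi hall' hb1 fun k => hAbar k _
    rw [h5, smul_zero]
  rw [h4]
  rfl

end

end

end Pool.Agent.Q43.HN
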